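import Mathlib

/-!
General lemmas on multigraded polynomial rings.
-/

namespace Pool.Agent.P.MP_b01859_ag

open MvPolynomial Finsupp

variable {σ : Type} {Γ : Type} [AddCommGroup Γ]

/-- The polynomial ring. -/
abbrev Pol (σ : Type) := MvPolynomial σ ℂ

open Classical in
/-- Set the variables outside `A` equal to zero. -/
noncomputable def kl (A : Set σ) : Pol σ →ₐ[ℂ] Pol σ :=
  aeval (fun i => if i ∈ A then X i else 0)

lemma kl_X_mem {A : Set σ} {i : σ} (h : i ∈ A) : kl A (X i) = X i := by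
  simp [kl, h]

lemma kl_X_notMem {A : Set σ} {i : σ} (h : i ∉ A) : kl A (X i) = 0 := by
  simp [kl, h]

open Classical in
lemma kl_monomial (A : Set σ) (d : σ →₀ ℕ) (c : ℂ) :
    kl A (monomial d c) = if ∀ i, d i ≠ 0 → i ∈ A then monomial d c else 0 := by
  rw [kl, aeval_monomial]
  split_ifs with h
  · rw [monomial_eq, algebraMap_eq]
    congr 1
    refine Finsupp.prod_congr fun i hi => ?_
    rw [if_pos (h i (mem_support_iff.mp hi))]
  · push Not at h
    obtain ⟨i, hi, hiA⟩ := h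
    rw [Finsupp.prod, Finset.prod_eq_zero (mem_support_iff.mpr hi), mul_zero]
    rw [if_neg hiA, zero_pow hi]

open Classical in
lemma coeff_kl (A : Set σ) (f : Pol σ) (d : σ →₀ ℕ) :
    coeff d (kl A f) = if ∀ i, d i ≠ 0 → i ∈ A then coeff d f else 0 := by
  induction f using MvPolynomial.induction_on' with
  | monomial u c =>
    rw [kl_monomial]
    by_cases hud : u = d
    · subst hud
      split_ifs <;> simp
    · split_ifs <;> simp [coeff_monomial, hud]
  | add p q hp hq =>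
    rw [map_add, coeff_add, hp, hq, coeff_add]
    split_ifs <;> simp

lemma coeff_kl_of {A : Set σ} (f : Pol σ) {d : σ →₀ ℕ} (h : ∀ i, d i ≠ 0 → i ∈ A) :
    coeff d (kl A f) = coeff d f := by
  rw [coeff_kl, if_pos h]

lemma of_coeff_kl {A : Set σ} {f : Pol σ} {d : σ →₀ ℕ} (h : coeff d (kl A f) ≠ 0) :
    (∀ i, d i ≠ 0 → i ∈ A) ∧ coeff d f ≠ 0 := by
  rw [coeff_kl] at h
  split_ifs at h with h1
  · exact ⟨h1, h⟩
  · exact absurd rfl h

lemma kl_ne_zero {A : Set σ} {f : Pol σ} {d : σ →₀ ℕ} (h : ∀ i, d i ≠ 0 → i ∈ A)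
    (hf : coeff d f ≠ 0) : kl A f ≠ 0 := by
  intro h0
  apply hf
  rw [← coeff_kl_of f h, h0, coeff_zero]

lemma exists_of_kl_ne_zero {A : Set σ} {f : Pol σ} (h : kl A f ≠ 0) :
    ∃ d : σ →₀ ℕ, (∀ i, d i ≠ 0 → i ∈ A) ∧ coeff d f ≠ 0 := by
  obtain ⟨d, hd⟩ := exists_coeff_ne_zero h
  exact ⟨d, of_coeff_kl hd⟩

lemma kl_eq_self {A : Set σ} {f : Pol σ} (h : ∀ d, coeff d f ≠ 0 → ∀ i, d i ≠ 0 → i ∈ A) :
    kl A f = f := by
  ext d
  rw [coeff_kl]
  split_ifs with h1
  · rfl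
  · by_contra h2
    exact h1 (h d (Ne.symm h2))

lemma kl_eq_zero {A : Set σ} {f : Pol σ} (h : ∀ d, coeff d f ≠ 0 → ∃ i, d i ≠ 0 ∧ i ∉ A) :
    kl A f = 0 := by
  by_contra h0
  obtain ⟨d, hd, hc⟩ := exists_of_kl_ne_zero h0
  obtain ⟨i, hi, hiA⟩ := h d hc
  exact hiA (hd i hi)

lemma kl_kl (A B : Set σ) (f : Pol σ) : kl A (kl B f) = kl (A ∩ B) f := by
  ext d
  simp only [coeff_kl, Set.mem_inter_iff]
  by_cases h1 : ∀ i, d i ≠ 0 → i ∈ A <;> by_cases h2 : ∀ i, d i ≠ 0 → i ∈ B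
  · rw [if_pos h1, if_pos h2, if_pos (fun i hi => ⟨h1 i hi, h2 i hi⟩)]
  · rw [if_pos h1, if_neg h2, if_neg (fun h => h2 fun i hi => (h i hi).2)]
  · rw [if_neg h1, if_neg (fun h => h1 fun i hi => (h i hi).1)]
  · rw [if_neg h1, if_neg (fun h => h1 fun i hi => (h i hi).1)]

lemma kl_hom {w : σ → Γ} {f : Pol σ} {γ : Γ} (A : Set σ) (h : IsWeightedHomogeneous w f γ) :
    IsWeightedHomogeneous w (kl A f) γ := fun _ hd => h (of_coeff_kl hd).2

lemma eval_kl {A : Set σ} {q : σ → ℂ} (hq : ∀ i, i ∉ A → q i = 0) (f : Pol σ) :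
    eval q (kl A f) = eval q f := by
  have : (eval q).comp (kl A : Pol σ →+* Pol σ) = eval q := by
    apply MvPolynomial.ringHom_ext
    · intro r; simp [kl]
    · intro i
      by_cases h : i ∈ A
      · simp [kl, h]
      · simp [kl, h, hq i h]
  exact congrArg (fun φ : Pol σ →+* ℂ => φ f) this

lemma X_dvd_sub_kl (x : σ) (f : Pol σ) : (X x : Pol σ) ∣ f - kl {x}ᶜ f := by
  classical
  induction f using MvPolynomial.induction_on' with
  | monomial u c =>
    rw [kl_monomial]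
    split_ifs with h
    · simp
    · push Not at h
      obtain ⟨i, hi, hix⟩ := h
      have : i = x := by simpa using hix
      subst this
      rw [sub_zero]
      exact X_dvd_monomial.mpr (Or.inr hi)
  | add p q hp hq =>
    rw [map_add]
    convert dvd_add hp hq using 1
    ring

lemma not_X_dvd_X {x y : σ} (h : x ≠ y) : ¬ (X x : Pol σ) ∣ X y := by
  rw [X_dvd_X]; exact h

lemma X_pow_dvd_of_mul {x y : σ} (h : x ≠ y) {a b : ℕ} {u : Pol σ}
    (hd : (X x : Pol σ) ^ a ∣ X y ^ b * u) : (X x : Pol σ) ^ a ∣ u := by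
  have hp : Prime (X x : Pol σ) := X_prime
  refine hp.pow_dvd_of_dvd_mul_left a (fun h1 => not_X_dvd_X h (hp.dvd_of_dvd_pow h1)) hd

/-- `(x^a, y^b)` is primary to `(x, y)`. -/
lemma primary_xy {x y : σ} (hxy : x ≠ y) {w : Pol σ} (hw : kl {x, y}ᶜ w ≠ 0) (b : ℕ) :
    ∀ (a : ℕ) (u A B : Pol σ), u * w = X x ^ a * A + X y ^ b * B →
      ∃ A' B', u = X x ^ a * A' + X y ^ b * B' := by
  have hpx : Prime (X x : Pol σ) := X_prime
  have hpy : Prime (X y : Pol σ) := X_prime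
  have step : ∀ (u A B : Pol σ), u * w = X x * A + X y ^ b * B →
      ∃ A' B', u = X x * A' + X y ^ b * B' := by
    intro u A B h
    have h1 := congrArg (kl {x}ᶜ) h
    have hx0 : kl ({x}ᶜ : Set σ) (X x) = 0 := kl_X_notMem (by simp)
    have hy0 : kl ({x}ᶜ : Set σ) (X y) = X y := kl_X_mem (by simpa using hxy.symm)
    simp only [map_mul, map_add, map_pow, hx0, hy0, zero_mul, zero_add] at h1
    have h2 : ¬ (X y : Pol σ) ∣ kl {x}ᶜ w := by
      rintro ⟨c, hc⟩
      apply hw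
      have h3 := congrArg (kl {y}ᶜ) hc
      rw [kl_kl, map_mul, kl_X_notMem (by simp), zero_mul] at h3
      rw [← h3]
      congr 2
      ext i
      simp [and_comm]
    have h3 : (X y : Pol σ) ^ b ∣ kl {x}ᶜ u :=
      hpy.pow_dvd_of_dvd_mul_right b h2 ⟨_, h1⟩
    obtain ⟨B', hB'⟩ := h3
    obtain ⟨A', hA'⟩ := X_dvd_sub_kl x u
    exact ⟨A', B', by rw [← hB', ← hA']; ring⟩
  intro a
  induction a with
  | zero => intro u A B _; exact ⟨u, 0, by simp⟩
  | succ a ih =>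
    intro u A B h
    obtain ⟨u₁, u₂, hu⟩ := step u (X x ^ a * A) B (by rw [h]; ring)
    have h1 : (X x : Pol σ) ^ 1 ∣ X y ^ b * (B - u₂ * w) :=
      ⟨u₁ * w - X x ^ a * A, by rw [hu] at h; linear_combination -h⟩
    obtain ⟨B', hB'⟩ := X_pow_dvd_of_mul hxy h1
    have h2 : u₁ * w = X x ^ a * A + X y ^ b * B' := by
      apply mul_left_cancel₀ hpx.ne_zero
      rw [hu] at h
      linear_combination h + X y ^ b * hB'
    obtain ⟨A', B'', h3⟩ := ih u₁ A B' h2
    exact ⟨A', X x * B'' + u₂, by rw [hu, h3]; ring⟩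

lemma comp_mul {w : σ → Γ} {f : Pol σ} {a : Γ} (hf : IsWeightedHomogeneous w f a) (b : Γ)
    (g : Pol σ) :
    weightedHomogeneousComponent w (a + b) (f * g) = f * weightedHomogeneousComponent w b g := by
  classical
  ext d
  rw [coeff_weightedHomogeneousComponent, coeff_mul, coeff_mul]
  split_ifs with h
  · refine Finset.sum_congr rfl fun x hx => ?_
    rw [coeff_weightedHomogeneousComponent]
    by_cases h1 : coeff x.1 f = 0
    · simp [h1]
    · rw [if_pos]
      have h2 := hf h1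
      rw [← Finset.HasAntidiagonal.mem_antidiagonal.mp hx, map_add, h2] at h
      exact add_left_cancel h
  · symm
    refine Finset.sum_eq_zero fun x hx => ?_
    rw [coeff_weightedHomogeneousComponent]
    by_cases h1 : coeff x.1 f = 0
    · simp [h1]
    · rw [if_neg, mul_zero]
      intro h3
      apply h
      rw [← Finset.HasAntidiagonal.mem_antidiagonal.mp hx, map_add, hf h1, h3]

lemma hom_of_mul {w : σ → Γ} {f g : Pol σ} {a b : Γ} (hf : IsWeightedHomogeneous w f a)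
    (hf0 : f ≠ 0) (h : IsWeightedHomogeneous w (f * g) (a + b)) :
    IsWeightedHomogeneous w g b := by
  have h1 := comp_mul hf b g
  rw [h.weightedHomogeneousComponent_same] at h1
  rw [mul_left_cancel₀ hf0 h1]
  exact weightedHomogeneousComponent_isWeightedHomogeneous _ _

lemma hom_of_mul' {w : σ → Γ} {f g : Pol σ} {a c : Γ} (hf : IsWeightedHomogeneous w f a)
    (hf0 : f ≠ 0) (h : IsWeightedHomogeneous w (f * g) c) :
    IsWeightedHomogeneous w g (c - a) :=
  hom_of_mul hf hf0 (by simpa using h)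

lemma hom_congr {w : σ → Γ} {f : Pol σ} {a b : Γ} (hf : IsWeightedHomogeneous w f a)
    (h : a = b) : IsWeightedHomogeneous w f b := h ▸ hf

lemma top_mul {w : σ → ℤ} {f g : Pol σ} {a b : ℤ} (hf : ∀ d, coeff d f ≠ 0 → weight w d ≤ a)
    (hg : ∀ d, coeff d g ≠ 0 → weight w d ≤ b) :
    weightedHomogeneousComponent w (a + b) (f * g) =
      weightedHomogeneousComponent w a f * weightedHomogeneousComponent w b g := by
  classical
  ext d
  rw [coeff_weightedHomogeneousComponent, coeff_mul, coeff_mul]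
  have key : ∀ x ∈ Finset.HasAntidiagonal.antidiagonal d,
      coeff x.1 (weightedHomogeneousComponent w a f) *
        coeff x.2 (weightedHomogeneousComponent w b g) =
      if weight w d = a + b then coeff x.1 f * coeff x.2 g else 0 := by
    intro x hx
    rw [coeff_weightedHomogeneousComponent, coeff_weightedHomogeneousComponent]
    by_cases h1 : coeff x.1 f = 0
    · simp [h1]
    by_cases h2 : coeff x.2 g = 0
    · simp [h2]
    have h3 := hf _ h1
    have h4 := hg _ h2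
    rw [← Finset.HasAntidiagonal.mem_antidiagonal.mp hx, map_add]
    by_cases h5 : weight w x.1 = a
    · by_cases h6 : weight w x.2 = b
      · rw [if_pos h5, if_pos h6, if_pos (by rw [h5, h6])]
      · rw [if_neg h6, mul_zero, if_neg (by omega)]
    · rw [if_neg h5, zero_mul, if_neg (by omega)]
  rw [Finset.sum_congr rfl key]
  split_ifs <;> simp

lemma exists_top (w : σ → ℤ) {f : Pol σ} (hf : f ≠ 0) :
    ∃ a, (∀ d, coeff d f ≠ 0 → weight w d ≤ a) ∧ weightedHomogeneousComponent w a f ≠ 0 := by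
  classical
  obtain ⟨d, hd, hmax⟩ := Finset.exists_max_image f.support (fun d => weight w d)
    (support_nonempty.mpr hf)
  refine ⟨weight w d, fun d' hd' => hmax d' (MvPolynomial.mem_support_iff.mpr hd'), fun h => ?_⟩
  have := coeff_weightedHomogeneousComponent (w := w) (weight w d) f d
  rw [h, if_pos rfl, coeff_zero] at this
  exact MvPolynomial.mem_support_iff.mp hd this.symm

lemma weight_comp {Δ : Type} [AddCommGroup Δ] (φ : Γ →+ Δ) (w : σ → Γ) (d : σ →₀ ℕ) :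
    weight (fun i => φ (w i)) d = φ (weight w d) := by
  simp [weight_apply, Finsupp.sum, map_sum]

lemma hom_map {Δ : Type} [AddCommGroup Δ] (φ : Γ →+ Δ) {w : σ → Γ} {f : Pol σ} {a : Γ}
    (hf : IsWeightedHomogeneous w f a) : IsWeightedHomogeneous (fun i => φ (w i)) f (φ a) := by
  intro d hd
  rw [weight_comp, hf hd]

lemma top_add_top {w : σ → ℤ} {f g : Pol σ} {c : ℤ} (hf : f ≠ 0) (hg : g ≠ 0)
    (h : IsWeightedHomogeneous w (f * g) c) :
    ∃ a b, a + b = c ∧ (∀ d, coeff d f ≠ 0 → weight w d ≤ a) ∧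
      (∀ d, coeff d g ≠ 0 → weight w d ≤ b) := by
  obtain ⟨a, ha, ha'⟩ := exists_top w hf
  obtain ⟨b, hb, hb'⟩ := exists_top w hg
  refine ⟨a, b, ?_, ha, hb⟩
  by_contra hne
  have h1 := top_mul ha hb
  rw [h.weightedHomogeneousComponent_ne _ hne] at h1
  exact mul_ne_zero ha' hb' h1.symm

/-- A divisor of a nonzero homogeneous polynomial is homogeneous. -/
lemma hom_of_dvd (hΓ : ∀ γ γ' : Γ, (∀ φ : Γ →+ ℤ, φ γ = φ γ') → γ = γ') {w : σ → Γ}
    {f g : Pol σ} {c : Γ} (h0 : f * g ≠ 0) (h : IsWeightedHomogeneous w (f * g) c) :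
    ∃ a, IsWeightedHomogeneous w f a := by
  have hf : f ≠ 0 := left_ne_zero_of_mul h0
  have hg : g ≠ 0 := right_ne_zero_of_mul h0
  obtain ⟨d₀, hd₀⟩ := exists_coeff_ne_zero hf
  obtain ⟨e₀, he₀⟩ := exists_coeff_ne_zero hg
  refine ⟨weight w d₀, fun d hd => hΓ _ _ fun φ => ?_⟩
  obtain ⟨a, b, hab, ha, hb⟩ := top_add_top hf hg (hom_map φ h)
  obtain ⟨a', b', hab', ha', hb'⟩ := top_add_top hf hg (hom_map (-φ) h)
  have h1 := ha d hd
  have h2 := ha d₀ hd₀
  have h3 := hb e₀ he₀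
  have h4 := ha' d hd
  have h5 := ha' d₀ hd₀
  have h6 := hb' e₀ he₀
  rw [weight_comp] at h1 h2 h3 h4 h5 h6
  simp only [AddMonoidHom.neg_apply] at h4 h5 h6 hab'
  omega

/-- A family without common factor. -/
def Prim {ι : Type} (g : ι → Pol σ) : Prop := ∀ c : Pol σ, (∀ i, c ∣ g i) → IsUnit c

lemma Prim.dvd_of [Finite σ] {ι : Type} {g : ι → Pol σ} (hg : Prim g) {a b : Pol σ} (hb : b ≠ 0)
    (h : ∀ i, b ∣ g i * a) : b ∣ a := by
  obtain ⟨b', a', c, hrel, hb', ha'⟩ := UniqueFactorizationMonoid.exists_reduced_factors b hb a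
  have hc : c ≠ 0 := by rintro rfl; exact hb (by rw [← hb', zero_mul])
  have hu : IsUnit b' := hg b' fun i => by
    have h1 := h i
    rw [← hb', ← ha', mul_left_comm] at h1
    exact hrel.dvd_of_dvd_mul_right ((mul_dvd_mul_iff_left hc).mp h1)
  rw [← hb', ← ha']
  exact mul_dvd_mul_left c hu.dvd

lemma exists_prim [Finite σ] {ι : Type} [Finite ι] (f : ι → Pol σ) (hf : ∃ i, f i ≠ 0) :
    ∃ (δ : Pol σ) (g : ι → Pol σ), δ ≠ 0 ∧ (∀ i, f i = δ * g i) ∧ Prim g := by
  classical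
  have := Fintype.ofFinite ι
  let _ : NormalizationMonoid (Pol σ) :=
    UniqueFactorizationMonoid.strongNormalizationMonoid.toNormalizationMonoid
  let _ : NormalizedGCDMonoid (Pol σ) := UniqueFactorizationMonoid.toNormalizedGCDMonoid _
  obtain ⟨i₀, hi₀⟩ := hf
  obtain ⟨g, hg, hg1⟩ := Finset.extract_gcd (s := Finset.univ) f ⟨i₀, Finset.mem_univ _⟩
  refine ⟨Finset.univ.gcd f, g, ?_, fun i => hg i (Finset.mem_univ _), fun c hc => ?_⟩
  · intro h0
    apply hi₀
    rw [hg i₀ (Finset.mem_univ _), h0, zero_mul]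
  · apply isUnit_of_dvd_one
    rw [← hg1]
    exact Finset.dvd_gcd fun i _ => hc i

lemma exists_prim_hom [Finite σ] (hΓ : ∀ γ γ' : Γ, (∀ φ : Γ →+ ℤ, φ γ = φ γ') → γ = γ')
    {w : σ → Γ} {ι : Type} [Finite ι] (f : ι → Pol σ) (γ : ι → Γ)
    (hh : ∀ i, IsWeightedHomogeneous w (f i) (γ i)) (hf : ∃ i, f i ≠ 0) :
    ∃ (δ : Pol σ) (g : ι → Pol σ) (a : Γ), δ ≠ 0 ∧ (∀ i, f i = δ * g i) ∧ Prim g ∧
      IsWeightedHomogeneous w δ a ∧ ∀ i, IsWeightedHomogeneous w (g i) (γ i - a) := by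
  obtain ⟨δ, g, hδ, hg, hp⟩ := exists_prim f hf
  obtain ⟨i₀, hi₀⟩ := hf
  obtain ⟨a, ha⟩ := hom_of_dvd hΓ (f := δ) (g := g i₀) (hg i₀ ▸ hi₀) (hg i₀ ▸ hh i₀)
  exact ⟨δ, g, a, hδ, hg, hp, ha, fun i => hom_of_mul' ha hδ (hg i ▸ hh i)⟩

end Pool.Agent.P.MP_b01859_ag
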