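import Pool.Agent.P.MP_b01859_ag.Ch

/-!
Bundles with a one dimensional torus and a nilpotent symmetry normalized by it.
-/

namespace Pool.Agent.P.MP_b01859_ag

open MvPolynomial VB

variable {σ ι : Type} {Γ Δ : Type} [AddCommGroup Γ] [AddCommGroup Δ]

/-- Homogeneous vectors. -/
def HV (w : σ → Γ) (x : σ → ℂ) (l : Γ) : Prop := ∀ i, x i ≠ 0 → w i = l

lemma HV.mulVec [Fintype σ] {w : σ → Γ} {x : σ → ℂ} {l c : Γ} (h : HV w x l) {f : Matrix σ σ ℂ}
    (hf : ∀ i j, f i j ≠ 0 → w j = w i + c) : HV w (f.mulVec x) (l - c) := by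
  intro i hi
  obtain ⟨j, -, hj⟩ := Finset.exists_ne_zero_of_sum_ne_zero hi
  rw [← h j (right_ne_zero_of_mul hj), hf i j (left_ne_zero_of_mul hj), add_sub_cancel_right]

omit [AddCommGroup Γ] in
lemma HV.congr {w : σ → Γ} {x : σ → ℂ} {l l' : Γ} (h : HV w x l) (e : l = l') : HV w x l' := e ▸ h

omit [AddCommGroup Γ] in
lemma HV.single [DecidableEq σ] (w : σ → Γ) (j : σ) : HV w (Pi.single j 1) (w j) := by
  intro i hi
  by_cases h : i = j
  · rw [h]
  · simp [h] at hi

lemma Gr.map {w : σ → Γ} {γ : ι → Γ} {g : Γ} {ω : ι → ι → Pol σ} (h : Gr w γ g ω) (φ : Γ →+ Δ) :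
    Gr (fun i => φ (w i)) (fun j => φ (γ j)) (φ g) ω :=
  fun i j => hom_congr (hom_map φ (h i j)) (by simp)

lemma Gr.prod {w : σ → Γ} {γ : ι → Γ} {g : Γ} {w' : σ → Δ} {γ' : ι → Δ} {g' : Δ}
    {ω : ι → ι → Pol σ} (h : Gr w γ g ω) (h' : Gr w' γ' g' ω) :
    Gr (fun i => (w i, w' i)) (fun j => (γ j, γ' j)) (g, g') ω := by
  intro i j d hd
  have e1 := weight_comp (AddMonoidHom.fst Γ Δ) (fun i => (w i, w' i)) d
  have e2 := weight_comp (AddMonoidHom.snd Γ Δ) (fun i => (w i, w' i)) d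
  exact Prod.ext (e1.symm.trans (h i j hd)) (e2.symm.trans (h' i j hd))

lemma Gr.shift {γ β : ι → ℤ} {g g' : ℤ} {lam : σ → ℤ} {ω : ι → ι → Pol σ}
    (h : Gr (fun _ => 1) γ g ω) (h' : Gr lam β g' ω) (s l : ℤ) :
    Gr (fun i => s * (lam i - l)) (fun j => s * (β j - l * γ j)) (s * (g' - l * g)) ω := by
  have := (h.prod h').map (AddMonoidHom.mk' (fun p : ℤ × ℤ => s * (p.2 - l * p.1))
    (fun p q => by simp only [Prod.fst_add, Prod.snd_add]; ring))
  simpa using this

lemma indep3 {V : Type} [AddCommGroup V] [Module ℂ V] (F : V →ₗ[ℂ] V) {y : V}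
    (h2 : F (F y) ≠ 0) (h3 : F (F (F y)) = 0) : LinearIndependent ℂ ![F (F y), F y, y] := by
  rw [Fintype.linearIndependent_iff]
  intro c hc
  simp only [Fin.sum_univ_three, Matrix.cons_val_zero, Matrix.cons_val_one, Matrix.cons_val] at hc
  have e1 := congrArg F hc
  have e2 := congrArg F e1
  simp only [map_add, map_smul, h3, map_zero, smul_zero, zero_add] at e1 e2
  have a2 := (smul_eq_zero.mp e2).resolve_right h2
  rw [a2, zero_smul, add_zero] at e1 hc
  have a1 := (smul_eq_zero.mp e1).resolve_right h2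
  rw [a1, zero_smul, add_zero] at hc
  have a0 := (smul_eq_zero.mp hc).resolve_right h2
  intro i
  fin_cases i <;> assumption

variable [Fintype σ] [Fintype ι] {T : VB σ ι} {γ : ι → ℤ} {g : ℤ}

theorem mu (hG : Gr (fun _ => 1) γ g T.ω) {cl : σ → Δ} {κ : ι → Δ} {g' : Δ}
    (hL : Gr cl κ g' T.ω) {ξ : Fin 3 → σ → ℂ} (hξ : LinearIndependent ℂ ξ)
    (h0 : ∀ a, HV cl (ξ a) 0) {i j : ι} (hij : eval (ξ 0) (T.ω i j) ≠ 0) (hne : κ i ≠ κ j) :
    Sp T.ω := by
  classical
  refine horrocks hG hξ (by simp) ?_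
  have hL' : Gr (fun _ => 0) κ g' (T.map hξ).ω := map_gr hξ h0 hL
  have hij' : (T.map hξ).ω i j ≠ 0 := fun h => hij (by
    rw [← eval_sub_single, ← map_ω T hξ, h, map_zero])
  generalize T.map hξ = T' at hL' hij'
  have h1 : ∀ k l, T'.ω k l ≠ 0 → κ k + κ l = g' := by
    intro k l h
    obtain ⟨d, hd⟩ := exists_coeff_ne_zero h
    have := hL' k l hd
    rw [Finsupp.weight_apply, Finsupp.sum] at this
    simp only [smul_zero, Finset.sum_const_zero] at this
    exact (sub_eq_zero.mp this.symm)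
  have h2 : ∀ k l, T'.ω k l ≠ 0 → κ k ≠ κ i → κ k = κ j := by
    intro k l h hk
    have e := T'.pl i j k l
    by_cases h3 : T'.ω i k = 0
    · by_cases h4 : T'.ω j k = 0
      · rw [h3, h4] at e
        exact absurd (by simpa using e) (mul_ne_zero hij' h)
      · exact absurd (add_left_cancel ((h1 j k h4).trans ((h1 i j hij').symm.trans
          (add_comm _ _)))) hk
    · exact add_left_cancel ((h1 i k h3).trans (h1 i j hij').symm)
  refine sp_of_two (fun t => if κ t = κ i then T'.row t else 0)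
    (fun t => if κ t = κ i then 0 else T'.row t) (fun t => by split_ifs <;> simp)
    (fun s t => ?_) (fun s t => ?_)
  · split_ifs with hs ht <;> simp only [map_zero, LinearMap.zero_apply, B_row_row]
    by_contra h
    have := h1 s t h
    rw [hs, ht, ← h1 i j hij'] at this
    exact hne (add_left_cancel this)
  · split_ifs with hs ht ht <;> simp only [map_zero, LinearMap.zero_apply, B_row_row]
    by_contra h
    have := h1 s t h
    rw [h2 s t h hs, h2 t s (by rwa [T'.skew, neg_ne_zero]) ht, ← h1 i j hij'] at this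
    exact hne (add_right_cancel this).symm

theorem toolC (hG : Gr (fun _ => 1) γ g T.ω) {lam : σ → ℤ} {β : ι → ℤ} {g' : ℤ}
    (hL : Gr lam β g' T.ω) {ξ : Fin 3 → σ → ℂ} (hξ : LinearIndependent ℂ ξ) {l : ℤ}
    (h0 : ∀ a, HV lam (ξ a) l) {s : σ} (hs : lam s ≠ l) : Sp T.ω := by
  classical
  have hL' := hG.shift hL (lam s - l) l
  obtain ⟨i, j, hij⟩ := T.LF_eval (hξ.ne_zero 0)
  by_cases hne : (lam s - l) * (β i - l * γ i) = (lam s - l) * (β j - l * γ j)
  swap
  · exact mu hG hL' hξ (fun a k hk => by simp [h0 a k hk]) hij hne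
  have hη : LinearIndependent ℂ fun o : Option (Fin 3) => o.elim (Pi.single s 1) ξ := by
    refine linearIndependent_option.mpr ⟨hξ, fun h => ?_⟩
    have h2 : Submodule.span ℂ (Set.range ξ) ≤ LinearMap.ker (LinearMap.proj s) := by
      rw [Submodule.span_le]
      rintro _ ⟨b, rfl⟩
      by_contra h3
      exact hs (h0 b s h3)
    simpa using h2 h
  refine horrocks hG hη (by simp) ?_
  have hG' := map_gr hη (w' := fun o => ((1 : ℤ), o.elim ((lam s - l) * (lam s - l)) 0))
    (fun o k hk => by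
      cases o with
      | none => simp [HV.single lam s k hk]
      | some a => simp [h0 a k hk]) (hG.prod hL')
  refine sp_of_split (hG := hG') (Plu.split_equal _ (x := some 0) (y := some 1) (by simp)
    (AddMonoidHom.fst ℤ ℤ) (fun _ => rfl) (lam := AddMonoidHom.snd ℤ ℤ) (fun o => ?_) rfl rfl
    (s := none) (mul_ne_zero (sub_ne_zero.mpr hs) (sub_ne_zero.mpr hs)) (i₀ := i) (j₀ := j)
    (fun h => hij ?_) hne)
  · cases o with
    | none => exact mul_self_nonneg _
    | some a => exact le_rfl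
  · have := congrArg (eval (Pi.single (some 0) 1)) h
    rw [eval_kl (fun k hk => Pi.single_eq_of_ne (by rintro rfl; exact hk rfl) _)] at this
    rw [map_zero] at this
    exact (eval_sub_single (fun o : Option (Fin 3) => o.elim (Pi.single s 1) ξ) (some 0)
      _).symm.trans this

section btype

variable {lam : σ → ℤ} {β : ι → ℤ} {g' c : ℤ} {f : Matrix σ σ ℂ} {b : Matrix ι ι ℂ}

theorem chain (hG : Gr (fun _ => 1) γ g T.ω) (hL : Gr lam β g' T.ω) (hc : 0 < c)
    (hf : ∀ i j, f i j ≠ 0 → lam j = lam i + c) (hβ : ∀ i j, b i j ≠ 0 → β j = β i + c)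
    (hγ : ∀ i j, b i j ≠ 0 → γ j = γ i) (hS : T.Sym (der f) b) {y : σ → ℂ} {l : ℤ}
    (hy : HV lam y l) (h2 : f.mulVec (f.mulVec y) ≠ 0) (h3 : f.mulVec (f.mulVec (f.mulVec y)) = 0)
    (hns : ¬ Sp T.ω) : ∃ i, eval (f.mulVec (f.mulVec y)) (∑ k, b i k • T.ω i k) ≠ 0 := by
  classical
  by_contra H
  push Not at H
  have hξ := indep3 f.mulVecLin h2 h3
  simp only [Matrix.mulVecLin_apply] at hξ
  have hS' : (T.map hξ).Sym (der !![0, 1, 0; 0, 0, 1; 0, 0, 0]) b :=
    hS.push (fun _ _ => rfl) (sub_der (A' := !![0, 1, 0; 0, 0, 1; 0, 0, 0])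
      (fun a => by fin_cases a <;> simp [h3, -Matrix.mulVec_mulVec, Fin.sum_univ_three])
      (der_X _))
  refine hns (horrocks hG hξ (by simp) (chain_core hc (map_gr hξ (fun _ _ _ => rfl) hG)
    (map_gr hξ (fun a k hk => ?_) (hG.shift hL 1 (l - c - c))) hS'
    (by simp [der_X, Fin.sum_univ_three]) (by simp [der_X, Fin.sum_univ_three])
    (by simp [der_X, Fin.sum_univ_three]) hγ (fun i j h => by rw [hβ i j h, hγ i j h]; ring)
    fun i => ?_))
  · fin_cases a
    · simp [((hy.mulVec hf).mulVec hf) k hk]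
    · simp [(hy.mulVec hf) k hk]
    · simp only [hy k hk]; simp; ring
  · have := H i
    simp only [D_row, map_sum, B_csmul_right, B_row_row, map_ω, smul_eval, eval_sub_single] at this ⊢
    exact this

lemma mu_chain (hG : Gr (fun _ => 1) γ g T.ω) (hL : Gr lam β g' T.ω) (hc : 0 < c)
    (hβ : ∀ i j, b i j ≠ 0 → β j = β i + c) (hγ : ∀ i j, b i j ≠ 0 → γ j = γ i)
    {ξ : Fin 3 → σ → ℂ} (hξ : LinearIndependent ℂ ξ) {l : ℤ}
    (h0 : ∀ a, ∃ k : ℤ, HV lam (ξ a) (l + 2 * c * k)) {i : ι}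
    (hi : eval (ξ 0) (∑ k, b i k • T.ω i k) ≠ 0) : Sp T.ω := by
  rw [map_sum] at hi
  obtain ⟨k, -, hk⟩ := Finset.exists_ne_zero_of_sum_ne_zero hi
  rw [smul_eval] at hk
  have hb := left_ne_zero_of_mul hk
  have h2c : (((2 * c).toNat : ℕ) : ℤ) = 2 * c := Int.toNat_of_nonneg (by omega)
  refine mu hG ((hG.shift hL 1 l).map (Int.castAddHom (ZMod (2 * c).toNat))) hξ
    (fun a j hj => ?_) (right_ne_zero_of_mul hk) fun h => ?_
  · obtain ⟨m, hm⟩ := h0 a
    rw [Int.coe_castAddHom, ZMod.intCast_zmod_eq_zero_iff_dvd, hm j hj, h2c]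
    exact ⟨m, by ring⟩
  · rw [Int.coe_castAddHom, ZMod.intCast_eq_intCast_iff_dvd_sub, hβ i k hb, hγ i k hb, h2c] at h
    obtain ⟨m, hm⟩ := h
    have : 1 = 2 * m := mul_left_cancel₀ hc.ne' (by linarith)
    omega

lemma nil_of_raise {κ : Type} [Fintype κ] [DecidableEq κ] {β : κ → ℤ} {b : Matrix κ κ ℂ}
    (hc : 0 < c) (hβ : ∀ i j, b i j ≠ 0 → β j = β i + c) : IsNilpotent b := by
  have key : ∀ n : ℕ, ∀ i j, (b ^ n) i j ≠ 0 → β j = β i + n * c := by
    intro n
    induction n with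
    | zero =>
      intro i j h
      by_cases hij : i = j
      · simp [hij]
      · simp [hij] at h
    | succ n ih =>
      intro i j h
      rw [pow_succ, Matrix.mul_apply] at h
      obtain ⟨k, -, hk⟩ := Finset.exists_ne_zero_of_sum_ne_zero h
      rw [hβ k j (right_ne_zero_of_mul hk), ih i k (left_ne_zero_of_mul hk)]
      push_cast; ring
  refine ⟨(Finset.univ.sup fun p : κ × κ => (β p.2 - β p.1).toNat) + 1, Matrix.ext fun i j => ?_⟩
  by_contra h
  have h1 := key _ i j h
  have h2 := Finset.le_sup (f := fun p : κ × κ => (β p.2 - β p.1).toNat) (Finset.mem_univ (i, j))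
  generalize (Finset.univ.sup fun p : κ × κ => (β p.2 - β p.1).toNat) = K at h1 h2
  simp only at h2
  push_cast at h1
  have h3 : β j - β i ≤ K := by omega
  nlinarith [Int.natCast_nonneg K]

lemma two_levels [DecidableEq ι] (E : El (Fin 2) ι) (hv : E.v = Pi.single 1 1) {l : Fin 2 → ℤ}
    (hl : l 0 ≠ l 1) (h : ∀ a, ∃ (i : ι) (L : ℤ),
      IsWeightedHomogeneous l (∑ k, E.a i k • E.T₀.ω i k) L ∧
        eval (Pi.single a 1) (∑ k, E.a i k • E.T₀.ω i k) ≠ 0) : Sp E.T₁.ω := by
  by_contra hns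
  obtain ⟨Q⟩ := E.nil_or.resolve_left fun h => hns (E.el0 h)
  obtain ⟨P, κ, hκ, hu, -, l0, m0, -⟩ := El.pl Q hv hns
  have key : ∀ i, ∑ k, E.a i k • E.T₀.ω i k = Q.w * (-(Q.q.1 i * Q.q.1 i)) := by
    intro i
    have := congrArg (E.T₀.B (E.T₀.row i)) (Q.hD (E.T₀.row i))
    rw [D_row, map_smul, B_swap _ Q.q, B_row] at this
    simp only [map_sum, B_csmul_right, B_row_row, smul_eq_mul] at this
    linear_combination this
  simp only [key] at h
  obtain ⟨i, L, h1, h2⟩ := h 0
  obtain ⟨i', L', -, h2'⟩ := h 1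
  obtain ⟨M, hM⟩ := hom_of_dvd (fun _ _ h => h (AddMonoidHom.id ℤ))
    (fun h => h2 (by rw [h, map_zero])) h1
  have hwr := P.wr
  rw [hu, algHom_C, algebraMap_eq] at hwr
  have hw : Hom Q.w (P.α - Q.α - 1 + (P.α' - Q.α)) := by
    have h3 : Hom (C κ * Q.w) (P.α - Q.α - 1 + (P.α' - Q.α)) := by
      rw [mul_comm, hwr]
      exact ((dv_Hom _ P.hom_l).mul P.hom_m).sub
        (hom_congr ((dv_Hom _ P.hom_m).mul P.hom_l) (by ring))
    simpa using hom_of_mul' (isWeightedHomogeneous_C _ κ) (by simpa using hκ) h3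
  rw [map_mul] at h2 h2'
  obtain ⟨r, hr⟩ := exists_coeff_of_eval_single (left_ne_zero_of_mul h2)
  obtain ⟨r', hr'⟩ := exists_coeff_of_eval_single (left_ne_zero_of_mul h2')
  have e1 := (hM hr).trans (hM hr').symm
  have e2 := (hw hr).trans (hw hr').symm
  simp only [weight_single', smul_eq_mul, mul_one, Nat.cast_inj] at e1 e2
  subst e2
  obtain rfl : r = 0 := by exact_mod_cast (mul_eq_mul_left_iff.mp e1).resolve_left hl
  have e3 := congrArg constantCoeff hwr
  simp only [map_mul, map_sub, constantCoeff_C, constantCoeff_eq, l0, m0, mul_zero,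
    sub_zero] at e3
  exact mul_ne_zero (by simpa using hr) hκ e3

theorem btype [DecidableEq σ] [DecidableEq ι] (hG : Gr (fun _ => 1) γ g T.ω)
    (hL : Gr lam β g' T.ω) (hc : 0 < c) (hf : ∀ i j, f i j ≠ 0 → lam j = lam i + c)
    (hβ : ∀ i j, b i j ≠ 0 → β j = β i + c) (hγ : ∀ i j, b i j ≠ 0 → γ j = γ i)
    (hS : T.Sym (der f) b) (hf0 : f ≠ 0) (h7 : 7 ≤ Fintype.card σ) : Sp T.ω := by
  by_contra hns
  have hNS : NS T γ f b := ⟨nil_of_raise hc hβ, hγ, hS⟩
  have hnil := nil_of_raise hc hf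
  set F := f.mulVecLin with hF
  have hFv : ∀ x, f.mulVec x = F x := fun _ => rfl
  have h4 : Module.finrank ℂ (LinearMap.ker (F * F)) < 5 :=
    not_le.mp fun h => hns (toolG hG hNS hnil hf0 h)
  have hLN : LN F := by
    obtain ⟨k, hk⟩ := hnil
    intro x
    refine ⟨k, ?_⟩
    rw [hF, ← Matrix.toLin'_apply', ← Matrix.toLin'_pow, hk]
    simp
  have hHV : ∀ {x l}, HV lam x l → HV lam (F x) (l - c) := fun h => h.mulVec hf
  by_cases h5 : ∃ j, F (F (F (F (Pi.single j 1)))) ≠ 0
  · obtain ⟨j, hj⟩ := h5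
    obtain ⟨k, hk, hk'⟩ := hLN.exists_last (fun x => F (F (F (F x))) ≠ 0) (by simp) hj
    obtain ⟨l, hl⟩ : ∃ l, HV lam ((F ^ k) (Pi.single j 1)) l := by
      clear hk hk'
      induction k with
      | zero => exact ⟨_, HV.single lam j⟩
      | succ k ih =>
        obtain ⟨l, hl⟩ := ih
        exact ⟨_, by rw [pow_succ', Module.End.mul_apply]; exact hHV hl⟩
    generalize (F ^ k) (Pi.single j 1) = x at hk hk' hl
    rw [not_not] at hk'
    obtain ⟨i, hi⟩ := chain hG hL hc hf hβ hγ hS (hHV (hHV hl)) hk hk' hns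
    refine hns (mu_chain hG hL hc hβ hγ (indep3 (F * F) (y := x) hk
      (by simp only [Module.End.mul_apply, hk', map_zero])) (l := l) (fun a => ?_) hi)
    fin_cases a
    · exact ⟨-2, (hHV (hHV (hHV (hHV hl)))).congr (by ring)⟩
    · exact ⟨-1, (hHV (hHV hl)).congr (by ring)⟩
    · exact ⟨0, hl.congr (by ring)⟩
  push Not at h5
  have h6 : ∀ x, F (F (F (F x))) = 0 := by
    intro x
    rw [pi_eq_sum_univ' x]
    simp only [map_sum, map_smul, h5, smul_zero, Finset.sum_const_zero]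
  -- two independent homogeneous vectors
  obtain ⟨x, x', l, l', hx, hx', e, e', hind⟩ : ∃ (x x' : σ → ℂ) (l l' : ℤ), HV lam x l ∧
      HV lam x' l' ∧ F (F (F x)) = 0 ∧ F (F (F x')) = 0 ∧
      LinearIndependent ℂ ![F (F x), F (F x')] := by
    set S : Set (σ → ℂ) := {p | ∃ x l, HV lam x l ∧ F (F (F x)) = 0 ∧ p = F (F x)}
    have hJ : (LinearMap.range (F * F) ⊓ LinearMap.ker F : Submodule ℂ (σ → ℂ)) ≤
        Submodule.span ℂ S := by
      rintro _ ⟨⟨x, rfl⟩, hx⟩
      have hx' : F (F (F x)) = 0 := hx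
      let π : ℤ → (σ → ℂ) → σ → ℂ := fun l x i => if lam i = l then x i else 0
      have hπ : ∀ l x, F (π l x) = π (l - c) (F x) := by
        intro l x
        funext i
        simp only [π, hF, Matrix.mulVecLin_apply, Matrix.mulVec, dotProduct]
        split_ifs with h
        · refine Finset.sum_congr rfl fun j _ => ?_
          by_cases h1 : f i j = 0
          · simp [h1]
          · rw [if_pos (by rw [hf i j h1, h]; ring)]
        · refine Finset.sum_eq_zero fun j _ => ?_
          by_cases h1 : f i j = 0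
          · simp [h1]
          · rw [if_neg (fun h2 => h (by rw [← h2, hf i j h1]; ring)), mul_zero]
      have hsum : x = ∑ l ∈ Finset.univ.image lam, π l x := by
        funext i
        simp [π]
      rw [hsum, map_sum]
      refine Submodule.sum_mem _ fun l _ => Submodule.subset_span ⟨π l x, l, fun i hi => ?_, ?_, rfl⟩
      · by_contra h
        exact hi (if_neg h)
      · rw [hπ, hπ, hπ, hx']
        funext i; simp [π]
    have h2 : Module.finrank ℂ (LinearMap.ker (F * (F * F))) =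
        Module.finrank ℂ (LinearMap.ker (F * F)) + Module.finrank ℂ
          (LinearMap.range (F * F) ⊓ LinearMap.ker F : Submodule ℂ (σ → ℂ)) :=
      finrank_ker_sq F (F * F)
    have h3 : Module.finrank ℂ (LinearMap.ker (F * (F * (F * F)))) =
        Module.finrank ℂ (LinearMap.ker (F * (F * F))) + Module.finrank ℂ
          (LinearMap.range (F * (F * F)) ⊓ LinearMap.ker F : Submodule ℂ (σ → ℂ)) :=
      finrank_ker_sq F (F * (F * F))
    have h8 : LinearMap.ker (F * (F * (F * F))) = ⊤ := eq_top_iff.mpr fun x _ => h6 x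
    have h9 : Module.finrank ℂ (LinearMap.range (F * (F * F)) ⊓ LinearMap.ker F :
        Submodule ℂ (σ → ℂ)) ≤ Module.finrank ℂ (LinearMap.range (F * F) ⊓ LinearMap.ker F :
        Submodule ℂ (σ → ℂ)) := Submodule.finrank_mono (inf_le_inf_right _ (by
          rintro _ ⟨x, rfl⟩
          exact ⟨F x, rfl⟩))
    rw [h8, finrank_top, Module.finrank_fintype_fun_eq_card] at h3
    obtain ⟨B, hBS, hspan, hB⟩ := exists_linearIndependent ℂ S
    have hfin := hB.setFinite.fintype
    have h11 := finrank_span_set_eq_card hB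
    rw [hspan, Set.toFinset_card] at h11
    have h10 : Module.finrank ℂ (LinearMap.range (F * F) ⊓ LinearMap.ker F :
        Submodule ℂ (σ → ℂ)) ≤ Fintype.card B := (Submodule.finrank_mono hJ).trans h11.le
    obtain ⟨p, p', hpp⟩ := Fintype.exists_pair_of_one_lt_card (α := B) (by omega)
    obtain ⟨x, l, hx, e, hp⟩ := hBS p.2
    obtain ⟨x', l', hx', e', hp'⟩ := hBS p'.2
    refine ⟨x, x', l, l', hx, hx', e, e', ?_⟩
    rw [← hp, ← hp']
    have := hB.comp ![p, p'] (by
      intro a a' h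
      fin_cases a <;> fin_cases a' <;> simp_all)
    have e2 : Subtype.val ∘ ![p, p'] = ![p.1, p'.1] := by
      funext a
      fin_cases a <;> rfl
    exact e2 ▸ this
  obtain ⟨i, hi⟩ := chain hG hL hc hf hβ hγ hS hx (hind.ne_zero 0) e hns
  obtain ⟨i', hi'⟩ := chain hG hL hc hf hβ hγ hS hx' (hind.ne_zero 1) e' hns
  by_cases hll : l = l'
  · subst hll
    have hξ : LinearIndependent ℂ ![F (F x), F (F x'), x] := by
      rw [Fintype.linearIndependent_iff] at hind ⊢
      intro u hu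
      simp only [Fin.sum_univ_three, Matrix.cons_val_zero, Matrix.cons_val_one,
        Matrix.cons_val] at hu
      have e1 := congrArg (fun z => F (F z)) hu
      simp only [map_add, map_smul, e, e', map_zero, smul_zero, zero_add] at e1
      have a2 : u 2 = 0 := by simpa using hind ![u 2, 0] (by simpa using e1) 0
      rw [a2, zero_smul, add_zero] at hu
      have := hind ![u 0, u 1] (by simpa using hu)
      intro a
      fin_cases a
      exacts [this 0, this 1, a2]
    refine hns (mu_chain hG hL hc hβ hγ hξ (l := l) (fun a => ?_) hi)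
    fin_cases a
    · exact ⟨-1, (hHV (hHV hx)).congr (by ring)⟩
    · exact ⟨-1, (hHV (hHV hx')).congr (by ring)⟩
    · exact ⟨0, hx.congr (by ring)⟩
  · have h0 : ∀ a, f.mulVec (![F (F x), F (F x')] a) = 0 := fun a => by
      fin_cases a
      exacts [e, e']
    have hv : (Pi.single 1 1 : Fin 2 → ℂ) ≠ 0 := fun h => by simpa using congrFun h 1
    have hη : f.mulVec (F x') = ∑ a, (Pi.single 1 1 : Fin 2 → ℂ) a • ![F (F x), F (F x')] a := by
      simp [hFv]
    have hL' : Gr ![l - c - c, l' - c - c] β g' (T.map hind).ω := map_gr hind (fun a => by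
      fin_cases a
      exacts [hHV (hHV hx), hHV (hHV hx')]) hL
    have hh : ∀ i, IsWeightedHomogeneous ![l - c - c, l' - c - c]
        (∑ k, b i k • (T.map hind).ω i k) (β i + β i + c - g') := fun i =>
      IsWeightedHomogeneous.sum _ _ _ fun k _ => by
        by_cases h1 : b i k = 0
        · rw [h1, zero_smul]; exact isWeightedHomogeneous_zero _ _ _
        · rw [smul_eq_C_mul]
          exact hom_congr ((hL' i k).C_mul _) (by rw [hβ i k h1]; ring)
    refine hns (horrocks hG (indep_elim hind h0 hv hη) (by simp)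
      (two_levels (mkEl hG hNS hind h0 hv hη) rfl (l := ![l - c - c, l' - c - c])
        (by simpa using hll) fun a => ?_))
    have key : ∀ i, eval (Pi.single a 1) (∑ k, b i k • (T.map hind).ω i k) =
        eval (![F (F x), F (F x')] a) (∑ k, b i k • T.ω i k) := fun i => by
      simp only [map_sum, smul_eval, map_ω, eval_sub_single]
    fin_cases a
    · exact ⟨i, _, hh i, (key i).trans_ne hi⟩
    · exact ⟨i', _, hh i', (key i').trans_ne hi'⟩

end btype

end Pool.Agent.P.MP_b01859_ag
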