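import Pool.Agent.P.MP_b01859_ag.T1

/-!
Invariant sections, chains of length three and fixed planes of finite subgroups of a torus.
-/

namespace Pool.Agent.P.MP_b01859_ag

open MvPolynomial VB

variable {σ τ ι : Type} [Fintype ι]

lemma split_of_section [Finite σ] [Nontrivial σ] {T : VB σ ι} {s : T.N} {x y z : σ} (hxy : x ≠ y)
    (hzx : z ≠ x) (hzy : z ≠ y) {N : ℕ}
    (h : ∀ u ∈ ({x, y, z} : Set σ), (X u : Pol σ) ^ N ∈ Ideal.span (Set.range s.1)) : Sp T.ω := by
  have key : ∀ u ∈ ({x, y, z} : Set σ), ∃ n, T.B s n = X u ^ N := by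
    intro u hu
    obtain ⟨a, ha⟩ := (Submodule.mem_span_range_iff_exists_fun _).mp (h u hu)
    exact ⟨∑ k, a k • T.row k, by simp only [map_sum, map_smul, B_row, ha]⟩
  obtain ⟨n₀, h₀⟩ := key x (by simp)
  obtain ⟨n₁, h₁⟩ := key y (by simp)
  obtain ⟨n₂, h₂⟩ := key z (by simp)
  have e := T.rel4 s n₀ n₁ n₂
  rw [h₀, h₁, h₂] at e
  obtain ⟨A, B, hAB⟩ := primary_xy hxy (w := X z ^ N) (by
    rw [map_pow, kl_X_mem (by simp [hzx, hzy])]
    exact pow_ne_zero _ (X_ne_zero _)) N N (T.B n₀ n₁) (-T.B n₁ n₂) (T.B n₀ n₂)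
    (by linear_combination e)
  have hx : (X x : Pol σ) ^ N ≠ 0 := pow_ne_zero _ (X_ne_zero _)
  have e' := T.rel3 s n₀ n₁
  rw [h₀, h₁, hAB] at e'
  obtain ⟨n, hn⟩ := div hx (n₀ - B • s) fun t => X_pow_dvd_of_mul hxy (b := N)
    ⟨n₁.1 t + A * s.1 t, by
      have := congrArg (fun φ : T.N => φ.1 t) e'
      simp only [Submodule.coe_add, Submodule.coe_sub, Submodule.coe_smul, Pi.add_apply,
        Pi.sub_apply, Pi.smul_apply, smul_eq_mul, Submodule.coe_zero, Pi.zero_apply] at this ⊢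
      linear_combination -this⟩
  refine sp_of_unit (φ := s) (ψ := n) ?_
  have := congrArg (T.B s) hn
  simp only [map_sub, map_smul, B_self, h₀, smul_eq_mul, mul_zero, sub_zero] at this
  rw [mul_left_cancel₀ hx ((mul_one _).trans this).symm]
  exact isUnit_one

lemma inv_split {T : VB (Fin 3) ι} {δ : Dr (Fin 3)} {a : Matrix ι ι ℂ} (h : T.Sym δ a)
    (h0 : δ (X 0) = X 1) (h1 : δ (X 1) = X 2) {s : T.N} (hs : T.B s (D h s) = 0) {t : ι} {κ : ℂ}
    (hκ : κ ≠ 0) {e : ℕ} (ht : s.1 t = C κ * X 0 ^ e) : Sp T.ω := by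
  have hs0 : s ≠ 0 := by
    rintro rfl
    exact mul_ne_zero (by simpa using hκ) (pow_ne_zero e (X_ne_zero 0)) ht.symm
  obtain ⟨f, s', hf, rfl, hp⟩ := VB.exists_prim hs0
  rw [D_smul] at hs
  simp only [map_add, map_smul, LinearMap.smul_apply, B_self, smul_eq_mul, mul_zero, zero_add,
    mul_eq_zero, hf, false_or] at hs
  obtain ⟨r, hr⟩ := eq_smul_of_B hp hs
  set I : Ideal (Pol (Fin 3)) := Ideal.span (Set.range s'.1)
  have hm : ∀ j, s'.1 j ∈ I := fun j => Ideal.subset_span ⟨j, rfl⟩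
  have hI : ∀ p ∈ I, δ p ∈ I := by
    intro p hp
    induction hp using Submodule.span_induction with
    | mem x hx =>
      obtain ⟨j, rfl⟩ := hx
      have e := congrArg (fun φ : T.N => φ.1 j) hr
      simp only [D_val, Submodule.coe_smul, Pi.smul_apply, smul_eq_mul, sub_eq_iff_eq_add] at e
      rw [e]
      exact I.add_mem (I.mul_mem_left _ (hm j))
        (I.sum_mem fun k _ => I.smul_of_tower_mem _ (hm k))
    | zero => simp
    | add x y _ _ hx hy => rw [map_add]; exact I.add_mem hx hy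
    | smul c x hx' hx =>
      rw [smul_eq_mul, dr_mul]
      exact I.add_mem (I.mul_mem_left _ hx') (I.mul_mem_left _ hx)
  have r0 : (X 0 : Pol (Fin 3)) ∈ I.radical := ⟨e, by
    have := I.mul_mem_left (C κ⁻¹ * f) (hm t)
    simp only [Submodule.coe_smul, Pi.smul_apply, smul_eq_mul] at ht
    rwa [mul_assoc, ht, ← mul_assoc, ← C_mul, inv_mul_cancel₀ hκ, C_1, one_mul] at this⟩
  have r1 := h0 ▸ radical_dr δ hI r0
  have r2 := h1 ▸ radical_dr δ hI r1
  obtain ⟨N, hN⟩ := exists_pow_mem (I := I) (A := {0, 1, 2}) fun p hp hle u hu => by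
    have := hp.radical_le_iff.mpr hle
    rcases hu with rfl | rfl | rfl
    exacts [this r0, this r1, this r2]
  exact split_of_section (by simp) (by simp) (by simp) hN

lemma weight3 (w : Fin 3 → ℤ) (d : Fin 3 →₀ ℕ) :
    Finsupp.weight w d = d 0 * w 0 + d 1 * w 1 + d 2 * w 2 := by
  rw [Finsupp.weight_apply, Finsupp.sum_fintype _ _ (by simp)]
  simp [Fin.sum_univ_three]

lemma level_lt {c : ℤ} (hc : 0 < c) {f : Pol (Fin 3)} {D L : ℤ} (h1 : Hom f D)
    (h2 : IsWeightedHomogeneous ![0, c, 2 * c] f L) (hL : L < c) :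
    f = C (eval (Pi.single 0 1) f) * X 0 ^ D.toNat := by
  have : f = monomial (Finsupp.single 0 D.toNat) (coeff (Finsupp.single 0 D.toNat) f) := by
    apply eq_monomial_of_support_subset_singleton
    intro d hd
    have e1 := h1 (mem_support_iff.mp hd)
    have e2 := h2 (mem_support_iff.mp hd)
    rw [weight3] at e1 e2
    simp only [Matrix.cons_val_zero, Matrix.cons_val_one, Matrix.cons_val] at e1 e2
    have a1 : d 1 = 0 := by
      by_contra h
      have : (1 : ℤ) ≤ d 1 := by omega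
      nlinarith [Int.natCast_nonneg (d 2)]
    have a2 : d 2 = 0 := by
      by_contra h
      have : (1 : ℤ) ≤ d 2 := by omega
      nlinarith [Int.natCast_nonneg (d 1)]
    ext i
    fin_cases i <;> simp [a1, a2]
    omega
  rw [this, ← C_mul_X_pow_eq_monomial]
  simp

lemma level_eq {c : ℤ} (hc : 0 < c) {f : Pol (Fin 3)} {D : ℤ} (h1 : Hom f D)
    (h2 : IsWeightedHomogeneous ![0, c, 2 * c] f c) :
    ∃ r : ℂ, f = C r * (X 0 ^ (D - 1).toNat * X 1) := by
  refine ⟨coeff (Finsupp.single 0 (D - 1).toNat + Finsupp.single 1 1) f, ?_⟩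
  rw [X_pow_eq_monomial, X, monomial_mul, C_mul_monomial, mul_one, mul_one]
  apply eq_monomial_of_support_subset_singleton
  intro d hd
  have e1 := h1 (mem_support_iff.mp hd)
  have e2 := h2 (mem_support_iff.mp hd)
  rw [weight3] at e1 e2
  simp only [Matrix.cons_val_zero, Matrix.cons_val_one, Matrix.cons_val] at e1 e2
  have a1 : (d 1 : ℤ) + 2 * d 2 = 1 := mul_right_cancel₀ hc.ne' (by linarith)
  ext i
  fin_cases i <;> simp <;> omega

lemma exists_root (p q r : ℂ) :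
    ∃ x y : ℂ, (x ≠ 0 ∨ y ≠ 0) ∧ x * x * p + x * y * q + y * y * r = 0 := by
  by_cases hp : p = 0
  · exact ⟨1, 0, Or.inl one_ne_zero, by simp [hp]⟩
  · obtain ⟨s, hs⟩ := IsAlgClosed.exists_eq_mul_self (discrim p q r)
    obtain ⟨x, hx⟩ := exists_quadratic_eq_zero hp ⟨s, hs⟩
    exact ⟨x, 1, Or.inr one_ne_zero, by linear_combination hx⟩

lemma chain_core {T : VB (Fin 3) ι} {γ β : ι → ℤ} {g g' c : ℤ} (hc : 0 < c)
    (hG : Gr (fun _ => 1) γ g T.ω) (hL : Gr ![0, c, 2 * c] β g' T.ω) {δ : Dr (Fin 3)}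
    {b : Matrix ι ι ℂ} (h : T.Sym δ b) (h0 : δ (X 0) = X 1) (h1 : δ (X 1) = X 2)
    (h2 : δ (X 2) = 0) (hγ : ∀ i j, b i j ≠ 0 → γ j = γ i) (hβ : ∀ i j, b i j ≠ 0 → β j = β i + c)
    (H : ∀ i, eval (Pi.single 0 1) (T.B (T.row i) (D h (T.row i))) = 0) : Sp T.ω := by
  have hv : (Pi.single 0 1 : Fin 3 → ℂ) ≠ 0 := fun h => by simpa using congrFun h 0
  obtain ⟨i, j, hij, hle⟩ : ∃ i j, eval (Pi.single 0 1) (T.ω i j) ≠ 0 ∧ β i ≤ β j := by
    obtain ⟨i, j, hij⟩ := T.LF_eval hv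
    rcases le_total (β i) (β j) with h | h
    · exact ⟨i, j, hij, h⟩
    · exact ⟨j, i, by rwa [T.skew, map_neg, neg_ne_zero], h⟩
  have hl : β i + β j - g' = 0 := by
    obtain ⟨k, hk⟩ := exists_coeff_of_eval_single hij
    rw [← hL i j hk, weight3]
    simp
  have hω := level_lt hc (hG i j) (hL i j) (by omega)
  have d1 : ∀ {φ : T.N} {α : ℤ}, HomN (fun _ => 1) γ φ α → HomN (fun _ => 1) γ (D h φ) α := by
    intro φ α hφ
    simpa using D_hom h (μ := 0) (fun i => by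
      fin_cases i <;> simp [h0, h1, h2, isWeightedHomogeneous_X, isWeightedHomogeneous_zero])
      (by simpa using hγ) hφ
  have d2 : ∀ {φ : T.N} {α : ℤ}, HomN ![0, c, 2 * c] β φ α →
      HomN ![0, c, 2 * c] β (D h φ) (α + c) := by
    intro φ α hφ
    refine D_hom h (fun i => ?_) hβ hφ
    fin_cases i
    · simpa [h0] using isWeightedHomogeneous_X ℂ ![0, c, 2 * c] 1
    · simpa [h1, two_mul] using isWeightedHomogeneous_X ℂ ![0, c, 2 * c] 2
    · simpa [h2] using isWeightedHomogeneous_zero ℂ _ _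
  rcases hle.lt_or_eq with hlt | heq
  · refine inv_split h h0 h1 (s := T.row i) ?_ hij hω
    rw [level_lt hc (B_hom hG (row_hom hG i) (d1 (row_hom hG i)))
      (B_hom hL (row_hom hL i) (d2 (row_hom hL i))) (by omega), H, C_0, zero_mul]
  · have hx : ∀ n : ℕ, Hom ((X 0 : Pol (Fin 3)) ^ n) n := fun n => by
      simpa using (isWeightedHomogeneous_X ℂ (fun _ : Fin 3 => (1 : ℤ)) 0).pow n
    have hx' : ∀ n : ℕ, IsWeightedHomogeneous ![0, c, 2 * c] ((X 0 : Pol (Fin 3)) ^ n) 0 :=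
      fun n => by simpa using (isWeightedHomogeneous_X ℂ ![0, c, 2 * c] 0).pow n
    set s₀ := (X 0 : Pol (Fin 3)) ^ (γ j - γ i).toNat • T.row i with hs₀
    set s₁ := (X 0 : Pol (Fin 3)) ^ (γ i - γ j).toNat • T.row j with hs₁
    have a₀ : HomN (fun _ => 1) γ s₀ (max (γ i) (γ j) - g) :=
      ((row_hom hG i).smul (hx _)).congr (by omega)
    have a₁ : HomN (fun _ => 1) γ s₁ (max (γ i) (γ j) - g) :=
      ((row_hom hG j).smul (hx _)).congr (by omega)
    have b₀ : HomN ![0, c, 2 * c] β s₀ (β i - g') := ((row_hom hL i).smul (hx' _)).congr (by omega)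
    have b₁ : HomN ![0, c, 2 * c] β s₁ (β i - g') := ((row_hom hL j).smul (hx' _)).congr (by omega)
    have key : ∀ {φ ψ : T.N}, HomN (fun _ => 1) γ φ (max (γ i) (γ j) - g) →
        HomN (fun _ => 1) γ ψ (max (γ i) (γ j) - g) → HomN ![0, c, 2 * c] β φ (β i - g') →
        HomN ![0, c, 2 * c] β ψ (β i - g') → ∃ r : ℂ, T.B φ (D h ψ) = C r * _ :=
      fun p1 p2 p3 p4 => level_eq hc (B_hom hG p1 (d1 p2))
        (hom_congr (B_hom hL p3 (d2 p4)) (by omega))
    obtain ⟨r₁, e₁⟩ := key a₀ a₀ b₀ b₀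
    obtain ⟨r₂, e₂⟩ := key a₀ a₁ b₀ b₁
    obtain ⟨r₃, e₃⟩ := key a₁ a₀ b₁ b₀
    obtain ⟨r₄, e₄⟩ := key a₁ a₁ b₁ b₁
    obtain ⟨x, y, hxy, hq⟩ := exists_root r₁ (r₂ + r₃) r₄
    have hs : T.B (x • s₀ + y • s₁) (D h (x • s₀ + y • s₁)) = 0 := by
      simp only [map_add, map_smul, LinearMap.add_apply, B_csmul_left, B_csmul_right, e₁, e₂, e₃,
        e₄, smul_eq_C_mul]
      have := congrArg (C : ℂ → Pol (Fin 3)) hq
      simp only [map_add, map_mul, map_zero] at this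
      linear_combination (X 0 ^ (max (γ i) (γ j) - g + (max (γ i) (γ j) - g) + g - 1).toNat * X 1)
        * this
    rcases hxy with hx0 | hy0
    · refine inv_split h h0 h1 hs (t := j) (mul_ne_zero hx0 hij)
        (e := (γ j - γ i).toNat + (γ i + γ j - g).toNat) ?_
      simp only [hs₀, hs₁, Submodule.coe_add, Submodule.coe_smul_of_tower, Pi.add_apply,
        Pi.smul_apply, row_val, T.diag, smul_eq_mul, mul_zero, smul_zero, add_zero, smul_eq_C_mul,
        C_mul, pow_add]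
      linear_combination C x * X 0 ^ (γ j - γ i).toNat * hω
    · refine inv_split h h0 h1 hs (t := i) (neg_ne_zero.mpr (mul_ne_zero hy0 hij))
        (e := (γ i - γ j).toNat + (γ i + γ j - g).toNat) ?_
      simp only [hs₀, hs₁, Submodule.coe_add, Submodule.coe_smul_of_tower, Pi.add_apply,
        Pi.smul_apply, row_val, T.diag, smul_eq_mul, mul_zero, smul_zero, zero_add, smul_eq_C_mul,
        C_mul, C_neg, pow_add, T.skew i j]
      linear_combination -C y * X 0 ^ (γ i - γ j).toNat * hω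

end Pool.Agent.P.MP_b01859_ag
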