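import Pool.Agent.P.MP_b01859_ag.Basic

/-!
The extension class of a bundle with a section vanishing along `x = y = 0`: local analysis at
the fixed points and along the invariant lines.
-/

namespace Pool.Agent.P.MP_b01859_ag

open MvPolynomial Finsupp

variable {σ : Type} {Γ : Type} [AddCommGroup Γ] {ι : Type}

/-- The data of the extension. -/
structure Dat (σ Γ ι : Type) [AddCommGroup Γ] where
  w : σ → Γ
  x : σ
  y : σ
  N : ℕ
  P : Pol σ
  p : Γ
  g₀ : Γ
  v : ι → Pol σ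
  a : ι → Pol σ
  b : ι → Pol σ
  D : ι → ι → Pol σ
  γ : ι → Γ
  lam : Γ →+ ℤ
  hxy : x ≠ y
  rel : ∀ i, X x ^ N * a i - X y ^ N * b i + P * v i = 0
  Dx : ∀ i j, X x ^ N * D i j = v i * b j - b i * v j
  hv : ∀ i, IsWeightedHomogeneous w (v i) (γ i)
  hD : ∀ i j, IsWeightedHomogeneous w (D i j) (γ i + γ j - g₀)
  hP : IsWeightedHomogeneous w P p
  hg₀ : g₀ = N • w x + N • w y - p
  LF : ∀ q : σ → ℂ, q ≠ 0 → ∃ i j, eval q (D i j) ≠ 0
  indep : ∀ s, s ≠ x → s ≠ y → ∀ i j k : ℤ, i • w x + j • w y + k • w s = 0 →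
    i = 0 ∧ j = 0 ∧ k = 0
  lx : lam (w x) = 0
  ly : lam (w y) = 0
  ls : ∀ s, s ≠ x → s ≠ y → 0 < lam (w s)
  lp : 0 < lam p
  nt : ¬ ∃ α β, P = X x ^ N * α + X y ^ N * β

lemma weight_eq_sum (w : σ → Γ) {d : σ →₀ ℕ} {F : Finset σ} (h : ∀ i, d i ≠ 0 → i ∈ F) :
    weight w d = ∑ i ∈ F, (d i : ℤ) • w i := by
  rw [weight_apply, Finsupp.sum_of_support_subset _ (s := F)
    (fun i hi => h i (Finsupp.mem_support_iff.mp hi)) _ (fun i _ => by simp)]
  simp

lemma exists_coeff_of_eval_single [DecidableEq σ] {s : σ} {f : Pol σ}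
    (h : eval (Pi.single s (1 : ℂ)) f ≠ 0) : ∃ r, coeff (single s r) f ≠ 0 := by
  rw [← eval_kl (A := {s}) (fun i hi => Pi.single_eq_of_ne (by simpa using hi) _)] at h
  have h1 : kl {s} f ≠ 0 := fun h0 => h (by rw [h0, map_zero])
  obtain ⟨d, hd, hc⟩ := exists_of_kl_ne_zero h1
  refine ⟨d s, ?_⟩
  have : d = single s (d s) := by
    ext i
    by_cases hi : i = s
    · subst hi; simp
    · rw [single_eq_of_ne hi]
      by_contra h2
      exact hi (by simpa using hd i h2)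
  rwa [← this]

lemma coeff_X_pow_mul_add (x : σ) (a : ℕ) (m : σ →₀ ℕ) (f : Pol σ) :
    coeff (single x a + m) (X x ^ a * f) = coeff m f := by
  rw [X_pow_eq_monomial, coeff_monomial_mul, one_mul]

lemma coeff_X_pow_mul_of_lt {y : σ} {b : ℕ} {m : σ →₀ ℕ} (h : m y < b) (f : Pol σ) :
    coeff m (X y ^ b * f) = 0 := by
  classical
  rw [X_pow_eq_monomial, coeff_monomial_mul', if_neg]
  intro hle
  have := hle y
  simp at this
  omega

namespace Dat

variable (T : Dat σ Γ ι)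

lemma Xx_ne : (X T.x : Pol σ) ^ T.N ≠ 0 := pow_ne_zero _ (X_ne_zero _)

lemma D_skew (i j : ι) : T.D j i = - T.D i j := by
  apply mul_left_cancel₀ T.Xx_ne
  rw [mul_neg, T.Dx, T.Dx]; ring

lemma pl_v (i j k : ι) : T.D i j * T.v k - T.D i k * T.v j + T.D j k * T.v i = 0 := by
  apply mul_left_cancel₀ T.Xx_ne
  linear_combination T.v k * T.Dx i j - T.v j * T.Dx i k + T.v i * T.Dx j k

lemma pl_D (i j k l : ι) :
    T.D i j * T.D k l - T.D i k * T.D j l + T.D i l * T.D j k = 0 := by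
  apply mul_left_cancel₀ (mul_ne_zero T.Xx_ne T.Xx_ne)
  have e : ∀ i j k l, X T.x ^ T.N * X T.x ^ T.N * (T.D i j * T.D k l) =
      (T.v i * T.b j - T.b i * T.v j) * (T.v k * T.b l - T.b k * T.v l) := by
    intro i j k l
    rw [← T.Dx, ← T.Dx]; ring
  linear_combination e i j k l - e i k j l + e i l j k

lemma eval_v {q : σ → ℂ} (hx : q T.x = 0) (hy : q T.y = 0) (i : ι) : eval q (T.v i) = 0 := by
  rw [← eval_kl (A := {T.x, T.y}ᶜ) (fun k hk => by
    simp only [Set.mem_compl_iff, not_not, Set.mem_insert_iff, Set.mem_singleton_iff] at hk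
    rcases hk with rfl | rfl
    exacts [hx, hy])]
  by_contra h
  have h1 : kl {T.x, T.y}ᶜ (T.v i) ≠ 0 := fun h0 => h (by rw [h0, map_zero])
  exact T.nt (primary_xy T.hxy h1 T.N T.N T.P (- T.a i) (T.b i)
    (by linear_combination T.rel i))

lemma triv {A : Set σ} (hx : T.x ∈ A) (hy : T.y ∈ A) {α β : Pol σ}
    (h : kl A T.P = X T.x ^ T.N * α + X T.y ^ T.N * β) :
    ∃ c : ι → Pol σ, ∀ i j, kl A (T.D i j) = kl A (T.v i) * c j - c i * kl A (T.v j) := by
  have h1 : ∀ i, (X T.x : Pol σ) ^ T.N ∣ kl A (T.b i) - β * kl A (T.v i) := by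
    intro i
    have e := congrArg (kl A) (T.rel i)
    simp only [map_add, map_sub, map_mul, map_pow, kl_X_mem hx, kl_X_mem hy, map_zero, h] at e
    exact X_pow_dvd_of_mul T.hxy (b := T.N)
      ⟨kl A (T.a i) + α * kl A (T.v i), by linear_combination -e⟩
  choose c hc using h1
  refine ⟨c, fun i j => ?_⟩
  apply mul_left_cancel₀ T.Xx_ne
  have e := congrArg (kl A) (T.Dx i j)
  simp only [map_sub, map_mul, map_pow, kl_X_mem hx] at e
  linear_combination e + kl A (T.v i) * hc j - kl A (T.v j) * hc i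

lemma decomp {A : Set σ} (hx : T.x ∈ A) (hy : T.y ∈ A) {a a' b b' : ℕ} (ha : a + a' = T.N)
    (hb : b + b' = T.N) {Q : Pol σ} (h : kl A T.P = X T.x ^ a' * X T.y ^ b' * Q)
    (hQ : kl {T.x, T.y}ᶜ Q ≠ 0) :
    ∃ U V c : ι → Pol σ, (∀ i, kl A (T.v i) = X T.x ^ a * U i + X T.y ^ b * V i) ∧
      ∀ i j, kl A (T.D i j) = Q * (U i * V j - V i * U j) +
        (kl A (T.v i) * c j - c i * kl A (T.v j)) := by
  have hxa : (X T.x : Pol σ) ^ T.N = X T.x ^ a * X T.x ^ a' := by rw [← pow_add, ha]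
  have hyb : (X T.y : Pol σ) ^ T.N = X T.y ^ b * X T.y ^ b' := by rw [← pow_add, hb]
  have hx0 : ∀ k : ℕ, (X T.x : Pol σ) ^ k ≠ 0 := fun k => pow_ne_zero _ (X_ne_zero _)
  have hy0 : ∀ k : ℕ, (X T.y : Pol σ) ^ k ≠ 0 := fun k => pow_ne_zero _ (X_ne_zero _)
  have h1 : ∀ i, ∃ U V c : Pol σ, kl A (T.v i) = X T.x ^ a * U + X T.y ^ b * V ∧
      kl A (T.b i) = X T.x ^ a' * (Q * V + X T.x ^ a * c) := by
    intro i
    have e := congrArg (kl A) (T.rel i)
    simp only [map_add, map_sub, map_mul, map_pow, kl_X_mem hx, kl_X_mem hy, map_zero, h] at e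
    obtain ⟨b₁, hb₁⟩ : (X T.x : Pol σ) ^ a' ∣ kl A (T.b i) :=
      X_pow_dvd_of_mul T.hxy (b := T.N)
        ⟨X T.x ^ a * kl A (T.a i) + X T.y ^ b' * Q * kl A (T.v i), by
          rw [hxa] at e; linear_combination -e⟩
    obtain ⟨a₁, ha₁⟩ : (X T.y : Pol σ) ^ b' ∣ kl A (T.a i) :=
      X_pow_dvd_of_mul T.hxy.symm (b := T.N)
        ⟨X T.y ^ b * kl A (T.b i) - X T.x ^ a' * Q * kl A (T.v i), by
          rw [hyb] at e; linear_combination e⟩
    have e2 : kl A (T.v i) * Q = X T.x ^ a * (-a₁) + X T.y ^ b * b₁ := by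
      apply mul_left_cancel₀ (mul_ne_zero (hx0 a') (hy0 b'))
      rw [hxa, hyb, ha₁, hb₁] at e
      linear_combination e
    obtain ⟨U, V, hUV⟩ := primary_xy T.hxy hQ b a _ _ _ e2
    obtain ⟨c, hc⟩ : (X T.x : Pol σ) ^ a ∣ b₁ - Q * V :=
      X_pow_dvd_of_mul T.hxy (b := b) ⟨a₁ + Q * U, by rw [hUV] at e2; linear_combination -e2⟩
    exact ⟨U, V, c, hUV, by rw [hb₁, ← hc]; ring⟩
  choose U V c hUV hc using h1
  refine ⟨U, V, c, hUV, fun i j => ?_⟩
  apply mul_left_cancel₀ T.Xx_ne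
  have e := congrArg (kl A) (T.Dx i j)
  simp only [map_sub, map_mul, map_pow, kl_X_mem hx] at e
  rw [e, hc i, hc j, hxa]
  linear_combination X T.x ^ a' * Q * V j * hUV i - X T.x ^ a' * Q * V i * hUV j

/-- The local structure at the fixed point where only the variable `s` is nonzero. -/
structure Vx (s : σ) where
  a : ℕ
  b : ℕ
  e : ℕ
  r₁ : ℕ
  r₂ : ℕ
  r : ℕ
  i : ι
  j : ι
  ha : 0 < a
  hb : 0 < b
  he : 0 < e
  haN : a ≤ T.N
  hbN : b ≤ T.N
  cP : coeff (single T.x (T.N - a) + single T.y (T.N - b) + single s e) T.P ≠ 0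
  c₁ : coeff (single T.x a + single s r₁) (T.v i) ≠ 0
  c₂ : coeff (single T.y b + single s r₂) (T.v j) ≠ 0
  cD : coeff (single s r) (T.D i j) ≠ 0

lemma exists_Vx {s : σ} (hsx : s ≠ T.x) (hsy : s ≠ T.y) : Nonempty (T.Vx s) := by
  classical
  have hxy := T.hxy
  set q : σ → ℂ := Pi.single s 1 with hq
  have hqx : q T.x = 0 := Pi.single_eq_of_ne hsx.symm _
  have hqy : q T.y = 0 := Pi.single_eq_of_ne hsy.symm _
  have hq0 : q ≠ 0 := fun h => by simpa [hq] using congrFun h s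
  set A : Set σ := {T.x, T.y, s} with hA
  have hxA : T.x ∈ A := by simp [hA]
  have hyA : T.y ∈ A := by simp [hA]
  have hqA : ∀ k, k ∉ A → q k = 0 := fun k hk =>
    Pi.single_eq_of_ne (fun h => hk (by simp [hA, h])) _
  obtain ⟨i, j, hij⟩ := T.LF q hq0
  have hev : ∀ k, eval q (kl A (T.v k)) = 0 := fun k => by
    rw [eval_kl hqA, T.eval_v hqx hqy]
  have hnt : ∀ α β, kl A T.P ≠ X T.x ^ T.N * α + X T.y ^ T.N * β := by
    intro α β h
    obtain ⟨c, hc⟩ := T.triv hxA hyA h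
    apply hij
    rw [← eval_kl hqA, hc, map_sub, map_mul, map_mul, hev, hev]; ring
  have hP0 : kl A T.P ≠ 0 := fun h => hnt 0 0 (by rw [h]; ring)
  obtain ⟨d, hdA, hd⟩ := exists_of_kl_ne_zero hP0
  have hw : ∀ d : σ →₀ ℕ, (∀ k, d k ≠ 0 → k ∈ A) →
      weight T.w d = (d T.x : ℤ) • T.w T.x + (d T.y : ℤ) • T.w T.y + (d s : ℤ) • T.w s := by
    intro d hd
    rw [weight_eq_sum T.w (F := {T.x, T.y, s}) (fun k hk => by simpa [hA] using hd k hk),
      Finset.sum_insert (by simp [hxy, hsx.symm]), Finset.sum_insert (by simp [hsy.symm]),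
      Finset.sum_singleton, add_assoc]
  have hform : ∀ d : σ →₀ ℕ, (∀ k, d k ≠ 0 → k ∈ A) →
      d = single T.x (d T.x) + single T.y (d T.y) + single s (d s) := by
    intro d hd
    ext k
    by_cases h1 : k = T.x
    · subst h1; simp [hxy, hsx.symm]
    by_cases h2 : k = T.y
    · subst h2; simp [hxy.symm, hsy.symm]
    by_cases h3 : k = s
    · subst h3; simp [hsx, hsy]
    have : d k = 0 := by
      by_contra h4
      have := hd k h4
      simp [hA, h1, h2, h3] at this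
    simp [this, h1, h2, h3]
  have hmon : kl A T.P = monomial d (coeff d T.P) := by
    rw [← coeff_kl_of T.P hdA]
    apply eq_monomial_of_support_subset_singleton
    intro d' hd'
    obtain ⟨h1, h2⟩ := of_coeff_kl (MvPolynomial.mem_support_iff.mp hd')
    have e1 := T.hP h2
    have e2 := T.hP hd
    rw [hw d' h1] at e1
    rw [hw d hdA] at e2
    obtain ⟨f1, f2, f3⟩ := T.indep s hsx hsy ((d' T.x : ℤ) - d T.x) ((d' T.y : ℤ) - d T.y)
      ((d' s : ℤ) - d s) (by linear_combination (norm := module) e1 - e2)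
    rw [hform d' h1, hform d hdA]
    congr 2
    · congr 1; omega
    · congr 1; omega
    · omega
  have hfac : kl A T.P = X T.x ^ d T.x * X T.y ^ d T.y * (C (coeff d T.P) * X s ^ d s) := by
    rw [hmon, X_pow_eq_monomial, X_pow_eq_monomial, X_pow_eq_monomial, C_mul_monomial,
      monomial_mul, monomial_mul, ← hform d hdA]
    simp
  have hdx : d T.x < T.N := by
    by_contra hlt
    obtain ⟨k, hk⟩ : ∃ k, d T.x = T.N + k := ⟨d T.x - T.N, by omega⟩
    refine hnt (X T.x ^ k * X T.y ^ d T.y * (C (coeff d T.P) * X s ^ d s)) 0 ?_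
    rw [hfac, hk]; ring
  have hdy : d T.y < T.N := by
    by_contra hlt
    obtain ⟨k, hk⟩ : ∃ k, d T.y = T.N + k := ⟨d T.y - T.N, by omega⟩
    refine hnt 0 (X T.x ^ d T.x * X T.y ^ k * (C (coeff d T.P) * X s ^ d s)) ?_
    rw [hfac, hk]; ring
  have hds : 0 < d s := by
    have e2 := congrArg T.lam (T.hP hd)
    rw [hw d hdA] at e2
    simp only [map_add, map_zsmul, T.lx, T.ly, smul_eq_mul, mul_zero, zero_add] at e2
    have := T.lp
    by_contra h0
    have : d s = 0 := by omega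
    rw [this] at e2
    simp at e2
    omega
  have hQ : kl {T.x, T.y}ᶜ (C (coeff d T.P) * X s ^ d s) ≠ 0 := by
    rw [map_mul, map_pow, kl_X_mem (by simp [hsx, hsy]), ← algebraMap_eq, AlgHom.commutes,
      algebraMap_eq]
    exact mul_ne_zero (C_ne_zero.mpr hd) (pow_ne_zero _ (X_ne_zero _))
  obtain ⟨U, V, c, hUV, hc⟩ := T.decomp hxA hyA (a := T.N - d T.x) (b := T.N - d T.y)
    (by omega) (by omega) hfac hQ
  have main : ∀ i j, eval q (T.D i j) ≠ 0 → eval q (U i) ≠ 0 → eval q (V j) ≠ 0 →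
      Nonempty (T.Vx s) := by
    intro i j h1 h2 h3
    obtain ⟨r, hr⟩ := exists_coeff_of_eval_single h1
    obtain ⟨r₁, hr₁⟩ := exists_coeff_of_eval_single h2
    obtain ⟨r₂, hr₂⟩ := exists_coeff_of_eval_single h3
    refine ⟨⟨T.N - d T.x, T.N - d T.y, d s, r₁, r₂, r, i, j, by omega, by omega, hds,
      by omega, by omega, ?_, ?_, ?_, hr⟩⟩
    · rw [show T.N - (T.N - d T.x) = d T.x by omega, show T.N - (T.N - d T.y) = d T.y by omega,
        ← hform d hdA]
      exact hd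
    · rw [← coeff_kl_of (A := A), hUV, coeff_add, coeff_X_pow_mul_add, coeff_X_pow_mul_of_lt,
        add_zero]
      · exact hr₁
      · simp [hxy.symm, hsy.symm]; omega
      · intro k hk
        by_contra hkA
        simp only [hA, Set.mem_insert_iff, Set.mem_singleton_iff, not_or] at hkA
        simp [hkA.1, hkA.2.2] at hk
    · rw [← coeff_kl_of (A := A), hUV, coeff_add, coeff_X_pow_mul_add, coeff_X_pow_mul_of_lt,
        zero_add]
      · exact hr₂
      · simp [hxy, hsx.symm]; omega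
      · intro k hk
        by_contra hkA
        simp only [hA, Set.mem_insert_iff, Set.mem_singleton_iff, not_or] at hkA
        simp [hkA.2.1, hkA.2.2] at hk
  have hij' := hij
  rw [← eval_kl hqA, hc] at hij'
  simp only [map_add, map_sub, map_mul, hev, zero_mul, mul_zero, sub_zero, add_zero] at hij'
  have h5 := right_ne_zero_of_mul hij'
  by_cases h6 : eval q (U i) * eval q (V j) = 0
  · rw [h6, zero_sub, neg_ne_zero] at h5
    exact main j i (by rw [T.D_skew, map_neg, neg_ne_zero]; exact hij)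
      (right_ne_zero_of_mul h5) (left_ne_zero_of_mul h5)
  · exact main i j hij (left_ne_zero_of_mul h6) (right_ne_zero_of_mul h6)

end Dat

end Pool.Agent.P.MP_b01859_ag
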