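import Pool.Agent.P.MP_b01859_ag.Core1

/-!
Comparison of two fixed points along the invariant line joining them.
-/

namespace Pool.Agent.P.MP_b01859_ag

open MvPolynomial Finsupp

variable {σ : Type} {Γ : Type} [AddCommGroup Γ] {ι : Type}

lemma weight_single' (w : σ → Γ) (s : σ) (k : ℕ) : weight w (single s k) = (k : ℤ) • w s := by
  rw [weight_single]; simp

open Classical in
/-- One-variable dehomogenization. -/
noncomputable def deh₁ (A : Set σ) (t : σ) : Pol σ →ₐ[ℂ] Polynomial ℂ :=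
  aeval (fun i => if i ∈ A then (if i = t then Polynomial.X else 1) else 0)

open Classical in
lemma deh₁_monomial (A : Set σ) (t : σ) (d : σ →₀ ℕ) (c : ℂ) :
    deh₁ A t (monomial d c) =
      if ∀ i, d i ≠ 0 → i ∈ A then Polynomial.monomial (d t) c else 0 := by
  rw [deh₁, aeval_monomial]
  split_ifs with h
  · rw [← Polynomial.C_mul_X_pow_eq_monomial, Polynomial.algebraMap_eq]
    congr 1
    rw [Finsupp.prod, Finset.prod_eq_single t]
    · by_cases h0 : d t = 0
      · simp [h0]
      · rw [if_pos (h t h0), if_pos rfl]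
    · intro i hi hit
      rw [if_pos (h i (Finsupp.mem_support_iff.mp hi)), if_neg hit, one_pow]
    · intro h0
      rw [Finsupp.notMem_support_iff.mp h0, pow_zero]
  · push Not at h
    obtain ⟨i, hi, hiA⟩ := h
    rw [Finsupp.prod, Finset.prod_eq_zero (Finsupp.mem_support_iff.mpr hi), mul_zero]
    rw [if_neg hiA, zero_pow hi]

lemma coeff_deh₁ {A : Set σ} {t : σ} {f : Pol σ} {d₀ : σ →₀ ℕ} (h₀ : ∀ i, d₀ i ≠ 0 → i ∈ A)
    (hu : ∀ d, (∀ i, d i ≠ 0 → i ∈ A) → coeff d f ≠ 0 → d t = d₀ t → d = d₀) :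
    (deh₁ A t f).coeff (d₀ t) = coeff d₀ f := by
  classical
  conv_lhs => rw [f.as_sum, map_sum, Polynomial.finsetSum_coeff]
  rw [Finset.sum_eq_single d₀]
  · rw [deh₁_monomial, if_pos h₀, Polynomial.coeff_monomial, if_pos rfl]
  · intro d hd hne
    rw [deh₁_monomial]
    split_ifs with h
    · rw [Polynomial.coeff_monomial, if_neg]
      exact fun h1 => hne (hu d h (MvPolynomial.mem_support_iff.mp hd) h1)
    · simp
  · intro h
    rw [MvPolynomial.notMem_support_iff.mp h]
    simp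

open Classical in
lemma eval_deh₁ (A : Set σ) (t : σ) (ρ : ℂ) (f : Pol σ) :
    (deh₁ A t f).eval ρ = eval (fun i => if i ∈ A then (if i = t then ρ else 1) else 0) f := by
  have : (Polynomial.evalRingHom ρ).comp (deh₁ A t : Pol σ →+* Polynomial ℂ) =
      eval (fun i => if i ∈ A then (if i = t then ρ else 1) else 0) := by
    apply MvPolynomial.ringHom_ext
    · intro r; simp [deh₁]
    · intro i
      simp only [deh₁, RingHom.coe_comp, RingHom.coe_coe, Function.comp_apply, aeval_X,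
        Polynomial.coe_evalRingHom, eval_X]
      split_ifs <;> simp
  exact congrArg (fun φ : Pol σ →+* ℂ => φ f) this

namespace Dat

variable {T : Dat σ Γ ι}

lemma Vx.g₀_eq {s : σ} (V : T.Vx s) :
    T.g₀ = (V.a : ℤ) • T.w T.x + (V.b : ℤ) • T.w T.y - (V.e : ℤ) • T.w s := by
  have h := T.hP V.cP
  simp only [map_add, weight_single'] at h
  rw [T.hg₀, ← h, Nat.cast_sub V.haN, Nat.cast_sub V.hbN]
  module

lemma Vx.γ₁ {s : σ} (V : T.Vx s) :
    T.γ V.i = (V.a : ℤ) • T.w T.x + (V.r₁ : ℤ) • T.w s := by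
  have h := T.hv _ V.c₁
  simp only [map_add, weight_single'] at h
  exact h.symm

lemma Vx.γ₂ {s : σ} (V : T.Vx s) :
    T.γ V.j = (V.b : ℤ) • T.w T.y + (V.r₂ : ℤ) • T.w s := by
  have h := T.hv _ V.c₂
  simp only [map_add, weight_single'] at h
  exact h.symm

lemma coords₄ {s s' : σ} (hsx : s ≠ T.x) (hsy : s ≠ T.y) (V : T.Vx s) (V' : T.Vx s')
    {zx zy z z' : ℤ} (h : zx • T.w T.x + zy • T.w T.y + z • T.w s + z' • T.w s' = 0) :
    V'.e * zx + z' * (V'.a - V.a) = 0 ∧ V'.e * zy + z' * (V'.b - V.b) = 0 ∧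
      V'.e * z + z' * V.e = 0 := by
  apply T.indep s hsx hsy
  linear_combination (norm := module) (V'.e : ℤ) • h + z' • V.g₀_eq - z' • V'.g₀_eq

lemma weight₄ {s s' : σ} (hsx : s ≠ T.x) (hsy : s ≠ T.y) (hsx' : s' ≠ T.x) (hsy' : s' ≠ T.y)
    (hss : s ≠ s') {d : σ →₀ ℕ} (hd : ∀ k, d k ≠ 0 → k ∈ ({T.x, T.y, s, s'} : Set σ)) :
    weight T.w d = (d T.x : ℤ) • T.w T.x + (d T.y : ℤ) • T.w T.y + (d s : ℤ) • T.w s +
      (d s' : ℤ) • T.w s' := by
  classical
  have hxy := T.hxy
  rw [weight_eq_sum T.w (F := {T.x, T.y, s, s'}) (fun k hk => by simpa using hd k hk),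
    Finset.sum_insert (by simp [hxy, hsx.symm, hsx'.symm]),
    Finset.sum_insert (by simp [hsy.symm, hsy'.symm]), Finset.sum_insert (by simp [hss]),
    Finset.sum_singleton]
  abel

lemma weight₂ {s s' : σ} (hss : s ≠ s') {d : σ →₀ ℕ}
    (hd : ∀ k, d k ≠ 0 → k ∈ ({s, s'} : Set σ)) :
    weight T.w d = (d s : ℤ) • T.w s + (d s' : ℤ) • T.w s' := by
  classical
  rw [weight_eq_sum T.w (F := {s, s'}) (fun k hk => by simpa using hd k hk),
    Finset.sum_insert (by simp [hss]), Finset.sum_singleton]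

/-- Two fixed points cannot have comparable exponents. -/
lemma not_comparable {s s' : σ} (hsx : s ≠ T.x) (hsy : s ≠ T.y) (hsx' : s' ≠ T.x)
    (hsy' : s' ≠ T.y) (hss : s ≠ s') (V : T.Vx s) (V' : T.Vx s') (ha : V.a ≤ V'.a)
    (hb : V.b ≤ V'.b) : False := by
  classical
  have hxy := T.hxy
  set A : Set σ := {T.x, T.y, s, s'} with hA
  have hxA : T.x ∈ A := by simp [hA]
  have hyA : T.y ∈ A := by simp [hA]
  set m : σ →₀ ℕ := single T.x (T.N - V'.a) + single T.y (T.N - V'.b) with hm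
  have hp : T.p = ((T.N : ℤ) - V'.a) • T.w T.x + ((T.N : ℤ) - V'.b) • T.w T.y +
      (V'.e : ℤ) • T.w s' := by
    have h := T.hP V'.cP
    simp only [map_add, weight_single'] at h
    rw [← h, Nat.cast_sub V'.haN, Nat.cast_sub V'.hbN]
  have hle : ∀ d, coeff d (kl A T.P) ≠ 0 → m ≤ d := by
    intro d hd
    obtain ⟨h1, h2⟩ := of_coeff_kl hd
    have e1 := T.hP h2
    rw [weight₄ hsx hsy hsx' hsy' hss h1, hp] at e1
    obtain ⟨f1, f2, f3⟩ := coords₄ hsx hsy V V' (zx := d T.x - (T.N - V'.a))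
      (zy := d T.y - (T.N - V'.b)) (z := d s) (z' := d s' - V'.e)
      (by linear_combination (norm := module) e1)
    have he := V.he
    have he' := V'.he
    have haN := V'.haN
    have hbN := V'.hbN
    have hz : ((d s' : ℤ) - V'.e) ≤ 0 := by
      by_contra hlt
      push Not at hlt
      have : (0 : ℤ) < ((d s' : ℤ) - V'.e) * V.e := mul_pos hlt (by exact_mod_cast he)
      have : (0 : ℤ) ≤ (V'.e : ℤ) * d s := by positivity
      omega
    have g1 : (0 : ℤ) ≤ (d T.x : ℤ) - (T.N - V'.a) := by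
      by_contra hlt
      push Not at hlt
      have : (V'.e : ℤ) * (d T.x - (T.N - V'.a)) < 0 :=
        mul_neg_of_pos_of_neg (by exact_mod_cast he') hlt
      have : ((d s' : ℤ) - V'.e) * (V'.a - V.a) ≤ 0 :=
        mul_nonpos_of_nonpos_of_nonneg hz (by omega)
      omega
    have g2 : (0 : ℤ) ≤ (d T.y : ℤ) - (T.N - V'.b) := by
      by_contra hlt
      push Not at hlt
      have : (V'.e : ℤ) * (d T.y - (T.N - V'.b)) < 0 :=
        mul_neg_of_pos_of_neg (by exact_mod_cast he') hlt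
      have : ((d s' : ℤ) - V'.e) * (V'.b - V.b) ≤ 0 :=
        mul_nonpos_of_nonpos_of_nonneg hz (by omega)
      omega
    intro k
    by_cases k1 : k = T.x
    · subst k1; simp [hm, hxy]; omega
    by_cases k2 : k = T.y
    · subst k2; simp [hm, hxy.symm]; omega
    simp [hm, k1, k2]
  set Q : Pol σ := divMonomial (kl A T.P) m with hQ
  have hfac : kl A T.P = X T.x ^ (T.N - V'.a) * X T.y ^ (T.N - V'.b) * Q := by
    have h1 := divMonomial_add_modMonomial (kl A T.P) m
    have h2 : modMonomial (kl A T.P) m = 0 := by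
      ext d
      by_cases hd : m ≤ d
      · rw [coeff_modMonomial_of_le _ hd, coeff_zero]
      · rw [coeff_modMonomial_of_not_le _ hd, coeff_zero]
        by_contra h3
        exact hd (hle d h3)
    rw [h2, add_zero] at h1
    rw [X_pow_eq_monomial, X_pow_eq_monomial, monomial_mul, one_mul, ← hm, hQ, h1]
  have hQc : ∀ d, coeff d Q = coeff (m + d) (kl A T.P) := fun d => coeff_divMonomial _ _ _
  have hQe : coeff (single s' V'.e) Q ≠ 0 := by
    rw [hQc, coeff_kl_of]
    · exact V'.cP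
    · intro k hk
      by_contra hkA
      simp only [hA, Set.mem_insert_iff, Set.mem_singleton_iff, not_or] at hkA
      simp [hm, hkA.1, hkA.2.1, hkA.2.2.2] at hk
  have hQ0 : kl {T.x, T.y}ᶜ Q ≠ 0 := by
    refine kl_ne_zero (fun k hk => ?_) hQe
    have : k = s' := by
      by_contra h; simp [h] at hk
    simp [this, hsx', hsy']
  obtain ⟨U, W, c, -, hc⟩ := T.decomp hxA hyA (a := V'.a) (b := V'.b)
    (by have := V'.haN; omega) (by have := V'.hbN; omega) hfac hQ0
  -- a zero of `Q` on the line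
  have hcoef : (deh₁ {s, s'} s' Q).coeff V'.e ≠ 0 := by
    have h1 := coeff_deh₁ (A := {s, s'}) (t := s') (f := Q) (d₀ := single s' V'.e)
      (fun k hk => by
        have : k = s' := by
          by_contra h; simp [h] at hk
        simp [this])
      (fun d hd hdc hds => by
        rw [hQc] at hdc
        have e1 := congrArg T.lam (T.hP (of_coeff_kl hdc).2)
        rw [map_add, weight₂ hss hd, hp, hm] at e1
        simp only [map_add, weight_single', map_zsmul, T.lx, T.ly, smul_eq_mul, mul_zero,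
          zero_add, single_eq_same] at e1 hds
        rw [hds] at e1
        have h3 := T.ls s hsx hsy
        have h4 : (d s : ℤ) * T.lam (T.w s) = 0 := by linarith
        have h5 : d s = 0 := by
          rcases mul_eq_zero.mp h4 with h | h
          · exact_mod_cast h
          · omega
        ext k
        by_cases k1 : k = s'
        · subst k1; simp [hds]
        by_cases k2 : k = s
        · subst k2; simp [h5, k1]
        have : d k = 0 := by
          by_contra h6
          have := hd k h6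
          simp [k1, k2] at this
        simp [this, k1])
    rw [single_eq_same] at h1
    rwa [h1]
  have hdeg : (deh₁ {s, s'} s' Q).degree ≠ 0 := by
    intro h0
    have h1 := Polynomial.le_degree_of_ne_zero hcoef
    rw [h0] at h1
    have h2 : V'.e ≤ 0 := by exact_mod_cast h1
    have := V'.he
    omega
  obtain ⟨ρ, hρ⟩ := IsAlgClosed.exists_root _ hdeg
  rw [Polynomial.IsRoot, eval_deh₁] at hρ
  set q : σ → ℂ := fun i => if i ∈ ({s, s'} : Set σ) then (if i = s' then ρ else 1) else 0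
    with hq
  have hρ' : eval q Q = 0 := by convert hρ
  have hq0 : q ≠ 0 := fun h => by simpa [hq, hss] using congrFun h s
  have hqx : q T.x = 0 := by simp [hq, hsx.symm, hsx'.symm]
  have hqy : q T.y = 0 := by simp [hq, hsy.symm, hsy'.symm]
  have hqA : ∀ k, k ∉ A → q k = 0 := by
    intro k hk
    simp only [hA, Set.mem_insert_iff, Set.mem_singleton_iff, not_or] at hk
    simp [hq, hk.2.2.1, hk.2.2.2]
  obtain ⟨i, j, hij⟩ := T.LF q hq0
  apply hij
  have hev : ∀ k, eval q (kl A (T.v k)) = 0 := fun k => by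
    rw [eval_kl hqA, T.eval_v hqx hqy]
  rw [← eval_kl hqA, hc]
  simp only [map_add, map_sub, map_mul, hev, hρ']
  ring

/-- Two fixed points with incomparable exponents lie on a hyperbola. -/
lemma hyperbola {s s' : σ} (hsx : s ≠ T.x) (hsy : s ≠ T.y) (hss : s ≠ s') (V : T.Vx s)
    (V' : T.Vx s') (ha : V.a < V'.a) (hb : V'.b < V.b) :
    V.a * V.b = V'.a * V'.b ∧ kl {s, s'} (T.D V.i V'.i) ≠ 0 := by
  have hsup : ∀ (t : σ) (k : ℕ), t ∈ ({s, s'} : Set σ) → ∀ i, (single t k) i ≠ 0 →
      i ∈ ({s, s'} : Set σ) := by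
    intro t k ht i hi
    have : i = t := by
      by_contra h; simp [h] at hi
    exact this ▸ ht
  have h1 : kl {s, s'} (T.D V.i V.j) ≠ 0 := kl_ne_zero (hsup s _ (by simp)) V.cD
  have h2 : kl {s, s'} (T.D V'.i V'.j) ≠ 0 := kl_ne_zero (hsup s' _ (by simp)) V'.cD
  have he' : (0 : ℤ) < V'.e := by exact_mod_cast V'.he
  have h3 : kl {s, s'} (T.D V.i V'.j) = 0 := by
    by_contra h
    obtain ⟨d, hd, hc⟩ := exists_of_kl_ne_zero h
    have e1 := T.hD _ _ hc
    rw [weight₂ hss hd, V.γ₁, V'.γ₂, V.g₀_eq] at e1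
    obtain ⟨f1, f2, -⟩ := coords₄ hsx hsy V V' (zx := 0) (zy := V.b - V'.b)
      (z := d s - V.r₁ - V.e) (z' := d s' - V'.r₂) (by linear_combination (norm := module) e1)
    have g1 : (d s' : ℤ) - V'.r₂ = 0 := by
      rw [mul_zero, zero_add] at f1
      rcases mul_eq_zero.mp f1 with h | h
      · exact h
      · omega
    rw [g1, zero_mul, add_zero] at f2
    rcases mul_eq_zero.mp f2 with h | h <;> omega
  have h4 := congrArg (kl {s, s'}) (T.pl_D V.i V.j V'.i V'.j)
  simp only [map_add, map_sub, map_mul, map_zero, h3, zero_mul, add_zero] at h4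
  have h5 : kl {s, s'} (T.D V.i V'.i) ≠ 0 := by
    intro h
    rw [h, zero_mul, sub_zero] at h4
    exact mul_ne_zero h1 h2 h4
  refine ⟨?_, h5⟩
  obtain ⟨d, hd, hc⟩ := exists_of_kl_ne_zero h5
  have e1 := T.hD _ _ hc
  rw [weight₂ hss hd, V.γ₁, V'.γ₁, V.g₀_eq] at e1
  obtain ⟨f1, f2, -⟩ := coords₄ hsx hsy V V' (zx := - V'.a) (zy := V.b)
    (z := d s - V.r₁ - V.e) (z' := d s' - V'.r₁) (by linear_combination (norm := module) e1)
  have g : (V'.e : ℤ) * (V.a * V.b - V'.a * V'.b) = 0 := by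
    linear_combination ((V'.b : ℤ) - V.b) * f1 - ((V'.a : ℤ) - V.a) * f2
  have g2 : (V.a : ℤ) * V.b - V'.a * V'.b = 0 := (mul_eq_zero.mp g).resolve_left he'.ne'
  have g3 : (V.a : ℤ) * V.b = V'.a * V'.b := by linarith
  exact_mod_cast g3

end Dat

end Pool.Agent.P.MP_b01859_ag
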