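import Mathlib

/-!
A positivity lemma for factorizations of a binomial over the complex numbers.
-/

namespace Pool.Agent.P.MP_b01859_ag

open Polynomial

/-- Lagrange's identity: the sum of `R(w)/H'(w)` over the roots of a separable `H` vanishes
when `deg R + 2 ≤ deg H`. -/
lemma sum_div_derivative (H R : ℂ[X]) (hH : H ≠ 0) (hsep : H.roots.Nodup)
    (hR : R.natDegree + 2 ≤ H.natDegree) :
    ∑ w ∈ H.roots.toFinset, R.eval w / H.derivative.eval w = 0 := by
  classical
  set s := H.roots.toFinset with hs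
  have hcard : s.card = H.natDegree := by
    rw [hs, Multiset.toFinset_card_of_nodup hsep]
    exact IsAlgClosed.card_roots_eq_natDegree
  have hinj : Set.InjOn (fun x : ℂ => x) (s : Set ℂ) := fun _ _ _ _ h => h
  have hdeg : R.degree < s.card := by
    rw [hcard]
    calc R.degree ≤ R.natDegree := degree_le_natDegree
      _ < H.natDegree := by exact_mod_cast (by omega)
  have h1 := Lagrange.coeff_eq_sum hinj hdeg
  have h0 : R.coeff (s.card - 1) = 0 := coeff_eq_zero_of_natDegree_lt (by omega)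
  rw [h0] at h1
  have hfac : H = C H.leadingCoeff * Lagrange.nodal s (fun x : ℂ => x) := by
    have h2 := (IsAlgClosed.splits H).eq_prod_roots
    rw [Lagrange.nodal]
    conv_lhs => rw [h2]
    congr 1
    rw [hs, Finset.prod_eq_multiset_prod, Multiset.toFinset_val, Multiset.dedup_eq_self.mpr hsep]
  have hlc : H.leadingCoeff ≠ 0 := leadingCoeff_ne_zero.mpr hH
  have h3 : ∀ w ∈ s, H.derivative.eval w = H.leadingCoeff * ∏ j ∈ s.erase w, (w - j) := by
    intro w hw
    conv_lhs => rw [hfac]
    rw [derivative_C_mul, eval_mul, eval_C]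
    congr 1
    have := Lagrange.eval_nodal_derivative_eval_node_eq (s := s) (v := fun x : ℂ => x) hw
    rw [this, Lagrange.eval_nodal]
  calc ∑ w ∈ s, R.eval w / H.derivative.eval w
      = ∑ w ∈ s, (H.leadingCoeff)⁻¹ * (R.eval w / ∏ j ∈ s.erase w, (w - j)) := by
        refine Finset.sum_congr rfl fun w hw => ?_
        rw [h3 w hw]
        field_simp
    _ = 0 := by rw [← Finset.mul_sum, ← h1, mul_zero]

/-- The positivity lemma. -/
theorem binomial_rigid (H K Ht G : ℂ[X]) (c₁ c₂ c₃ : ℂ) (A o : ℕ) (hA : 0 < A)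
    (h₁ : c₁ ≠ 0) (h₃ : c₃ ≠ 0) (hHK : H * K = C c₁ + C c₃ * X ^ A)
    (hdeg : (X ^ o * Ht).degree < H.degree) (hG : G.degree < o)
    (hroot : ∀ w : ℂ, H.eval w = 0 → w ^ o * Ht.eval w * K.eval w = c₂ * w ^ A * G.eval w) :
    Ht = 0 := by
  classical
  by_contra hHt
  have hbin : ∀ w : ℂ, H.eval w = 0 → c₃ * w ^ A = -c₁ := by
    intro w hw
    have := congrArg (eval w) hHK
    simp only [eval_mul, hw, zero_mul, eval_add, eval_C, eval_pow, eval_X] at this
    linear_combination -this
  have hw0 : ∀ w : ℂ, H.eval w = 0 → w ≠ 0 := by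
    intro w hw h0
    have := hbin w hw
    rw [h0, zero_pow hA.ne', mul_zero] at this
    exact h₁ (by linear_combination this)
  have hder : ∀ w : ℂ, H.eval w = 0 →
      H.derivative.eval w * K.eval w = A * c₃ * w ^ (A - 1) := by
    intro w hw
    have := congrArg (fun p => eval w (derivative p)) hHK
    simp only [derivative_mul, eval_add, eval_mul, hw, zero_mul, add_zero, derivative_add,
      derivative_C, zero_add, derivative_X_pow, eval_C, eval_pow, eval_X, eval_zero] at this
    rw [this]; ring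
  have hne : ∀ w : ℂ, H.eval w = 0 → (A : ℂ) * c₃ * w ^ (A - 1) ≠ 0 := fun w hw =>
    mul_ne_zero (mul_ne_zero (Nat.cast_ne_zero.mpr hA.ne') h₃) (pow_ne_zero _ (hw0 w hw))
  have hH : H ≠ 0 := by
    rintro rfl
    simp at hdeg
  have hsep : H.roots.Nodup := by
    rw [Multiset.nodup_iff_count_le_one]
    intro w
    rw [count_roots]
    by_contra hlt
    have h2 : 1 < H.rootMultiplicity w := by omega
    have hr := (one_lt_rootMultiplicity_iff_isRoot hH).mp h2
    have h4 := hder w hr.1
    rw [hr.2.eq_zero, zero_mul] at h4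
    exact hne w hr.1 h4.symm
  have hXo : (X ^ o * Ht).natDegree = o + Ht.natDegree := by
    rw [natDegree_mul (pow_ne_zero _ X_ne_zero) hHt, natDegree_X_pow]
  have hdeg' : o + Ht.natDegree < H.natDegree := by
    rw [← hXo]
    exact natDegree_lt_natDegree (mul_ne_zero (pow_ne_zero _ X_ne_zero) hHt) hdeg
  set s := H.roots.toFinset with hs
  have hmem : ∀ w ∈ s, H.eval w = 0 := by
    intro w hw
    rw [hs, Multiset.mem_toFinset, mem_roots hH] at hw
    exact hw
  -- vanishing of the moments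
  have hmom : ∀ l < o, c₂ * ∑ w ∈ s, G.eval w * (w ^ l)⁻¹ = 0 := by
    intro l hl
    have hR : (X ^ (o - 1 - l) * Ht).natDegree + 2 ≤ H.natDegree := by
      rw [natDegree_mul (pow_ne_zero _ X_ne_zero) hHt, natDegree_X_pow]
      omega
    have h5 := sum_div_derivative H _ hH hsep hR
    have h6 : ∀ w ∈ s, (X ^ (o - 1 - l) * Ht).eval w / H.derivative.eval w
        = ((A : ℂ) * c₃)⁻¹ * (c₂ * (G.eval w * (w ^ l)⁻¹)) := by
      intro w hw
      have hw' := hmem w hw
      have e1 := hroot w hw'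
      have e2 := hder w hw'
      have e3 := hne w hw'
      have e4 := hw0 w hw'
      have hK : K.eval w ≠ 0 := by
        intro h; rw [h, mul_zero] at e2; exact e3 e2.symm
      have hD : H.derivative.eval w ≠ 0 := by
        intro h; rw [h, zero_mul] at e2; exact e3 e2.symm
      have hAc : (A : ℂ) ≠ 0 := Nat.cast_ne_zero.mpr hA.ne'
      have e5 : w ^ o = w ^ (o - 1 - l) * w * w ^ l := by
        rw [← pow_succ, ← pow_add]; congr 1; omega
      have e6 : w ^ A = w ^ (A - 1) * w := by
        rw [← pow_succ]; congr 1; omega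
      rw [e5, e6] at e1
      simp only [eval_mul, eval_pow, eval_X]
      field_simp
      apply mul_right_cancel₀ (mul_ne_zero hK e4)
      apply mul_right_cancel₀ (pow_ne_zero (A - 1) e4)
      linear_combination (A * c₃ * w ^ (A - 1)) * e1 - (c₂ * G.eval w * w * w ^ (A - 1)) * e2
    rw [Finset.sum_congr rfl h6, ← Finset.mul_sum, ← Finset.mul_sum] at h5
    have hAc : ((A : ℂ) * c₃)⁻¹ ≠ 0 :=
      inv_ne_zero (mul_ne_zero (Nat.cast_ne_zero.mpr hA.ne') h₃)
    exact (mul_eq_zero.mp h5).resolve_left hAc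
  -- all roots have the same absolute value
  obtain ⟨r, hr⟩ : ∃ r : ℝ, ∀ w ∈ s, ‖w‖ = r := by
    refine ⟨(‖c₁‖ / ‖c₃‖) ^ ((A : ℝ)⁻¹), fun w hw => ?_⟩
    have e1 := congrArg norm (hbin w (hmem w hw))
    rw [norm_mul, norm_pow, norm_neg] at e1
    have e2 : ‖w‖ ^ A = ‖c₁‖ / ‖c₃‖ := by
      rw [eq_div_iff (norm_ne_zero_iff.mpr h₃)]; linarith
    rw [← e2, Real.pow_rpow_inv_natCast (norm_nonneg w) hA.ne']
  have hconj : ∀ w ∈ s, ∀ l : ℕ, (starRingEnd ℂ) w ^ l = ((r : ℂ) ^ 2) ^ l * (w ^ l)⁻¹ := by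
    intro w hw l
    have e4 := hw0 w (hmem w hw)
    have e1 : (starRingEnd ℂ) w * w = (r : ℂ) ^ 2 := by
      rw [Complex.conj_mul', hr w hw]
    rw [← e1, mul_pow]
    field_simp
  have hsum : c₂ * ∑ w ∈ s, G.eval w * (starRingEnd ℂ) (G.eval w) = 0 := by
    have e1 : ∀ w ∈ s, G.eval w * (starRingEnd ℂ) (G.eval w) =
        ∑ l ∈ Finset.range o, ((starRingEnd ℂ) (G.coeff l) * ((r : ℂ) ^ 2) ^ l) *
          (G.eval w * (w ^ l)⁻¹) := by
      intro w hw
      have e2 : G.eval w = ∑ l ∈ Finset.range o, G.coeff l * w ^ l := by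
        by_cases hG0 : G = 0
        · simp [hG0]
        · exact eval_eq_sum_range' ((natDegree_lt_iff_degree_lt hG0).mpr hG) w
      conv_lhs => rw [e2, map_sum, ← e2, Finset.mul_sum]
      refine Finset.sum_congr rfl fun l _ => ?_
      rw [map_mul, map_pow, hconj w hw l]
      ring
    rw [Finset.sum_congr rfl e1, Finset.sum_comm, Finset.mul_sum]
    refine Finset.sum_eq_zero fun l hl => ?_
    rw [← Finset.mul_sum, mul_left_comm, hmom l (Finset.mem_range.mp hl), mul_zero]
  have hG0 : ∀ w ∈ s, c₂ * G.eval w = 0 := by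
    intro w hw
    rcases mul_eq_zero.mp hsum with h | h
    · rw [h, zero_mul]
    · have e1 : ∑ w ∈ s, Complex.normSq (G.eval w) = 0 := by
        have : ((∑ w ∈ s, Complex.normSq (G.eval w) : ℝ) : ℂ) = 0 := by
          rw [Complex.ofReal_sum, ← h]
          exact Finset.sum_congr rfl fun w _ => (Complex.mul_conj _).symm
        exact_mod_cast this
      have e2 := (Finset.sum_eq_zero_iff_of_nonneg (fun w _ => Complex.normSq_nonneg _)).mp e1 w hw
      rw [Complex.normSq_eq_zero.mp e2, mul_zero]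
  have hzero : ∀ w ∈ s, Ht.eval w = 0 := by
    intro w hw
    have hw' := hmem w hw
    have e1 := hroot w hw'
    have e2 := hder w hw'
    have e3 := hne w hw'
    have hK : K.eval w ≠ 0 := by
      intro h; rw [h, mul_zero] at e2; exact e3 e2.symm
    have e4 : w ^ o * Ht.eval w * K.eval w = 0 := by
      rw [e1]; linear_combination w ^ A * hG0 w hw
    rcases mul_eq_zero.mp e4 with h | h
    · exact (mul_eq_zero.mp h).resolve_left (pow_ne_zero _ (hw0 w hw'))
    · exact absurd h hK
  have hcard : s.card = H.natDegree := by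
    rw [hs, Multiset.toFinset_card_of_nodup hsep]
    exact IsAlgClosed.card_roots_eq_natDegree
  exact hHt (eq_zero_of_natDegree_lt_card_of_eval_eq_zero' Ht s hzero (by omega))

end Pool.Agent.P.MP_b01859_ag
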