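import Pool.Agent.P.MP_b01859_ag.Core2
import Pool.Agent.P.MP_b01859_ag.Uni

/-!
The pentagon argument: three fixed points on the hyperbola are impossible.
-/

namespace Pool.Agent.P.MP_b01859_ag

open MvPolynomial Finsupp

variable {σ : Type} {Γ : Type} [AddCommGroup Γ] {ι : Type}

open Classical in
/-- Two-variable dehomogenization. -/
noncomputable def deh₂ (A : Set σ) (s t : σ) : Pol σ →ₐ[ℂ] Polynomial (Polynomial ℂ) :=
  aeval (fun i => if i ∈ A then (if i = t then Polynomial.X else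
    if i = s then Polynomial.C Polynomial.X else 1) else 0)

open Classical in
lemma deh₂_monomial (A : Set σ) {s t : σ} (hst : s ≠ t) (d : σ →₀ ℕ) (c : ℂ) :
    deh₂ A s t (monomial d c) =
      if ∀ i, d i ≠ 0 → i ∈ A then Polynomial.monomial (d t) (Polynomial.monomial (d s) c)
      else 0 := by
  rw [deh₂, aeval_monomial]
  split_ifs with h
  · rw [← Polynomial.C_mul_X_pow_eq_monomial, ← Polynomial.C_mul_X_pow_eq_monomial,
      Polynomial.C_mul, mul_assoc, Polynomial.C_pow]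
    congr 1
    rw [Finsupp.prod_of_support_subset d (s := insert s (insert t d.support))
      (fun i hi => by simp [hi]) _ (fun i _ => pow_zero _)]
    rw [Finset.prod_eq_mul s t hst]
    · congr 1
      · by_cases h0 : d s = 0
        · simp [h0]
        · rw [if_pos (h s h0), if_neg hst, if_pos rfl]
      · by_cases h0 : d t = 0
        · simp [h0]
        · rw [if_pos (h t h0), if_pos rfl]
    · intro i _ hi
      by_cases h0 : d i = 0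
      · simp [h0]
      · rw [if_pos (h i h0), if_neg hi.2, if_neg hi.1, one_pow]
    · simp
    · simp
  · push Not at h
    obtain ⟨i, hi, hiA⟩ := h
    rw [Finsupp.prod, Finset.prod_eq_zero (Finsupp.mem_support_iff.mpr hi), mul_zero]
    rw [if_neg hiA, zero_pow hi]

/-- `d` is a monomial of `f` in the variables from `A`. -/
def Mon (A : Set σ) (f : Pol σ) (d : σ →₀ ℕ) : Prop := (∀ i, d i ≠ 0 → i ∈ A) ∧ coeff d f ≠ 0

lemma coeff_deh₂ {A : Set σ} {s t : σ} (hst : s ≠ t) {f : Pol σ} {d₀ : σ →₀ ℕ}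
    (h₀ : ∀ i, d₀ i ≠ 0 → i ∈ A)
    (hu : ∀ d, Mon A f d → d s = d₀ s → d t = d₀ t → d = d₀) :
    ((deh₂ A s t f).coeff (d₀ t)).coeff (d₀ s) = coeff d₀ f := by
  classical
  conv_lhs => rw [f.as_sum, map_sum, Polynomial.finsetSum_coeff, Polynomial.finsetSum_coeff]
  rw [Finset.sum_eq_single d₀]
  · rw [deh₂_monomial A hst, if_pos h₀, Polynomial.coeff_monomial, if_pos rfl,
      Polynomial.coeff_monomial, if_pos rfl]
  · intro d hd hne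
    rw [deh₂_monomial A hst]
    split_ifs with h
    · rw [Polynomial.coeff_monomial]
      split_ifs with h1
      · rw [Polynomial.coeff_monomial, if_neg]
        exact fun h2 => hne (hu d ⟨h, MvPolynomial.mem_support_iff.mp hd⟩ h2 h1)
      · simp
    · simp
  · intro h
    rw [MvPolynomial.notMem_support_iff.mp h]
    simp

lemma of_coeff_deh₂ {A : Set σ} {s t : σ} (hst : s ≠ t) {f : Pol σ} {n j : ℕ}
    (h : ((deh₂ A s t f).coeff j).coeff n ≠ 0) : ∃ d, Mon A f d ∧ d s = n ∧ d t = j := by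
  classical
  rw [f.as_sum, map_sum, Polynomial.finsetSum_coeff, Polynomial.finsetSum_coeff] at h
  obtain ⟨d, hd, h1⟩ := Finset.exists_ne_zero_of_sum_ne_zero h
  rw [deh₂_monomial A hst] at h1
  split_ifs at h1 with h2
  · rw [Polynomial.coeff_monomial] at h1
    split_ifs at h1 with h3
    · rw [Polynomial.coeff_monomial] at h1
      split_ifs at h1 with h4
      · exact ⟨d, ⟨h2, MvPolynomial.mem_support_iff.mp hd⟩, h4, h3⟩
      · exact absurd rfl h1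
    · simp at h1
  · simp at h1

lemma deh₂_single {A : Set σ} {s t : σ} (hst : s ≠ t) {f : Pol σ} {d₀ : σ →₀ ℕ}
    (h₀ : ∀ i, d₀ i ≠ 0 → i ∈ A) (hu : ∀ d, Mon A f d → d s = d₀ s ∧ d t = 0)
    (hu' : ∀ d, Mon A f d → d s = d₀ s → d t = d₀ t → d = d₀) (ht : d₀ t = 0) :
    deh₂ A s t f = Polynomial.C (Polynomial.C (coeff d₀ f) * Polynomial.X ^ (d₀ s)) := by
  ext j n
  by_cases h : j = 0 ∧ n = d₀ s
  · obtain ⟨rfl, rfl⟩ := h
    have := coeff_deh₂ hst h₀ hu'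
    rw [ht] at this
    rw [this, Polynomial.coeff_C_zero, Polynomial.coeff_C_mul, Polynomial.coeff_X_pow,
      if_pos rfl, mul_one]
  · have h1 : ((deh₂ A s t f).coeff j).coeff n = 0 := by
      by_contra h2
      obtain ⟨d, hd, h3, h4⟩ := of_coeff_deh₂ hst h2
      obtain ⟨h5, h6⟩ := hu d hd
      exact h ⟨by omega, by omega⟩
    rw [h1, Polynomial.coeff_C]
    split_ifs with h2
    · rw [Polynomial.coeff_C_mul, Polynomial.coeff_X_pow, if_neg (fun h3 => h ⟨h2, h3⟩),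
        mul_zero]
    · simp

lemma exists_X_pow_mul {H : Polynomial ℂ} (h : H ≠ 0) :
    ∃ (i : ℕ) (H' : Polynomial ℂ), H = Polynomial.X ^ i * H' ∧ H'.coeff 0 ≠ 0 := by
  obtain ⟨q, hq, hq'⟩ := Polynomial.exists_eq_pow_rootMultiplicity_mul_and_not_dvd H h 0
  rw [map_zero, sub_zero] at hq hq'
  exact ⟨_, q, hq, fun h0 => hq' (Polynomial.X_dvd_iff.mpr h0)⟩

lemma X_pow_cancel {a b : ℕ} {p q : Polynomial ℂ} (hp : p.coeff 0 ≠ 0) (hq : q.coeff 0 ≠ 0)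
    (h : Polynomial.X ^ a * p = Polynomial.X ^ b * q) : a = b ∧ p = q := by
  have key : ∀ {a b : ℕ} {p q : Polynomial ℂ}, p.coeff 0 ≠ 0 →
      Polynomial.X ^ a * p = Polynomial.X ^ b * q → b ≤ a := by
    intro a b p q hp h
    by_contra hlt
    have h1 := congrArg (fun r => r.coeff a) h
    simp only [Polynomial.coeff_X_pow_mul'] at h1
    rw [if_pos le_rfl, if_neg hlt, Nat.sub_self] at h1
    exact hp h1
  have hab : a = b := le_antisymm (key hq h.symm) (key hp h)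
  subst hab
  exact ⟨rfl, mul_left_cancel₀ (pow_ne_zero _ Polynomial.X_ne_zero) h⟩

namespace Dat

variable {T : Dat σ Γ ι}

/-- Three fixed points in convex position. -/
structure Pent (T : Dat σ Γ ι) where
  s₁ : σ
  s₂ : σ
  s₃ : σ
  h1x : s₁ ≠ T.x
  h1y : s₁ ≠ T.y
  h2x : s₂ ≠ T.x
  h2y : s₂ ≠ T.y
  h3x : s₃ ≠ T.x
  h3y : s₃ ≠ T.y
  h12 : s₁ ≠ s₂
  h13 : s₁ ≠ s₃
  h23 : s₂ ≠ s₃
  V₁ : T.Vx s₁
  V₂ : T.Vx s₂
  V₃ : T.Vx s₃
  a12 : V₁.a < V₂.a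
  a23 : V₂.a < V₃.a
  b12 : V₂.b < V₁.b
  b23 : V₃.b < V₂.b

namespace Pent

variable (R : T.Pent)

/-- The five variables. -/
def A : Set σ := {T.x, T.y, R.s₁, R.s₂, R.s₃}

lemma weight₅ {d : σ →₀ ℕ} (hd : ∀ k, d k ≠ 0 → k ∈ R.A) :
    weight T.w d = (d T.x : ℤ) • T.w T.x + (d T.y : ℤ) • T.w T.y + (d R.s₁ : ℤ) • T.w R.s₁ +
      (d R.s₂ : ℤ) • T.w R.s₂ + (d R.s₃ : ℤ) • T.w R.s₃ := by
  classical
  rw [weight_eq_sum T.w (F := {T.x, T.y, R.s₁, R.s₂, R.s₃})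
      (fun k hk => by simpa [A] using hd k hk),
    Finset.sum_insert (by simp [T.hxy, R.h1x.symm, R.h2x.symm, R.h3x.symm]),
    Finset.sum_insert (by simp [R.h1y.symm, R.h2y.symm, R.h3y.symm]),
    Finset.sum_insert (by simp [R.h12, R.h13]), Finset.sum_insert (by simp [R.h23]),
    Finset.sum_singleton]
  abel

/-- The linear relations between the exponents of two monomials of the same degree. -/
def Rel (zx zy z₁ z₂ z₃ : ℤ) : Prop :=
  R.V₁.e * R.V₃.e * zx = R.V₃.e * z₁ * (R.V₂.a - R.V₁.a) - R.V₁.e * z₃ * (R.V₃.a - R.V₂.a) ∧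
  R.V₁.e * R.V₃.e * zy = R.V₁.e * z₃ * (R.V₂.b - R.V₃.b) - R.V₃.e * z₁ * (R.V₁.b - R.V₂.b) ∧
  R.V₁.e * R.V₃.e * z₂ = - (R.V₂.e * (R.V₃.e * z₁ + R.V₁.e * z₃))

lemma rel_of {zx zy z₁ z₂ z₃ : ℤ} (h : zx • T.w T.x + zy • T.w T.y + z₁ • T.w R.s₁ +
    z₂ • T.w R.s₂ + z₃ • T.w R.s₃ = 0) : R.Rel zx zy z₁ z₂ z₃ := by
  obtain ⟨h1, h2, h3⟩ := T.indep R.s₂ R.h2x R.h2y
    (R.V₁.e * R.V₃.e * zx - (R.V₃.e * z₁ * (R.V₂.a - R.V₁.a) -
      R.V₁.e * z₃ * (R.V₃.a - R.V₂.a)))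
    (R.V₁.e * R.V₃.e * zy - (R.V₁.e * z₃ * (R.V₂.b - R.V₃.b) -
      R.V₃.e * z₁ * (R.V₁.b - R.V₂.b)))
    (R.V₁.e * R.V₃.e * z₂ + (R.V₂.e * (R.V₃.e * z₁ + R.V₁.e * z₃)))
    (by
      linear_combination (norm := module) ((R.V₁.e : ℤ) * R.V₃.e) • h
        - ((R.V₃.e : ℤ) * z₁) • R.V₁.g₀_eq + ((R.V₃.e : ℤ) * z₁ + R.V₁.e * z₃) • R.V₂.g₀_eq
        - ((R.V₁.e : ℤ) * z₃) • R.V₃.g₀_eq)
  exact ⟨by linarith, by linarith, by linarith⟩

lemma rel_mon {d d' : σ →₀ ℕ} (hd : ∀ k, d k ≠ 0 → k ∈ R.A) (hd' : ∀ k, d' k ≠ 0 → k ∈ R.A)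
    (h : weight T.w d = weight T.w d') :
    R.Rel (d T.x - d' T.x) (d T.y - d' T.y) (d R.s₁ - d' R.s₁) (d R.s₂ - d' R.s₂)
      (d R.s₃ - d' R.s₃) := by
  apply R.rel_of
  rw [R.weight₅ hd, R.weight₅ hd'] at h
  linear_combination (norm := module) h

lemma e₁ : (0 : ℤ) < R.V₁.e := by exact_mod_cast R.V₁.he
lemma e₂ : (0 : ℤ) < R.V₂.e := by exact_mod_cast R.V₂.he
lemma e₃ : (0 : ℤ) < R.V₃.e := by exact_mod_cast R.V₃.he
lemma α₁ : (0 : ℤ) < R.V₂.a - R.V₁.a := by have := R.a12; omega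
lemma α₃ : (0 : ℤ) < R.V₃.a - R.V₂.a := by have := R.a23; omega
lemma β₁ : (0 : ℤ) < R.V₁.b - R.V₂.b := by have := R.b12; omega
lemma β₃ : (0 : ℤ) < R.V₂.b - R.V₃.b := by have := R.b23; omega

lemma convex : ((R.V₂.b : ℤ) - R.V₃.b) * (R.V₂.a - R.V₁.a) <
    (R.V₃.a - R.V₂.a) * (R.V₁.b - R.V₂.b) := by
  have h1 : (R.V₁.a : ℤ) * R.V₁.b = R.V₂.a * R.V₂.b := by
    exact_mod_cast (hyperbola R.h1x R.h1y R.h12 R.V₁ R.V₂ R.a12 R.b12).1
  have h2 : (R.V₂.a : ℤ) * R.V₂.b = R.V₃.a * R.V₃.b := by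
    exact_mod_cast (hyperbola R.h2x R.h2y R.h23 R.V₂ R.V₃ R.a23 R.b23).1
  have ha1 : (0 : ℤ) < R.V₁.a := by exact_mod_cast R.V₁.ha
  have hb3 : (0 : ℤ) < R.V₃.b := by exact_mod_cast R.V₃.hb
  have p1 := R.α₁
  have p3 := R.α₃
  have q1 := R.β₁
  have q3 := R.β₃
  generalize (R.V₁.a : ℤ) = a₁ at *
  generalize (R.V₂.a : ℤ) = a₂ at *
  generalize (R.V₃.a : ℤ) = a₃ at *
  generalize (R.V₁.b : ℤ) = b₁ at *
  generalize (R.V₂.b : ℤ) = b₂ at *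
  generalize (R.V₃.b : ℤ) = b₃ at *
  have k1 : a₁ * (b₁ - b₂) = b₂ * (a₂ - a₁) := by linarith
  have k3 : a₃ * (b₂ - b₃) = b₂ * (a₃ - a₂) := by linarith
  have hb2 : 0 < b₂ := by linarith
  have ha3 : 0 < a₃ := by linarith
  have k4 : a₁ * a₃ * ((a₃ - a₂) * (b₁ - b₂) - (b₂ - b₃) * (a₂ - a₁)) =
      b₂ * (a₂ - a₁) * (a₃ - a₂) * (a₃ - a₁) := by
    linear_combination a₃ * (a₃ - a₂) * k1 - a₁ * (a₂ - a₁) * k3
  have k5 : 0 < b₂ * (a₂ - a₁) * (a₃ - a₂) * (a₃ - a₁) :=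
    mul_pos (mul_pos (mul_pos hb2 p1) p3) (by linarith)
  rw [← k4] at k5
  have := (mul_pos_iff_of_pos_left (mul_pos ha1 ha3)).mp k5
  linarith

lemma rel_zero {zx zy z₂ : ℤ} (h : R.Rel zx zy 0 z₂ 0) : zx = 0 ∧ zy = 0 ∧ z₂ = 0 := by
  obtain ⟨h1, h2, h3⟩ := h
  have h0 := (mul_pos R.e₁ R.e₃).ne'
  simp only [mul_zero, zero_mul, sub_self, add_zero, neg_zero] at h1 h2 h3
  exact ⟨(mul_eq_zero.mp h1).resolve_left h0, (mul_eq_zero.mp h2).resolve_left h0,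
    (mul_eq_zero.mp h3).resolve_left h0⟩

lemma mon_ext {d d' : σ →₀ ℕ} (hd : ∀ k, d k ≠ 0 → k ∈ R.A) (hd' : ∀ k, d' k ≠ 0 → k ∈ R.A)
    (h : weight T.w d = weight T.w d') (h1 : d R.s₁ = d' R.s₁) (h3 : d R.s₃ = d' R.s₃) :
    d = d' := by
  have h4 := R.rel_mon hd hd' h
  rw [h1, h3, sub_self, sub_self] at h4
  obtain ⟨f1, f2, f3⟩ := R.rel_zero h4
  ext k
  by_cases hk : k ∈ R.A
  · simp only [A, Set.mem_insert_iff, Set.mem_singleton_iff] at hk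
    rcases hk with rfl | rfl | rfl | rfl | rfl <;> omega
  · have g1 : d k = 0 := by by_contra g; exact hk (hd k g)
    have g2 : d' k = 0 := by by_contra g; exact hk (hd' k g)
    rw [g1, g2]

lemma cone_x23 {zx zy z₁ z₂ z₃ : ℤ} (h : R.Rel zx zy z₁ z₂ z₃) (hx : 0 ≤ zx) (h2 : 0 ≤ z₂)
    (h3 : 0 ≤ z₃) : z₁ = 0 ∧ z₃ = 0 := by
  obtain ⟨f1, -, f3⟩ := h
  have e1 := R.e₁
  have e2 := R.e₂
  have e3 := R.e₃
  have p1 := R.α₁
  have p3 := R.α₃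
  have g1 : 0 ≤ R.V₁.e * R.V₃.e * zx := by positivity
  have g2 : 0 ≤ R.V₁.e * R.V₃.e * z₂ := by positivity
  have g3 : 0 ≤ R.V₁.e * z₃ * ((R.V₃.a : ℤ) - R.V₂.a) := by positivity
  have g4 : 0 ≤ R.V₃.e * z₁ := by
    by_contra hlt
    push Not at hlt
    have := mul_neg_of_neg_of_pos hlt p1
    linarith
  have g5 : R.V₃.e * z₁ + R.V₁.e * z₃ ≤ 0 := by
    by_contra hlt
    push Not at hlt
    have := mul_pos e2 hlt
    linarith
  have g6 : 0 ≤ R.V₁.e * z₃ := by positivity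
  have g7 : R.V₃.e * z₁ = 0 := by linarith
  have g8 : R.V₁.e * z₃ = 0 := by linarith
  exact ⟨(mul_eq_zero.mp g7).resolve_left e3.ne', (mul_eq_zero.mp g8).resolve_left e1.ne'⟩

lemma cone_xy3 {zx zy z₁ z₂ z₃ : ℤ} (h : R.Rel zx zy z₁ z₂ z₃) (hx : 0 ≤ zx) (hy : 0 ≤ zy)
    (h3 : 0 ≤ z₃) : z₁ = 0 ∧ z₃ = 0 := by
  obtain ⟨f1, f2, -⟩ := h
  have e1 := R.e₁
  have e3 := R.e₃
  have p1 := R.α₁
  have p3 := R.α₃
  have q1 := R.β₁
  have q3 := R.β₃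
  have cv := R.convex
  have g1 : 0 ≤ R.V₁.e * R.V₃.e * zx := by positivity
  have g2 : 0 ≤ R.V₁.e * R.V₃.e * zy := by positivity
  have g3 : z₃ = 0 := by
    by_contra hne
    have hpos : 0 < R.V₁.e * z₃ := mul_pos e1 (lt_of_le_of_ne h3 (Ne.symm hne))
    have k1 := mul_le_mul_of_nonneg_right (f1 ▸ g1) q1.le
    have k2 := mul_le_mul_of_nonneg_right (f2 ▸ g2) p1.le
    have k3 := mul_lt_mul_of_pos_left cv hpos
    nlinarith
  refine ⟨?_, g3⟩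
  rw [g3] at f1 f2
  have g4 : 0 ≤ R.V₃.e * z₁ := by
    by_contra hlt
    push Not at hlt
    have := mul_neg_of_neg_of_pos hlt p1
    linarith
  have g5 : R.V₃.e * z₁ ≤ 0 := by
    by_contra hlt
    push Not at hlt
    have := mul_pos hlt q1
    linarith
  exact (mul_eq_zero.mp (le_antisymm g5 g4)).resolve_left e3.ne'

end Pent

end Dat

end Pool.Agent.P.MP_b01859_ag
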