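import Pool.Agent.P.MP_b01859_ag.Core3

/-!
The pentagon argument, conclusion.
-/

namespace Pool.Agent.P.MP_b01859_ag

open MvPolynomial Finsupp

variable {σ : Type} {Γ : Type} [AddCommGroup Γ] {ι : Type}

lemma supp_single {A : Set σ} {s : σ} (hs : s ∈ A) (k : ℕ) :
    ∀ i, (single s k) i ≠ 0 → i ∈ A := by
  intro i hi
  have : i = s := by
    by_contra h; simp [h] at hi
  exact this ▸ hs

lemma supp_add {A : Set σ} {d d' : σ →₀ ℕ} (h : ∀ i, d i ≠ 0 → i ∈ A)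
    (h' : ∀ i, d' i ≠ 0 → i ∈ A) : ∀ i, (d + d') i ≠ 0 → i ∈ A := by
  intro i hi
  by_cases h1 : d i = 0
  · exact h' i (by simpa [h1] using hi)
  · exact h i h1

namespace Dat

variable {T : Dat σ Γ ι}

namespace Pent

variable (R : T.Pent)

lemma xA : T.x ∈ R.A := by simp [A]
lemma yA : T.y ∈ R.A := by simp [A]
lemma s₁A : R.s₁ ∈ R.A := by simp [A]
lemma s₂A : R.s₂ ∈ R.A := by simp [A]
lemma s₃A : R.s₃ ∈ R.A := by simp [A]

lemma rel_hom {f : Pol σ} {c : Γ} (hf : IsWeightedHomogeneous T.w f c) {d d' : σ →₀ ℕ}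
    (hd : Mon R.A f d) (hd' : Mon R.A f d') :
    R.Rel (d T.x - d' T.x) (d T.y - d' T.y) (d R.s₁ - d' R.s₁) (d R.s₂ - d' R.s₂)
      (d R.s₃ - d' R.s₃) :=
  R.rel_mon hd.1 hd'.1 ((hf hd.2).trans (hf hd'.2).symm)

lemma ext_hom {f : Pol σ} {c : Γ} (hf : IsWeightedHomogeneous T.w f c) {d' : σ →₀ ℕ}
    (hd' : Mon R.A f d') : ∀ d, Mon R.A f d → d R.s₁ = d' R.s₁ → d R.s₃ = d' R.s₃ → d = d' :=
  fun _ hd h1 h3 => R.mon_ext hd.1 hd'.1 ((hf hd.2).trans (hf hd'.2).symm) h1 h3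

lemma mon_h : Mon R.A (T.v R.V₁.i) (single T.x R.V₁.a + single R.s₁ R.V₁.r₁) :=
  ⟨supp_add (supp_single R.xA _) (supp_single R.s₁A _), R.V₁.c₁⟩

lemma mon_g : Mon R.A (T.v R.V₂.i) (single T.x R.V₂.a + single R.s₂ R.V₂.r₁) :=
  ⟨supp_add (supp_single R.xA _) (supp_single R.s₂A _), R.V₂.c₁⟩

lemma mon_B : Mon R.A (T.v R.V₃.i) (single T.x R.V₃.a + single R.s₃ R.V₃.r₁) :=
  ⟨supp_add (supp_single R.xA _) (supp_single R.s₃A _), R.V₃.c₁⟩

lemma mon_E : Mon R.A (T.v R.V₁.j) (single T.y R.V₁.b + single R.s₁ R.V₁.r₂) :=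
  ⟨supp_add (supp_single R.yA _) (supp_single R.s₁A _), R.V₁.c₂⟩

lemma mon_D : Mon R.A (T.D R.V₁.i R.V₁.j) (single R.s₁ R.V₁.r) :=
  ⟨supp_single R.s₁A _, R.V₁.cD⟩

lemma involves : ∃ d, Mon R.A (T.v R.V₁.i) d ∧ d R.s₃ ≠ 0 := by
  by_contra hcon
  push Not at hcon
  have hxy := T.hxy
  have h1x := R.h1x
  have h1y := R.h1y
  have h2x := R.h2x
  have h2y := R.h2y
  have h3x := R.h3x
  have h3y := R.h3y
  have h12 := R.h12
  have h13 := R.h13
  have h23 := R.h23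
  set B : Set σ := {T.y, R.s₁, R.s₃} with hB
  have hBA : ∀ d : σ →₀ ℕ, (∀ i, d i ≠ 0 → i ∈ B) →
      (∀ i, d i ≠ 0 → i ∈ R.A) ∧ d T.x = 0 ∧ d R.s₂ = 0 := by
    intro d hd
    refine ⟨fun i hi => ?_, ?_, ?_⟩
    · have := hd i hi
      simp only [hB, Set.mem_insert_iff, Set.mem_singleton_iff] at this
      rcases this with rfl | rfl | rfl
      exacts [R.yA, R.s₁A, R.s₃A]
    · by_contra h
      have := hd _ h
      simp [hB, hxy, h1x.symm, h3x.symm] at this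
    · by_contra h
      have := hd _ h
      simp [hB, h2y, h12.symm, h23] at this
  have e1 := R.e₁
  have e2 := R.e₂
  have e3 := R.e₃
  have k1 : kl B (T.v R.V₃.i) = 0 := by
    by_contra h
    obtain ⟨d, hd, hc⟩ := exists_of_kl_ne_zero h
    obtain ⟨g1, g2, g3⟩ := hBA d hd
    have h4 := R.rel_hom (T.hv _) ⟨g1, hc⟩ R.mon_B
    simp only [Finsupp.add_apply, single_eq_same, single_eq_of_ne h3x.symm,
      single_eq_of_ne hxy.symm, single_eq_of_ne h3y.symm, single_eq_of_ne h1x,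
      single_eq_of_ne h13, single_eq_of_ne h2x, single_eq_of_ne h23, single_eq_of_ne h3x,
      g2, g3, add_zero, zero_add, Nat.cast_zero, sub_zero, zero_sub] at h4
    have h5 := h4
    obtain ⟨-, f2, f3⟩ := h4
    have q1 := R.β₁
    have q3 := R.β₃
    have g4 : R.V₃.e * (d R.s₁ : ℤ) + R.V₁.e * (d R.s₃ - R.V₃.r₁) = 0 := by
      rw [mul_zero, eq_comm, neg_eq_zero] at f3
      exact (mul_eq_zero.mp f3).resolve_left e2.ne'
    have g5 : (0 : ℤ) ≤ R.V₁.e * R.V₃.e * d T.y := by positivity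
    have g6 : (d R.s₁ : ℤ) = 0 := by
      by_contra hne
      have hpos : (0 : ℤ) < R.V₃.e * d R.s₁ :=
        mul_pos e3 (lt_of_le_of_ne (by positivity) (Ne.symm hne))
      have := mul_pos hpos q1
      have := mul_pos hpos q3
      nlinarith
    have g7 : (d R.s₃ : ℤ) - R.V₃.r₁ = 0 := by
      rw [g6, mul_zero, zero_add] at g4
      exact (mul_eq_zero.mp g4).resolve_left e1.ne'
    rw [g6, g7] at h5
    have := (R.rel_zero h5).1
    have := R.V₃.ha
    omega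
  have k2 : kl B (T.v R.V₁.i) = 0 := by
    by_contra h
    obtain ⟨d, hd, hc⟩ := exists_of_kl_ne_zero h
    obtain ⟨g1, g2, g3⟩ := hBA d hd
    have g0 := hcon d ⟨g1, hc⟩
    have h4 := R.rel_hom (T.hv _) ⟨g1, hc⟩ R.mon_h
    simp only [Finsupp.add_apply, single_eq_same, single_eq_of_ne h1x.symm,
      single_eq_of_ne hxy.symm, single_eq_of_ne h1y.symm, single_eq_of_ne h1x,
      single_eq_of_ne h13.symm, single_eq_of_ne h2x, single_eq_of_ne h12.symm,
      single_eq_of_ne h3x, g0, g2, g3, add_zero, zero_add, Nat.cast_zero, sub_zero,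
      zero_sub] at h4
    have h5 := h4
    obtain ⟨-, -, f3⟩ := h4
    have g4 : (d R.s₁ : ℤ) - R.V₁.r₁ = 0 := by
      rw [mul_zero, eq_comm, neg_eq_zero, mul_zero, add_zero] at f3
      exact (mul_eq_zero.mp ((mul_eq_zero.mp f3).resolve_left e2.ne')).resolve_left e3.ne'
    rw [g4] at h5
    have := (R.rel_zero h5).1
    have := R.V₁.ha
    omega
  have k3 : kl B (T.D R.V₁.i R.V₃.i) ≠ 0 := by
    have h := (hyperbola h1x h1y h13 R.V₁ R.V₃ (R.a12.trans R.a23) (R.b23.trans R.b12)).2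
    obtain ⟨d, hd, hc⟩ := exists_of_kl_ne_zero h
    refine kl_ne_zero (fun i hi => ?_) hc
    have := hd i hi
    simp only [Set.mem_insert_iff, Set.mem_singleton_iff] at this
    rcases this with rfl | rfl <;> simp [hB]
  have k4 : kl B (T.v R.V₁.j) ≠ 0 :=
    kl_ne_zero (supp_add (supp_single (by simp [hB]) _) (supp_single (by simp [hB]) _)) R.V₁.c₂
  have k5 := congrArg (kl B) (T.pl_v R.V₁.i R.V₃.i R.V₁.j)
  simp only [map_add, map_sub, map_mul, map_zero, k1, k2, mul_zero, sub_zero, add_zero] at k5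
  exact mul_ne_zero k3 k4 k5

include R in
theorem impossible : False := by
  classical
  have hxy := T.hxy
  have h1x := R.h1x
  have h1y := R.h1y
  have h2x := R.h2x
  have h2y := R.h2y
  have h3x := R.h3x
  have h3y := R.h3y
  have h12 := R.h12
  have h13 := R.h13
  have h23 := R.h23
  have e1 := R.e₁
  have e2 := R.e₂
  have e3 := R.e₃
  have p1 := R.α₁
  have p3 := R.α₃
  have q1 := R.β₁
  have q3 := R.β₃
  -- the monomial of `D(i₁, i₂)`
  obtain ⟨dC, hdC, cC⟩ :=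
    exists_of_kl_ne_zero (hyperbola h1x h1y h12 R.V₁ R.V₂ R.a12 R.b12).2
  have hdC' : ∀ k, k ≠ R.s₁ → k ≠ R.s₂ → dC k = 0 := by
    intro k k1 k2
    by_contra h
    have := hdC k h
    simp [k1, k2] at this
  have mC : Mon R.A (T.D R.V₁.i R.V₂.i) dC := by
    refine ⟨fun i hi => ?_, cC⟩
    have := hdC i hi
    simp only [Set.mem_insert_iff, Set.mem_singleton_iff] at this
    rcases this with rfl | rfl
    exacts [R.s₁A, R.s₂A]
  have dCx : dC T.x = 0 := hdC' _ h1x.symm h2x.symm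
  have dCy : dC T.y = 0 := hdC' _ h1y.symm h2y.symm
  have dC3 : dC R.s₃ = 0 := hdC' _ h13.symm h23.symm
  set Φ := deh₂ R.A R.s₁ R.s₃ with hΦ
  have ΦC : Φ (T.D R.V₁.i R.V₂.i) = Polynomial.C (Polynomial.C (coeff dC (T.D R.V₁.i R.V₂.i)) *
      Polynomial.X ^ (dC R.s₁)) := by
    refine deh₂_single h13 mC.1 (fun d hd => ?_) (R.ext_hom (T.hD _ _) mC) dC3
    have h4 := R.rel_hom (T.hD _ _) hd mC
    rw [dCx, dCy, dC3] at h4
    have := R.cone_xy3 h4 (by simp) (by simp) (by simp)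
    omega
  have ΦD : Φ (T.D R.V₁.i R.V₁.j) = Polynomial.C (Polynomial.C
      (coeff (single R.s₁ R.V₁.r) (T.D R.V₁.i R.V₁.j)) * Polynomial.X ^ R.V₁.r) := by
    have := deh₂_single h13 R.mon_D.1 (fun d hd => ?_) (R.ext_hom (T.hD _ _) R.mon_D)
      (single_eq_of_ne h13.symm)
    · rwa [single_eq_same] at this
    have h4 := R.rel_hom (T.hD _ _) hd R.mon_D
    have := R.cone_x23 h4 (by simp [h1x.symm]) (by simp [h12.symm]) (by simp [h13.symm])
    rw [single_eq_of_ne h13.symm] at this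
    omega
  have ΦE : Φ (T.v R.V₁.j) = Polynomial.C (Polynomial.C
      (coeff (single T.y R.V₁.b + single R.s₁ R.V₁.r₂) (T.v R.V₁.j)) *
        Polynomial.X ^ R.V₁.r₂) := by
    have := deh₂_single h13 R.mon_E.1 (fun d hd => ?_) (R.ext_hom (T.hv _) R.mon_E)
      (by simp [h3y, h13.symm])
    · rwa [Finsupp.add_apply, single_eq_same, single_eq_of_ne h1y, zero_add] at this
    have h4 := R.rel_hom (T.hv _) hd R.mon_E
    have := R.cone_x23 h4 (by simp [h1x.symm, hxy]) (by simp [h12.symm, h2y])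
      (by simp [h13.symm, h3y])
    have h5 : (single T.y R.V₁.b + single R.s₁ R.V₁.r₂ : σ →₀ ℕ) R.s₃ = 0 := by
      simp [h3y, h13.symm]
    rw [h5] at this
    omega
  set cC' := coeff dC (T.D R.V₁.i R.V₂.i)
  set cD := coeff (single R.s₁ R.V₁.r) (T.D R.V₁.i R.V₁.j) with hcD
  set cE := coeff (single T.y R.V₁.b + single R.s₁ R.V₁.r₂) (T.v R.V₁.j) with hcE
  have cD0 : cD ≠ 0 := R.V₁.cD
  have cE0 : cE ≠ 0 := R.V₁.c₂
  set H := Φ (T.v R.V₁.i) with hH
  set G := Φ (T.v R.V₂.i) with hG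
  set K := Φ (T.D R.V₂.i R.V₁.j) with hK
  set t := dC R.s₁ + R.V₁.r₂ with ht
  have main : K * H = Polynomial.C (Polynomial.C cD * Polynomial.X ^ R.V₁.r) * G -
      Polynomial.C (Polynomial.C (cC' * cE) * Polynomial.X ^ t) := by
    have := congrArg Φ (T.pl_v R.V₁.i R.V₂.i R.V₁.j)
    simp only [map_add, map_sub, map_mul, map_zero] at this
    rw [ΦC, ΦD, ΦE] at this
    rw [ht, pow_add]
    simp only [map_mul] at this ⊢
    linear_combination this
  -- the monomials of `g`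
  have gx : (single T.x R.V₂.a + single R.s₂ R.V₂.r₁ : σ →₀ ℕ) T.x = R.V₂.a := by
    simp [h2x.symm]
  have gy : (single T.x R.V₂.a + single R.s₂ R.V₂.r₁ : σ →₀ ℕ) T.y = 0 := by
    simp [hxy.symm, h2y.symm]
  have g1 : (single T.x R.V₂.a + single R.s₂ R.V₂.r₁ : σ →₀ ℕ) R.s₁ = 0 := by
    simp [h1x, h12]
  have g3 : (single T.x R.V₂.a + single R.s₂ R.V₂.r₁ : σ →₀ ℕ) R.s₃ = 0 := by
    simp [h3x, h23.symm]
  have Gb : ∀ j n, (G.coeff j).coeff n ≠ 0 →
      R.V₃.e * (n : ℤ) * (R.V₁.b - R.V₂.b) ≤ R.V₁.e * (j : ℤ) * (R.V₂.b - R.V₃.b) := by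
    intro j n h
    obtain ⟨d, hd, rfl, rfl⟩ := of_coeff_deh₂ h13 h
    have h4 := (R.rel_hom (T.hv _) hd R.mon_g).2.1
    rw [gy, g1, g3] at h4
    have : (0 : ℤ) ≤ R.V₁.e * R.V₃.e * d T.y := by positivity
    simp only [Nat.cast_zero, sub_zero] at h4
    linarith
  set cG := coeff (single T.x R.V₂.a + single R.s₂ R.V₂.r₁) (T.v R.V₂.i) with hcG
  have cG0 : cG ≠ 0 := R.V₂.c₁
  have G0 : G.coeff 0 = Polynomial.C cG := by
    ext n
    rw [Polynomial.coeff_C]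
    split_ifs with hn
    · have := coeff_deh₂ h13 R.mon_g.1 (R.ext_hom (T.hv _) R.mon_g)
      rw [g1, g3] at this
      rw [hn, this]
    · by_contra h
      have h4 := Gb 0 n h
      have : (0 : ℤ) < R.V₃.e * (n : ℤ) * (R.V₁.b - R.V₂.b) :=
        mul_pos (mul_pos e3 (by omega)) q1
      simp only [Nat.cast_zero, mul_zero, zero_mul] at h4
      linarith
  -- comparison of `t` and `r`
  have htr : t < R.V₁.r := by
    have w1 := T.hD _ _ cC
    have w2 := T.hv _ R.V₁.c₂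
    have w3 := T.hD _ _ R.V₁.cD
    have w4 := T.hv _ R.V₂.c₁
    have h4 := R.rel_mon (supp_add R.mon_D.1 R.mon_g.1) (supp_add mC.1 R.mon_E.1)
      (by rw [map_add, w3, w4, map_add, w1, w2]; abel)
    have h5 := h4.1
    simp only [Finsupp.add_apply, single_eq_same, single_eq_of_ne h1x.symm,
      single_eq_of_ne h2x.symm, single_eq_of_ne hxy, single_eq_of_ne h1x, single_eq_of_ne h12,
      single_eq_of_ne h1y, single_eq_of_ne h13.symm, single_eq_of_ne h3x,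
      single_eq_of_ne h23.symm, single_eq_of_ne h3y, dCx, dC3, add_zero, zero_add,
      Nat.cast_zero, sub_zero, mul_zero, zero_mul] at h5
    rw [← ht] at h5
    have h6 : (0 : ℤ) < R.V₁.e * R.V₃.e * R.V₂.a :=
      mul_pos (mul_pos e1 e3) (by exact_mod_cast R.V₂.ha)
    by_contra hlt
    have h7 : (R.V₁.r : ℤ) - t ≤ 0 := by omega
    have := mul_nonpos_of_nonpos_of_nonneg (mul_nonpos_of_nonneg_of_nonpos e3.le h7) p1.le
    linarith
  obtain ⟨A, hA⟩ : ∃ A, R.V₁.r = t + A := ⟨R.V₁.r - t, by omega⟩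
  have hA0 : 0 < A := by omega
  have m0 : K.coeff 0 * H.coeff 0 = Polynomial.X ^ t *
      (Polynomial.C (-(cC' * cE)) + Polynomial.C (cD * cG) * Polynomial.X ^ A) := by
    have := congrArg (fun p => p.coeff 0) main
    simp only [Polynomial.mul_coeff_zero, Polynomial.coeff_sub, Polynomial.coeff_C_zero,
      G0] at this
    rw [this, hA]
    simp only [map_neg, map_mul]
    ring
  have c10 : -(cC' * cE) ≠ 0 := neg_ne_zero.mpr (mul_ne_zero cC cE0)
  have bin0 : (Polynomial.C (-(cC' * cE)) + Polynomial.C (cD * cG) * Polynomial.X ^ A).coeff 0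
      ≠ 0 := by
    rw [Polynomial.coeff_add, Polynomial.coeff_C_zero, Polynomial.coeff_C_mul,
      Polynomial.coeff_X_pow, if_neg hA0.ne, mul_zero, add_zero]
    exact c10
  have hKH : K.coeff 0 * H.coeff 0 ≠ 0 := by
    rw [m0]
    exact mul_ne_zero (pow_ne_zero _ Polynomial.X_ne_zero) (fun h => bin0 (by rw [h]; simp))
  obtain ⟨i₀, H', hH', H'0⟩ := exists_X_pow_mul (right_ne_zero_of_mul hKH)
  obtain ⟨i₁, K', hK', K'0⟩ := exists_X_pow_mul (left_ne_zero_of_mul hKH)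
  obtain ⟨hi, hHK⟩ := X_pow_cancel (a := i₀ + i₁) (p := H' * K')
    (by rw [Polynomial.mul_coeff_zero]; exact mul_ne_zero H'0 K'0) bin0
    (by rw [← m0, hH', hK']; ring)
  -- the lowest monomial of `h`
  obtain ⟨d₀, md₀, d₀1, d₀3⟩ := of_coeff_deh₂ h13 (A := R.A) (f := T.v R.V₁.i) (n := i₀) (j := 0)
    (by rw [← hΦ, ← hH, hH', Polynomial.coeff_X_pow_mul', if_pos le_rfl, Nat.sub_self]; exact H'0)
  obtain ⟨d₁, md₁, d₁1, d₁3⟩ := of_coeff_deh₂ h13 (A := R.A) (f := T.D R.V₂.i R.V₁.j) (n := i₁)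
    (j := 0)
    (by rw [← hΦ, ← hK, hK', Polynomial.coeff_X_pow_mul', if_pos le_rfl, Nat.sub_self]; exact K'0)
  have d₀x : d₀ T.x = 0 := by
    have w1 := T.hD _ _ cC
    have w2 := T.hv _ R.V₁.c₂
    have w3 := T.hD _ _ md₁.2
    have w4 := T.hv _ md₀.2
    have h4 := R.mon_ext (supp_add md₀.1 md₁.1) (supp_add mC.1 R.mon_E.1)
      (by rw [map_add, map_add, w1, w2, w3, w4]; abel)
      (by simp [d₀1, d₁1, hi, ht, h1y]) (by simp [d₀3, d₁3, dC3, h3y, h13.symm])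
    have h5 := congrArg (fun d => d T.x) h4
    simp [dCx, hxy, h1x.symm] at h5
    exact h5.1
  -- the first order in the last variable
  have hex : ∃ j, j ≠ 0 ∧ H.coeff j ≠ 0 := by
    obtain ⟨d, hd, hd3⟩ := R.involves
    refine ⟨d R.s₃, hd3, fun h => hd.2 ?_⟩
    rw [← coeff_deh₂ h13 hd.1 (R.ext_hom (T.hv _) hd), ← hΦ, ← hH, h, Polynomial.coeff_zero]
  set j := Nat.find hex with hj
  obtain ⟨j0, Hj⟩ : j ≠ 0 ∧ H.coeff j ≠ 0 := Nat.find_spec hex
  have jmin : ∀ k, k ≠ 0 → k < j → H.coeff k = 0 := by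
    intro k k0 hk
    by_contra h
    exact Nat.find_min hex hk ⟨k0, h⟩
  have mj : K.coeff j * H.coeff 0 + K.coeff 0 * H.coeff j =
      Polynomial.C cD * Polynomial.X ^ R.V₁.r * G.coeff j := by
    have := congrArg (fun p => p.coeff j) main
    simp only [Polynomial.coeff_sub, Polynomial.coeff_C_mul, Polynomial.coeff_C, if_neg j0,
      sub_zero] at this
    rw [← this, Polynomial.coeff_mul, Finset.sum_eq_add (j, 0) (0, j) (by simp [j0])]
    · intro c hc hne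
      have h1 := Finset.HasAntidiagonal.mem_antidiagonal.mp hc
      rw [jmin c.2, mul_zero]
      · intro h2
        apply hne.1
        ext <;> simp <;> omega
      · by_contra h2
        apply hne.2
        ext <;> simp <;> omega
    · simp
    · simp
  have hj0 : (0 : ℤ) < j := by omega
  have hx' : (single T.x R.V₁.a + single R.s₁ R.V₁.r₁ : σ →₀ ℕ) R.s₁ = R.V₁.r₁ := by simp [h1x]
  have h2' : (single T.x R.V₁.a + single R.s₁ R.V₁.r₁ : σ →₀ ℕ) R.s₂ = 0 := by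
    simp [h2x, h12.symm]
  have h3' : (single T.x R.V₁.a + single R.s₁ R.V₁.r₁ : σ →₀ ℕ) R.s₃ = 0 := by
    simp [h3x, h13.symm]
  have Hlow : ∀ n, (H.coeff j).coeff n ≠ 0 →
      R.V₁.e * (j : ℤ) * (R.V₃.a - R.V₂.a) ≤ R.V₃.e * ((n : ℤ) - i₀) * (R.V₂.a - R.V₁.a) := by
    intro n h
    obtain ⟨d, hd, rfl, d3⟩ := of_coeff_deh₂ h13 h
    have h4 := (R.rel_hom (T.hv _) hd md₀).1
    rw [d₀x, d₀1, d₀3, d3] at h4
    have : (0 : ℤ) ≤ R.V₁.e * R.V₃.e * d T.x := by positivity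
    simp only [Nat.cast_zero, sub_zero] at h4
    linarith
  have Hup : ∀ n, (H.coeff j).coeff n ≠ 0 → n < R.V₁.r₁ := by
    intro n h
    obtain ⟨d, hd, rfl, d3⟩ := of_coeff_deh₂ h13 h
    have h4 := (R.rel_hom (T.hv _) hd R.mon_h).2.2
    rw [hx', h2', h3', d3] at h4
    have : (0 : ℤ) ≤ R.V₁.e * R.V₃.e * d R.s₂ := by positivity
    simp only [Nat.cast_zero, sub_zero] at h4
    by_contra hlt
    have h5 : (0 : ℤ) ≤ R.V₃.e * ((d R.s₁ : ℤ) - R.V₁.r₁) := mul_nonneg e3.le (by omega)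
    have h6 := mul_pos e1 hj0
    have := mul_pos e2 (add_pos_of_nonneg_of_pos h5 h6)
    linarith
  have H0r : (H.coeff 0).coeff R.V₁.r₁ ≠ 0 := by
    have := coeff_deh₂ h13 R.mon_h.1 (R.ext_hom (T.hv _) R.mon_h)
    rw [hx', h3'] at this
    rw [hH, hΦ, this]
    exact R.V₁.c₁
  obtain ⟨o, ho1, ho2⟩ : ∃ o : ℕ, (G.coeff j).degree < o ∧
      ∀ n, (H.coeff j).coeff n ≠ 0 → i₀ + o ≤ n := by
    by_cases hG0 : G.coeff j = 0
    · refine ⟨0, by rw [hG0]; simp, fun n hn => ?_⟩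
      have h1 := Hlow n hn
      have h2 := mul_pos (mul_pos e1 hj0) p3
      by_contra hlt
      have h7 : (n : ℤ) - i₀ ≤ 0 := by omega
      have := mul_nonpos_of_nonpos_of_nonneg (mul_nonpos_of_nonneg_of_nonpos e3.le h7) p1.le
      linarith
    · refine ⟨(G.coeff j).natDegree + 1, ?_, fun n hn => ?_⟩
      · rw [Polynomial.degree_eq_natDegree hG0]
        exact_mod_cast Nat.lt_succ_self _
      · have h1 := Hlow n hn
        have h2 := Gb j _ (Polynomial.leadingCoeff_ne_zero.mpr hG0)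
        have h3 := mul_lt_mul_of_pos_left R.convex (mul_pos e1 hj0)
        have h4 := mul_le_mul_of_nonneg_right h1 q1.le
        have h5 := mul_le_mul_of_nonneg_right h2 p1.le
        by_contra hlt
        have h7 : (n : ℤ) - i₀ ≤ (G.coeff j).natDegree := by omega
        have h8 := mul_le_mul_of_nonneg_right (mul_le_mul_of_nonneg_left h7 e3.le)
          (mul_pos p1 q1).le
        nlinarith
  obtain ⟨Ht, hHt⟩ : Polynomial.X ^ (i₀ + o) ∣ H.coeff j := by
    rw [Polynomial.X_pow_dvd_iff]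
    intro n hn
    by_contra h
    have := ho2 n h
    omega
  have hHt0 : Ht ≠ 0 := fun h => Hj (by rw [hHt, h, mul_zero])
  have H'ne : H' ≠ 0 := fun h => H'0 (by rw [h]; simp)
  apply hHt0
  refine binomial_rigid H' K' Ht (G.coeff j) _ cD _ A o hA0 c10 (mul_ne_zero cD0 cG0) hHK ?_ ho1
    fun w hw => ?_
  · apply Polynomial.degree_lt_degree
    have h1 : (H.coeff j).natDegree < R.V₁.r₁ :=
      Hup _ (Polynomial.leadingCoeff_ne_zero.mpr Hj)
    have h2 : R.V₁.r₁ ≤ (H.coeff 0).natDegree := Polynomial.le_natDegree_of_ne_zero H0r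
    rw [hHt, Polynomial.natDegree_X_pow_mul _ hHt0] at h1
    rw [hH', Polynomial.natDegree_X_pow_mul _ H'ne] at h2
    rw [Polynomial.natDegree_X_pow_mul _ hHt0]
    omega
  · have hw0 : w ≠ 0 := by
      rintro rfl
      exact H'0 (by rw [Polynomial.coeff_zero_eq_eval_zero]; exact hw)
    have h1 := congrArg (Polynomial.eval w) mj
    rw [hH', hK', hHt, hA, ← hi] at h1
    simp only [Polynomial.eval_add, Polynomial.eval_mul, Polynomial.eval_pow, Polynomial.eval_X,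
      Polynomial.eval_C, hw, mul_zero, zero_add] at h1
    apply mul_left_cancel₀ (pow_ne_zero (i₀ + i₁) hw0)
    linear_combination h1

end Pent

/-- The core theorem: with at least three further variables the class must be trivial. -/
theorem core (T : Dat σ Γ ι) {s₁ s₂ s₃ : σ} (h1x : s₁ ≠ T.x) (h1y : s₁ ≠ T.y) (h2x : s₂ ≠ T.x)
    (h2y : s₂ ≠ T.y) (h3x : s₃ ≠ T.x) (h3y : s₃ ≠ T.y) (h12 : s₁ ≠ s₂) (h13 : s₁ ≠ s₃)
    (h23 : s₂ ≠ s₃) : False := by
  obtain ⟨V₁⟩ := T.exists_Vx h1x h1y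
  obtain ⟨V₂⟩ := T.exists_Vx h2x h2y
  obtain ⟨V₃⟩ := T.exists_Vx h3x h3y
  have inc : ∀ {s s' : σ}, s ≠ T.x → s ≠ T.y → s' ≠ T.x → s' ≠ T.y → s ≠ s' →
      ∀ (V : T.Vx s) (V' : T.Vx s'), (V.a < V'.a ∧ V'.b < V.b) ∨ (V'.a < V.a ∧ V.b < V'.b) := by
    intro s s' a1 a2 a3 a4 a5 V V'
    have b1 := fun h h' => not_comparable a1 a2 a3 a4 a5 V V' h h'
    have b2 := fun h h' => not_comparable a3 a4 a1 a2 a5.symm V' V h h'
    by_contra hcon
    rcases le_total V.a V'.a with c1 | c1 <;> rcases le_total V.b V'.b with c2 | c2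
    · exact b1 c1 c2
    · rcases c1.eq_or_lt with d1 | d1
      · exact b2 d1.ge c2
      rcases c2.eq_or_lt with d2 | d2
      · exact b1 c1 d2.ge
      exact hcon (Or.inl ⟨d1, d2⟩)
    · rcases c1.eq_or_lt with d1 | d1
      · exact b1 d1.ge c2
      rcases c2.eq_or_lt with d2 | d2
      · exact b2 c1 d2.ge
      exact hcon (Or.inr ⟨d1, d2⟩)
    · exact b2 c1 c2
  rcases inc h1x h1y h2x h2y h12 V₁ V₂ with a | a <;>
    rcases inc h1x h1y h3x h3y h13 V₁ V₃ with b | b <;>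
    rcases inc h2x h2y h3x h3y h23 V₂ V₃ with c | c
  · exact Pent.impossible ⟨s₁, s₂, s₃, h1x, h1y, h2x, h2y, h3x, h3y, h12, h13, h23, V₁, V₂, V₃,
      a.1, c.1, a.2, c.2⟩
  · exact Pent.impossible ⟨s₁, s₃, s₂, h1x, h1y, h3x, h3y, h2x, h2y, h13, h12, h23.symm, V₁, V₃, V₂,
      b.1, c.1, b.2, c.2⟩
  · omega
  · exact Pent.impossible ⟨s₃, s₁, s₂, h3x, h3y, h1x, h1y, h2x, h2y, h13.symm, h23.symm, h12,
      V₃, V₁, V₂, b.1, a.1, b.2, a.2⟩
  · exact Pent.impossible ⟨s₂, s₁, s₃, h2x, h2y, h1x, h1y, h3x, h3y, h12.symm, h23, h13,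
      V₂, V₁, V₃, a.1, b.1, a.2, b.2⟩
  · omega
  · exact Pent.impossible ⟨s₂, s₃, s₁, h2x, h2y, h3x, h3y, h1x, h1y, h23, h12.symm, h13.symm,
      V₂, V₃, V₁, c.1, b.1, c.2, b.2⟩
  · exact Pent.impossible ⟨s₃, s₂, s₁, h3x, h3y, h2x, h2y, h1x, h1y, h23.symm, h13.symm, h12.symm,
      V₃, V₂, V₁, c.1, a.1, c.2, a.2⟩

end Dat

end Pool.Agent.P.MP_b01859_ag
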