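import Pool.Agent.P.MP_b01859_ag.Pl2

/-!
Derivations of polynomial rings and locally nilpotent operators.
-/

namespace Pool.Agent.P.MP_b01859_ag

open MvPolynomial Finsupp

variable {σ : Type} {Γ : Type} [AddCommGroup Γ]

/-- Derivations of the polynomial ring. -/
abbrev Dr (σ : Type) := Derivation ℂ (Pol σ) (Pol σ)

/-- The standard grading. -/
abbrev Hom (f : Pol σ) (d : ℤ) : Prop := IsWeightedHomogeneous (fun _ => (1 : ℤ)) f d

/-- The linear vector field of a matrix. -/
noncomputable def der [Fintype σ] (A : Matrix σ σ ℂ) : Dr σ :=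
  mkDerivation ℂ fun i => ∑ j, C (A i j) * X j

/-- The directional derivative. -/
noncomputable def dv (v : σ → ℂ) : Dr σ := mkDerivation ℂ fun i => C (v i)

lemma der_X [Fintype σ] (A : Matrix σ σ ℂ) (i : σ) : der A (X i) = ∑ j, C (A i j) * X j :=
  mkDerivation_X _ _ _

lemma dv_X (v : σ → ℂ) (i : σ) : dv v (X i) = C (v i) := mkDerivation_X _ _ _

lemma dr_mul (δ : Dr σ) (f g : Pol σ) : δ (f * g) = δ f * g + f * δ g := by
  rw [Derivation.leibniz]; simp only [smul_eq_mul]; ring

lemma dr_C_mul (δ : Dr σ) (c : ℂ) (f : Pol σ) : δ (C c * f) = C c * δ f := by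
  rw [dr_mul, derivation_C]; ring

lemma dr_eq_sum [Fintype σ] (δ : Dr σ) (f : Pol σ) : δ f = ∑ i, pderiv i f * δ (X i) := by
  classical
  induction f using MvPolynomial.induction_on with
  | C a => simp
  | add p q hp hq => simp only [map_add, hp, hq, add_mul, Finset.sum_add_distrib]
  | mul_X p i hp =>
    rw [dr_mul, hp]
    simp only [dr_mul, pderiv_X, add_mul, Finset.sum_add_distrib, Finset.sum_mul, Pi.single_apply,
      mul_ite, mul_one, mul_zero, ite_mul, zero_mul, Finset.sum_ite_eq, Finset.mem_univ, if_true]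
    congr 1
    exact Finset.sum_congr rfl fun j _ => by ring

lemma dr_hom [Fintype σ] {w : σ → Γ} {δ : Dr σ} {μ : Γ}
    (h : ∀ i, IsWeightedHomogeneous w (δ (X i)) (w i + μ)) {f : Pol σ} {c : Γ}
    (hf : IsWeightedHomogeneous w f c) : IsWeightedHomogeneous w (δ f) (c + μ) := by
  rw [dr_eq_sum]
  refine IsWeightedHomogeneous.sum _ _ _ fun i _ => ?_
  exact hom_congr ((hf.pderiv (n' := c - w i) (i := i) (by abel)).mul (h i)) (by abel)

lemma der_X_hom [Fintype σ] {w : σ → Γ} {A : Matrix σ σ ℂ} {μ : Γ}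
    (h : ∀ i j, A i j ≠ 0 → w j = w i + μ) (i : σ) :
    IsWeightedHomogeneous w (der A (X i)) (w i + μ) := by
  rw [der_X]
  refine IsWeightedHomogeneous.sum _ _ _ fun j _ => ?_
  by_cases h1 : A i j = 0
  · rw [h1, C_0, zero_mul]; exact isWeightedHomogeneous_zero _ _ _
  · rw [← h i j h1]
    exact (isWeightedHomogeneous_X ℂ w j).C_mul _

lemma der_hom [Fintype σ] {w : σ → Γ} {A : Matrix σ σ ℂ} {μ : Γ}
    (h : ∀ i j, A i j ≠ 0 → w j = w i + μ) {f : Pol σ} {c : Γ}
    (hf : IsWeightedHomogeneous w f c) : IsWeightedHomogeneous w (der A f) (c + μ) :=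
  dr_hom (der_X_hom h) hf

lemma der_Hom [Fintype σ] (A : Matrix σ σ ℂ) {f : Pol σ} {c : ℤ} (hf : Hom f c) :
    Hom (der A f) c := by
  simpa using der_hom (A := A) (μ := 0) (fun _ _ _ => by simp) hf

lemma dv_Hom [Fintype σ] (v : σ → ℂ) {f : Pol σ} {c : ℤ} (hf : Hom f c) :
    Hom (dv v f) (c - 1) :=
  dr_hom (μ := -1) (fun i => by
    rw [dv_X]; simpa using isWeightedHomogeneous_C (fun _ : σ => (1 : ℤ)) (v i)) hf

lemma der_add [Fintype σ] (A B : Matrix σ σ ℂ) : der (A + B) = der A + der B :=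
  derivation_ext fun i => by simp [der_X, add_mul, Finset.sum_add_distrib]

lemma der_smul [Fintype σ] (c : ℂ) (A : Matrix σ σ ℂ) : der (c • A) = c • der A :=
  derivation_ext fun i => by
    simp [der_X, Finset.smul_sum, smul_eq_C_mul, mul_assoc]

lemma der_zero [Fintype σ] : der (0 : Matrix σ σ ℂ) = 0 :=
  derivation_ext fun i => by simp [der_X]

lemma der_der_X [Fintype σ] (A B : Matrix σ σ ℂ) (i : σ) :
    der A (der B (X i)) = der (B * A) (X i) := by
  simp only [der_X, map_sum, dr_C_mul, Matrix.mul_apply, Finset.mul_sum, Finset.sum_mul, C_mul]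
  rw [Finset.sum_comm]
  exact Finset.sum_congr rfl fun j _ => Finset.sum_congr rfl fun k _ => by ring

lemma der_comm [Fintype σ] (A B : Matrix σ σ ℂ) (f : Pol σ) :
    der A (der B f) - der B (der A f) = der (B * A - A * B) f := by
  have : ⁅der A, der B⁆ = der (B * A - A * B) := derivation_ext fun i => by
    rw [Derivation.commutator_apply, der_der_X, der_der_X, sub_eq_add_neg (B * A), der_add,
      ← neg_one_smul ℂ (A * B), der_smul]
    simp [sub_eq_add_neg]
  rw [← this, Derivation.commutator_apply]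

lemma der_diag_of_hom [Fintype σ] [DecidableEq σ] {α : σ → ℂ} {f : Pol σ} {c : ℂ}
    (hf : IsWeightedHomogeneous α f c) : der (Matrix.diagonal α) f = C c * f := by
  have key : ∀ (d : σ →₀ ℕ) (r : ℂ), der (Matrix.diagonal α) (monomial d r) =
      C (weight α d) * monomial d r := by
    intro d r
    induction d using Finsupp.induction with
    | zero => simp
    | single_add i n f _ _ ih =>
      rw [monomial_single_add, dr_mul, ih, map_add, weight_single, Derivation.leibniz_pow, der_X]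
      simp only [Matrix.diagonal_apply, apply_ite C, C_0, ite_mul, zero_mul, Finset.sum_ite_eq,
        Finset.mem_univ, if_true, smul_eq_mul, nsmul_eq_mul, map_add, map_mul, map_natCast]
      cases n with
      | zero => simp
      | succ n => simp only [Nat.add_sub_cancel]; ring
  conv_lhs => rw [as_sum f, map_sum]
  conv_rhs => rw [as_sum f, Finset.mul_sum]
  refine Finset.sum_congr rfl fun d hd => ?_
  rw [key, hf (MvPolynomial.mem_support_iff.mp hd)]

lemma euler [Fintype σ] [DecidableEq σ] {f : Pol σ} {d : ℤ} (hf : Hom f d) :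
    der 1 f = C (d : ℂ) * f := by
  have := der_diag_of_hom (hom_map (Int.castAddHom ℂ) hf)
  simpa using this

lemma eval_dv [Fintype σ] [DecidableEq σ] (v : σ → ℂ) (f : Pol σ) :
    eval v (dv v f) = eval v (der 1 f) := by
  rw [dr_eq_sum (dv v), dr_eq_sum (der 1)]
  simp [dv_X, der_X, Matrix.one_apply, apply_ite C]

lemma Hom.eq_zero {f : Pol σ} {d : ℤ} (hf : Hom f d) (hd : d < 0) : f = 0 :=
  hom_neg (lam := AddMonoidHom.id ℤ) (fun _ => by simp) hf hd

lemma Hom.nonneg {f : Pol σ} {d : ℤ} (hf : Hom f d) (h0 : f ≠ 0) : 0 ≤ d :=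
  not_lt.mp fun h => h0 (hf.eq_zero h)

lemma Hom.eq_C {f : Pol σ} (hf : Hom f 0) : f = C (coeff 0 f) := by
  rw [← monomial_zero']
  apply eq_monomial_of_support_subset_singleton
  intro d hd
  have e2 := (lam_weight_eq_zero_iff (w := fun _ : σ => (1 : ℤ)) (lam := AddMonoidHom.id ℤ)
    (fun i => by simp) d).mp (hf (MvPolynomial.mem_support_iff.mp hd))
  ext i
  by_contra h
  simpa using e2 i h

lemma isUnit_C {c : ℂ} (hc : c ≠ 0) : IsUnit (C c : Pol σ) := (Ne.isUnit hc).map C

lemma Hom.isUnit {f : Pol σ} {d : ℤ} (hf : Hom f d) (hd : d ≤ 0) (h0 : f ≠ 0) : IsUnit f := by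
  obtain rfl : d = 0 := le_antisymm hd (hf.nonneg h0)
  rw [hf.eq_C] at h0 ⊢
  exact isUnit_C fun h => h0 (by rw [h, C_0])

lemma Hom.deg_zero {f : Pol σ} {d : ℤ} (hf : Hom f d) (h0 : coeff 0 f ≠ 0) : d = 0 := by
  rw [← hf h0, map_zero]

lemma Hom.isUnit_of_coeff {f : Pol σ} {d : ℤ} (hf : Hom f d) (h0 : coeff 0 f ≠ 0) : IsUnit f :=
  hf.isUnit (hf.deg_zero h0).le fun h => h0 (by rw [h, coeff_zero])

lemma Hom.deg_of_dv [Fintype σ] {f : Pol σ} {d : ℤ} (hf : Hom f d) {v : σ → ℂ}
    (h : eval v (dv v f) = 0) (h0 : eval v f ≠ 0) : d = 0 := by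
  classical
  rw [eval_dv, euler hf, map_mul, eval_C] at h
  exact_mod_cast (mul_eq_zero.mp h).resolve_right h0

lemma Hom.isUnit_of_dv [Fintype σ] {f : Pol σ} {d : ℤ} (hf : Hom f d) {v : σ → ℂ}
    (h : eval v (dv v f) = 0) (h0 : eval v f ≠ 0) : IsUnit f :=
  hf.isUnit (hf.deg_of_dv h h0).le fun h => h0 (by rw [h, map_zero])

section LN

variable {V : Type} [AddCommGroup V] [Module ℂ V]

/-- Locally nilpotent operators. -/
def LN (F : Module.End ℂ V) : Prop := ∀ v, ∃ k, (F ^ k) v = 0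

lemma pow_apply_of_le {F : Module.End ℂ V} {v : V} {k l : ℕ} (h : (F ^ k) v = 0) (hl : k ≤ l) :
    (F ^ l) v = 0 := by
  obtain ⟨m, rfl⟩ := Nat.exists_eq_add_of_le' hl
  rw [pow_add, Module.End.mul_apply, h, map_zero]

lemma LN.add {F G : Module.End ℂ V} (hF : LN F) (hG : LN G) (h : Commute F G) : LN (F + G) := by
  intro v
  obtain ⟨k, hk⟩ := hF v
  obtain ⟨l, hl⟩ := hG v
  refine ⟨k + l, ?_⟩
  rw [h.add_pow', LinearMap.sum_apply]
  refine Finset.sum_eq_zero fun m hm => ?_
  rw [LinearMap.smul_apply]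
  have h1 := Finset.HasAntidiagonal.mem_antidiagonal.mp hm
  by_cases h2 : l ≤ m.2
  · rw [Module.End.mul_apply, pow_apply_of_le hl h2, map_zero, smul_zero]
  · rw [(h.pow_pow _ _).eq, Module.End.mul_apply, pow_apply_of_le hk (by omega), map_zero,
      smul_zero]

lemma LN.eq_zero {F : Module.End ℂ V} (hF : LN F) {v : V} {μ : ℂ} (hμ : μ ≠ 0)
    (h : F v = μ • v) : v = 0 := by
  obtain ⟨k, hk⟩ := hF v
  have : ∀ k : ℕ, (F ^ k) v = μ ^ k • v := by
    intro k
    induction k with
    | zero => simp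
    | succ k ih => rw [pow_succ', Module.End.mul_apply, ih, map_smul, h, smul_smul, pow_succ]
  rw [this] at hk
  exact (smul_eq_zero.mp hk).resolve_left (pow_ne_zero _ hμ)

lemma LN.exists_last {F : Module.End ℂ V} (hF : LN F) (P : V → Prop) (hP : ¬ P 0) {v : V}
    (hv : P v) : ∃ k, P ((F ^ k) v) ∧ ¬ P (F ((F ^ k) v)) := by
  by_contra hcon
  push Not at hcon
  have : ∀ k, P ((F ^ k) v) := by
    intro k
    induction k with
    | zero => simpa using hv
    | succ k ih => rw [pow_succ', Module.End.mul_apply]; exact hcon k ih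
  obtain ⟨k, hk⟩ := hF v
  exact hP (hk ▸ this k)

variable {ι : Type} [Fintype ι]

/-- A constant matrix acting on vectors. -/
def mv (V : Type) [AddCommGroup V] [Module ℂ V] (a : Matrix ι ι ℂ) : Module.End ℂ (ι → V) where
  toFun φ := fun i => ∑ j, a i j • φ j
  map_add' φ ψ := by ext i; simp [Finset.sum_add_distrib]
  map_smul' c φ := by ext i; simp [Finset.smul_sum, smul_smul, mul_comm]

lemma mv_apply (a : Matrix ι ι ℂ) (φ : ι → V) (i : ι) : mv V a φ i = ∑ j, a i j • φ j := rfl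

lemma mv_mul (a b : Matrix ι ι ℂ) : mv V (a * b) = mv V a * mv V b := by
  ext φ i
  simp only [Module.End.mul_apply, mv_apply, Matrix.mul_apply, Finset.sum_smul, Finset.smul_sum,
    smul_smul]
  exact Finset.sum_comm

/-- The operator `F - a` on vectors. -/
def Dv (F : Module.End ℂ V) (a : Matrix ι ι ℂ) : Module.End ℂ (ι → V) :=
  F.compLeft ι - mv V a

lemma Dv_apply (F : Module.End ℂ V) (a : Matrix ι ι ℂ) (φ : ι → V) (i : ι) :
    Dv F a φ i = F (φ i) - ∑ j, a i j • φ j := rfl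

lemma LN.dv [DecidableEq ι] {F : Module.End ℂ V} (hF : LN F) {a : Matrix ι ι ℂ}
    (ha : IsNilpotent a) : LN (Dv F a) := by
  have e : Dv F a = F.compLeft ι + mv V (-a) :=
    LinearMap.ext fun φ => funext fun i => by simp [Dv_apply, mv_apply, sub_eq_add_neg]
  rw [e]
  refine LN.add (fun φ => ?_) (fun φ => ?_) ?_
  · choose k hk using fun i => hF (φ i)
    have : ∀ l : ℕ, ∀ i, ((F.compLeft ι : Module.End ℂ (ι → V)) ^ l) φ i = (F ^ l) (φ i) := by
      intro l
      induction l with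
      | zero => simp
      | succ l ih => intro i; simp [pow_succ', ih]
    refine ⟨Finset.univ.sup k, funext fun i => ?_⟩
    rw [this]
    exact pow_apply_of_le (hk i) (Finset.le_sup (Finset.mem_univ i))
  · obtain ⟨k, hk⟩ := ha.neg
    have : ∀ l : ℕ, mv V (-a) ^ l = mv V ((-a) ^ l) := by
      intro l
      induction l with
      | zero => ext φ i; simp [mv_apply, Matrix.one_apply]
      | succ l ih => rw [pow_succ, pow_succ, ih, mv_mul]
    refine ⟨k, ?_⟩
    rw [this, hk]
    ext i; simp [mv_apply]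
  · refine LinearMap.ext fun φ => funext fun i => ?_
    simp [mv_apply]

end LN

lemma LN_dr (δ : Dr σ) (h : ∀ i, ∃ k, ((δ : Module.End ℂ (Pol σ)) ^ k) (X i) = 0) :
    LN (δ : Module.End ℂ (Pol σ)) := by
  have hmul : ∀ n k l : ℕ, k + l = n → ∀ f g : Pol σ, ((δ : Module.End ℂ (Pol σ)) ^ k) f = 0 →
      ((δ : Module.End ℂ (Pol σ)) ^ l) g = 0 → ((δ : Module.End ℂ (Pol σ)) ^ n) (f * g) = 0 := by
    intro n
    induction n with
    | zero =>
      intro k l hkl f g hf _
      obtain rfl : k = 0 := by omega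
      simp only [pow_zero, Module.End.one_apply] at hf ⊢
      rw [hf, zero_mul]
    | succ n ih =>
      intro k l hkl f g hf hg
      rcases k with _ | k
      · simp only [pow_zero, Module.End.one_apply] at hf
        rw [hf, zero_mul, map_zero]
      rcases l with _ | l
      · simp only [pow_zero, Module.End.one_apply] at hg
        rw [hg, mul_zero, map_zero]
      rw [pow_succ, Module.End.mul_apply, Derivation.coeFn_coe, dr_mul, map_add,
        ih k (l + 1) (by omega) _ _ (by simpa [pow_succ] using hf) hg,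
        ih (k + 1) l (by omega) _ _ hf (by simpa [pow_succ] using hg), add_zero]
  intro f
  induction f using MvPolynomial.induction_on with
  | C a => exact ⟨1, by simp⟩
  | add p q hp hq =>
    obtain ⟨k, hk⟩ := hp
    obtain ⟨l, hl⟩ := hq
    exact ⟨k + l, by rw [map_add, pow_apply_of_le hk (by omega), pow_apply_of_le hl (by omega),
      add_zero]⟩
  | mul_X p i hp =>
    obtain ⟨k, hk⟩ := hp
    obtain ⟨l, hl⟩ := h i
    exact ⟨k + l, hmul _ _ _ rfl _ _ hk hl⟩

lemma LN_der [Fintype σ] [DecidableEq σ] {A : Matrix σ σ ℂ} (hA : IsNilpotent A) :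
    LN (der A : Module.End ℂ (Pol σ)) := by
  refine LN_dr _ fun i => ?_
  obtain ⟨k, hk⟩ := hA
  have : ∀ l : ℕ, ((der A : Module.End ℂ (Pol σ)) ^ l) (X i) = der (A ^ l) (X i) := by
    intro l
    induction l with
    | zero => simp [der_X, Matrix.one_apply, apply_ite C]
    | succ l ih => rw [pow_succ', Module.End.mul_apply, ih, Derivation.coeFn_coe, der_der_X,
        pow_succ]
  exact ⟨k, by rw [this, hk, der_zero]; rfl⟩

lemma dv_surj {v : σ → ℂ} (hv : v ≠ 0) (f : Pol σ) : ∃ g, dv v g = f := by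
  obtain ⟨s, hs⟩ := Function.ne_iff.mp hv
  have hs' : v s ≠ 0 := hs
  set l : Pol σ := C (v s)⁻¹ * X s with hl
  have h1 : dv v l = 1 := by rw [hl, dr_C_mul, dv_X, ← C_mul, inv_mul_cancel₀ hs', C_1]
  have hLN : LN (dv v : Module.End ℂ (Pol σ)) :=
    LN_dr _ fun i => ⟨2, by simp [pow_succ, dv_X]⟩
  have key : ∀ k : ℕ, ∀ f : Pol σ, ((dv v : Module.End ℂ (Pol σ)) ^ k) f = 0 →
      ∀ j : ℕ, ∃ g, dv v g = l ^ j * f := by
    intro k
    induction k with
    | zero => intro f hf j; exact ⟨0, by simp at hf; simp [hf]⟩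
    | succ k ih =>
      intro f hf j
      obtain ⟨g, hg⟩ := ih (dv v f) (by simpa [pow_succ] using hf) (j + 1)
      refine ⟨C ((j + 1 : ℕ) : ℂ)⁻¹ * (l ^ (j + 1) * f - g), ?_⟩
      rw [dr_C_mul, map_sub, hg, dr_mul, Derivation.leibniz_pow, h1]
      have h2 : (C ((j + 1 : ℕ) : ℂ)⁻¹ : Pol σ) * ((j + 1 : ℕ) : Pol σ) = 1 := by
        rw [← map_natCast C, ← C_mul, inv_mul_cancel₀ (by exact_mod_cast Nat.succ_ne_zero j), C_1]
      simp only [Nat.add_sub_cancel, smul_eq_mul, nsmul_eq_mul]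
      linear_combination l ^ j * f * h2
  obtain ⟨k, hk⟩ := hLN f
  simpa using key k f hk 0

lemma radical_dr (δ : Dr σ) {I : Ideal (Pol σ)} (hI : ∀ f ∈ I, δ f ∈ I) {f : Pol σ}
    (hf : f ∈ I.radical) : δ f ∈ I.radical := by
  obtain ⟨n, hn⟩ := hf
  have key : ∀ k m : ℕ, f ^ k * δ f ^ m ∈ I → ∃ m', δ f ^ m' ∈ I := by
    intro k
    induction k with
    | zero => intro m h; exact ⟨m, by simpa using h⟩
    | succ k ih =>
      intro m h
      refine ih (m + 2) ?_
      have h1 := I.mul_mem_left (δ f) (hI _ h)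
      rw [dr_mul, Derivation.leibniz_pow, Derivation.leibniz_pow] at h1
      have h2 : (C ((k + 1 : ℕ) : ℂ)⁻¹ : Pol σ) * ((k + 1 : ℕ) : Pol σ) = 1 := by
        rw [← map_natCast C, ← C_mul, inv_mul_cancel₀ (by exact_mod_cast Nat.succ_ne_zero k), C_1]
      have h3 := I.mul_mem_left (C ((k + 1 : ℕ) : ℂ)⁻¹)
        (I.sub_mem h1 (I.mul_mem_left ((m : Pol σ) * δ (δ f)) h))
      convert h3 using 1
      simp only [Nat.add_sub_cancel, smul_eq_mul, nsmul_eq_mul]
      rcases m with _ | m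
      · simp only [Nat.cast_zero, zero_mul, mul_zero, add_zero, pow_zero, mul_one, sub_zero]
        linear_combination (-f ^ k * δ f ^ 2) * h2
      · simp only [Nat.add_sub_cancel]
        linear_combination (-f ^ k * δ f ^ (m + 3)) * h2
  exact key n 0 (by simpa using hn)

end Pool.Agent.P.MP_b01859_ag
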