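import Pool.Agent.P.MP_b01859_ag.Horr

/-!
Bundles that are invariant under an elation.
-/

namespace Pool.Agent.P.MP_b01859_ag

open MvPolynomial

variable {σ τ ι : Type}

/-- Restriction to the axis. -/
noncomputable def rs : Pol (Option τ) →ₐ[ℂ] Pol τ := aeval fun o => o.elim 0 X

@[simp] lemma rs_none : rs (X none : Pol (Option τ)) = 0 := by simp [rs]

@[simp] lemma rs_some (a : τ) : rs (X (some a) : Pol (Option τ)) = X a := by simp [rs]

@[simp] lemma rs_rename (f : Pol τ) : rs (rename some f) = f := by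
  induction f using MvPolynomial.induction_on with
  | C a => simp
  | add p q hp hq => simp only [map_add, hp, hq]
  | mul_X p i hp => simp [hp]

lemma y_dvd {f : Pol (Option τ)} (h : rs f = 0) : X none ∣ f := by
  have : ∀ f : Pol (Option τ), X none ∣ f - rename some (rs f) := by
    intro f
    induction f using MvPolynomial.induction_on with
    | C a => simp
    | add p q hp hq =>
      convert dvd_add hp hq using 1
      simp only [map_add]; ring
    | mul_X p i hp =>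
      cases i with
      | none => simp
      | some a =>
        convert hp.mul_right (X (some a)) using 1
        simp only [map_mul, rs_some, rename_X]; ring
  simpa [h] using this f

lemma rs_X_hom (i : Option τ) : Hom (rs (X i)) 1 := by
  cases i with
  | none => rw [rs_none]; exact isWeightedHomogeneous_zero _ _ _
  | some a => rw [rs_some]; exact isWeightedHomogeneous_X ℂ _ _

lemma rs_hom {f : Pol (Option τ)} {d : ℤ} (h : Hom f d) : Hom (rs f) d :=
  algHom_hom rs rs_X_hom h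

lemma rename_Hom {f : Pol τ} {d : ℤ} (h : Hom f d) : Hom (rename some f) d :=
  algHom_hom _ (fun i => by rw [rename_X]; exact isWeightedHomogeneous_X ℂ _ _) h

lemma rs_sub [Fintype τ] (ξ : Option τ → σ → ℂ) (f : Pol σ) :
    rs (sub ξ f) = sub (fun a => ξ (some a)) f := by
  have : rs.comp (sub ξ) = sub (fun a => ξ (some a)) := algHom_ext fun i => by
    simp [sub_X, Fintype.sum_option]
  exact AlgHom.congr_fun this f

/-- The derivative in the direction of the centre. -/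
noncomputable def dc (v : τ → ℂ) : Dr (Option τ) := dv fun o => o.elim 0 v

/-- The vector field of an elation. -/
noncomputable def el (v : τ → ℂ) : Dr (Option τ) := (X none : Pol (Option τ)) • dc v

lemma el_apply (v : τ → ℂ) (f : Pol (Option τ)) : el v f = X none * dc v f := rfl

lemma dc_none (v : τ → ℂ) : dc v (X none) = 0 := by simp [dc, dv_X]

lemma el_none (v : τ → ℂ) : el v (X none) = 0 := by simp [el_apply, dc_none]

lemma rs_dc (v : τ → ℂ) (f : Pol (Option τ)) : dv v (rs f) = rs (dc v f) :=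
  intertwine _ (fun i => by cases i <;> simp [dc, dv_X]) f

lemma rs_el (v : τ → ℂ) (f : Pol (Option τ)) : (0 : Dr τ) (rs f) = rs (el v f) := by
  simp [el_apply]

lemma VB.coef_eq {T : VB σ ι} {q : T.N} (hq : q ≠ 0) {f g : Pol σ} (h : f • q = g • q) :
    f = g := by
  obtain ⟨t, ht⟩ := VB.exists_val_ne hq
  exact mul_right_cancel₀ ht (congrArg (fun χ : T.N => χ.1 t) h)

/-- The data of a bundle invariant under an elation. -/
structure El (τ ι : Type) [Fintype ι] [DecidableEq ι] where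
  T₁ : VB (Option τ) ι
  T₀ : VB τ ι
  hρ : ∀ i j, rs (T₁.ω i j) = T₀.ω i j
  γ : ι → ℤ
  g : ℤ
  hG : Gr (fun _ => 1) γ g T₁.ω
  v : τ → ℂ
  hv : v ≠ 0
  a : Matrix ι ι ℂ
  ha : IsNilpotent a
  hγ : ∀ i j, a i j ≠ 0 → γ j = γ i
  hS : T₁.Sym (el v) a

namespace El

open VB

variable [Fintype ι] [DecidableEq ι] (E : El τ ι)

lemma S₀ : E.T₀.Sym 0 E.a := E.hS.push E.hρ (rs_el E.v)

lemma G₀ : Gr (fun _ => 1) E.γ E.g E.T₀.ω := fun i j => E.hρ i j ▸ rs_hom (E.hG i j)

/-- Restriction of sections to the axis. -/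
noncomputable def res : E.T₁.N →+ E.T₀.N := push E.hρ

lemma res_smul (f : Pol (Option τ)) (φ : E.T₁.N) : E.res (f • φ) = rs f • E.res φ :=
  push_smul E.hρ f φ

lemma res_D (φ : E.T₁.N) : E.res (D E.hS φ) = D E.S₀ (E.res φ) :=
  push_D E.hρ E.hS E.S₀ (rs_el E.v) φ

lemma res_hom {φ : E.T₁.N} {α : ℤ} (h : HomN (fun _ => 1) E.γ φ α) :
    HomN (fun _ => 1) E.γ (E.res φ) α := push_hom E.hρ rs_X_hom h

lemma res_eq_zero {φ : E.T₁.N} (h : E.res φ = 0) :
    ∃ ψ : E.T₁.N, φ = (X none : Pol (Option τ)) • ψ :=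
  div (X_ne_zero _) φ fun t => y_dvd (congrArg (fun χ : E.T₀.N => χ.1 t) h)

lemma D_y (φ : E.T₁.N) :
    D E.hS ((X none : Pol (Option τ)) • φ) = (X none : Pol (Option τ)) • D E.hS φ := by
  rw [D_smul, el_none, zero_smul, zero_add]

lemma LN₁ : LN (D E.hS) := by
  refine D_LN _ (LN_dr _ fun i => ⟨2, ?_⟩) E.ha
  cases i <;> simp [pow_succ, el_apply, dc, dv_X]

lemma LN₀ : LN (D E.S₀) :=
  D_LN _ (fun f => ⟨1, by simp⟩) E.ha

/-- Homogeneous invariant sections. -/
def K : Set E.T₁.N := {k | D E.hS k = 0 ∧ ∃ α, HomN (fun _ => 1) E.γ k α}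

variable [Fintype τ] [Nontrivial τ]

lemma res_B (φ ψ : E.T₁.N) : E.T₀.B (E.res φ) (E.res ψ) = rs (E.T₁.B φ ψ) := push_B E.hρ φ ψ

omit [Nontrivial τ] in
lemma mem_span_K {φ : E.T₁.N} (h : D E.hS φ = 0) : φ ∈ Submodule.span (Pol (Option τ)) E.K := by
  refine comp_ker E.hS E.hG (fun i => ?_) E.hγ h
  simpa [el_apply, dc] using (isWeightedHomogeneous_X ℂ (fun _ => (1 : ℤ)) none).mul
    (dv_Hom _ (isWeightedHomogeneous_X ℂ (fun _ => (1 : ℤ)) i))

lemma exists_inv : ∃ q, D E.hS q = 0 ∧ E.res q ≠ 0 := by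
  obtain ⟨i, j, hij⟩ := E.T₁.exists_ne
  obtain ⟨k, hk, hk'⟩ := E.LN₁.exists_last (· ≠ 0) (by simp) (v := E.T₁.row i)
    (fun h0 => hij (by rw [← row_val, h0]; rfl))
  obtain ⟨f, s, hf, hs, hp⟩ := VB.exists_prim hk
  obtain ⟨n, f', hf', rfl⟩ := WfDvdMonoid.max_power_factor hf
    (X_prime (i := (none : Option τ)) (R := ℂ)).irreducible
  rw [hs, not_not, mul_smul] at hk'
  have h1 : ∀ n : ℕ, D E.hS ((X none ^ n : Pol (Option τ)) • f' • s) =
      (X none ^ n : Pol (Option τ)) • D E.hS (f' • s) := by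
    intro n
    induction n with
    | zero => simp
    | succ n ih => rw [pow_succ', mul_smul, D_y, ih, mul_smul]
  rw [h1] at hk'
  refine ⟨f' • s, smul_eq_zero' (pow_ne_zero _ (X_ne_zero _)) hk', fun h0 => ?_⟩
  obtain ⟨ψ, hψ⟩ := E.res_eq_zero h0
  refine (X_prime (i := (none : Option τ)) (R := ℂ)).not_isUnit (hp _ fun t => ?_)
  exact ((X_prime (i := (none : Option τ)) (R := ℂ)).dvd_or_dvd
    ⟨ψ.1 t, congrArg (fun χ : E.T₁.N => χ.1 t) hψ⟩).resolve_left hf'

/-- The structure of the endomorphism along the axis. -/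
structure Nil (T₀ : VB τ ι) (γ : ι → ℤ) (ν : Module.End ℂ T₀.N) where
  q : T₀.N
  w : Pol τ
  α : ℤ
  hp : Prim q.1
  hq : HomN (fun _ => 1) γ q α
  hw : w ≠ 0
  hD : ∀ φ, ν φ = (w * T₀.B q φ) • q

variable {E}

omit [Fintype ι] [DecidableEq ι] in
lemma Nil.ker {T₀ : VB τ ι} {γ : ι → ℤ} {ν : Module.End ℂ T₀.N} (Q : Nil T₀ γ ν) {φ : T₀.N} :
    ν φ = 0 ↔ T₀.B Q.q φ = 0 := by
  rw [Q.hD, smul_eq_zero, mul_eq_zero]
  simp [Q.hw, ne_zero_of_prim Q.hp]

lemma Nil.res_inv (Q : Nil E.T₀ E.γ (D E.S₀)) {k : E.T₁.N} (hk : D E.hS k = 0) :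
    ∃ l : Pol τ, E.res k = l • Q.q :=
  eq_smul_of_B Q.hp (Q.ker.mp (by rw [← res_D, hk, map_zero]))

variable (E)

lemma nil_or : (∀ φ, D E.S₀ φ = 0) ∨ Nonempty (Nil E.T₀ E.γ (D E.S₀)) := by
  by_cases h : ∃ φ, D E.S₀ φ ≠ 0
  · obtain ⟨q, w, α, h1, h2, h3, -, h4⟩ :=
      nil_struct E.G₀ E.S₀ E.hγ (iso_of_LN E.S₀ E.LN₀) h
    exact Or.inr ⟨⟨q, w, α, h1, h2, h3, h4⟩⟩
  · push Not at h
    exact Or.inl h

lemma stab {φ : E.T₁.N} (h : D E.S₀ (E.res φ) = 0) :
    ∃ ψ, D E.hS φ = (X none : Pol (Option τ)) • ψ ∧ D E.S₀ (E.res ψ) = 0 := by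
  obtain ⟨ψ, hψ⟩ := E.res_eq_zero (φ := D E.hS φ) (by rw [res_D, h])
  refine ⟨ψ, hψ, ?_⟩
  rcases E.nil_or with h0 | ⟨⟨Q⟩⟩
  · exact h0 _
  obtain ⟨q, hq, hq0⟩ := E.exists_inv
  obtain ⟨m, hm⟩ := Q.res_inv hq
  obtain ⟨l, hl⟩ := eq_smul_of_B Q.hp (Q.ker.mp h)
  have hm0 : m ≠ 0 := by rintro rfl; exact hq0 (by rw [hm, zero_smul])
  obtain ⟨n, hn⟩ := E.res_eq_zero (φ := rename some m • φ - rename some l • q) (by
    rw [map_sub, res_smul, res_smul, hl, hm, rs_rename, rs_rename, smul_comm, sub_self])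
  have h1 := congrArg (D E.hS) hn
  rw [D_y, map_sub, D_smul, D_smul, hq, hψ, el_apply, el_apply] at h1
  have h2 : D E.hS n = dc E.v (rename some m) • φ + rename some m • ψ
      - dc E.v (rename some l) • q :=
    smul_cancel (X_ne_zero none) (by rw [← h1]; module)
  have h3 := congrArg (fun χ => E.T₀.B Q.q (E.res χ)) h2
  simp only [res_D, map_sub, map_add, res_smul, hl, hm, Q.hD, map_smul, B_self, mul_zero,
    rs_rename, zero_add, sub_zero, smul_eq_mul] at h3
  exact Q.ker.mpr ((mul_eq_zero.mp h3.symm).resolve_left hm0)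

lemma taylor {φ : E.T₁.N} (h : D E.S₀ (E.res φ) = 0) :
    φ ∈ Submodule.span (Pol (Option τ)) E.K := by
  have hv : (fun o : Option τ => o.elim 0 E.v) ≠ 0 := fun h0 =>
    E.hv (funext fun a => congrFun h0 (some a))
  have anti : ∀ ψ ∈ Submodule.span (Pol (Option τ)) E.K, ∀ s : Pol (Option τ),
      ∃ χ ∈ Submodule.span (Pol (Option τ)) E.K,
        D E.hS χ = (X none : Pol (Option τ)) • s • ψ := by
    intro ψ hψ
    induction hψ using Submodule.span_induction with
    | mem k hk =>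
      intro s
      obtain ⟨S, hS⟩ := dv_surj hv s
      refine ⟨S • k, Submodule.smul_mem _ _ (Submodule.subset_span hk), ?_⟩
      rw [D_smul, hk.1, el_apply, dc, hS, mul_smul, smul_zero, add_zero]
    | zero => exact fun s => ⟨0, Submodule.zero_mem _, by simp⟩
    | add x y _ _ hx hy =>
      intro s
      obtain ⟨χ, h1, h2⟩ := hx s
      obtain ⟨χ', h1', h2'⟩ := hy s
      exact ⟨χ + χ', Submodule.add_mem _ h1 h1', by rw [map_add, h2, h2', smul_add, smul_add]⟩
    | smul r x _ hx =>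
      intro s
      obtain ⟨χ, h1, h2⟩ := hx (s * r)
      exact ⟨χ, h1, by rw [h2, mul_smul]⟩
  obtain ⟨k, hk⟩ := E.LN₁ φ
  induction k generalizing φ with
  | zero =>
    simp only [pow_zero, Module.End.one_apply] at hk
    rw [hk]; exact Submodule.zero_mem _
  | succ k ih =>
    obtain ⟨ψ, hψ, hψ'⟩ := E.stab h
    have h1 : ∀ (l : ℕ) (χ : E.T₁.N), (D E.hS ^ l) ((X none : Pol (Option τ)) • χ) =
        (X none : Pol (Option τ)) • (D E.hS ^ l) χ := by
      intro l χ
      induction l with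
      | zero => simp
      | succ l ih => rw [pow_succ', Module.End.mul_apply, ih, D_y, Module.End.mul_apply]
    rw [pow_succ, Module.End.mul_apply, hψ, h1] at hk
    obtain ⟨χ, h2, h3⟩ := anti ψ (ih hψ' (smul_eq_zero' (X_ne_zero _) hk)) 1
    have h4 := E.mem_span_K (φ := φ - χ) (by rw [map_sub, h3, hψ, one_smul, sub_self])
    simpa using Submodule.add_mem _ h4 h2

lemma dc_B {k k' : E.T₁.N} (hk : D E.hS k = 0) (hk' : D E.hS k' = 0) :
    dc E.v (E.T₁.B k k') = 0 := by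
  have := D_B E.hS k k'
  rw [hk, hk', el_apply] at this
  simpa using this

end El

lemma exists_B_notMem {T : VB σ ι} [Finite σ] [Nontrivial σ] {S : Set T.N} {I : Ideal (Pol σ)}
    {φ ψ : T.N} (hφ : φ ∈ Submodule.span (Pol σ) S) (hψ : ψ ∈ Submodule.span (Pol σ) S)
    (h : T.B φ ψ ∉ I) : ∃ k ∈ S, ∃ k' ∈ S, T.B k k' ∉ I := by
  by_contra hcon
  push Not at hcon
  apply h
  clear h
  induction hφ, hψ using Submodule.span_induction₂ with
  | mem_mem x y hx hy => exact hcon x hx y hy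
  | zero_left y _ => simp
  | zero_right x _ => simp
  | add_left x y z _ _ _ h1 h2 => simpa using I.add_mem h1 h2
  | add_right x y z _ _ _ h1 h2 => simpa using I.add_mem h1 h2
  | smul_left r x y _ _ h1 => simpa using I.mul_mem_left r h1
  | smul_right r x y _ _ h1 => simpa using I.mul_mem_left r h1

namespace El

open VB

variable [Fintype ι] [DecidableEq ι] [Fintype τ] [Nontrivial τ] (E : El τ ι)

theorem el0 (h : ∀ φ, D E.S₀ φ = 0) : Sp E.T₁.ω := by
  have hv : (fun o : Option τ => o.elim 0 E.v) ≠ 0 := fun h0 =>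
    E.hv (funext fun a => congrFun h0 (some a))
  obtain ⟨i, j, hij⟩ := E.T₁.LF_eval hv
  obtain ⟨k, ⟨hk, α, hα⟩, k', ⟨hk', β, hβ⟩, h1⟩ := exists_B_notMem
    (I := RingHom.ker (eval fun o : Option τ => o.elim 0 E.v))
    (E.taylor (φ := E.T₁.row i) (h _)) (E.taylor (φ := E.T₁.row j) (h _))
    (by rwa [B_row_row])
  refine sp_of_unit (Hom.isUnit_of_dv (B_hom E.hG hα hβ) ?_ h1)
  rw [← dc, E.dc_B hk hk', map_zero]

variable {E}

/-- A pair of invariant sections. -/
structure Pair (Q : Nil E.T₀ E.γ (D E.S₀)) where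
  k : E.T₁.N
  k' : E.T₁.N
  n : E.T₁.N
  l : Pol τ
  m : Pol τ
  u : Pol (Option τ)
  α : ℤ
  α' : ℤ
  hk : D E.hS k = 0
  hk' : D E.hS k' = 0
  hα : HomN (fun _ => 1) E.γ k α
  hα' : HomN (fun _ => 1) E.γ k' α'
  hl : E.res k = l • Q.q
  hm : E.res k' = m • Q.q
  l0 : l ≠ 0
  hn : (X none : Pol (Option τ)) • n = rename some l • k' - rename some m • k
  hu : E.T₁.B k k' = X none * u

variable {Q : Nil E.T₀ E.γ (D E.S₀)}

lemma exists_pair {k k' : E.T₁.N} (hk : k ∈ E.K) (hk' : k' ∈ E.K) {l : Pol τ}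
    (hl : E.res k = l • Q.q) (l0 : l ≠ 0) : ∃ P : Pair Q, P.k = k ∧ P.k' = k' ∧ P.l = l := by
  obtain ⟨hk, α, hα⟩ := hk
  obtain ⟨hk', α', hα'⟩ := hk'
  obtain ⟨m, hm⟩ := Q.res_inv hk'
  obtain ⟨n, hn⟩ := E.res_eq_zero (φ := rename some l • k' - rename some m • k) (by
    rw [map_sub, res_smul, res_smul, hl, hm, rs_rename, rs_rename, smul_comm, sub_self])
  obtain ⟨u, hu⟩ := y_dvd (f := E.T₁.B k k') (by rw [← res_B, hl, hm]; simp)
  exact ⟨⟨k, k', n, l, m, u, α, α', hk, hk', hα, hα', hl, hm, l0, hn.symm, hu⟩, rfl, rfl, rfl⟩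

namespace Pair

variable (P : Pair Q)

lemma Bk : E.T₁.B P.k P.n = rename some P.l * P.u := by
  have := congrArg (E.T₁.B P.k) P.hn
  simp only [map_smul, map_sub, B_self, smul_eq_mul, P.hu] at this
  apply mul_left_cancel₀ (X_ne_zero (none : Option τ))
  linear_combination this

lemma Bk' : E.T₁.B P.k' P.n = rename some P.m * P.u := by
  have := congrArg (E.T₁.B P.k') P.hn
  simp only [map_smul, map_sub, B_self, smul_eq_mul, E.T₁.B_swap P.k P.k', P.hu] at this
  apply mul_left_cancel₀ (X_ne_zero (none : Option τ))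
  linear_combination this

lemma Bq : E.T₀.B Q.q (E.res P.n) = rs P.u := by
  have := congrArg rs P.Bk
  rw [← res_B, P.hl, map_mul, rs_rename, map_smul, LinearMap.smul_apply, smul_eq_mul] at this
  exact mul_left_cancel₀ P.l0 this

lemma du : dc E.v P.u = 0 := by
  have := E.dc_B P.hk P.hk'
  rw [P.hu, dr_mul, dc_none, zero_mul, zero_add] at this
  exact (mul_eq_zero.mp this).resolve_left (X_ne_zero _)

lemma hom_l : Hom P.l (P.α - Q.α) :=
  Q.hq.coef (ne_zero_of_prim Q.hp) (P.hl ▸ E.res_hom P.hα)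

lemma hom_m : Hom P.m (P.α' - Q.α) :=
  Q.hq.coef (ne_zero_of_prim Q.hp) (P.hm ▸ E.res_hom P.hα')

lemma hom_n : HomN (fun _ => 1) E.γ P.n (P.α + P.α' - Q.α - 1) := by
  refine HomN.of_smul (isWeightedHomogeneous_X ℂ _ none) (X_ne_zero _) ?_
  rw [P.hn]
  exact ((P.hα'.smul (rename_Hom P.hom_l)).congr (by ring)).sub
    ((P.hα.smul (rename_Hom P.hom_m)).congr (by ring))

lemma hom_u : Hom P.u (P.α + P.α' + E.g - 1) :=
  hom_of_mul' (isWeightedHomogeneous_X ℂ _ none) (X_ne_zero _) (P.hu ▸ B_hom E.hG P.hα P.hα')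

lemma wr : Q.w * rs P.u = dv E.v P.l * P.m - dv E.v P.m * P.l := by
  have h1 := congrArg (D E.hS) P.hn
  rw [D_y, map_sub, D_smul, D_smul, P.hk, P.hk', el_apply, el_apply] at h1
  have h2 : D E.hS P.n = dc E.v (rename some P.l) • P.k' - dc E.v (rename some P.m) • P.k :=
    smul_cancel (X_ne_zero none) (by rw [h1]; module)
  have h3 := congrArg E.res h2
  rw [res_D, Q.hD, Bq, map_sub, res_smul, res_smul, ← rs_dc, ← rs_dc, rs_rename, rs_rename, P.hl,
    P.hm] at h3
  exact coef_eq (ne_zero_of_prim Q.hp) (by rw [h3]; module)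

end Pair

variable (Q)

lemma exists_lift (i j : ι) :
    ∃ φ ∈ Submodule.span (Pol (Option τ)) E.K, E.res φ = E.T₀.ω i j • Q.q := by
  have h : E.res (rename some (Q.q.1 j) • E.T₁.row i - rename some (Q.q.1 i) • E.T₁.row j) =
      E.T₀.ω i j • Q.q := by
    rw [map_sub, res_smul, res_smul, rs_rename, rs_rename, E.T₀.ω_smul]
    simp only [res, push_row]
  exact ⟨_, E.taylor (Q.ker.mpr (by rw [h]; simp)), h⟩

theorem span_pairs (i j t : ι) : E.T₀.ω i j • E.T₀.row t ∈
    Submodule.span (Pol τ) (insert Q.q (Set.range fun P : Pair Q => E.res P.n)) := by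
  set M := Submodule.span (Pol τ) (insert Q.q (Set.range fun P : Pair Q => E.res P.n))
  have hq0 := ne_zero_of_prim Q.hp
  have hqM : Q.q ∈ M := Submodule.subset_span (Set.mem_insert _ _)
  have h1 : ∀ k ∈ E.K, ∀ l : Pol τ, E.res k = l • Q.q → ∀ t, l • E.T₀.row t ∈ M := by
    intro k hk l hl t
    by_cases l0 : l = 0
    · rw [l0, zero_smul]; exact M.zero_mem
    have key : ∀ φ ∈ Submodule.span (Pol (Option τ)) E.K, ∃ (c : Pol (Option τ)) (m : E.T₁.N),
        E.res m ∈ M ∧ rename some l • φ = (X none : Pol (Option τ)) • m + c • k ∧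
          E.res φ = rs c • Q.q := by
      intro φ hφ
      induction hφ using Submodule.span_induction with
      | mem k' hk' =>
        obtain ⟨P, rfl, rfl, rfl⟩ := exists_pair hk hk' hl l0
        exact ⟨rename some P.m, P.n, Submodule.subset_span (Set.mem_insert_of_mem _ ⟨P, rfl⟩),
          by rw [P.hn, sub_add_cancel], by rw [rs_rename, P.hm]⟩
      | zero => exact ⟨0, 0, by simp, by simp, by simp⟩
      | add x y _ _ hx hy =>
        obtain ⟨c, m, e1, e2, e3⟩ := hx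
        obtain ⟨c', m', e1', e2', e3'⟩ := hy
        exact ⟨c + c', m + m', by rw [map_add]; exact M.add_mem e1 e1',
          by rw [smul_add, e2, e2']; module, by rw [map_add, e3, e3', map_add, add_smul]⟩
      | smul r x _ hx =>
        obtain ⟨c, m, e1, e2, e3⟩ := hx
        exact ⟨r * c, r • m, by rw [res_smul]; exact M.smul_mem _ e1,
          by rw [smul_comm, e2]; module, by rw [res_smul, e3, map_mul, mul_smul]⟩
    obtain ⟨c, m, e1, e2, e3⟩ := key ((X none : Pol (Option τ)) • E.T₁.row t)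
      (E.taylor (by rw [res_smul, rs_none, zero_smul, map_zero]))
    rw [res_smul, rs_none, zero_smul] at e3
    obtain ⟨c', rfl⟩ := y_dvd ((smul_eq_zero.mp e3.symm).resolve_right hq0)
    have e4 : rename some l • E.T₁.row t = m + c' • k :=
      smul_cancel (X_ne_zero none) (by rw [smul_comm, e2]; module)
    have e5 := congrArg E.res e4
    rw [res_smul, rs_rename, map_add, res_smul, hl] at e5
    simp only [res, push_row] at e5 e1
    rw [e5]
    exact M.add_mem e1 (M.smul_mem _ (M.smul_mem _ hqM))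
  have h2 : ∀ φ ∈ Submodule.span (Pol (Option τ)) E.K, ∃ l : Pol τ, E.res φ = l • Q.q ∧
      ∀ t, l • E.T₀.row t ∈ M := by
    intro φ hφ
    induction hφ using Submodule.span_induction with
    | mem k hk =>
      obtain ⟨l, hl⟩ := Q.res_inv hk.1
      exact ⟨l, hl, h1 k hk l hl⟩
    | zero => exact ⟨0, by simp, by simp⟩
    | add x y _ _ hx hy =>
      obtain ⟨l, e1, e2⟩ := hx
      obtain ⟨l', e1', e2'⟩ := hy
      exact ⟨l + l', by rw [map_add, e1, e1', add_smul],
        fun t => by rw [add_smul]; exact M.add_mem (e2 t) (e2' t)⟩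
    | smul r x _ hx =>
      obtain ⟨l, e1, e2⟩ := hx
      exact ⟨rs r * l, by rw [res_smul, e1, mul_smul],
        fun t => by rw [mul_smul]; exact M.smul_mem _ (e2 t)⟩
  obtain ⟨φ, hφ, hφ'⟩ := exists_lift Q i j
  obtain ⟨l, e1, e2⟩ := h2 φ hφ
  rw [coef_eq hq0 (hφ'.symm.trans e1)]
  exact e2 t

theorem el1 {t : ι} (ht : eval E.v (Q.q.1 t) ≠ 0) : ∃ P : Pair Q, IsUnit (rs P.u) := by
  obtain ⟨i, j, hij⟩ := E.T₀.LF_eval E.hv
  obtain ⟨P, hP⟩ : ∃ P : Pair Q, eval E.v (rs P.u) ≠ 0 := by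
    by_contra hcon
    push Not at hcon
    have h1 : Submodule.span (Pol τ) (insert Q.q (Set.range fun P : Pair Q => E.res P.n)) ≤
        Submodule.comap (E.T₀.B Q.q) (RingHom.ker (eval E.v)) := by
      rw [Submodule.span_le]
      rintro _ (rfl | ⟨P, rfl⟩)
      · simp
      · simpa [P.Bq] using hcon P
    have h2 := h1 (span_pairs Q i j t)
    simp only [Submodule.mem_comap, map_smul, B_row, smul_eq_mul, RingHom.mem_ker, map_mul] at h2
    exact mul_ne_zero hij ht h2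
  exact ⟨P, (rs_hom P.hom_u).isUnit_of_dv (by rw [rs_dc, P.du, map_zero, map_zero]) hP⟩

end El

end Pool.Agent.P.MP_b01859_ag
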