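import Pool.Agent.P.MP_b01859_ag.El

/-!
Splitting criteria for bundles invariant under an elation.
-/

namespace Pool.Agent.P.MP_b01859_ag

open MvPolynomial

variable {σ τ ι : Type}

lemma sub_C_mem {p : Ideal (Pol σ)} (h : ∀ s, X s ∈ p) (f : Pol σ) : f - C (coeff 0 f) ∈ p := by
  induction f using MvPolynomial.induction_on with
  | C a => simp
  | add p q hp hq =>
    convert Ideal.add_mem _ hp hq using 1
    simp only [coeff_add, map_add]; ring
  | mul_X q i _ =>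
    rw [← constantCoeff_eq, map_mul, constantCoeff_X, mul_zero, C_0, sub_zero]
    exact p.mul_mem_left _ (h i)

lemma krull4 {f₁ f₂ f₃ : Pol (Fin 4)} (h₁ : coeff 0 f₁ = 0) (h₂ : coeff 0 f₂ = 0)
    (h₃ : coeff 0 f₃ = 0) (h : ∀ p : Ideal (Pol (Fin 4)), p.IsPrime → f₁ ∈ p → f₂ ∈ p → f₃ ∈ p →
      ∀ s, X s ∈ p) : False := by
  classical
  let P : ℕ → Ideal (Pol (Fin 4)) := fun k => RingHom.ker (kl {i : Fin 4 | k ≤ i.1})
  have hP : ∀ k, (P k).IsPrime := fun k => RingHom.ker_isPrime _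
  have hlt : ∀ k < 4, P k < P (k + 1) := by
    intro k hk
    refine lt_of_le_not_ge (fun f hf => ?_) (fun hle => ?_)
    · have h1 : kl {i : Fin 4 | k ≤ i.1} f = 0 := hf
      have h2 := congrArg (kl {i : Fin 4 | k + 1 ≤ i.1}) h1
      have h3 : {i : Fin 4 | k + 1 ≤ i.1} ⊆ {i : Fin 4 | k ≤ i.1} :=
        fun i hi => Nat.le_of_succ_le hi
      rw [kl_kl, map_zero, Set.inter_eq_left.mpr h3] at h2
      exact h2
    · have h1 : (X ⟨k, hk⟩ : Pol (Fin 4)) ∈ P (k + 1) := kl_X_notMem (by simp)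
      have h2 : kl {i : Fin 4 | k ≤ i.1} (X ⟨k, hk⟩) = 0 := hle h1
      rw [kl_X_mem (by simp)] at h2
      exact X_ne_zero _ h2
  have hh : ∀ k : ℕ, k ≤ 4 → (k : ℕ∞) ≤ (P k).height := by
    intro k
    induction k with
    | zero => simp
    | succ k ih =>
      intro hk
      have := hP k
      have := hP (k + 1)
      refine le_trans ?_ (Ideal.height_add_one_le_of_lt_of_isPrime (hlt k hk))
      push_cast
      gcongr
      exact ih (by omega)
  have hX : ∀ s, X s ∈ P 4 := fun s => kl_X_notMem (by simp)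
  have hmem : ∀ f : Pol (Fin 4), coeff 0 f = 0 → f ∈ P 4 := fun f hf => by
    simpa [hf] using sub_C_mem hX f
  have hmin : P 4 ∈ (Ideal.span
      (({f₁, f₂, f₃} : Finset (Pol (Fin 4))) : Set (Pol (Fin 4)))).minimalPrimes := by
    refine ⟨⟨hP 4, ?_⟩, fun p ⟨hp, hle⟩ _ f hf => ?_⟩
    · rw [Ideal.span_le]
      intro f hf
      simp only [Finset.coe_insert, Finset.coe_singleton, Set.mem_insert_iff,
        Set.mem_singleton_iff] at hf
      rcases hf with rfl | rfl | rfl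
      exacts [hmem _ h₁, hmem _ h₂, hmem _ h₃]
    · have h1 := sub_C_mem (h p hp (hle (Ideal.subset_span (by simp)))
        (hle (Ideal.subset_span (by simp))) (hle (Ideal.subset_span (by simp)))) f
      have h2 := (P 4).sub_mem hf (sub_C_mem hX f)
      have h3 : kl {i : Fin 4 | 4 ≤ i.1} (f - (f - C (coeff 0 f))) = 0 := h2
      rw [sub_sub_cancel, algHom_C, algebraMap_eq, C_eq_zero] at h3
      simpa [h3] using h1
  have h1 := (hh 4 le_rfl).trans (Ideal.height_le_card_of_mem_minimalPrimes_span_finset hmin)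
  have h2 : ({f₁, f₂, f₃} : Finset (Pol (Fin 4))).card ≤ 3 := Finset.card_le_three
  have h3 : 4 ≤ ({f₁, f₂, f₃} : Finset (Pol (Fin 4))).card := by exact_mod_cast h1
  omega

lemma dv_single [Fintype σ] [DecidableEq σ] (s : σ) (f : Pol σ) :
    dv (Pi.single s 1) f = pderiv s f := by
  have : dv (Pi.single s 1) = pderiv s := derivation_ext fun i => by
    simp [dv_X, pderiv_X, Pi.single_apply, apply_ite C]
  rw [this]

lemma kl_of_pderiv {s : σ} {f : Pol σ} (h : pderiv s f = 0) : kl {s}ᶜ f = f := by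
  classical
  refine kl_eq_self fun d hd i hi => ?_
  rintro rfl
  have h1 := coeff_pderiv (i := i) f (d - Finsupp.single i 1)
  have h2 : d - Finsupp.single i 1 + Finsupp.single i 1 = d :=
    tsub_add_cancel_of_le (Finsupp.single_le_iff.mpr (Nat.one_le_iff_ne_zero.mpr hi))
  rw [h, coeff_zero, h2] at h1
  exact mul_ne_zero hd (Nat.cast_add_one_ne_zero _) h1.symm

lemma comp_zero (f : Pol σ) :
    weightedHomogeneousComponent (fun _ => (1 : ℤ)) 0 f = C (coeff 0 f) := by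
  classical
  rw [Hom.eq_C (weightedHomogeneousComponent_isWeightedHomogeneous 0 f),
    coeff_weightedHomogeneousComponent, if_pos (map_zero _)]

lemma mem_pair [DecidableEq σ] {s : σ} {c u u₁ u₂ A B : Pol σ} {d d₁ d₂ : ℤ} (hu : Hom u d)
    (hu₁ : Hom u₁ d₁) (hu₂ : Hom u₂ d₂) (e : pderiv s u = 0) (e₁ : pderiv s u₁ = 0)
    (e₂ : pderiv s u₂ = 0) (hc : eval (Pi.single s 1) c ≠ 0) (h : c * u = A * u₁ + B * u₂) :
    ∃ A' B', u = A' * u₁ + B' * u₂ := by
  set ψ : Pol σ →ₐ[ℂ] Pol σ := aeval (fun i => if i = s then 1 else X i) with hψ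
  have hψ1 : ∀ f, pderiv s f = 0 → ψ f = f := by
    intro f hf
    have : ψ.comp (kl {s}ᶜ) = kl {s}ᶜ := algHom_ext fun i => by
      by_cases hi : i = s <;> simp [kl, hψ, hi]
    rw [← kl_of_pderiv hf]
    exact AlgHom.congr_fun this f
  have hψ0 : ∀ f, coeff 0 (ψ f) = eval (Pi.single s 1) f := by
    intro f
    have : (constantCoeff : Pol σ →+* ℂ).comp (ψ : Pol σ →+* Pol σ) = eval (Pi.single s 1) := by
      apply MvPolynomial.ringHom_ext
      · intro r; simp [hψ]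
      · intro i
        by_cases hi : i = s <;> simp [hψ, hi]
    exact congrArg (fun φ : Pol σ →+* ℂ => φ f) this
  have h1 := congrArg (fun f => weightedHomogeneousComponent (fun _ => (1 : ℤ)) d (ψ f)) h
  simp only [map_mul, map_add, hψ1 _ e, hψ1 _ e₁, hψ1 _ e₂] at h1
  have f0 := comp_mul hu 0 (ψ c)
  have f1 := comp_mul hu₁ (d - d₁) (ψ A)
  have f2 := comp_mul hu₂ (d - d₂) (ψ B)
  rw [add_zero, comp_zero, hψ0] at f0
  rw [add_sub_cancel] at f1 f2
  rw [mul_comm _ u, mul_comm _ u₁, mul_comm _ u₂, f0, f1, f2] at h1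
  have h2 : (C (eval (Pi.single s 1) c)⁻¹ : Pol σ) * C (eval (Pi.single s 1) c) = 1 := by
    rw [← C_mul, inv_mul_cancel₀ hc, C_1]
  exact ⟨C (eval (Pi.single s 1) c)⁻¹ * weightedHomogeneousComponent (fun _ => 1) (d - d₁) (ψ A),
    C (eval (Pi.single s 1) c)⁻¹ * weightedHomogeneousComponent (fun _ => 1) (d - d₂) (ψ B), by
    linear_combination C (eval (Pi.single s 1) c)⁻¹ * h1 - u * h2⟩

open Classical in
lemma eval_kl' (A : Set σ) (p : σ → ℂ) (f : Pol σ) :
    eval p (kl A f) = eval (fun i => if i ∈ A then p i else 0) f := by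
  induction f using MvPolynomial.induction_on with
  | C a => simp
  | add p q hp hq => simp only [map_add, hp, hq]
  | mul_X q i hq => by_cases hi : i ∈ A <;> simp [hq, kl_X_mem, kl_X_notMem, hi]

lemma X_dvd_of_eval [Finite σ] {s t : σ} (hst : s ≠ t) {f : Pol σ}
    (h : ∀ p : σ → ℂ, p t = 0 → p s ≠ 0 → eval p f = 0) : X t ∣ f := by
  classical
  refine X_dvd_of_kl ((mul_eq_zero.mp (MvPolynomial.funext (q := 0) fun p => ?_)).resolve_left
    (X_ne_zero s))
  rw [map_mul, eval_X, map_zero, eval_kl']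
  by_cases hp : p s = 0
  · rw [hp, zero_mul]
  · rw [h _ (by simp) (by simpa [hst] using hp), mul_zero]

lemma Hom.eval_smul [Finite σ] {f : Pol σ} {d : ℤ} (hf : Hom f d) (r : ℂ) (p : σ → ℂ) :
    eval (r • p) f = r ^ d.toNat * eval p f := by
  have := Fintype.ofFinite σ
  rw [eval_eq', eval_eq', Finset.mul_sum]
  refine Finset.sum_congr rfl fun m hm => ?_
  have h1 := hf (mem_support_iff.mp hm)
  have h2 : d.toNat = ∑ i, m i := by
    rw [← h1, Finsupp.weight_apply, Finsupp.sum_fintype _ _ (by simp)]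
    simp [← Nat.cast_sum]
  simp only [Pi.smul_apply, smul_eq_mul, mul_pow, Finset.prod_mul_distrib,
    Finset.prod_pow_eq_pow_sum, h2]
  ring

namespace El

open VB

variable [Fintype ι] [DecidableEq ι]

theorem p1b {E : El (Fin 4) ι} (Q : Nil E.T₀ E.γ (D E.S₀)) (hv : E.v = Pi.single 0 1) :
    Sp E.T₀.ω := by
  by_contra hns
  set G := insert Q.q (Set.range fun P : Pair Q => E.res P.n) with hG
  have hfam : ∀ n ∈ G, (∃ α, HomN (fun _ => 1) E.γ n α) ∧ pderiv 0 (E.T₀.B Q.q n) = 0 := by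
    rintro _ (rfl | ⟨P, rfl⟩)
    · exact ⟨⟨_, Q.hq⟩, by simp⟩
    · refine ⟨⟨_, E.res_hom P.hom_n⟩, ?_⟩
      rw [P.Bq, ← dv_single, ← hv, rs_dc, P.du, map_zero]
  have hc : ∀ (φ ψ : E.T₀.N) (α β : ℤ), HomN (fun _ => 1) E.γ φ α → HomN (fun _ => 1) E.γ ψ β →
      coeff 0 (E.T₀.B φ ψ) = 0 := fun φ ψ α β h1 h2 => by
    by_contra h
    exact hns (sp_of_unit (Hom.isUnit_of_coeff (B_hom E.G₀ h1 h2) h))
  obtain ⟨i, j, hij⟩ := E.T₀.LF_eval E.hv
  obtain ⟨n₁, hn₁, n₂, hn₂, hγ⟩ := exists_B_notMem (I := RingHom.ker (eval E.v))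
    (span_pairs Q i j i) (span_pairs Q i j j) (by simpa [B_row] using hij)
  obtain ⟨⟨α₁, h₁⟩, e₁⟩ := hfam n₁ hn₁
  obtain ⟨⟨α₂, h₂⟩, e₂⟩ := hfam n₂ hn₂
  have hsp : Submodule.span (Pol (Fin 4)) G ≤ Submodule.span (Pol (Fin 4)) {Q.q, n₁, n₂} := by
    rw [Submodule.span_le]
    intro n hn
    obtain ⟨⟨α, h⟩, e⟩ := hfam n hn
    obtain ⟨A, B, hAB⟩ := mem_pair (A := -E.T₀.B n₂ n) (B := E.T₀.B n₁ n) (B_hom E.G₀ Q.hq h)
      (B_hom E.G₀ Q.hq h₁) (B_hom E.G₀ Q.hq h₂) e e₁ e₂ (c := E.T₀.B n₁ n₂) (hv ▸ hγ)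
      (by linear_combination E.T₀.rel4 Q.q n₁ n₂ n)
    obtain ⟨f, hf⟩ := eq_smul_of_B Q.hp (φ := n - A • n₁ - B • n₂) (by
      simp only [map_sub, map_smul, smul_eq_mul]
      linear_combination hAB)
    rw [show n = f • Q.q + A • n₁ + B • n₂ by rw [← hf]; abel]
    exact Submodule.add_mem _ (Submodule.add_mem _
      (Submodule.smul_mem _ _ (Submodule.subset_span (by simp)))
      (Submodule.smul_mem _ _ (Submodule.subset_span (by simp))))
      (Submodule.smul_mem _ _ (Submodule.subset_span (by simp)))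
  refine krull4 (hc _ _ _ _ h₁ h₂) (hc _ _ _ _ Q.hq h₁) (hc _ _ _ _ Q.hq h₂)
    fun p hp a1 a2 a3 s => ?_
  by_contra hs
  obtain ⟨k, l, hkl⟩ := E.T₀.LF p hp s hs
  obtain ⟨x, hx, y, hy, hxy⟩ := exists_B_notMem (I := p) (hsp (span_pairs Q k l k))
    (hsp (span_pairs Q k l l)) (by
      simp only [map_smul, LinearMap.smul_apply, smul_eq_mul, B_row_row]
      intro h
      rcases hp.mem_or_mem h with h | h
      · exact hkl h
      · exact hkl ((hp.mem_or_mem h).elim id id))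
  apply hxy
  rcases hx with rfl | rfl | rfl <;> rcases hy with rfl | rfl | rfl <;>
    first
    | assumption
    | simp
    | (rw [B_swap]; apply p.neg_mem; assumption)

theorem pl {E : El (Fin 2) ι} (Q : Nil E.T₀ E.γ (D E.S₀)) (hv : E.v = Pi.single 1 1)
    (hns : ¬ Sp E.T₁.ω) : ∃ (P : Pair Q) (κ : ℂ), κ ≠ 0 ∧ P.u = C κ ∧ P.α + P.α' + E.g = 1 ∧
      coeff 0 P.l = 0 ∧ coeff 0 P.m = 0 ∧ (∀ c, c ∣ P.l → c ∣ P.m → IsUnit c) ∧
      ∀ χ, D E.hS χ = 0 → ∃ f f' : Pol (Option (Fin 2)), χ = f • P.k + f' • P.k' ∧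
        dc E.v f = 0 ∧ dc E.v f' = 0 ∧
        ∀ β, HomN (fun _ => 1) E.γ χ β → Hom f (β - P.α) ∧ Hom f' (β - P.α') := by
  obtain ⟨t, ht⟩ : ∃ t, eval E.v (Q.q.1 t) ≠ 0 := by
    by_contra hcon
    push Not at hcon
    refine (X_prime (i := (0 : Fin 2)) (R := ℂ)).not_isUnit (Q.hp _ fun t => ?_)
    refine X_dvd_of_eval (s := 1) (by simp) fun p hp _ => ?_
    have : p = p 1 • E.v := by
      rw [hv]; funext i; fin_cases i <;> simp [hp]
    rw [this, Hom.eval_smul (Q.hq t), hcon, mul_zero]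
  obtain ⟨P, hP⟩ := el1 Q ht
  have hd : P.α + P.α' + E.g - 1 = 0 := by
    refine (rs_hom P.hom_u).deg_zero ?_
    rw [← constantCoeff_eq]
    exact (hP.map constantCoeff).ne_zero
  have hu := (hd ▸ P.hom_u).eq_C
  set κ := coeff 0 P.u
  have hκ : κ ≠ 0 := by
    intro h
    rw [hu, h, C_0, map_zero] at hP
    exact not_isUnit_zero hP
  have hy : (X none * C κ : Pol (Option (Fin 2))) ≠ 0 :=
    mul_ne_zero (X_ne_zero _) (by simpa using hκ)
  have hyh : Hom (X none * C κ : Pol (Option (Fin 2))) 1 := by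
    simpa using (isWeightedHomogeneous_X ℂ (fun _ => (1 : ℤ)) none).mul
      (isWeightedHomogeneous_C (fun _ => (1 : ℤ)) κ)
  have dec : ∀ χ, D E.hS χ = 0 → ∃ f f' : Pol (Option (Fin 2)), χ = f • P.k + f' • P.k' ∧
      dc E.v f = 0 ∧ dc E.v f' = 0 ∧
      ∀ β, HomN (fun _ => 1) E.γ χ β → Hom f (β - P.α) ∧ Hom f' (β - P.α') := by
    intro χ hχ
    obtain ⟨c, hc⟩ := Q.res_inv hχ
    have key : ∀ φ ψ : E.T₁.N, D E.hS φ = 0 → D E.hS ψ = 0 → ∃ f, E.T₁.B φ ψ = X none * C κ * f ∧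
        dc E.v f = 0 := by
      intro φ ψ h1 h2
      obtain ⟨a, ha⟩ := Q.res_inv h1
      obtain ⟨b, hb⟩ := Q.res_inv h2
      obtain ⟨f, hf⟩ := y_dvd (f := E.T₁.B φ ψ) (by rw [← res_B, ha, hb]; simp)
      have e : E.T₁.B φ ψ = X none * C κ * (C κ⁻¹ * f) := by
        rw [hf, mul_assoc, ← mul_assoc (C κ), ← C_mul, mul_inv_cancel₀ hκ, C_1, one_mul]
      refine ⟨_, e, ?_⟩
      have := E.dc_B h1 h2
      rw [e, dr_mul, dr_mul, dc_none, derivation_C] at this
      exact mul_left_cancel₀ hy (by linear_combination this)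
    obtain ⟨f, hf, hf'⟩ := key χ P.k' hχ P.hk'
    obtain ⟨g, hg, hg'⟩ := key P.k χ P.hk hχ
    refine ⟨f, g, smul_cancel hy ?_, hf', hg', fun β hβ => ⟨?_, ?_⟩⟩
    · have := E.T₁.rel3 P.k P.k' χ
      rw [P.hu, hu, hg, E.T₁.B_swap χ, hf] at this
      linear_combination (norm := module) this
    · exact hom_congr (hom_of_mul' hyh hy (hf ▸ B_hom E.hG hβ P.hα')) (by omega)
    · exact hom_congr (hom_of_mul' hyh hy (hg ▸ B_hom E.hG P.hα hβ)) (by omega)
  refine ⟨P, κ, hκ, hu, by omega, ?_, ?_, fun c h1 h2 => E.T₀.prim c fun ij => ?_, dec⟩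
  · by_contra h
    refine hns (sp_of_unit (φ := P.k) (ψ := P.n) ?_)
    rw [P.Bk, hu]
    exact ((P.hom_l.isUnit_of_coeff h).map _).mul (isUnit_C hκ)
  · by_contra h
    refine hns (sp_of_unit (φ := P.k') (ψ := P.n) ?_)
    rw [P.Bk', hu]
    exact ((P.hom_m.isUnit_of_coeff h).map _).mul (isUnit_C hκ)
  · have key : ∀ φ ∈ Submodule.span (Pol (Option (Fin 2))) E.K, ∃ l, c ∣ l ∧
        E.res φ = l • Q.q := by
      intro φ hφ
      induction hφ using Submodule.span_induction with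
      | mem k hk =>
        obtain ⟨f, f', rfl, -⟩ := dec k hk.1
        exact ⟨rs f * P.l + rs f' * P.m, dvd_add (h1.mul_left _) (h2.mul_left _), by
          rw [map_add, res_smul, res_smul, P.hl, P.hm]; module⟩
      | zero => exact ⟨0, dvd_zero _, by simp⟩
      | add x y _ _ hx hy =>
        obtain ⟨l, e1, e2⟩ := hx
        obtain ⟨l', e1', e2'⟩ := hy
        exact ⟨l + l', dvd_add e1 e1', by rw [map_add, e2, e2', add_smul]⟩
      | smul r x _ hx =>
        obtain ⟨l, e1, e2⟩ := hx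
        exact ⟨rs r * l, e1.mul_left _, by rw [res_smul, e2, mul_smul]⟩
    obtain ⟨φ, hφ, hφ'⟩ := exists_lift Q ij.1 ij.2
    obtain ⟨l, e1, e2⟩ := key φ hφ
    rwa [← coef_eq (ne_zero_of_prim Q.hp) (hφ'.symm.trans e2)] at e1

end El

end Pool.Agent.P.MP_b01859_ag
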