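import Pool.Agent.P.MP_b01859_ag.Mn

/-!
The splitting theorem for a module with two liftable vector fields.
-/

namespace Pool.Agent.P.MP_b01859_ag

open MvPolynomial Finsupp

variable {σ : Type} {M : Type} [AddCommGroup M] [Module ℂ M] [Module (Pol σ) M]
  [IsScalarTower ℂ (Pol σ) M]

lemma exists_gens' [Finite σ] [Module.Finite (Pol σ) M] {N : ℤ → Submodule ℂ M}
    (hN : iSupIndep N) (h : ⨆ a, N a = ⊤)
    (hX : ∀ i a m, m ∈ N a → (X i : Pol σ) • m ∈ N (a + 1)) :
    ∃ (ι : Type) (_ : Fintype ι) (m : ι → M) (g : ι → ℤ),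
      Submodule.span (Pol σ) (Set.range m) = ⊤ ∧ (∀ j, m j ∈ N (g j)) ∧
      ∀ j x, x ∈ N (g j) → ∃ c : ι → ℂ, (∀ k, c k ≠ 0 → g k = g j) ∧ x = ∑ k, c k • m k := by
  classical
  obtain ⟨ι, _, m, g, hsp, hm⟩ := exists_gens (σ := σ) N h
  have hs : ∀ k, ∃ s : Finset M, Submodule.span ℂ (s : Set M) = N k := fun k =>
    (Submodule.fg_iff_finiteDimensional _).mpr (finite_piece hN h hX k)
  choose s hs using hs
  have key : ∀ j x, x ∈ N (g j) → ∃ c : (Σ j : ι, s (g j)) → ℂ,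
      (∀ k, c k ≠ 0 → g k.1 = g j) ∧ x = ∑ k, c k • (k.2 : M) := by
    intro j x hx
    rw [← hs, Submodule.mem_span_finset'] at hx
    obtain ⟨c, hc⟩ := hx
    refine ⟨fun k => if h : k.1 = j then c ⟨k.2, h ▸ k.2.2⟩ else 0, fun k hk => ?_, ?_⟩
    · by_contra h1
      exact hk (dif_neg fun h2 => h1 (by rw [h2]))
    · rw [Fintype.sum_sigma, Finset.sum_eq_single j (fun b _ hb => by simp [hb]) (by simp), ← hc]
      simp
  refine ⟨Σ j : ι, s (g j), inferInstance, fun k => k.2, fun k => g k.1, ?_,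
    fun k => hs (g k.1) ▸ Submodule.subset_span k.2.2, fun j => key j.1⟩
  rw [eq_top_iff, ← hsp, Submodule.span_le]
  rintro _ ⟨j, rfl⟩
  obtain ⟨c, -, hc⟩ := key j _ (hm j)
  rw [hc]
  refine Submodule.sum_mem _ fun k _ => ?_
  rw [← algebraMap_smul (Pol σ)]
  exact Submodule.smul_mem _ _ (Submodule.subset_span ⟨k, rfl⟩)

lemma leibniz_mod {δ : Dr σ} {D : M →ₗ[ℂ] M}
    (h : ∀ i m, D ((X i : Pol σ) • m) = δ (X i) • m + (X i : Pol σ) • D m) (f : Pol σ) :
    ∀ m, D (f • m) = δ f • m + f • D m := by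
  induction f using MvPolynomial.induction_on with
  | C a =>
    intro m
    rw [derivation_C, ← algebraMap_eq, algebraMap_smul, algebraMap_smul, map_smul, zero_smul,
      zero_add]
  | add p q hp hq => intro m; rw [add_smul, map_add, hp, hq, map_add]; module
  | mul_X p i hp => intro m; rw [mul_smul, hp, h, dr_mul]; module

lemma st_of_mod [Fintype σ] {ι : Type} [Fintype ι] [DecidableEq σ] [DecidableEq ι] [Nontrivial σ]
    {T : VB σ ι} {γ : ι → ℤ} {g : ℤ} (hG : Gr (fun _ => 1) γ g T.ω) {m : ι → M}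
    (h1 : ∀ f : ι → Pol σ, ∑ j, f j • m j = 0 → ∀ l, ∑ j, f j * T.ω j l = 0)
    (h2 : ∀ i j k, ∃ t : Pol σ, t ≠ 0 ∧ t • (T.ω i j • m k - T.ω i k • m j + T.ω j k • m i) = 0)
    {A : Matrix σ σ ℂ} {D : M →ₗ[ℂ] M} (hD : ∀ f m, D (f • m) = der A f • m + f • D m)
    {a : Matrix ι ι ℂ} (ha : ∀ i j, a i j ≠ 0 → γ j = γ i) (hm : ∀ i, D (m i) = ∑ j, a i j • m j) :
    St T γ A := by
  let ω' : ι → ι → Pol σ := fun i j =>
    der A (T.ω i j) - ∑ k, a i k • T.ω k j - ∑ k, a j k • T.ω i k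
  have hsk : ∀ i j, ω' j i = - ω' i j := by
    intro i j
    have e1 : ∑ k, a j k • T.ω k i = -∑ k, a j k • T.ω i k := by
      rw [← Finset.sum_neg_distrib]
      exact Finset.sum_congr rfl fun k _ => by rw [T.skew i k, smul_neg]
    have e2 : ∑ k, a i k • T.ω j k = -∑ k, a i k • T.ω k j := by
      rw [← Finset.sum_neg_distrib]
      exact Finset.sum_congr rfl fun k _ => by rw [T.skew k j, smul_neg]
    simp only [ω']
    rw [e1, e2, T.skew i j, map_neg]
    ring
  have hc : ∀ f : ι → Pol σ, ∑ j, f j • m j = 0 → ∀ l, ∑ j, f j * ω' j l = 0 := by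
    intro f hf l
    have e1 := h1 (fun k => der A (f k) + ∑ j, a j k • f j) (by
      have := congrArg D hf
      simp only [map_sum, hD, hm, map_zero, Finset.smul_sum] at this
      simp only [add_smul, Finset.sum_smul, Finset.sum_add_distrib] at this ⊢
      rw [Finset.sum_comm, ← this]
      congr 1
      exact Finset.sum_congr rfl fun j _ => Finset.sum_congr rfl fun k _ => by
        rw [smul_assoc, smul_comm]) l
    have e2 := congrArg (der A) (h1 f hf l)
    have e3 : ∑ j, f j * ∑ k, a l k • T.ω j k = 0 := by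
      simp only [Finset.mul_sum, mul_smul_comm]
      rw [Finset.sum_comm]
      exact Finset.sum_eq_zero fun k _ => by rw [← Finset.smul_sum, h1 f hf, smul_zero]
    have e4 : ∑ j, f j * ∑ k, a j k • T.ω k l = ∑ k, (∑ j, a j k • f j) * T.ω k l := by
      simp only [Finset.mul_sum, Finset.sum_mul, mul_smul_comm, smul_mul_assoc]
      rw [Finset.sum_comm]
    simp only [map_sum, dr_mul, map_zero, add_mul, Finset.sum_add_distrib] at e1 e2
    simp only [ω', mul_sub, Finset.sum_sub_distrib, e3, e4]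
    linear_combination e2 - e1
  obtain ⟨Δ, hΔ⟩ := VB.alt_prop (T := T) hsk fun l i j k => by
    obtain ⟨t, ht, h⟩ := h2 i j k
    have := hc (fun s => (if s = k then t * T.ω i j else 0) - (if s = j then t * T.ω i k else 0)
      + (if s = i then t * T.ω j k else 0)) (by
        simp only [add_smul, sub_smul, ite_smul, zero_smul, Finset.sum_add_distrib,
          Finset.sum_sub_distrib, Finset.sum_ite_eq', Finset.mem_univ, if_true]
        rw [← h]; module) l
    simp only [add_mul, sub_mul, ite_mul, zero_mul, Finset.sum_add_distrib,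
      Finset.sum_sub_distrib, Finset.sum_ite_eq', Finset.mem_univ, if_true] at this
    apply mul_left_cancel₀ ht
    rw [hsk k l, hsk j l, hsk i l]
    linear_combination -this
  have hh : ∀ i j, Hom (ω' i j) (γ i + γ j - g) := by
    intro i j
    refine ((der_Hom A (hG i j)).sub (IsWeightedHomogeneous.sum _ _ _ fun k _ => ?_)).sub
      (IsWeightedHomogeneous.sum _ _ _ fun k _ => ?_)
    · by_cases h : a i k = 0
      · rw [h, zero_smul]; exact isWeightedHomogeneous_zero _ _ _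
      · rw [smul_eq_C_mul, ← ha i k h]; exact (hG k j).C_mul _
    · by_cases h : a j k = 0
      · rw [h, zero_smul]; exact isWeightedHomogeneous_zero _ _ _
      · rw [smul_eq_C_mul, ← ha j k h]; exact (hG i k).C_mul _
  obtain ⟨i, j, hij⟩ := T.LF ⊥ Ideal.isPrime_bot (Classical.arbitrary σ) (by simp)
  have hΔ0 : Hom Δ 0 := hom_congr (hom_of_mul' (hG i j) (by simpa using hij)
    (mul_comm Δ _ ▸ hΔ i j ▸ hh i j)) (sub_self _)
  refine ⟨a + (coeff 0 Δ / 2) • 1, fun i j h => ?_, fun i j => ?_⟩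
  · by_cases hij : i = j
    · rw [hij]
    · exact ha i j (by simpa [hij] using h)
  · have := hΔ i j
    rw [hΔ0.eq_C, ← smul_eq_C_mul] at this
    simp only [Matrix.add_apply, Matrix.smul_apply, Matrix.one_apply, smul_eq_mul, mul_ite,
      mul_one, mul_zero, add_smul, ite_smul, zero_smul, Finset.sum_add_distrib, Finset.sum_ite_eq,
      Finset.mem_univ, if_true]
    simp only [ω'] at this
    linear_combination (norm := module) this

theorem split_of_der [Fintype σ] [DecidableEq σ] (hcard : 7 ≤ Fintype.card σ)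
    [Module.Finite (Pol σ) M] (ℳ : ℤ → Submodule ℂ M) (hint : DirectSum.IsInternal ℳ)
    (hgr : ∀ i k m, m ∈ ℳ k → (X i : Pol σ) • m ∈ ℳ (k + 1))
    (hfree : ∀ p : PrimeSpectrum (Pol σ), (∃ i, X i ∉ p.asIdeal) →
      Module.Free (Localization.AtPrime p.asIdeal) (LocalizedModule p.asIdeal.primeCompl M) ∧
      Module.finrank (Localization.AtPrime p.asIdeal)
        (LocalizedModule p.asIdeal.primeCompl M) = 2)
    (A B : Matrix σ σ ℂ) (hAB : LinearIndependent ℂ ![A, B, 1]) (DA DB : M →ₗ[ℂ] M)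
    (hA : ∀ k m, m ∈ ℳ k → DA m ∈ ℳ k) (hB : ∀ k m, m ∈ ℳ k → DB m ∈ ℳ k)
    (hA' : ∀ i m, DA ((X i : Pol σ) • m) =
      (∑ j, C (A i j) * X j : Pol σ) • m + (X i : Pol σ) • DA m)
    (hB' : ∀ i m, DB ((X i : Pol σ) • m) =
      (∑ j, C (B i j) * X j : Pol σ) • m + (X i : Pol σ) • DB m) :
    ∃ (a b : ℤ) (φ : M →ₗ[Pol σ] Pol σ × Pol σ),
      (∀ k m, m ∈ ℳ k → IsWeightedHomogeneous (fun _ => (1 : ℤ)) (φ m).1 (k + a) ∧
        IsWeightedHomogeneous (fun _ => (1 : ℤ)) (φ m).2 (k + b)) ∧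
      ∀ p : PrimeSpectrum (Pol σ), (∃ i, X i ∉ p.asIdeal) →
        Function.Bijective (LocalizedModule.map p.asIdeal.primeCompl φ) := by
  classical
  have hind := hint.submodule_iSupIndep
  have : Nontrivial σ := Fintype.one_lt_card_iff_nontrivial.mp (by omega)
  obtain ⟨ι, _, m, γ, hsp, hm, hc⟩ := exists_gens' hind hint.submodule_iSup_eq_top hgr
  obtain ⟨T, hw, rfl, h1, h2, hT⟩ := module_plu (fun _ _ h => h (AddMonoidHom.id ℤ))
    (fun _ => (1 : ℤ)) (Classical.arbitrary σ) m hsp γ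
    (hgr_of hind (w' := fun _ => (1 : ℤ)) hgr (AddMonoidHom.id ℤ) Function.injective_id
      (AddMonoidHom.id ℤ) (fun _ => rfl) hm (fun _ => rfl)) hfree
  let V : VB σ ι := ⟨T.ω, T.skew, T.pl, T.LF⟩
  have hG : Gr (fun _ => 1) T.γ T.g₀ V.ω := fun i j => hw ▸ T.hom i j
  have hS : ∀ (A : Matrix σ σ ℂ) (D : M →ₗ[ℂ] M), (∀ k m, m ∈ ℳ k → D m ∈ ℳ k) →
      (∀ i m, D ((X i : Pol σ) • m) =
        (∑ j, C (A i j) * X j : Pol σ) • m + (X i : Pol σ) • D m) → St V T.γ A := by
    intro A D h h'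
    choose a ha ha' using fun j => hc j _ (h _ _ (hm j))
    exact st_of_mod hG h1 h2 (leibniz_mod (δ := der A) fun i m => by rw [der_X, h']) ha ha'
  obtain ⟨n₁, n₂, α, β, h3⟩ := VB.split_of_sp hG
    (main_vb hG hcard (hS A DA hA hA') (hS B DB hB hB') hAB)
  obtain ⟨α, β, φ, hφ, hb⟩ := hT ⟨n₁, n₂, α, β, hw ▸ h3⟩
  refine ⟨α, β, φ, fun k x hx => ?_, hb⟩
  obtain ⟨f, hf, rfl⟩ := eq_sum_comp hind hgr hsp hm hx
  simp only [map_sum, map_smul, Prod.fst_sum, Prod.snd_sum, Prod.smul_fst, Prod.smul_snd,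
    smul_eq_mul]
  exact ⟨IsWeightedHomogeneous.sum _ _ _ fun j _ => hom_congr ((hf j).mul (hφ j).1) (by ring),
    IsWeightedHomogeneous.sum _ _ _ fun j _ => hom_congr ((hf j).mul (hφ j).2) (by ring)⟩

end Pool.Agent.P.MP_b01859_ag
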