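import Pool.Agent.P.MP_b01859_ag.Mod

/-!
Gradings defined by independent families of subspaces.
-/

namespace Pool.Agent.P.MP_b01859_ag

open MvPolynomial Finsupp

section indep

variable {M : Type} [AddCommGroup M] [Module ℂ M]

open Classical in
lemma sum_filter_eq_zero {A T : Type} {N : A → Submodule ℂ M} (hN : iSupIndep N) (s : Finset T)
    (v : T → M) (a : T → A) (hv : ∀ t ∈ s, v t ∈ N (a t)) (h0 : ∑ t ∈ s, v t = 0)
    (P : A → Prop) : ∑ t ∈ s with P (a t), v t = 0 := by
  have h1 := (iSupIndep_iff_finsetSum_eq_zero_imp_eq_zero N).mp hN (s.image a)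
    (fun α => ∑ t ∈ s with a t = α, v t)
    (fun α _ => Submodule.sum_mem _ fun t ht => by
      obtain ⟨h1, h2⟩ := Finset.mem_filter.mp ht
      exact h2 ▸ hv t h1)
    (by rw [Finset.sum_fiberwise_of_maps_to (fun t ht => Finset.mem_image_of_mem a ht), h0])
  rw [← Finset.sum_fiberwise_of_maps_to (g := a) (t := s.image a)
    (fun t ht => Finset.mem_image_of_mem a (Finset.mem_filter.mp ht).1)]
  refine Finset.sum_eq_zero fun α hα => ?_
  by_cases hP : P α
  · rw [← h1 α hα, Finset.filter_filter]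
    refine Finset.sum_congr (Finset.filter_congr fun t _ => ⟨fun h => h.2, fun h => ⟨h ▸ hP, h⟩⟩)
      fun _ _ => rfl
  · refine Finset.sum_eq_zero fun t ht => ?_
    simp only [Finset.mem_filter] at ht
    exact absurd (ht.2 ▸ ht.1.2) hP

lemma indep_inf {A B : Type} {N : A → Submodule ℂ M} {N' : B → Submodule ℂ M} (hN : iSupIndep N)
    (hN' : iSupIndep N') : iSupIndep (fun c : A × B => N c.1 ⊓ N' c.2) := by
  classical
  rw [iSupIndep_iff_finsetSum_eq_zero_imp_eq_zero]
  intro s v hv h0 c hc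
  have h1 := sum_filter_eq_zero hN s v Prod.fst (fun t ht => (hv t ht).1) h0 (· = c.1)
  have h2 := sum_filter_eq_zero hN' _ v Prod.snd
    (fun t ht => (hv t (Finset.mem_filter.mp ht).1).2) h1 (· = c.2)
  rw [Finset.filter_filter, Finset.sum_eq_single_of_mem c (by simp [hc])] at h2
  · exact h2
  · intro b hb hbc
    simp only [Finset.mem_filter] at hb
    exact absurd (Prod.ext hb.2.1 hb.2.2) hbc

end indep

variable {σ : Type} {M : Type} [AddCommGroup M] [Module ℂ M] [Module (Pol σ) M]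
  [IsScalarTower ℂ (Pol σ) M]

lemma mono_mem {A : Type} [AddCommGroup A] {N : A → Submodule ℂ M} {w : σ → A}
    (hX : ∀ i a m, m ∈ N a → (X i : Pol σ) • m ∈ N (a + w i)) (d : σ →₀ ℕ) (c : ℂ) :
    ∀ a m, m ∈ N a → (monomial d c : Pol σ) • m ∈ N (a + weight w d) := by
  have hp : ∀ i (n : ℕ) a m, m ∈ N a → ((X i : Pol σ) ^ n) • m ∈ N (a + n • w i) := by
    intro i n
    induction n with
    | zero => intro a m hm; simpa using hm
    | succ n ih =>
      intro a m hm
      rw [pow_succ', mul_smul, succ_nsmul, ← add_assoc]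
      exact hX _ _ _ (ih a m hm)
  induction d using Finsupp.induction with
  | zero =>
    intro a m hm
    rw [map_zero, add_zero, monomial_zero', ← algebraMap_eq, algebraMap_smul]
    exact Submodule.smul_mem _ _ hm
  | single_add i n f _ _ ih =>
    intro a m hm
    rw [monomial_single_add, mul_smul, map_add, weight_single, add_comm (n • w i), ← add_assoc]
    exact hp _ _ _ _ (ih a m hm)

lemma hgr_of {A Γ Δ ι : Type} [AddCommGroup A] [AddCommGroup Γ] [AddCommGroup Δ] [Fintype ι]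
    {N : A → Submodule ℂ M} (hN : iSupIndep N) {w' : σ → A}
    (hX : ∀ i a m, m ∈ N a → (X i : Pol σ) • m ∈ N (a + w' i)) (e : Γ →+ Δ)
    (he : Function.Injective e) (F : A →+ Δ) {w : σ → Γ} (hw : ∀ i, e (w i) = F (w' i))
    {m : ι → M} {g : ι → A} (hm : ∀ j, m j ∈ N (g j)) {γ : ι → Γ} (hγ : ∀ j, e (γ j) = F (g j))
    (f : ι → Pol σ) (h0 : ∑ j, f j • m j = 0) (c : Γ) :
    ∑ j, weightedHomogeneousComponent w (c - γ j) (f j) • m j = 0 := by
  classical
  have h1 := sum_filter_eq_zero hN (Finset.univ.sigma fun j => (f j).support)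
    (fun t => (monomial t.2 (coeff t.2 (f t.1)) : Pol σ) • m t.1)
    (fun t => g t.1 + weight w' t.2) (fun t _ => mono_mem hX _ _ _ _ (hm _))
    (by
      rw [Finset.sum_sigma, ← h0]
      refine Finset.sum_congr rfl fun j _ => ?_
      dsimp only
      rw [← Finset.sum_smul, ← as_sum])
    (fun a => F a = e c)
  rw [Finset.sum_filter, Finset.sum_sigma] at h1
  rw [← h1]
  refine Finset.sum_congr rfl fun j _ => ?_
  rw [weightedHomogeneousComponent_apply, Finset.sum_smul, Finset.sum_filter]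
  refine Finset.sum_congr rfl fun d _ => ?_
  have h2 : F (g j + weight w' d) = e (γ j + weight w d) := by
    rw [map_add, map_add, hγ, ← weight_comp, ← weight_comp]
    simp only [hw]
  have h3 : (weight w d = c - γ j) ↔ F (g j + weight w' d) = e c := by
    rw [h2, he.eq_iff, eq_sub_iff_add_eq']
  simp only [h3]

lemma eq_sum_comp {ι : Type} [Fintype ι] {N : ℤ → Submodule ℂ M} (hN : iSupIndep N)
    (hX : ∀ i a m, m ∈ N a → (X i : Pol σ) • m ∈ N (a + 1)) {m : ι → M}
    (hsp : Submodule.span (Pol σ) (Set.range m) = ⊤) {g : ι → ℤ} (hm : ∀ j, m j ∈ N (g j))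
    {k : ℤ} {x : M} (hx : x ∈ N k) :
    ∃ f : ι → Pol σ, (∀ j, IsWeightedHomogeneous (fun _ => (1 : ℤ)) (f j) (k - g j)) ∧
      x = ∑ j, f j • m j := by
  classical
  obtain ⟨f, hf⟩ := (Submodule.mem_span_range_iff_exists_fun (Pol σ)).mp
    (hsp ▸ Submodule.mem_top : x ∈ Submodule.span (Pol σ) (Set.range m))
  have h1 := hgr_of hN (w' := fun _ => (1 : ℤ)) hX (AddMonoidHom.id ℤ) Function.injective_id
    (AddMonoidHom.id ℤ) (w := fun _ => (1 : ℤ)) (fun _ => rfl)
    (m := fun o : Option ι => o.elim x m) (g := fun o => o.elim k g)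
    (fun o => by cases o <;> simp [hx, hm]) (γ := fun o => o.elim k g) (fun _ => rfl)
    (fun o => o.elim (-1) f) (by simp [Fintype.sum_option, hf]) k
  refine ⟨fun j => weightedHomogeneousComponent (fun _ => (1 : ℤ)) (k - g j) (f j),
    fun j => weightedHomogeneousComponent_isWeightedHomogeneous _ _, ?_⟩
  have h2 : weightedHomogeneousComponent (fun _ : σ => (1 : ℤ)) 0 (1 : Pol σ) = 1 :=
    (isWeightedHomogeneous_one ℂ _).weightedHomogeneousComponent_same
  simp only [Fintype.sum_option, Option.elim, sub_self, map_neg, h2, neg_smul, one_smul] at h1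
  rw [← sub_eq_zero, ← neg_eq_zero, ← h1]
  abel

lemma exists_gens {A : Type} [Module.Finite (Pol σ) M] (N : A → Submodule ℂ M)
    (h : ⨆ a, N a = ⊤) :
    ∃ (ι : Type) (_ : Fintype ι) (m : ι → M) (g : ι → A),
      Submodule.span (Pol σ) (Set.range m) = ⊤ ∧ ∀ j, m j ∈ N (g j) := by
  have h1 : Submodule.span (Pol σ) {x | ∃ a, x ∈ N a} = ⊤ := by
    rw [eq_top_iff]
    intro x _
    have h2 : ⨆ a, N a ≤ (Submodule.span (Pol σ) {x | ∃ a, x ∈ N a}).restrictScalars ℂ :=
      iSup_le fun a y hy => Submodule.subset_span ⟨a, hy⟩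
    exact h2 (h ▸ Submodule.mem_top)
  obtain ⟨s, hs, hs'⟩ := (Submodule.fg_span_iff_fg_span_finset_subset _).mp
    (h1 ▸ Module.Finite.fg_top)
  choose g hg using fun j : s => hs j.2
  exact ⟨s, inferInstance, Subtype.val, g, by rw [← h1, hs']; simp, hg⟩

lemma finite_piece [Finite σ] [Module.Finite (Pol σ) M] {N : ℤ → Submodule ℂ M}
    (hN : iSupIndep N) (h : ⨆ a, N a = ⊤)
    (hX : ∀ i a m, m ∈ N a → (X i : Pol σ) • m ∈ N (a + 1)) (k : ℤ) :
    FiniteDimensional ℂ (N k) := by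
  obtain ⟨ι, _, m, g, hsp, hm⟩ := exists_gens (σ := σ) N h
  have h1 : N k ≤ ⨆ j, (restrictTotalDegree σ ℂ (k - g j).toNat).map
      ((LinearMap.toSpanSingleton (Pol σ) M (m j)).restrictScalars ℂ) := by
    intro x hx
    obtain ⟨f, hf, rfl⟩ := eq_sum_comp hN hX hsp hm hx
    refine Submodule.sum_mem _ fun j _ => Submodule.mem_iSup_of_mem j ⟨f j, ?_, by simp⟩
    rw [SetLike.mem_coe, mem_restrictTotalDegree, totalDegree, Finset.sup_le_iff]
    intro d hd
    have h2 := hf j (MvPolynomial.mem_support_iff.mp hd)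
    rw [← h2]
    simp [weight_apply, Finsupp.sum, ← Nat.cast_sum]
  exact Submodule.finiteDimensional_of_le h1

lemma eig_X {θ : Module.End ℂ M} {i : σ} {t : ℂ}
    (hθ : ∀ m, θ ((X i : Pol σ) • m) = t • (X i : Pol σ) • θ m) {μ : ℂ} {m : M}
    (hm : m ∈ θ.maxGenEigenspace μ) : (X i : Pol σ) • m ∈ θ.maxGenEigenspace (μ * t) := by
  rw [Module.End.mem_maxGenEigenspace] at hm ⊢
  obtain ⟨k, hk⟩ := hm
  have : ∀ k : ℕ, ((θ - (μ * t) • (1 : Module.End ℂ M)) ^ k) ((X i : Pol σ) • m) =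
      t ^ k • (X i : Pol σ) • ((θ - μ • (1 : Module.End ℂ M)) ^ k) m := by
    intro k
    induction k with
    | zero => simp
    | succ k ih =>
      rw [pow_succ', Module.End.mul_apply, ih, pow_succ' (θ - μ • (1 : Module.End ℂ M)),
        Module.End.mul_apply, map_smul, pow_succ, mul_smul (t ^ k)]
      congr 1
      simp only [LinearMap.sub_apply, LinearMap.smul_apply, Module.End.one_apply, hθ, smul_sub]
      rw [smul_comm (X i : Pol σ) μ, smul_smul t μ, mul_comm t μ]
  exact ⟨k, by rw [this, hk, smul_zero, smul_zero]⟩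

lemma exists_lam [Finite σ] (p q : σ → ℤ) {i j k : σ} {N : ℤ} (hN : N ≠ 0) (h1 : p j - p i = N)
    (h2 : q j - q i = 0) (h4 : q k - q i = N) (h3 : p k - p i = 0) :
    ∃ (x y s : σ) (lam : ℤ × ℤ × ℤ →+ ℤ), (1, p x, q x) ≠ ((1, p y, q y) : ℤ × ℤ × ℤ) ∧
      (∀ l, 0 ≤ lam (1, p l, q l)) ∧ lam (1, p x, q x) = 0 ∧ lam (1, p y, q y) = 0 ∧
      lam (1, p s, q s) ≠ 0 := by
  have : Nonempty σ := ⟨i⟩
  let L : ℤ → ℤ → ℤ → (ℤ × ℤ × ℤ →+ ℤ) := fun a b c =>
    { toFun := fun v => a * v.1 + b * v.2.1 + c * v.2.2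
      map_zero' := by simp
      map_add' := fun u v => by simp; ring }
  have hL : ∀ a b c u v, L a b c (1, u, v) = a + b * u + c * v := fun a b c u v => by simp [L]
  obtain ⟨x, hx⟩ := Finite.exists_min p
  by_cases hc : ∃ y, p y = p x ∧ q y ≠ q x
  · obtain ⟨y, hy, hy'⟩ := hc
    obtain ⟨s, hs⟩ : ∃ s, p s ≠ p x := by
      by_contra h
      push Not at h
      exact hN (by rw [← h1, h j, h i, sub_self])
    refine ⟨x, y, s, L (-p x) 1 0, fun h => hy' ?_, fun l => ?_, ?_, ?_, ?_⟩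
    · simp only [Prod.mk.injEq] at h
      exact h.2.2.symm
    · rw [hL]; linarith [hx l]
    · rw [hL]; ring
    · rw [hL, hy]; ring
    · rw [hL]; intro h; apply hs; linarith
  · push Not at hc
    have : Nonempty {l // p x < p l} := by
      by_contra h
      rw [not_nonempty_iff] at h
      have h5 : ∀ l, p l = p x := fun l =>
        le_antisymm (not_lt.mp fun hl => h.false ⟨l, hl⟩) (hx l)
      exact hN (by rw [← h1, h5, h5 i, sub_self])
    obtain ⟨⟨y, hy⟩, hy'⟩ := Finite.exists_min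
      (fun l : {l // p x < p l} => ((q l - q x : ℤ) : ℚ) / ((p l - p x : ℤ) : ℚ))
    have hpos : ∀ l, 0 ≤ L ((q y - q x) * p x - (p y - p x) * q x) (-(q y - q x)) (p y - p x)
        (1, p l, q l) := by
      intro l
      rw [hL]
      rcases (hx l).eq_or_lt with h | h
      · rw [hc l h.symm, ← h]; apply le_of_eq; ring
      · have h6 := hy' ⟨l, h⟩
        simp only at h6
        rw [div_le_div_iff₀ (by exact_mod_cast sub_pos.mpr hy) (by exact_mod_cast sub_pos.mpr h)]
          at h6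
        have h7 : (q y - q x) * (p l - p x) ≤ (q l - q x) * (p y - p x) := by exact_mod_cast h6
        linarith
    obtain ⟨s, hs⟩ : ∃ s, L ((q y - q x) * p x - (p y - p x) * q x) (-(q y - q x)) (p y - p x)
        (1, p s, q s) ≠ 0 := by
      by_contra h
      push Not at h
      simp only [hL] at h
      have e1 : (q y - q x) * N = 0 := by
        linear_combination h i - h j - (q y - q x) * h1 + (p y - p x) * h2
      have e2 : (p y - p x) * N = 0 := by
        linear_combination h k - h i + (q y - q x) * h3 - (p y - p x) * h4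
      rcases mul_eq_zero.mp e2 with h8 | h8
      · linarith
      · exact hN h8
    refine ⟨x, y, s, _, fun h => ?_, hpos, ?_, ?_, hs⟩
    · simp only [Prod.mk.injEq] at h
      linarith [h.2.1]
    · rw [hL]; ring
    · rw [hL]; ring

lemma exists_chars (u v : ℂˣ) (h : ∀ a b : ℤ, u ^ a * v ^ b = 1 → a = 0 ∧ b = 0) {T : Type}
    [Fintype T] (z : T → ℂˣ) :
    ∃ (P Q : Additive ℂˣ →+ ℚ) (N : ℤ), N ≠ 0 ∧ P (Additive.ofMul u) = N ∧
      Q (Additive.ofMul u) = 0 ∧ Q (Additive.ofMul v) = N ∧ P (Additive.ofMul v) = 0 ∧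
      (∀ t, ∃ a : ℤ, (a : ℚ) = P (Additive.ofMul (z t))) ∧
      ∀ t, ∃ a : ℤ, (a : ℚ) = Q (Additive.ofMul (z t)) := by
  classical
  let f : ℤ × ℤ →+ Additive ℂˣ :=
    (zmultiplesHom _ (Additive.ofMul u)).coprod (zmultiplesHom _ (Additive.ofMul v))
  have hf : Function.Injective f := by
    rw [injective_iff_map_eq_zero]
    intro a ha
    obtain ⟨h1, h2⟩ := h a.1 a.2 (by
      have := congrArg Additive.toMul ha
      simpa [f] using this)
    exact Prod.ext h1 h2
  obtain ⟨P, hP⟩ := (Module.Baer.of_divisible ℚ).extension_property_addMonoidHom f hf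
    ((Int.castAddHom ℚ).comp (AddMonoidHom.fst ℤ ℤ))
  obtain ⟨Q, hQ⟩ := (Module.Baer.of_divisible ℚ).extension_property_addMonoidHom f hf
    ((Int.castAddHom ℚ).comp (AddMonoidHom.snd ℤ ℤ))
  have P1 := DFunLike.congr_fun hP (1, 0)
  have P2 := DFunLike.congr_fun hP (0, 1)
  have Q1 := DFunLike.congr_fun hQ (1, 0)
  have Q2 := DFunLike.congr_fun hQ (0, 1)
  simp [f] at P1 P2 Q1 Q2
  let N : ℕ := ∏ t, ((P (Additive.ofMul (z t))).den * (Q (Additive.ofMul (z t))).den)
  have hN : N ≠ 0 := Finset.prod_ne_zero_iff.mpr fun t _ =>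
    mul_ne_zero (Rat.den_ne_zero _) (Rat.den_ne_zero _)
  have key : ∀ r : ℚ, r.den ∣ N → ∃ a : ℤ, (a : ℚ) = N • r := by
    rintro r ⟨c, hc⟩
    refine ⟨c * r.num, ?_⟩
    rw [hc, nsmul_eq_mul]
    push_cast
    rw [mul_comm (r.den : ℚ), mul_assoc, Rat.den_mul_eq_num]
  refine ⟨N • P, N • Q, N, by exact_mod_cast hN, by simp [P1], by simp [Q1], by simp [Q2],
    by simp [P2], fun t => key _ ?_, fun t => key _ ?_⟩
  · exact (Dvd.intro _ rfl).trans (Finset.dvd_prod_of_mem _ (Finset.mem_univ t))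
  · exact (Dvd.intro_left _ rfl).trans (Finset.dvd_prod_of_mem _ (Finset.mem_univ t))

end Pool.Agent.P.MP_b01859_ag
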