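import Pool.Agent.P.MP_b01859_ag.Jc

/-!
Two commuting nilpotent symmetries.
-/

namespace Pool.Agent.P.MP_b01859_ag

open MvPolynomial VB

section la

variable {V : Type} [AddCommGroup V] [Module ℂ V] [FiniteDimensional ℂ V]

lemma la2 (h7 : 7 ≤ Module.finrank ℂ V) (S : Submodule ℂ (Module.End ℂ V))
    (hc : ∀ F ∈ S, ∀ G ∈ S, ∀ x, F (G x) = G (F x)) (hn : ∀ F ∈ S, LN F)
    (hind : ∀ F ∈ S, ∃ G ∈ S, ∀ c : ℂ, G ≠ c • F) (hS : ∃ F ∈ S, F ≠ 0)
    (h1 : ∀ F ∈ S, F ≠ 0 → Module.finrank ℂ (LinearMap.ker (F * F)) < 5)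
    (h2 : ∀ F ∈ S, ∀ G ∈ S, ∀ w, F (F w) = 0 → G (F w) = 0) : False := by
  by_cases hY : ∀ F ∈ S, F ≠ 0 → LinearMap.ker F ≤ LinearMap.range F
  · obtain ⟨e, he, he0⟩ := hS
    obtain ⟨f, hf, hfe⟩ := hind e he
    have hk : ∀ F ∈ S, F ≠ 0 → ∀ x, F x = 0 → e x = 0 := by
      intro F hF hF0 x hx
      obtain ⟨w, rfl⟩ := hY F hF hF0 hx
      exact h2 F hF e he w hx
    obtain ⟨s, hs⟩ := e.rangeRestrict.exists_rightInverse_of_surjective e.range_rangeRestrict
    have hs' : ∀ y : LinearMap.range e, e (s y) = y := fun y =>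
      congrArg Subtype.val (LinearMap.congr_fun hs y)
    let s' : LinearMap.ker e →ₗ[ℂ] V := s ∘ₗ Submodule.inclusion (hY e he he0)
    have hs'' : ∀ y : LinearMap.ker e, e (s' y) = y := fun y => hs' _
    let Θ : Module.End ℂ (LinearMap.ker e) := (f ∘ₗ s').codRestrict _ fun y => by
      rw [LinearMap.mem_ker, LinearMap.comp_apply, hc e he f hf]
      exact h2 e he f hf _ (by rw [hs'']; exact y.2)
    have : Nontrivial (LinearMap.ker e) := by
      obtain ⟨x, hx⟩ : ∃ x, e x ≠ 0 := by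
        by_contra hcon
        push Not at hcon
        exact he0 (LinearMap.ext hcon)
      obtain ⟨k, hk1, hk2⟩ := (hn e he).exists_last (· ≠ 0) (by simp)
        (v := x) (fun h => hx (by rw [h, map_zero]))
      exact ⟨⟨⟨_, not_not.mp hk2⟩, 0, fun h => hk1 (congrArg Subtype.val h)⟩⟩
    obtain ⟨c, hc'⟩ := Θ.exists_eigenvalue
    obtain ⟨y, hy⟩ := hc'.exists_hasEigenvector
    have h3 : f (s' y) = c • (y : V) := congrArg Subtype.val hy.apply_eq_smul
    have h4 := hk (f - c • e) (S.sub_mem hf (S.smul_mem _ he)) (sub_ne_zero.mpr (hfe c)) (s' y)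
      (by rw [LinearMap.sub_apply, LinearMap.smul_apply, h3, hs'', sub_self])
    rw [hs''] at h4
    exact hy.2 (Subtype.ext h4)
  push Not at hY
  obtain ⟨e, he, he0, hke⟩ := hY
  obtain ⟨f, hf, hfe⟩ := hind e he
  set I : Submodule ℂ V := LinearMap.range e ⊓ LinearMap.ker e with hI
  have d2 : Module.finrank ℂ (LinearMap.ker (e * e)) =
      Module.finrank ℂ (LinearMap.ker e) + Module.finrank ℂ I := finrank_ker_sq e e
  have dI : Module.finrank ℂ I < Module.finrank ℂ (LinearMap.ker e) :=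
    Submodule.finrank_lt_finrank_of_lt (lt_of_le_not_ge inf_le_right fun h => hke (h.trans
      inf_le_left))
  have d4 := h1 e he he0
  have step : ∀ G : Module.End ℂ V, Module.finrank ℂ (LinearMap.ker (e * (e * G))) ≤
      Module.finrank ℂ (LinearMap.ker (e * G)) + 1 := by
    intro G
    have a1 : Module.finrank ℂ (LinearMap.range (e * G) ⊓ LinearMap.ker e : Submodule ℂ V) ≤
        Module.finrank ℂ I := Submodule.finrank_mono (inf_le_inf_right _ (by
          rintro _ ⟨x, rfl⟩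
          exact ⟨G x, rfl⟩))
    have a2 : Module.finrank ℂ (LinearMap.ker (e * (e * G))) =
      Module.finrank ℂ (LinearMap.ker (e * G)) + Module.finrank ℂ
        (LinearMap.range (e * G) ⊓ LinearMap.ker e : Submodule ℂ V) := finrank_ker_sq e (e * G)
    omega
  obtain ⟨x, hx⟩ : ∃ x, e (e (e (e x))) ≠ 0 := by
    by_contra hcon
    push Not at hcon
    have a1 : LinearMap.ker (e * (e * (e * e))) = ⊤ := eq_top_iff.mpr fun x _ => hcon x
    have a2 := step (e * e)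
    have a3 := step e
    rw [a1, finrank_top] at a2
    omega
  obtain ⟨k, hk, hk'⟩ := (hn e he).exists_last (fun x => e (e (e (e x))) ≠ 0) (by simp) hx
  generalize (e ^ k) x = w at hk hk'
  rw [not_not] at hk'
  have hI1 : ∀ y z, e (e y) = 0 → z = e y → ∃ c : ℂ, z = c • e (e (e (e w))) := by
    rintro y _ hy rfl
    obtain ⟨c, hc⟩ := exists_smul_eq_of_finrank_eq_one (K := ℂ) (V := I)
      (by
        have : 0 < Module.finrank ℂ I := Module.finrank_pos_iff_exists_ne_zero.mpr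
          ⟨⟨_, ⟨_, rfl⟩, hk'⟩, fun h => hk (congrArg Subtype.val h)⟩
        omega)
      (x := ⟨e (e (e (e w))), ⟨_, rfl⟩, hk'⟩) (fun h => hk (congrArg Subtype.val h))
      ⟨e y, ⟨_, rfl⟩, hy⟩
    exact ⟨c, (congrArg Subtype.val hc).symm⟩
  have c1 := hc e he f hf
  have a1 : f (e (e (e (e w)))) = 0 := h2 e he f hf _ hk'
  obtain ⟨c, a2⟩ := hI1 (f (e (e w))) (f (e (e (e w)))) (by rw [c1, c1, a1]) (by rw [c1])
  set g := f - c • e with hg
  have hgS : g ∈ S := S.sub_mem hf (S.smul_mem _ he)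
  have c2 := hc e he g hgS
  have b1 : g (e (e (e (e w)))) = 0 := h2 e he g hgS _ hk'
  have b2 : g (e (e (e w))) = 0 := by
    rw [hg, LinearMap.sub_apply, LinearMap.smul_apply, a2, sub_self]
  obtain ⟨c₂, b3⟩ := hI1 (g (e w)) (g (e (e w))) (by rw [c2, c2, b2]) (by rw [c2])
  obtain ⟨c₃, b4⟩ := hI1 (g w - c₂ • e (e w)) (g (e w) - c₂ • e (e (e w)))
    (by simp only [map_sub, map_smul, c2, b3, sub_self]) (by simp only [map_sub, map_smul, c2])
  have b5 : g (g (e w)) = 0 := by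
    rw [sub_eq_iff_eq_add.mp b4]
    simp only [map_add, map_smul, b1, b2, smul_zero, add_zero]
  have b6 : g (e (e w)) = 0 := by rw [← c2]; exact h2 g hgS e he _ b5
  obtain ⟨z, hz, hz'⟩ : ∃ z, e z = 0 ∧ ∀ c : ℂ, z ≠ c • e (e (e (e w))) := by
    obtain ⟨z, hz, hz'⟩ := Set.not_subset.mp hke
    exact ⟨z, hz, fun c h => hz' ⟨c • e (e (e w)), by rw [h, map_smul]⟩⟩
  obtain ⟨l, hl, hl'⟩ := (hn g hgS).exists_last (fun y => ∀ c : ℂ, y ≠ c • e (e (e (e w))))
    (fun h => h 0 (by simp)) hz'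
  have hl2 : e ((g ^ l) z) = 0 := by
    clear hl hl'
    induction l with
    | zero => simpa using hz
    | succ l ih => rw [pow_succ', Module.End.mul_apply, c2, ih, map_zero]
  generalize (g ^ l) z = y at hl hl' hl2
  push Not at hl'
  obtain ⟨c₄, hc₄⟩ := hl'
  have hli : LinearIndependent ℂ ![e (e (e (e w))), e (e (e w)), e (e w), e w, y] := by
    rw [Fintype.linearIndependent_iff]
    intro u hu
    simp only [Fin.sum_univ_five, Matrix.cons_val_zero, Matrix.cons_val_one, Matrix.cons_val] at hu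
    have e1 := congrArg e hu
    simp only [map_add, map_smul, hk', hl2, smul_zero, zero_add, add_zero, map_zero] at e1
    have e2 := Fintype.linearIndependent_iff.mp (indep3 e (y := e (e w)) hk hk') ![u 1, u 2, u 3]
      (by simpa [Fin.sum_univ_three] using e1)
    have u1 : u 1 = 0 := e2 0
    have u2 : u 2 = 0 := e2 1
    have u3 : u 3 = 0 := e2 2
    simp only [u1, u2, u3, zero_smul, add_zero] at hu
    have u4 : u 4 = 0 := by
      by_contra h
      refine hl (-(u 4)⁻¹ * u 0) ?_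
      have := congrArg ((u 4)⁻¹ • ·) hu
      simp only [smul_add, smul_smul, inv_mul_cancel₀ h, one_smul, smul_zero] at this
      linear_combination (norm := module) this
    rw [u4, zero_smul, add_zero] at hu
    have u0 := (smul_eq_zero.mp hu).resolve_right hk
    intro i
    fin_cases i <;> assumption
  have hmem : ∀ i, ![e (e (e (e w))), e (e (e w)), e (e w), e w, y] i ∈ LinearMap.ker (g * g) := by
    intro i
    fin_cases i <;> simp [b1, b2, b5, b6, hc₄]
  have d5 := (LinearIndependent.of_comp (LinearMap.ker (g * g)).subtype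
    (v := fun i => (⟨_, hmem i⟩ : LinearMap.ker (g * g))) hli).fintype_card_le_finrank
  have d6 := h1 g hgS (sub_ne_zero.mpr (hfe c))
  simp only [Fintype.card_fin] at d5
  omega

end la

variable {σ ι : Type} [Fintype σ] [Fintype ι]

/-- The infinitesimal stabilizer. -/
def St (T : VB σ ι) (γ : ι → ℤ) (A : Matrix σ σ ℂ) : Prop :=
  ∃ a : Matrix ι ι ℂ, (∀ i j, a i j ≠ 0 → γ j = γ i) ∧ T.Sym (der A) a

variable {T : VB σ ι} {γ : ι → ℤ} {g : ℤ} {A B : Matrix σ σ ℂ}

lemma St.add (h : St T γ A) (h' : St T γ B) : St T γ (A + B) := by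
  obtain ⟨a, h1, h2⟩ := h
  obtain ⟨b, h3, h4⟩ := h'
  refine ⟨a + b, fun i j h => ?_, der_add A B ▸ h2.add h4⟩
  by_cases h5 : a i j = 0
  · exact h3 i j (by simpa [h5] using h)
  · exact h1 i j h5

lemma St.smul (h : St T γ A) (c : ℂ) : St T γ (c • A) := by
  obtain ⟨a, h1, h2⟩ := h
  exact ⟨c • a, fun i j h => h1 i j (right_ne_zero_of_mul h), der_smul c A ▸ h2.smul c⟩

lemma St.bracket (h : St T γ A) (h' : St T γ B) : St T γ (B * A - A * B) := by
  obtain ⟨a, h1, h2⟩ := h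
  obtain ⟨b, h3, h4⟩ := h'
  exact ⟨_, comm_deg h1 h3, h2.bracket h4 (der_comm A B)⟩

variable [DecidableEq σ] [DecidableEq ι]

lemma St.one (hG : Gr (fun _ => 1) γ g T.ω) : St T γ 1 := by
  refine ⟨Matrix.diagonal fun i => (γ i : ℂ) - g / 2, fun i j h => ?_, ?_⟩
  · by_cases hij : i = j
    · rw [hij]
    · simp [hij] at h
  · rw [← Matrix.diagonal_one]
    refine sym_diag fun i j => ?_
    simpa using hom_congr (hG.map (Int.castAddHom ℂ) i j) (b := (γ i : ℂ) - g / 2 + (γ j - g / 2))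
      (by simp; ring)

omit [Fintype σ] [DecidableEq σ] [DecidableEq ι] in
lemma conj_lab {L : Type} {P Q a : Matrix ι ι ℂ} {l l' : ι → L}
    (hP : ∀ i k, P i k ≠ 0 → l' i = l k) (hQ : ∀ i k, Q i k ≠ 0 → l i = l' k)
    (ha : ∀ i j, a i j ≠ 0 → l j = l i) : ∀ i j, (P * a * Q) i j ≠ 0 → l' j = l' i := by
  intro i j h
  rw [Matrix.mul_apply] at h
  obtain ⟨k, -, hk⟩ := Finset.exists_ne_zero_of_sum_ne_zero h
  have h1 := left_ne_zero_of_mul hk
  rw [Matrix.mul_apply] at h1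
  obtain ⟨m, -, hm⟩ := Finset.exists_ne_zero_of_sum_ne_zero h1
  rw [← hQ k j (right_ne_zero_of_mul hk), ha m k (right_ne_zero_of_mul hm),
    hP i m (left_ne_zero_of_mul hm)]

variable [Nontrivial σ]

lemma nl (hG : Gr (fun _ => 1) γ g T.ω) (h : St T γ A) (hA : IsNilpotent A) :
    ∃ (T' : VB σ ι) (γ' : ι → ℤ) (n : Matrix ι ι ℂ), Gr (fun _ => 1) γ' g T'.ω ∧ NS T' γ' A n ∧
      (Sp T'.ω → Sp T.ω) ∧ ∀ B, St T γ B → St T' γ' B := by
  obtain ⟨a, h1, h2⟩ := h
  obtain ⟨P, Q, γ', β, n, hQP, -, hP, hQ, he, hn, hn'⟩ := jcd γ a h1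
  have h3 := h2.chg hQP
  rw [he] at h3
  refine ⟨T.chg hQP, γ', n, chg_gr hQP hG hP, ⟨hn, fun i j h => (hn' i j h).2,
    (js (α := 0) (by simpa using h3) (fun _ _ _ => rfl) (fun i j h => (hn' i j h).1) hA hn).2⟩,
    sp_of_chg hQP, ?_⟩
  rintro B ⟨b, h4, h5⟩
  exact ⟨_, conj_lab hP hQ h4, h5.chg hQP⟩

theorem toolG' (hG : Gr (fun _ => 1) γ g T.ω) (h : St T γ A) (hA : IsNilpotent A) (hA0 : A ≠ 0)
    (h5 : 5 ≤ Module.finrank ℂ (LinearMap.ker (A.mulVecLin * A.mulVecLin))) : Sp T.ω := by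
  obtain ⟨T', γ', n, h1, h2, h3, -⟩ := nl hG h hA
  exact h3 (toolG h1 h2 hA hA0 h5)

omit [Nontrivial σ] in
lemma LN_mulVecLin (hA : IsNilpotent A) : LN A.mulVecLin := by
  obtain ⟨k, hk⟩ := hA
  intro x
  refine ⟨k, ?_⟩
  rw [← Matrix.toLin'_apply', ← Matrix.toLin'_pow, hk]
  simp

theorem typeI' (hG : Gr (fun _ => 1) γ g T.ω) (hA : St T γ A) (hB : St T γ B)
    (hA' : IsNilpotent A) (hB' : IsNilpotent B) (hc : A * B = B * A) {η : σ → ℂ}
    (h1 : B.mulVec (B.mulVec η) = 0) (h2 : A.mulVec (B.mulVec η) ≠ 0) : Sp T.ω := by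
  obtain ⟨T', γ', n, a1, a2, a3, a4⟩ := nl hG hB hB'
  obtain ⟨a, a5, a6⟩ := a4 A hA
  obtain ⟨k, hk, hk'⟩ := (LN_mulVecLin hA').exists_last (fun x => A.mulVec (B.mulVec x) ≠ 0)
    (by simp) h2
  have hk1 : B.mulVec (B.mulVec ((A.mulVecLin ^ k) η)) = 0 := by
    clear hk hk'
    induction k with
    | zero => simpa using h1
    | succ k ih =>
      rw [pow_succ', Module.End.mul_apply, Matrix.mulVecLin_apply, Matrix.mulVec_mulVec _ B A,
        ← hc, Matrix.mulVec_mulVec, ← mul_assoc, ← hc, mul_assoc, ← Matrix.mulVec_mulVec,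
        ← Matrix.mulVec_mulVec, ih, Matrix.mulVec_zero]
  refine a3 (typeI a1 a5 a6 a2 hB' hc hk1 hk ?_)
  rw [not_not, Matrix.mulVecLin_apply, Matrix.mulVec_mulVec _ B A, ← hc,
    ← Matrix.mulVec_mulVec] at hk'
  exact hk'

theorem ga2 (hG : Gr (fun _ => 1) γ g T.ω) (h7 : 7 ≤ Fintype.card σ) (hA : St T γ A)
    (hB : St T γ B) (hA' : IsNilpotent A) (hB' : IsNilpotent B) (hc : A * B = B * A)
    (hind : ∀ s t : ℂ, s • A + t • B = 0 → s = 0 ∧ t = 0) : Sp T.ω := by
  by_contra hns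
  have hinj : ∀ M : Matrix σ σ ℂ, M.mulVecLin = 0 → M = 0 := fun M h =>
    Matrix.toLin'.injective (by rw [map_zero]; exact h)
  have hlin : ∀ s t : ℂ, (s • A + t • B).mulVecLin = s • A.mulVecLin + t • B.mulVecLin :=
    fun s t => by simp
  have hmem : ∀ F ∈ Submodule.span ℂ {A.mulVecLin, B.mulVecLin}, ∃ s t : ℂ,
      F = (s • A + t • B).mulVecLin := fun F hF => by
    obtain ⟨s, t, rfl⟩ := Submodule.mem_span_pair.mp hF
    exact ⟨s, t, by simp⟩
  have hSt : ∀ s t : ℂ, St T γ (s • A + t • B) := fun s t => (hA.smul s).add (hB.smul t)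
  have hnil : ∀ s t : ℂ, IsNilpotent (s • A + t • B) := fun s t =>
    Commute.isNilpotent_add (Commute.smul_left (Commute.smul_right hc t) s) (hA'.smul s)
      (hB'.smul t)
  have hcm : ∀ s t s' t' : ℂ, (s • A + t • B) * (s' • A + t' • B) =
      (s' • A + t' • B) * (s • A + t • B) := fun s t s' t' => by
    simp only [add_mul, mul_add, smul_mul_smul_comm, hc]
    module
  have hAS : A.mulVecLin ∈ Submodule.span ℂ {A.mulVecLin, B.mulVecLin} :=
    Submodule.subset_span (by simp)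
  have hBS : B.mulVecLin ∈ Submodule.span ℂ {A.mulVecLin, B.mulVecLin} :=
    Submodule.subset_span (by simp)
  refine la2 (by simpa using h7) (Submodule.span ℂ {A.mulVecLin, B.mulVecLin}) ?_ ?_ ?_
    ⟨_, hAS, fun h => one_ne_zero (hind 1 0 (by simpa using hinj _ h)).1⟩ ?_ ?_
  · intro F hF G hG x
    obtain ⟨s, t, rfl⟩ := hmem F hF
    obtain ⟨s', t', rfl⟩ := hmem G hG
    simp only [Matrix.mulVecLin_apply, Matrix.mulVec_mulVec, hcm s t s' t']
  · intro F hF
    obtain ⟨s, t, rfl⟩ := hmem F hF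
    exact LN_mulVecLin (hnil s t)
  · intro F _
    by_contra hcon
    push Not at hcon
    obtain ⟨c, hc1⟩ := hcon _ hAS
    obtain ⟨c', hc2⟩ := hcon _ hBS
    obtain ⟨e1, e2⟩ := hind c' (-c) (hinj _ (by
      rw [hlin, hc1, hc2]
      module))
    refine one_ne_zero (hind 1 0 (hinj _ ?_)).1
    simp [hc1, neg_eq_zero.mp e2]
  · intro F hF h0
    obtain ⟨s, t, rfl⟩ := hmem F hF
    exact not_le.mp fun h => hns (toolG' hG (hSt s t) (hnil s t)
      (fun h => h0 (by rw [h]; simp)) h)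
  · intro F hF G hG' w hw
    obtain ⟨s, t, rfl⟩ := hmem F hF
    obtain ⟨s', t', rfl⟩ := hmem G hG'
    by_contra h
    exact hns (typeI' hG (hSt s' t') (hSt s t) (hnil s' t') (hnil s t) (hcm _ _ _ _) hw h)

end Pool.Agent.P.MP_b01859_ag
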