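import Pool.Agent.P.MP_b01859_ag.Map

/-!
A bundle whose restriction to a plane splits is split.
-/

namespace Pool.Agent.P.MP_b01859_ag

open MvPolynomial Finsupp

variable {σ τ : Type} {Γ : Type} [AddCommGroup Γ] {ι : Type}

lemma kl_comp (A : Set σ) (w : σ → Γ) (c : Γ) (f : Pol σ) :
    kl A (weightedHomogeneousComponent w c f) = weightedHomogeneousComponent w c (kl A f) := by
  classical
  ext d
  simp only [coeff_kl, coeff_weightedHomogeneousComponent]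
  split_ifs <;> rfl

lemma X_dvd_of_kl {y : σ} {f : Pol σ} (h : kl {y}ᶜ f = 0) : (X y : Pol σ) ∣ f := by
  simpa [h] using X_dvd_sub_kl y f

lemma coords [Finite σ] {ω : ι → ι → Pol σ} (hp : Prim fun ij : ι × ι => ω ij.1 ij.2)
    {n₁ n₂ : ι → Pol σ} (h : ∀ i j, ω i j = n₁ i * n₂ j - n₁ j * n₂ i) {φ : ι → Pol σ}
    (hφ : Wd ω φ) : ∃ α β : Pol σ, ∀ t, φ t = α * n₁ t + β * n₂ t := by
  obtain ⟨α, hα⟩ := exB hp hφ (ψ := n₂) (fun i j k => by rw [h, h, h]; ring)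
  obtain ⟨β, hβ⟩ := exB hp (φ := n₁) (fun i j k => by rw [h, h, h]; ring) hφ
  obtain ⟨⟨i, j⟩, hij⟩ := hp.exists_ne
  refine ⟨α, β, fun t => mul_left_cancel₀ hij ?_⟩
  simp only
  linear_combination hφ i j t - n₁ t * hα i j - n₂ t * hβ i j + φ j * h i t - φ i * h j t

lemma koszul [Finite σ] {ω : ι → ι → Pol σ} (hp : Prim fun ij : ι × ι => ω ij.1 ij.2)
    {n₁ n₂ : ι → Pol σ} (h : ∀ i j, ω i j = n₁ i * n₂ j - n₁ j * n₂ i) {x₁ x₂ x₃ : σ}
    (h12 : x₁ ≠ x₂) (h13 : x₁ ≠ x₃) (h23 : x₂ ≠ x₃) {N : ℕ} {R : ι → ι → ι → Pol σ}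
    {ψ₁ ψ₂ ψ₃ : ι → Pol σ}
    (e₁ : ∀ i j k, ω i j * ψ₁ k - ω i k * ψ₁ j + ω j k * ψ₁ i = X x₁ ^ N * R i j k)
    (e₂ : ∀ i j k, ω i j * ψ₂ k - ω i k * ψ₂ j + ω j k * ψ₂ i = X x₂ ^ N * R i j k)
    (e₃ : ∀ i j k, ω i j * ψ₃ k - ω i k * ψ₃ j + ω j k * ψ₃ i = X x₃ ^ N * R i j k) :
    ∃ m : ι → Pol σ, ∀ i j k, ω i j * m k - ω i k * m j + ω j k * m i = R i j k := by
  obtain ⟨a₁, b₁, f₁⟩ := coords hp h (φ := fun t => X x₂ ^ N * ψ₁ t - X x₁ ^ N * ψ₂ t)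
    (fun i j k => by linear_combination X x₂ ^ N * e₁ i j k - X x₁ ^ N * e₂ i j k)
  obtain ⟨a₂, b₂, f₂⟩ := coords hp h (φ := fun t => X x₃ ^ N * ψ₁ t - X x₁ ^ N * ψ₃ t)
    (fun i j k => by linear_combination X x₃ ^ N * e₁ i j k - X x₁ ^ N * e₃ i j k)
  obtain ⟨a₃, b₃, f₃⟩ := coords hp h (φ := fun t => X x₃ ^ N * ψ₂ t - X x₂ ^ N * ψ₃ t)
    (fun i j k => by linear_combination X x₃ ^ N * e₂ i j k - X x₂ ^ N * e₃ i j k)
  obtain ⟨⟨i₀, j₀⟩, hij⟩ := hp.exists_ne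
  simp only at hij
  have g : ∀ t, (X x₃ ^ N * a₁ - X x₂ ^ N * a₂ + X x₁ ^ N * a₃) * n₁ t +
      (X x₃ ^ N * b₁ - X x₂ ^ N * b₂ + X x₁ ^ N * b₃) * n₂ t = 0 := fun t => by
    linear_combination -X x₃ ^ N * f₁ t + X x₂ ^ N * f₂ t - X x₁ ^ N * f₃ t
  have hw : kl ({x₁, x₂}ᶜ : Set σ) (X x₃ ^ N) ≠ 0 := by
    rw [map_pow, kl_X_mem (by simp [h13.symm, h23.symm])]
    exact pow_ne_zero _ (X_ne_zero _)
  obtain ⟨a, a', ha⟩ := primary_xy h12 hw N N a₁ (-a₃) a₂ (mul_left_cancel₀ hij (by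
    rw [h]; linear_combination n₂ j₀ * g i₀ - n₂ i₀ * g j₀))
  obtain ⟨b, b', hb⟩ := primary_xy h12 hw N N b₁ (-b₃) b₂ (mul_left_cancel₀ hij (by
    rw [h]; linear_combination n₁ i₀ * g j₀ - n₁ j₀ * g i₀))
  have h1 : ∀ t, (X x₁ : Pol σ) ^ N ∣ ψ₁ t - a' * n₁ t - b' * n₂ t := fun t =>
    X_pow_dvd_of_mul h12 (b := N) ⟨ψ₂ t + a * n₁ t + b * n₂ t, by
      have := f₁ t
      rw [ha, hb] at this
      linear_combination this⟩
  choose m hm using h1
  refine ⟨m, fun i j k => mul_left_cancel₀ (pow_ne_zero N (X_ne_zero x₁)) ?_⟩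
  have := e₁ i j k
  rw [h, h, h] at this ⊢
  linear_combination this - (n₁ i * n₂ j - n₁ j * n₂ i) * hm k
    + (n₁ i * n₂ k - n₁ k * n₂ i) * hm j - (n₁ j * n₂ k - n₁ k * n₂ j) * hm i

lemma exists_pow_mem [Finite σ] {I : Ideal (Pol σ)} {A : Set σ}
    (h : ∀ p : Ideal (Pol σ), p.IsPrime → I ≤ p → ∀ s ∈ A, X s ∈ p) :
    ∃ N : ℕ, ∀ s ∈ A, (X s : Pol σ) ^ N ∈ I := by
  have := Fintype.ofFinite σ
  have hrad : ∀ u ∈ A, ∃ N : ℕ, (X u : Pol σ) ^ N ∈ I := by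
    intro u hu
    have : (X u : Pol σ) ∈ I.radical := by
      rw [Ideal.radical_eq_sInf, Ideal.mem_sInf]
      rintro p ⟨hp1, hp⟩
      exact h p hp hp1 u hu
    exact this
  choose! N hN using hrad
  exact ⟨Finset.univ.sup N, fun u hu =>
    Ideal.pow_mem_of_pow_mem _ (hN u hu) (Finset.le_sup (Finset.mem_univ u))⟩

/-- Homogeneous splitting. -/
def SpH (γ : ι → ℤ) (ω : ι → ι → Pol σ) : Prop := ∃ (n₁ n₂ : ι → Pol σ) (α β : ℤ),
  (∀ j, Hom (n₁ j) (γ j + α)) ∧ (∀ j, Hom (n₂ j) (γ j + β)) ∧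
    ∀ i j, ω i j = n₁ i * n₂ j - n₁ j * n₂ i

namespace VB

variable [Finite σ] [Finite ι] {T : VB σ ι} {γ : ι → ℤ} {g : ℤ}

omit [Finite ι] in
lemma prim_kl (T : VB σ ι) {A : Set σ} {x y : σ} (hx : x ∈ A) (hy : y ∈ A) (hxy : x ≠ y) :
    Prim fun ij : ι × ι => kl A (T.ω ij.1 ij.2) := by
  refine prim_of_primes hxy fun p hp h => ?_
  rcases h with h | h
  · obtain ⟨i, j, h⟩ := T.LF_kl A p hp hx h
    exact ⟨(i, j), h⟩
  · obtain ⟨i, j, h⟩ := T.LF_kl A p hp hy h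
    exact ⟨(i, j), h⟩

lemma horr_step (hG : Gr (fun _ => 1) γ g T.ω) {A : Set σ} {x₁ x₂ x₃ : σ} (h₁ : x₁ ∈ A)
    (h₂ : x₂ ∈ A) (h₃ : x₃ ∈ A) (h12 : x₁ ≠ x₂) (h13 : x₁ ≠ x₃) (h23 : x₂ ≠ x₃) (y : σ)
    (hS : SpH γ fun i j => kl A (T.ω i j)) : SpH γ fun i j => kl (insert y A) (T.ω i j) := by
  classical
  have := Fintype.ofFinite ι
  by_cases hy : y ∈ A
  · rwa [Set.insert_eq_of_mem hy]
  set ρ := kl ({y}ᶜ : Set σ) with hρ
  set ω' : ι → ι → Pol σ := fun i j => kl (insert y A) (T.ω i j) with hω'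
  set ω₀ : ι → ι → Pol σ := fun i j => kl A (T.ω i j) with hω₀
  have e1 : ∀ i j, ρ (ω' i j) = ω₀ i j := fun i j => by
    rw [hρ, hω', hω₀, kl_kl]
    congr 2
    ext s
    by_cases hs : s = y <;> simp [hs, hy]
  have eρ : ∀ f, ρ (ρ f) = ρ f := fun f => by rw [hρ, kl_kl, Set.inter_self]
  have e0 : ∀ i j, ρ (ω₀ i j) = ω₀ i j := fun i j => by rw [← e1, eρ]
  have eX : ρ (X y) = 0 := kl_X_notMem (by simp)
  have hp₀ : Prim fun ij : ι × ι => ω₀ ij.1 ij.2 := T.prim_kl h₁ h₂ h12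
  have hp' : Prim fun ij : ι × ι => ω' ij.1 ij.2 :=
    T.prim_kl (Set.mem_insert_of_mem _ h₁) (Set.mem_insert_of_mem _ h₂) h12
  have hG' : ∀ i j, Hom (ω' i j) (γ i + γ j - g) := fun i j => kl_hom _ (hG i j)
  have hpl : ∀ i j k l, ω' i j * ω' k l - ω' i k * ω' j l + ω' i l * ω' j k = 0 :=
    fun i j k l => by simpa using congrArg (kl (insert y A)) (T.pl i j k l)
  obtain ⟨m₁, m₂, α, β, hm₁, hm₂, hm⟩ := hS
  obtain ⟨N, hN⟩ := exists_pow_mem (A := A)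
    (I := Ideal.span (Set.range fun ij : ι × ι => ω₀ ij.1 ij.2)) fun p hp hI s hs => by
      by_contra hcon
      obtain ⟨i, j, hij⟩ := T.LF_kl A p hp hs hcon
      exact hij (hI (Ideal.subset_span ⟨(i, j), rfl⟩))
  have hyk : ∀ k : ℕ, (X y : Pol σ) ^ k ≠ 0 := fun k => pow_ne_zero _ (X_ne_zero _)
  have lift : ∀ (n₀ : ι → Pol σ) (c : ℤ), Wd ω₀ n₀ → (∀ j, Hom (n₀ j) (γ j + c)) →
      ∃ n, Wd ω' n ∧ (∀ j, Hom (n j) (γ j + c)) ∧ ∀ j, ρ (n j) = ρ (n₀ j) := by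
    intro n₀ c hn₀ hc
    have approx : ∀ k : ℕ, ∃ n : ι → Pol σ, (∀ j, ρ (n j) = ρ (n₀ j)) ∧
        ∀ i j l, (X y : Pol σ) ^ (k + 1) ∣ ω' i j * n l - ω' i l * n j + ω' j l * n i := by
      intro k
      induction k with
      | zero =>
        refine ⟨n₀, fun _ => rfl, fun i j l => ?_⟩
        rw [zero_add, pow_one]
        refine X_dvd_of_kl ?_
        have := congrArg ρ (hn₀ i j l)
        simpa only [map_add, map_sub, map_mul, e0, e1, map_zero, ← hρ] using this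
      | succ k ih =>
        obtain ⟨n, hn, hR⟩ := ih
        choose R hR using hR
        have hRR : ∀ i j a b l, ω₀ a b * ρ (R i j l) - ω₀ a l * ρ (R i j b) + ω₀ b l * ρ (R i j a)
            = ω₀ i j * ρ (R a b l) := by
          intro i j a b l
          have : ω' a b * R i j l - ω' a l * R i j b + ω' b l * R i j a = ω' i j * R a b l := by
            apply mul_left_cancel₀ (hyk (k + 1))
            linear_combination - ω' a b * hR i j l + ω' a l * hR i j b - ω' b l * hR i j a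
              + ω' i j * hR a b l - n j * hpl i a b l + n i * hpl j a b l
          simpa only [map_add, map_sub, map_mul, e1] using congrArg ρ this
        have hψ : ∀ s ∈ A, ∃ ψ : ι → Pol σ, ∀ a b l,
            ω₀ a b * ψ l - ω₀ a l * ψ b + ω₀ b l * ψ a = X s ^ N * ρ (R a b l) := by
          intro s hs
          obtain ⟨u, hu⟩ := (Submodule.mem_span_range_iff_exists_fun _).mp (hN s hs)
          refine ⟨fun l => ∑ ij, u ij * ρ (R ij.1 ij.2 l), fun a b l => ?_⟩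
          rw [← hu]
          simp only [Finset.mul_sum, Finset.sum_mul, ← Finset.sum_sub_distrib,
            ← Finset.sum_add_distrib, smul_eq_mul]
          exact Finset.sum_congr rfl fun ij _ => by linear_combination u ij * hRR ij.1 ij.2 a b l
        obtain ⟨ψ₁, f₁⟩ := hψ x₁ h₁
        obtain ⟨ψ₂, f₂⟩ := hψ x₂ h₂
        obtain ⟨ψ₃, f₃⟩ := hψ x₃ h₃
        obtain ⟨m, hm'⟩ := koszul hp₀ hm h12 h13 h23 f₁ f₂ f₃
        refine ⟨fun j => n j - X y ^ (k + 1) * m j, fun j => by simp [eX, hn], fun i j l => ?_⟩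
        obtain ⟨R', hR'⟩ : (X y : Pol σ) ∣ R i j l - (ω' i j * m l - ω' i l * m j + ω' j l * m i) := by
          refine X_dvd_of_kl ?_
          have := congrArg ρ (hm' i j l)
          simp only [map_add, map_sub, map_mul, e0, eρ] at this
          simp only [map_add, map_sub, map_mul, ← hρ, e1]
          linear_combination -this
        exact ⟨R', by linear_combination hR i j l + X y ^ (k + 1) * hR'⟩
    obtain ⟨n, hn, hR⟩ := approx (Finset.univ.sup fun t : ι × ι × ι =>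
      (γ t.1 + γ t.2.1 + γ t.2.2 - g + c).toNat)
    refine ⟨fun j => weightedHomogeneousComponent (fun _ => (1 : ℤ)) (γ j + c) (n j),
      fun i j l => ?_, fun j => weightedHomogeneousComponent_isWeightedHomogeneous _ _,
      fun j => ?_⟩
    · obtain ⟨R, hR⟩ := hR i j l
      have hle := Finset.le_sup (f := fun t : ι × ι × ι =>
        (γ t.1 + γ t.2.1 + γ t.2.2 - g + c).toNat) (Finset.mem_univ (i, j, l))
      generalize (Finset.univ.sup fun t : ι × ι × ι =>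
        (γ t.1 + γ t.2.1 + γ t.2.2 - g + c).toNat) = K at hR hle
      have h := congrArg
        (weightedHomogeneousComponent (fun _ => (1 : ℤ)) (γ i + γ j + γ l - g + c)) hR
      have hX : Hom ((X y : Pol σ) ^ (K + 1)) ((K + 1 : ℕ) : ℤ) := by
        simpa using (isWeightedHomogeneous_X ℂ (fun _ : σ => (1 : ℤ)) y).pow (K + 1)
      rw [map_add, map_sub, show γ i + γ j + γ l - g + c =
        ((K + 1 : ℕ) : ℤ) + (γ i + γ j + γ l - g + c - (K + 1 : ℕ)) by ring, comp_mul hX,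
        Hom.eq_zero (weightedHomogeneousComponent_isWeightedHomogeneous _ R)
          (by simp only at hle; omega), mul_zero] at h
      rw [← comp_mul (hG' i j), ← comp_mul (hG' i l), ← comp_mul (hG' j l), ← h]
      congr 1
      · congr 1 <;> congr 2 <;> ring
      · congr 2; ring
    · rw [hρ, kl_comp, ← hρ, hn, hρ, ← kl_comp, (hc j).weightedHomogeneousComponent_same]
  obtain ⟨n₁, hn₁, hh₁, hρ₁⟩ := lift m₁ α (fun i j k => by rw [hm, hm, hm]; ring) hm₁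
  obtain ⟨n₂, hn₂, hh₂, hρ₂⟩ := lift m₂ β (fun i j k => by rw [hm, hm, hm]; ring) hm₂
  obtain ⟨B, hB⟩ := exB hp' hn₁ hn₂
  obtain ⟨⟨i₀, j₀⟩, hij⟩ := hp₀.exists_ne
  simp only at hij
  have hB1 : ρ B = 1 := by
    apply mul_left_cancel₀ hij
    have f1 := congrArg ρ (hB i₀ j₀)
    have f2 := congrArg ρ (hm i₀ j₀)
    simp only [map_sub, map_mul, e1, e0, hρ₁, hρ₂] at f1 f2
    rw [f1, mul_one, f2]
  have hB0 : coeff 0 B = 1 := by
    rw [← coeff_kl_of (A := {y}ᶜ) B (by simp), ← hρ, hB1]; simp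
  have hBh : Hom B (α + β + g) := by
    refine hom_of_mul (hG' i₀ j₀) (fun h => hij (by rw [← e1, h, map_zero])) ?_
    rw [hB]
    exact (hom_congr ((hh₁ i₀).mul (hh₂ j₀)) (by abel)).sub
      (hom_congr ((hh₁ j₀).mul (hh₂ i₀)) (by abel))
  rw [hBh.deg_zero (by rw [hB0]; exact one_ne_zero)] at hBh
  refine ⟨n₁, n₂, α, β, hh₁, hh₂, fun i j => ?_⟩
  rw [← hB, hBh.eq_C, hB0, C_1, mul_one]

lemma horr_kl (hG : Gr (fun _ => 1) γ g T.ω) {A : Set σ} {x₁ x₂ x₃ : σ} (h₁ : x₁ ∈ A)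
    (h₂ : x₂ ∈ A) (h₃ : x₃ ∈ A) (h12 : x₁ ≠ x₂) (h13 : x₁ ≠ x₃) (h23 : x₂ ≠ x₃)
    (hS : SpH γ fun i j => kl A (T.ω i j)) : Sp T.ω := by
  classical
  have := Fintype.ofFinite σ
  have key : ∀ F : Finset σ, SpH γ fun i j => kl (F ∪ A) (T.ω i j) := by
    intro F
    induction F using Finset.induction_on with
    | empty => simpa using hS
    | insert y F _ ih =>
      rw [Finset.coe_insert, Set.insert_union]
      exact horr_step hG (Or.inr h₁) (Or.inr h₂) (Or.inr h₃) h12 h13 h23 y ih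
  obtain ⟨n₁, n₂, -, -, -, -, h⟩ := key Finset.univ
  refine ⟨n₁, n₂, fun i j => ?_⟩
  rw [← h]
  exact (kl_eq_self fun _ _ _ _ => by simp).symm

/-- The splitting criterion of Horrocks. -/
theorem horrocks [Fintype τ] (hG : Gr (fun _ => 1) γ g T.ω) {ξ : τ → σ → ℂ}
    (hξ : LinearIndependent ℂ ξ) (h3 : 2 < Fintype.card τ) (hS : Sp (T.map hξ).ω) : Sp T.ω := by
  classical
  have := Fintype.ofFinite σ
  obtain ⟨x₁, x₂, x₃, h12, h13, h23⟩ := Fintype.two_lt_card_iff.mp h3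
  have : Nontrivial τ := ⟨⟨x₁, x₂, h12⟩⟩
  let b := Module.Basis.extend hξ.linearIndepOn_id
  have := FiniteDimensional.fintypeBasisIndex b
  let e : τ → hξ.linearIndepOn_id.extend (Set.subset_univ _) := fun a =>
    ⟨ξ a, Module.Basis.subset_extend hξ.linearIndepOn_id ⟨a, rfl⟩⟩
  have he : Function.Injective e := fun a a' h => hξ.injective (congrArg Subtype.val h)
  have hb : ∀ a, b (e a) = ξ a := fun a => Module.Basis.extend_apply_self _ _
  have h1 : ∀ f, kl (Set.range e) (sub b f) = rename e (sub ξ f) := by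
    have : (kl (Set.range e)).comp (sub b) = (rename e).comp (sub ξ) := algHom_ext fun i => by
      simp only [AlgHom.comp_apply, sub_X, map_sum, map_mul, algHom_C, algebraMap_eq, rename_X]
      symm
      refine Finset.sum_of_injOn e he.injOn (fun _ _ => Finset.mem_univ _) (fun u _ hu => ?_)
        (fun a _ => ?_)
      · rw [kl_X_notMem (by simpa using hu), mul_zero]
      · rw [kl_X_mem (Set.mem_range_self a), hb]
    exact AlgHom.congr_fun this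
  obtain ⟨n₁, n₂, α, β, hn₁, hn₂, hn⟩ :=
    split_of_sp (map_gr hξ (w' := fun _ => 1) (fun _ _ _ => rfl) hG) hS
  have h2 : Sp (T.map b.linearIndependent).ω := by
    refine horr_kl (map_gr _ (w' := fun _ => 1) (fun _ _ _ => rfl) hG) (A := Set.range e)
      ⟨x₁, rfl⟩ ⟨x₂, rfl⟩ ⟨x₃, rfl⟩ (he.ne h12) (he.ne h13) (he.ne h23)
      ⟨fun j => rename e (n₁ j), fun j => rename e (n₂ j), α, β,
        fun j => algHom_hom _ (fun i => ?_) (hn₁ j), fun j => algHom_hom _ (fun i => ?_) (hn₂ j),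
        fun i j => ?_⟩
    · rw [rename_X]; exact isWeightedHomogeneous_X ℂ _ _
    · rw [rename_X]; exact isWeightedHomogeneous_X ℂ _ _
    · have h4 : sub ξ (T.ω i j) = n₁ i * n₂ j - n₁ j * n₂ i := hn i j
      simp only [map_ω, h1, h4, map_sub, map_mul]
  have h3 := h2.map (sub fun i u => b.repr (Pi.single i 1) u)
  simpa only [map_ω, sub_sub, b.sum_repr, sub_single] using h3

end VB

end Pool.Agent.P.MP_b01859_ag
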