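import Pool.Agent.P.MP_b01859_ag.Bt
import Pool.Agent.P.MP_b01859_ag.Front

/-!
Jordan decomposition of symmetries.
-/

namespace Pool.Agent.P.MP_b01859_ag

open MvPolynomial VB

lemma jcd {κ L : Type} [Fintype κ] [DecidableEq κ] (lab : κ → L) (a : Matrix κ κ ℂ)
    (ha : ∀ i j, a i j ≠ 0 → lab j = lab i) :
    ∃ (P Q : Matrix κ κ ℂ) (lab' : κ → L) (β : κ → ℂ) (n : Matrix κ κ ℂ), Q * P = 1 ∧ P * Q = 1 ∧
      (∀ i k, P i k ≠ 0 → lab' i = lab k) ∧ (∀ i k, Q i k ≠ 0 → lab i = lab' k) ∧
      P * a * Q = Matrix.diagonal β + n ∧ IsNilpotent n ∧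
      ∀ i j, n i j ≠ 0 → β j = β i ∧ lab' j = lab' i := by
  classical
  let f : Module.End ℂ (κ → ℂ) := Matrix.toLin' a
  let U : L → Submodule ℂ (κ → ℂ) := fun l => Submodule.pi {i | lab i ≠ l} fun _ => ⊥
  have hmem : ∀ l x, x ∈ U l ↔ ∀ i, lab i ≠ l → x i = 0 := fun l x => by
    simp [U, Submodule.mem_pi]
  have hU : iSupIndep U := by
    rw [iSupIndep_iff_finsetSum_eq_zero_imp_eq_zero]
    intro s v hv h0 l hl
    funext i
    by_cases hi : lab i = l
    · have := congrFun h0 i
      rw [Finset.sum_apply, Finset.sum_eq_single_of_mem l hl] at this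
      · exact this
      · exact fun l' hl' hne => (hmem _ _).mp (hv l' hl') i (hi ▸ hne.symm)
    · exact (hmem _ _).mp (hv l hl) i hi
  have hUf : ∀ l, ∀ x ∈ U l, f x ∈ U l := by
    intro l x hx
    rw [hmem] at hx ⊢
    intro i hi
    simp only [f, Matrix.toLin'_apply, Matrix.mulVec, dotProduct]
    refine Finset.sum_eq_zero fun j _ => ?_
    by_cases h1 : a i j = 0
    · rw [h1, zero_mul]
    · rw [hx j (ha i j h1 ▸ hi), mul_zero]
  let N : L × ℂ → Submodule ℂ (κ → ℂ) := fun c => U c.1 ⊓ f.maxGenEigenspace c.2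
  have hle : ∀ l, U l ≤ ⨆ μ, N (l, μ) := by
    intro l
    have h1 := Module.End.iSup_maxGenEigenspace_eq_top (f.restrict (hUf l))
    have h2 : U l = ⨆ μ, (Module.End.maxGenEigenspace (f.restrict (hUf l)) μ).map
        (U l).subtype := by
      rw [← Submodule.map_iSup, h1, Submodule.map_subtype_top]
    rw [h2]
    refine iSup_mono fun μ => ?_
    rw [Module.End.maxGenEigenspace, ← Submodule.inf_genEigenspace f (U l) (hUf l)]
  have hsingle : ∀ k, (Pi.single k 1 : κ → ℂ) ∈ U (lab k) := fun k =>
    (hmem _ _).mpr fun i hi => Pi.single_eq_of_ne (fun h => hi (congrArg lab h)) _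
  have htop : ⨆ c, N c = ⊤ := by
    rw [eq_top_iff]
    intro x _
    rw [pi_eq_sum_univ' x]
    refine Submodule.sum_mem _ fun k _ => Submodule.smul_mem _ _ ?_
    exact (iSup_le fun μ => le_iSup N (lab k, μ) : ⨆ μ, N (lab k, μ) ≤ _) (hle _ (hsingle k))
  have hint := (DirectSum.isInternal_submodule_iff_iSupIndep_and_iSup_eq_top N).mpr
    ⟨indep_inf hU f.independent_maxGenEigenspace, htop⟩
  let b₀ := hint.collectedBasis fun c => Module.finBasis ℂ (N c)
  have := FiniteDimensional.fintypeBasisIndex b₀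
  let e := Fintype.equivOfCardEq ((Module.finrank_eq_card_basis b₀).symm.trans
    (Module.finrank_fintype_fun_eq_card ℂ))
  let b := b₀.reindex e
  let c : κ → L × ℂ := fun j => (e.symm j).1
  have hb : ∀ j, b j ∈ N (c j) := fun j => by
    rw [Module.Basis.reindex_apply]; exact hint.collectedBasis_mem _ _
  have hr : ∀ c₀, ∀ x ∈ N c₀, ∀ j, c₀ ≠ c j → b.repr x j = 0 := fun c₀ x hx j hj => by
    rw [Module.Basis.repr_reindex_apply]
    exact hint.collectedBasis_repr_of_mem_ne _ hj hx
  have hNf : ∀ c₀, ∀ x ∈ N c₀, f x ∈ N c₀ := fun c₀ x hx =>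
    ⟨hUf _ x hx.1, Module.End.mapsTo_maxGenEigenspace_of_comm (Commute.refl f) _ hx.2⟩
  refine ⟨b.toMatrix (Pi.basisFun ℂ κ), (Pi.basisFun ℂ κ).toMatrix b, fun j => (c j).1,
    fun j => (c j).2, LinearMap.toMatrix b b f - Matrix.diagonal fun j => (c j).2,
    Module.Basis.toMatrix_mul_toMatrix_flip _ _, Module.Basis.toMatrix_mul_toMatrix_flip _ _,
    fun i k h => ?_, fun i k h => ?_, ?_, ?_, fun i j h => ?_⟩
  · by_contra hne
    apply h
    have : ⨆ μ, N (lab k, μ) ≤ LinearMap.ker (b.coord i) :=
      iSup_le fun μ x hx => hr _ x hx i fun h => hne (congrArg Prod.fst h).symm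
    simpa [Module.Basis.toMatrix_apply] using this (hle _ (hsingle k))
  · by_contra hne
    exact h (by simpa [Module.Basis.toMatrix_apply] using (hmem _ _).mp (hb k).1 i hne)
  · rw [add_sub_cancel, ← basis_toMatrix_mul_linearMap_toMatrix_mul_basis_toMatrix b
      (Pi.basisFun ℂ κ) b (Pi.basisFun ℂ κ) f, LinearMap.toMatrix_eq_toMatrix',
      LinearMap.toMatrix'_toLin']
  · set s := Matrix.toLin b b (Matrix.diagonal fun j => (c j).2) with hs
    have h1 : ∀ c₀, ∀ x ∈ N c₀, s x = c₀.2 • x := by
      intro c₀ x hx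
      refine b.ext_elem fun i => ?_
      rw [← LinearMap.toMatrix_mulVec_repr b b s x, hs, LinearMap.toMatrix_toLin,
        Matrix.mulVec_diagonal, map_smul, Finsupp.smul_apply, smul_eq_mul]
      by_cases h : c₀ = c i
      · rw [h]
      · rw [hr _ x hx i h, mul_zero, mul_zero]
    have h2 : IsNilpotent (f - s) := by
      rw [Module.End.isNilpotent_iff_of_finite]
      intro x
      have : ⨆ c, N c ≤ Module.End.maxGenEigenspace (f - s) 0 := iSup_le fun c₀ x hx => by
        obtain ⟨k, hk⟩ := (Module.End.mem_maxGenEigenspace _ _ _).mp hx.2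
        have key : ∀ k : ℕ, ((f - s) ^ k) x = ((f - c₀.2 • 1) ^ k) x ∧ ((f - s) ^ k) x ∈ N c₀ := by
          intro k
          induction k with
          | zero => exact ⟨rfl, hx⟩
          | succ k ih =>
            rw [pow_succ', pow_succ', Module.End.mul_apply, Module.End.mul_apply, ← ih.1,
              LinearMap.sub_apply, h1 _ _ ih.2]
            exact ⟨rfl, (N c₀).sub_mem (hNf _ _ ih.2) ((N c₀).smul_mem _ ih.2)⟩
        exact (Module.End.mem_maxGenEigenspace _ _ _).mpr ⟨k, by simpa [(key k).1] using hk⟩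
      simpa using (Module.End.mem_maxGenEigenspace _ _ _).mp (this (htop ▸ Submodule.mem_top))
    have h3 := h2.map (LinearMap.toMatrixAlgEquiv b)
    rwa [map_sub, hs, show LinearMap.toMatrixAlgEquiv b (Matrix.toLin b b _) = _ from
      LinearMap.toMatrix_toLin b b _] at h3
  · by_contra hne
    have h1 : c j ≠ c i := fun h => hne ⟨congrArg Prod.snd h, congrArg Prod.fst h⟩
    apply h
    rw [Matrix.sub_apply, Matrix.diagonal_apply_ne _ (fun h => h1 (by rw [h])), sub_zero,
      LinearMap.toMatrix_apply]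
    exact hr _ _ (hNf _ _ (hb j)) i h1

variable {σ ι : Type} {Γ : Type} [AddCommGroup Γ] [Fintype σ]

lemma comp_dr {w : σ → Γ} {δ : Dr σ} {μ : Γ}
    (h : ∀ i, IsWeightedHomogeneous w (δ (X i)) (w i + μ)) (c : Γ) (f : Pol σ) :
    weightedHomogeneousComponent w (c + μ) (δ f) = δ (weightedHomogeneousComponent w c f) := by
  classical
  conv_lhs => rw [sum_comp w f 0 (S := insert c (f.support.image (Finsupp.weight w)))
    (fun d hd => Finset.mem_insert_of_mem (Finset.mem_image.mpr
      ⟨d, mem_support_iff.mpr hd, by simp⟩))]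
  rw [map_sum, map_sum, Finset.sum_eq_single_of_mem c (Finset.mem_insert_self _ _), zero_add]
  · exact (dr_hom h (weightedHomogeneousComponent_isWeightedHomogeneous
      _ _)).weightedHomogeneousComponent_same
  · intro a _ ha
    exact (dr_hom h (weightedHomogeneousComponent_isWeightedHomogeneous
      _ _)).weightedHomogeneousComponent_ne _ fun e => ha (by simpa using e.symm)

variable [Fintype ι] [DecidableEq σ] [DecidableEq ι] {T : VB σ ι}

lemma js {α : σ → ℂ} {β : ι → ℂ} {N : Matrix σ σ ℂ} {n : Matrix ι ι ℂ}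
    (h : T.Sym (der (Matrix.diagonal α + N)) (Matrix.diagonal β + n))
    (hN : ∀ i j, N i j ≠ 0 → α j = α i) (hn : ∀ i j, n i j ≠ 0 → β j = β i)
    (hN' : IsNilpotent N) (hn' : IsNilpotent n) : Gr α β 0 T.ω ∧ T.Sym (der N) n := by
  have hG : Gr α β 0 T.ω := by
    intro i j d hd
    by_contra hne
    set μ := Finsupp.weight α d - (β i + β j) with hμ
    have hμ0 : -μ ≠ 0 := fun h => hne (by rw [sub_zero, ← sub_eq_zero, ← hμ, neg_eq_zero.mp h])
    have h1 := (((LN_der hN').dv hn').dv hn').eq_zero hμ0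
      (v := fun i j => weightedHomogeneousComponent α (β i + β j + μ) (T.ω i j)) (by
        funext i j
        have e := congrArg (weightedHomogeneousComponent α (β i + β j + μ)) (h i j)
        have e1 := comp_dr (δ := der (Matrix.diagonal α)) (w := α) (μ := 0)
          (der_X_hom fun i j h => by
            by_cases hij : i = j
            · simp [hij]
            · simp [hij] at h) (β i + β j + μ) (T.ω i j)
        have e2 := comp_dr (δ := der N) (w := α) (μ := 0)
          (der_X_hom (by simpa using hN)) (β i + β j + μ) (T.ω i j)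
        rw [add_zero] at e1 e2
        rw [der_diag_of_hom (weightedHomogeneousComponent_isWeightedHomogeneous _ _)] at e1
        have e3 : ∀ k, n i k • weightedHomogeneousComponent α (β i + β j + μ) (T.ω k j) =
            n i k • weightedHomogeneousComponent α (β k + β j + μ) (T.ω k j) := fun k => by
          by_cases h1 : n i k = 0
          · simp [h1]
          · rw [hn i k h1]
        have e4 : ∀ k, n j k • weightedHomogeneousComponent α (β i + β j + μ) (T.ω i k) =
            n j k • weightedHomogeneousComponent α (β i + β k + μ) (T.ω i k) := fun k => by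
          by_cases h1 : n j k = 0
          · simp [h1]
          · rw [hn j k h1]
        simp only [der_add, Derivation.add_apply, map_add, e1, e2, Matrix.add_apply, add_smul,
          Finset.sum_add_distrib, Matrix.diagonal_apply, ite_smul, zero_smul, Finset.sum_ite_eq,
          Finset.mem_univ, if_true, map_sum, map_smul, e3, e4] at e
        simp only [Dv_apply, Pi.sub_apply, Finset.sum_apply, Pi.smul_apply, Derivation.coeFn_coe]
        simp only [smul_eq_C_mul, C_neg] at e ⊢
        linear_combination e)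
    have h2 := congrArg (coeff d) (congrFun (congrFun h1 i) j)
    classical
    rw [coeff_weightedHomogeneousComponent, if_pos (by rw [hμ]; ring)] at h2
    exact hd h2
  refine ⟨hG, ?_⟩
  have := h.add ((sym_diag hG).smul (-1))
  rwa [← der_smul, ← der_add, neg_one_smul, neg_one_smul, add_neg_cancel_comm,
    add_neg_cancel_comm] at this

open Classical in
/-- The homogeneous component of a matrix. -/
noncomputable def cmp {κ : Type} (w : κ → Γ) (μ : Γ) (A : Matrix κ κ ℂ) : Matrix κ κ ℂ :=
  fun i j => if w j = w i + μ then A i j else 0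

omit [Fintype σ] [DecidableEq σ] in
lemma cmp_ne {w : σ → Γ} {μ : Γ} {A : Matrix σ σ ℂ} {i j : σ} (h : cmp w μ A i j ≠ 0) :
    w j = w i + μ ∧ A i j ≠ 0 := by
  unfold cmp at h
  split_ifs at h with h1
  · exact ⟨h1, h⟩
  · exact absurd rfl h

omit [DecidableEq σ] [DecidableEq ι] in
lemma cs {w : σ → Γ} {γ : ι → Γ} {g : Γ} (hG : Gr w γ g T.ω) {A : Matrix σ σ ℂ}
    {a : Matrix ι ι ℂ} (h : T.Sym (der A) a) (μ : Γ) : T.Sym (der (cmp w μ A)) (cmp γ μ a) := by
  classical
  have key : ∀ {p : Pol σ} {m m' : Γ}, IsWeightedHomogeneous w p m →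
      weightedHomogeneousComponent w m' p = if m' = m then p else 0 := fun hp =>
    weightedHomogeneousComponent_of_mem hp
  intro i j
  have e := congrArg (weightedHomogeneousComponent w (γ i + γ j - g + μ)) (h i j)
  rw [dr_eq_sum] at e ⊢
  simp only [der_X, Finset.mul_sum, map_sum, map_add, map_smul] at e ⊢
  convert e using 1
  · refine Finset.sum_congr rfl fun s _ => Finset.sum_congr rfl fun t _ => ?_
    rw [key (((hG i j).pderiv (i := s) (n' := γ i + γ j - g - w s) (by abel)).mul
      ((isWeightedHomogeneous_X ℂ w t).C_mul _)), cmp]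
    by_cases h1 : w t = w s + μ
    · rw [if_pos h1, if_pos (by rw [h1]; abel)]
    · rw [if_neg h1, if_neg (fun h2 => h1 (by linear_combination (norm := abel) -h2)), C_0,
        zero_mul, mul_zero]
  · congr 1
    · refine Finset.sum_congr rfl fun k _ => ?_
      rw [key (hG k j), cmp]
      by_cases h1 : γ k = γ i + μ
      · rw [if_pos h1, if_pos (by rw [h1]; abel)]
      · rw [if_neg h1, if_neg (fun h2 => h1 (by linear_combination (norm := abel) -h2)),
          zero_smul, smul_zero]
    · refine Finset.sum_congr rfl fun k _ => ?_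
      rw [key (hG i k), cmp]
      by_cases h1 : γ k = γ j + μ
      · rw [if_pos h1, if_pos (by rw [h1]; abel)]
      · rw [if_neg h1, if_neg (fun h2 => h1 (by linear_combination (norm := abel) -h2)),
          zero_smul, smul_zero]

end Pool.Agent.P.MP_b01859_ag
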