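import Pool.Agent.P.MP_b01859_ag.Front

/-!
The splitting theorem for a module with a semilinear automorphism.
-/

namespace Pool.Agent.P.MP_b01859_ag

open MvPolynomial Finsupp

variable {σ : Type} {M : Type} [AddCommGroup M] [Module ℂ M] [Module (Pol σ) M]
  [IsScalarTower ℂ (Pol σ) M]

theorem split_of_aut [Fintype σ] (hcard : 5 ≤ Fintype.card σ) (τ : σ → ℂˣ)
    (hτ : ∃ i j k, ∀ a b : ℤ, (τ j / τ i) ^ a * (τ k / τ i) ^ b = 1 → a = 0 ∧ b = 0)
    [Module.Finite (Pol σ) M] (ℳ : ℤ → Submodule ℂ M) (hint : DirectSum.IsInternal ℳ)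
    (hgr : ∀ i k m, m ∈ ℳ k → (X i : Pol σ) • m ∈ ℳ (k + 1))
    (hfree : ∀ p : PrimeSpectrum (Pol σ), (∃ i, X i ∉ p.asIdeal) →
      Module.Free (Localization.AtPrime p.asIdeal) (LocalizedModule p.asIdeal.primeCompl M) ∧
      Module.finrank (Localization.AtPrime p.asIdeal)
        (LocalizedModule p.asIdeal.primeCompl M) = 2)
    (θ : M ≃ₗ[ℂ] M) (hθk : ∀ k m, m ∈ ℳ k → θ m ∈ ℳ k)
    (hθ : ∀ i m, θ ((X i : Pol σ) • m) = (τ i : ℂ) • (X i : Pol σ) • θ m) :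
    ∃ (a b : ℤ) (φ : M →ₗ[Pol σ] Pol σ × Pol σ),
      (∀ k m, m ∈ ℳ k → IsWeightedHomogeneous (fun _ => (1 : ℤ)) (φ m).1 (k + a) ∧
        IsWeightedHomogeneous (fun _ => (1 : ℤ)) (φ m).2 (k + b)) ∧
      ∀ p : PrimeSpectrum (Pol σ), (∃ i, X i ∉ p.asIdeal) →
        Function.Bijective (LocalizedModule.map p.asIdeal.primeCompl φ) := by
  classical
  have hind := hint.submodule_iSupIndep
  have htop := hint.submodule_iSup_eq_top
  let θ' : Module.End ℂ M := θ.toLinearMap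
  let E : Additive ℂˣ → Submodule ℂ M := fun u => θ'.maxGenEigenspace ((Additive.toMul u : ℂˣ) : ℂ)
  have hE : iSupIndep E := θ'.independent_maxGenEigenspace.comp
    (f := fun u : Additive ℂˣ => ((Additive.toMul u : ℂˣ) : ℂ))
    (fun u v h => Additive.toMul.injective (Units.ext h))
  let N : ℤ × Additive ℂˣ → Submodule ℂ M := fun c => ℳ c.1 ⊓ E c.2
  have hN : iSupIndep N := indep_inf hind hE
  have hNX : ∀ i a m, m ∈ N a → (X i : Pol σ) • m ∈ N (a + (1, Additive.ofMul (τ i))) := by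
    intro i a m hm
    refine ⟨hgr i _ _ hm.1, ?_⟩
    have := eig_X (θ := θ') (hθ i) hm.2
    simpa [E] using this
  have hNtop : ⨆ a, N a = ⊤ := by
    rw [eq_top_iff, ← htop]
    refine iSup_le fun k => ?_
    have := finite_piece hind htop hgr k
    have h1 := Module.End.iSup_maxGenEigenspace_eq_top (θ'.restrict (hθk k))
    have h2 : ℳ k = ⨆ μ, (Module.End.maxGenEigenspace (θ'.restrict (hθk k)) μ).map
        (ℳ k).subtype := by
      rw [← Submodule.map_iSup, h1, Submodule.map_subtype_top]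
    rw [h2]
    refine iSup_le fun μ => ?_
    rw [Module.End.maxGenEigenspace, ← Submodule.inf_genEigenspace θ' (ℳ k) (hθk k)]
    by_cases hμ : μ = 0
    · rintro m ⟨-, hm⟩
      obtain ⟨l, hl⟩ := (Module.End.mem_maxGenEigenspace _ _ _).mp hm
      rw [hμ, zero_smul, sub_zero] at hl
      have h3 : Function.Injective (θ' ^ l) := by
        rw [Module.End.coe_pow]
        exact θ.injective.iterate l
      rw [(injective_iff_map_eq_zero _).mp h3 m hl]
      exact Submodule.zero_mem _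
    · exact le_iSup N (k, Additive.ofMul (Units.mk0 μ hμ))
  obtain ⟨ι, _, m, g, hsp, hm⟩ := exists_gens (σ := σ) N hNtop
  obtain ⟨i₀, j₀, k₀, hτ⟩ := hτ
  obtain ⟨P, Q, n, hn, hPu, hQu, hQv, hPv, hP, hQ⟩ := exists_chars _ _ hτ
    (Sum.elim τ (fun j => Additive.toMul (g j).2) : σ ⊕ ι → ℂˣ)
  choose p hp using hP
  choose q hq using hQ
  have hdiv : ∀ (R : Additive ℂˣ →+ ℚ) (u v : ℂˣ), R (Additive.ofMul (u / v)) =
      R (Additive.ofMul u) - R (Additive.ofMul v) := fun R u v => by rw [ofMul_div, map_sub]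
  rw [hdiv] at hPu hQu hQv hPv
  have hp1 : ∀ i, (p (Sum.inl i) : ℚ) = P (Additive.ofMul (τ i)) := fun i => hp _
  have hq1 : ∀ i, (q (Sum.inl i) : ℚ) = Q (Additive.ofMul (τ i)) := fun i => hq _
  rw [← hp1, ← hp1] at hPu hPv
  rw [← hq1, ← hq1] at hQu hQv
  obtain ⟨x, y, s, lam, hxy, hl, hx, hy, hs⟩ := exists_lam (fun i => p (Sum.inl i))
    (fun i => q (Sum.inl i)) (i := i₀) (j := j₀) (k := k₀) hn (by exact_mod_cast hPu)
    (by exact_mod_cast hQu) (by exact_mod_cast hQv) (by exact_mod_cast hPv)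
  let w : σ → ℤ × ℤ × ℤ := fun i => (1, p (Sum.inl i), q (Sum.inl i))
  let γ : ι → ℤ × ℤ × ℤ := fun j => ((g j).1, p (Sum.inr j), q (Sum.inr j))
  have hΓ : ∀ c c' : ℤ × ℤ × ℤ, (∀ φ : ℤ × ℤ × ℤ →+ ℤ, φ c = φ c') → c = c' := by
    intro c c' h
    exact Prod.ext (h (AddMonoidHom.fst _ _)) (Prod.ext
      (h ((AddMonoidHom.fst _ _).comp (AddMonoidHom.snd _ _)))
      (h ((AddMonoidHom.snd _ _).comp (AddMonoidHom.snd _ _))))
  let e : ℤ × ℤ × ℤ →+ ℤ × ℚ × ℚ :=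
    (AddMonoidHom.id ℤ).prodMap ((Int.castAddHom ℚ).prodMap (Int.castAddHom ℚ))
  let F : ℤ × Additive ℂˣ →+ ℤ × ℚ × ℚ := (AddMonoidHom.id ℤ).prodMap (P.prod Q)
  have he : Function.Injective e :=
    Function.injective_id.prodMap (Int.cast_injective.prodMap Int.cast_injective)
  have hew : ∀ i, e (w i) = F (1, Additive.ofMul (τ i)) := fun i =>
    Prod.ext rfl (Prod.ext (hp1 i) (hq1 i))
  have heγ : ∀ j, e (γ j) = F (g j) := fun j =>
    Prod.ext rfl (Prod.ext (hp (Sum.inr j)) (hq (Sum.inr j)))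
  have hg := hgr_of hN hNX e he F hew hm heγ
  obtain ⟨α, β, φ, hφ, hb⟩ := split_module hcard hΓ w (x := x) (y := y) (s := s) hxy
    (AddMonoidHom.fst _ _) (fun _ => rfl) hl hx hy hs m hsp γ hg hfree
  refine ⟨α.1, β.1, φ, fun k x hx => ?_, hb⟩
  obtain ⟨f, hf, rfl⟩ := eq_sum_comp hind hgr hsp (fun j => (hm j).1) hx
  simp only [map_sum, map_smul, Prod.fst_sum, Prod.snd_sum, Prod.smul_fst, Prod.smul_snd,
    smul_eq_mul]
  constructor
  · refine IsWeightedHomogeneous.sum _ _ _ fun j _ => ?_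
    have h1 : IsWeightedHomogeneous (fun _ => (1 : ℤ)) (φ (m j)).1 ((g j).1 + α.1) :=
      hom_map (AddMonoidHom.fst ℤ (ℤ × ℤ)) (hφ j).1
    exact hom_congr ((hf j).mul h1) (by ring)
  · refine IsWeightedHomogeneous.sum _ _ _ fun j _ => ?_
    have h1 : IsWeightedHomogeneous (fun _ => (1 : ℤ)) (φ (m j)).2 ((g j).1 + β.1) :=
      hom_map (AddMonoidHom.fst ℤ (ℤ × ℤ)) (hφ j).2
    exact hom_congr ((hf j).mul h1) (by ring)

end Pool.Agent.P.MP_b01859_ag
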