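import Pool.Agent.P.MP_b01859_ag.Nu

/-!
Restriction to linear subspaces and change of generators.
-/

namespace Pool.Agent.P.MP_b01859_ag

open MvPolynomial Finsupp

variable {σ τ : Type} {Γ : Type} [AddCommGroup Γ] {ι : Type}

lemma algHom_hom {w : σ → Γ} {w' : τ → Γ} (F : Pol σ →ₐ[ℂ] Pol τ)
    (h : ∀ i, IsWeightedHomogeneous w' (F (X i)) (w i)) {f : Pol σ} {c : Γ}
    (hf : IsWeightedHomogeneous w f c) : IsWeightedHomogeneous w' (F f) c := by
  rw [as_sum f, map_sum]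
  refine IsWeightedHomogeneous.sum _ _ _ fun d hd => ?_
  rw [← hf (MvPolynomial.mem_support_iff.mp hd), monomial_eq, map_mul, Finsupp.prod, map_prod,
    algHom_C, algebraMap_eq, weight_apply, Finsupp.sum]
  exact (IsWeightedHomogeneous.prod _ _ _ fun i _ => by
    rw [map_pow]; exact (h i).pow _).C_mul _

lemma intertwine (F : Pol σ →ₐ[ℂ] Pol τ) {δ : Dr σ} {δ' : Dr τ}
    (h : ∀ i, δ' (F (X i)) = F (δ (X i))) (f : Pol σ) : δ' (F f) = F (δ f) := by
  induction f using MvPolynomial.induction_on with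
  | C a => simp
  | add p q hp hq => simp only [map_add, hp, hq]
  | mul_X p i hp => simp only [map_mul, dr_mul, hp, h, map_add]

section sub

variable [Fintype τ]

/-- Restriction of polynomials to the span of a family of vectors. -/
noncomputable def sub (ξ : τ → σ → ℂ) : Pol σ →ₐ[ℂ] Pol τ :=
  aeval fun i => ∑ a, C (ξ a i) * X a

lemma sub_X (ξ : τ → σ → ℂ) (i : σ) : sub ξ (X i) = ∑ a, C (ξ a i) * X a := aeval_X _ _

lemma eval_sub (ξ : τ → σ → ℂ) (p : τ → ℂ) (f : Pol σ) :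
    eval p (sub ξ f) = eval (∑ a, p a • ξ a) f := by
  induction f using MvPolynomial.induction_on with
  | C a => simp
  | add p q hp hq => simp only [map_add, hp, hq]
  | mul_X q i hq => simp [hq, sub_X, mul_comm]

lemma eval_sub_single [DecidableEq τ] (ξ : τ → σ → ℂ) (a : τ) (f : Pol σ) :
    eval (Pi.single a 1) (sub ξ f) = eval (ξ a) f := by
  rw [eval_sub]
  simp [Pi.single_apply]

lemma sub_hom {w : σ → Γ} {w' : τ → Γ} {ξ : τ → σ → ℂ} (h : ∀ a i, ξ a i ≠ 0 → w i = w' a)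
    {f : Pol σ} {c : Γ} (hf : IsWeightedHomogeneous w f c) :
    IsWeightedHomogeneous w' (sub ξ f) c := by
  refine algHom_hom _ (fun i => ?_) hf
  rw [sub_X]
  refine IsWeightedHomogeneous.sum _ _ _ fun a _ => ?_
  by_cases h1 : ξ a i = 0
  · rw [h1, C_0, zero_mul]; exact isWeightedHomogeneous_zero _ _ _
  · rw [h a i h1]
    exact (isWeightedHomogeneous_X ℂ w' a).C_mul _

lemma sub_sub {υ : Type} [Fintype υ] (ξ : τ → σ → ℂ) (η : υ → τ → ℂ) (f : Pol σ) :
    sub η (sub ξ f) = sub (fun b => ∑ a, η b a • ξ a) f := by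
  have : (sub η).comp (sub ξ) = sub (fun b => ∑ a, η b a • ξ a) := algHom_ext fun i => by
    simp only [AlgHom.comp_apply, sub_X, map_sum, map_mul, algHom_C, algebraMap_eq,
      Finset.mul_sum, Finset.sum_apply, Pi.smul_apply, smul_eq_mul, Finset.sum_mul]
    rw [Finset.sum_comm]
    exact Finset.sum_congr rfl fun b _ => Finset.sum_congr rfl fun a _ => by ring
  exact AlgHom.congr_fun this f

lemma sub_single [DecidableEq τ] (f : Pol τ) : sub (fun a => Pi.single a (1 : ℂ)) f = f := by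
  have : sub (fun a : τ => (Pi.single a (1 : ℂ) : τ → ℂ)) = AlgHom.id ℂ _ := algHom_ext fun i => by
    simp [sub_X, Pi.single_apply, apply_ite C]
  rw [this]; rfl

lemma sub_der [Fintype σ] {ξ : τ → σ → ℂ} {A : Matrix σ σ ℂ} {δ' : Dr τ} {A' : Matrix τ τ ℂ}
    (h : ∀ a, A.mulVec (ξ a) = ∑ b, A' b a • ξ b) (hδ : ∀ b, δ' (X b) = ∑ a, C (A' b a) * X a)
    (f : Pol σ) : δ' (sub ξ f) = sub ξ (der A f) := by
  refine intertwine _ (fun i => ?_) f
  have h1 : ∀ a, ∑ j, A i j * ξ a j = ∑ b, A' b a * ξ b i := fun a => by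
    simpa [Matrix.mulVec, dotProduct] using congrFun (h a) i
  simp only [sub_X, der_X, map_sum, dr_C_mul, hδ, map_mul, algHom_C, algebraMap_eq,
    Finset.mul_sum]
  rw [Finset.sum_comm, Finset.sum_comm (f := fun j a => C (A i j) * (C (ξ a j) * X a))]
  refine Finset.sum_congr rfl fun a _ => ?_
  simp only [← mul_assoc, ← C_mul, ← Finset.sum_mul, ← map_sum, h1, mul_comm (ξ _ i)]

lemma exists_sub_eq_X [Finite σ] {ξ : τ → σ → ℂ} (hξ : LinearIndependent ℂ ξ) (a : τ) :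
    ∃ (s : Finset σ) (c : σ → ℂ), X a = ∑ i ∈ s, C (c i) * sub ξ (X i) := by
  classical
  have := Fintype.ofFinite σ
  obtain ⟨L, hL⟩ := LinearMap.exists_leftInverse_of_injective (Fintype.linearCombination ℂ ξ)
    (LinearMap.ker_eq_bot.mpr hξ.fintypeLinearCombination_injective)
  refine ⟨Finset.univ, fun i => L (Pi.single i 1) a, ?_⟩
  have h1 : ∀ b, ∑ i, L (Pi.single i 1) a * ξ b i = if a = b then 1 else 0 := by
    intro b
    have h2 := congrFun (LinearMap.congr_fun hL (Pi.single b 1)) a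
    simp only [LinearMap.comp_apply, Fintype.linearCombination_apply_single, one_smul,
      LinearMap.id_apply, Pi.single_apply] at h2
    rw [← h2]
    conv_rhs => rw [pi_eq_sum_univ' (ξ b)]
    simp [mul_comm]
  simp only [sub_X, Finset.mul_sum]
  rw [Finset.sum_comm]
  simp only [← mul_assoc, ← C_mul, ← Finset.sum_mul, ← map_sum, h1]
  simp [apply_ite C]

end sub

lemma Sp.map {ω : ι → ι → Pol σ} (h : Sp ω) (F : Pol σ →ₐ[ℂ] Pol τ) :
    Sp fun i j => F (ω i j) := by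
  obtain ⟨n₁, n₂, h⟩ := h
  exact ⟨fun i => F (n₁ i), fun i => F (n₂ i), fun i j => by simp [h]⟩

namespace VB

/-- Restriction to a linear subspace. -/
noncomputable def map [Fintype τ] [Finite σ] (T : VB σ ι) {ξ : τ → σ → ℂ}
    (hξ : LinearIndependent ℂ ξ) : VB τ ι where
  ω i j := sub ξ (T.ω i j)
  skew i j := by rw [T.skew, map_neg]
  pl i j k l := by simpa using congrArg (sub ξ) (T.pl i j k l)
  LF p hp a ha := by
    obtain ⟨s, c, hc⟩ := exists_sub_eq_X hξ a
    obtain ⟨i, hi⟩ : ∃ i, sub ξ (X i) ∉ p := by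
      by_contra hcon
      push Not at hcon
      exact ha (hc ▸ p.sum_mem fun i _ => p.mul_mem_left _ (hcon i))
    exact T.LF (p.comap (sub ξ)) (Ideal.comap_isPrime _ _) i hi

lemma map_ω [Fintype τ] [Finite σ] (T : VB σ ι) {ξ : τ → σ → ℂ} (hξ : LinearIndependent ℂ ξ)
    (i j : ι) : (T.map hξ).ω i j = sub ξ (T.ω i j) := rfl

lemma map_gr [Fintype τ] [Finite σ] {T : VB σ ι} {ξ : τ → σ → ℂ} (hξ : LinearIndependent ℂ ξ)
    {w : σ → Γ} {w' : τ → Γ} (h : ∀ a i, ξ a i ≠ 0 → w i = w' a) {γ : ι → Γ} {g : Γ}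
    (hG : Gr w γ g T.ω) : Gr w' γ g (T.map hξ).ω := fun i j => sub_hom h (hG i j)

section push

variable {T₁ : VB σ ι} {T₀ : VB τ ι} {F : Pol σ →ₐ[ℂ] Pol τ}

/-- Restriction of sections. -/
noncomputable def push (h : ∀ i j, F (T₁.ω i j) = T₀.ω i j) : T₁.N →+ T₀.N where
  toFun φ := ⟨fun i => F (φ.1 i), fun i j k => by
    simpa [h] using congrArg F (φ.2 i j k)⟩
  map_zero' := N_ext fun i => by simp
  map_add' φ ψ := N_ext fun i => by simp

variable (h : ∀ i j, F (T₁.ω i j) = T₀.ω i j)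

lemma push_val (φ : T₁.N) (i : ι) : (push h φ).1 i = F (φ.1 i) := rfl

lemma push_smul (f : Pol σ) (φ : T₁.N) : push h (f • φ) = F f • push h φ :=
  N_ext fun i => by simp [push_val]

lemma push_row (t : ι) : push h (T₁.row t) = T₀.row t := N_ext fun i => h t i

lemma push_B [Finite σ] [Nontrivial σ] [Finite τ] [Nontrivial τ] (φ ψ : T₁.N) :
    T₀.B (push h φ) (push h ψ) = F (T₁.B φ ψ) :=
  T₀.eq_of_mul fun i j => by
    rw [B_spec, ← h, ← map_mul, B_spec]; simp [push_val]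

lemma push_hom {w : σ → Γ} {w' : τ → Γ} (hF : ∀ i, IsWeightedHomogeneous w' (F (X i)) (w i))
    {γ : ι → Γ} {φ : T₁.N} {α : Γ} (hφ : HomN w γ φ α) : HomN w' γ (push h φ) α :=
  fun j => algHom_hom F hF (hφ j)

variable [Fintype ι] {δ : Dr σ} {δ' : Dr τ} {a : Matrix ι ι ℂ}

include h in
lemma Sym.push (hS : T₁.Sym δ a) (e : ∀ f, δ' (F f) = F (δ f)) : T₀.Sym δ' a := by
  intro i j
  rw [← h, e, hS i j]
  simp [h]

lemma push_D (hS : T₁.Sym δ a) (hS' : T₀.Sym δ' a) (e : ∀ f, δ' (F f) = F (δ f)) (φ : T₁.N) :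
    push h (D hS φ) = D hS' (push h φ) :=
  N_ext fun i => by simp [push_val, D_val, e]

end push

section gen

variable [Finite σ] [Nontrivial σ] [Fintype ι] [DecidableEq ι] (T : VB σ ι)
  {P Q : Matrix ι ι ℂ}

/-- The rows after a change of basis. -/
noncomputable def nrow (P : Matrix ι ι ℂ) (i : ι) : T.N := ∑ k, P i k • T.row k

omit [Finite σ] [Nontrivial σ] in
lemma sum_nrow (h : Q * P = 1) (i : ι) : ∑ k, Q i k • T.nrow P k = T.row i := by
  have := congrFun (LinearMap.congr_fun (mv_mul (V := T.N) Q P) T.row) i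
  rw [h] at this
  simp only [Module.End.mul_apply, mv_apply, Matrix.one_apply, ite_smul, one_smul, zero_smul,
    Finset.sum_ite_eq, Finset.mem_univ, if_true] at this
  exact this.symm

omit [Fintype ι] [DecidableEq ι] in
lemma B_csmul_left (c : ℂ) (φ ψ : T.N) : T.B (c • φ) ψ = c • T.B φ ψ := by
  rw [← algebraMap_smul (Pol σ) c φ, map_smul, LinearMap.smul_apply, algebraMap_smul]

omit [Fintype ι] [DecidableEq ι] in
lemma B_csmul_right (c : ℂ) (φ ψ : T.N) : T.B φ (c • ψ) = c • T.B φ ψ := by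
  rw [← algebraMap_smul (Pol σ) c ψ, map_smul, algebraMap_smul]

omit [DecidableEq ι] in
lemma B_sum (u v : ι → ℂ) (φ ψ : ι → T.N) :
    T.B (∑ k, u k • φ k) (∑ l, v l • ψ l) = ∑ k, ∑ l, (u k * v l) • T.B (φ k) (ψ l) := by
  simp only [map_sum, LinearMap.sum_apply, B_csmul_left, B_csmul_right, smul_smul]
  rw [Finset.sum_comm]
  exact Finset.sum_congr rfl fun k _ => Finset.sum_congr rfl fun l _ => by rw [mul_comm]

/-- Change of basis of the space of generators. -/
noncomputable def chg (h : Q * P = 1) : VB σ ι where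
  ω i j := T.B (T.nrow P i) (T.nrow P j)
  skew i j := T.B_swap _ _
  pl i j k l := T.rel4 _ _ _ _
  LF p hp s hs := by
    obtain ⟨i, j, hij⟩ := T.LF p hp s hs
    by_contra hcon
    push Not at hcon
    apply hij
    rw [← B_row_row, ← T.sum_nrow h, ← T.sum_nrow h, B_sum]
    exact p.sum_mem fun k _ => p.sum_mem fun l _ => p.smul_of_tower_mem _ (hcon k l)

variable {T}

lemma sp_of_chg (h : Q * P = 1) (hS : Sp (T.chg h).ω) : Sp T.ω := by
  obtain ⟨n₁, n₂, hn⟩ := hS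
  refine ⟨fun i => ∑ k, Q i k • n₁ k, fun i => ∑ k, Q i k • n₂ k, fun i j => ?_⟩
  have hn' : ∀ k l, T.B (T.nrow P k) (T.nrow P l) = n₁ k * n₂ l - n₁ l * n₂ k := hn
  rw [← B_row_row, ← T.sum_nrow h, ← T.sum_nrow h, B_sum]
  simp only [hn', smul_sub, Finset.sum_sub_distrib, Finset.sum_mul_sum, smul_mul_smul_comm]
  congr 1
  rw [Finset.sum_comm]
  exact Finset.sum_congr rfl fun k _ => Finset.sum_congr rfl fun l _ => by rw [mul_comm]

lemma chg_gr (h : Q * P = 1) {w : σ → Γ} {γ γ' : ι → Γ} {g : Γ} (hG : Gr w γ g T.ω)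
    (hP : ∀ i k, P i k ≠ 0 → γ' i = γ k) : Gr w γ' g (T.chg h).ω := by
  have key : ∀ i, HomN w γ (T.nrow P i) (γ' i - g) := by
    intro i j
    simp only [nrow, Submodule.coe_sum, Finset.sum_apply, Submodule.coe_smul_of_tower,
      Pi.smul_apply, row_val]
    refine IsWeightedHomogeneous.sum _ _ _ fun k _ => ?_
    by_cases h1 : P i k = 0
    · rw [h1, zero_smul]; exact isWeightedHomogeneous_zero _ _ _
    · rw [smul_eq_C_mul]
      exact hom_congr ((hG k j).C_mul _) (by rw [hP i k h1]; abel)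
  exact fun i j => hom_congr (B_hom hG (key i) (key j)) (by abel)

lemma Sym.chg (h : Q * P = 1) {δ : Dr σ} {a : Matrix ι ι ℂ} (hS : T.Sym δ a) :
    (T.chg h).Sym δ (P * a * Q) := by
  have key : ∀ i, D hS (T.nrow P i) = ∑ k, (P * a * Q) i k • T.nrow P k := by
    intro i
    have e := congrFun (LinearMap.congr_fun (mv_mul (V := T.N) (P * a) Q) (T.nrow P)) i
    have e' := congrFun (LinearMap.congr_fun (mv_mul (V := T.N) P a) T.row) i
    simp only [Module.End.mul_apply, mv_apply, T.sum_nrow h] at e e'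
    rw [e, e', nrow, map_sum]
    simp only [map_smul, D_row]
  intro i j
  change δ (T.B _ _) = ∑ k, _ • T.B _ _ + ∑ k, _ • T.B _ _
  rw [D_B hS, key, key]
  simp only [map_sum, LinearMap.sum_apply, B_csmul_left, B_csmul_right]

end gen

/-- The graded structure. -/
def toPlu (T : VB σ ι) {w : σ → Γ} {γ : ι → Γ} {g : Γ} (hG : Gr w γ g T.ω) : Plu σ Γ ι :=
  { w := w, ω := T.ω, γ := γ, g₀ := g, hom := hG, skew := T.skew, pl := T.pl, LF := T.LF }

lemma sp_of_split {T : VB σ ι} {w : σ → Γ} {γ : ι → Γ} {g : Γ} {hG : Gr w γ g T.ω}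
    (h : (T.toPlu hG).Split) : Sp T.ω := by
  obtain ⟨n₁, n₂, -, -, -, -, h⟩ := h
  exact ⟨n₁, n₂, h⟩

lemma split_of_sp [Finite σ] [Nontrivial σ] [Finite ι] {T : VB σ ι} {γ : ι → ℤ} {g : ℤ}
    (hG : Gr (fun _ => 1) γ g T.ω) (h : Sp T.ω) : (T.toPlu hG).Split := by
  obtain ⟨n₁, n₂, h⟩ := h
  obtain ⟨x, y, hxy⟩ := exists_pair_ne σ
  refine Plu.split_of_const hxy (AddMonoidHom.id ℤ) (fun _ => rfl) (φ := n₁) (ψ := n₂) (B := 1)
    (fun i j k => ?_) (fun i j k => ?_) (fun i j => ?_) (by simp)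
  · change T.ω i j * _ - T.ω i k * _ + T.ω j k * _ = 0
    rw [h, h, h]; ring
  · change T.ω i j * _ - T.ω i k * _ + T.ω j k * _ = 0
    rw [h, h, h]; ring
  · change T.ω i j * _ = _
    rw [h, mul_one]

end VB

end Pool.Agent.P.MP_b01859_ag
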