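import Pool.Agent.P.MP_b01859_ag.Ga

/-!
A rank two bundle with a two dimensional infinitesimal stabilizer splits.
-/

namespace Pool.Agent.P.MP_b01859_ag

open MvPolynomial VB

lemma exists_chars' {G : Type} [AddCommGroup G] (u v : G)
    (h : ∀ a b : ℤ, a • u + b • v = 0 → a = 0 ∧ b = 0) {T : Type} [Fintype T] (z : T → G) :
    ∃ (P Q : G →+ ℚ) (N : ℤ), 0 < N ∧ P u = N ∧ Q u = 0 ∧ Q v = N ∧ P v = 0 ∧
      (∀ t, ∃ a : ℤ, (a : ℚ) = P (z t)) ∧ ∀ t, ∃ a : ℤ, (a : ℚ) = Q (z t) := by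
  classical
  let f : ℤ × ℤ →+ G := (zmultiplesHom _ u).coprod (zmultiplesHom _ v)
  have hf : Function.Injective f := by
    rw [injective_iff_map_eq_zero]
    intro a ha
    obtain ⟨h1, h2⟩ := h a.1 a.2 (by simpa [f] using ha)
    exact Prod.ext h1 h2
  obtain ⟨P, hP⟩ := (Module.Baer.of_divisible ℚ).extension_property_addMonoidHom f hf
    ((Int.castAddHom ℚ).comp (AddMonoidHom.fst ℤ ℤ))
  obtain ⟨Q, hQ⟩ := (Module.Baer.of_divisible ℚ).extension_property_addMonoidHom f hf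
    ((Int.castAddHom ℚ).comp (AddMonoidHom.snd ℤ ℤ))
  have P1 := DFunLike.congr_fun hP (1, 0)
  have P2 := DFunLike.congr_fun hP (0, 1)
  have Q1 := DFunLike.congr_fun hQ (1, 0)
  have Q2 := DFunLike.congr_fun hQ (0, 1)
  simp [f] at P1 P2 Q1 Q2
  let N : ℕ := ∏ t, ((P (z t)).den * (Q (z t)).den)
  have hN : N ≠ 0 := Finset.prod_ne_zero_iff.mpr fun t _ =>
    mul_ne_zero (Rat.den_ne_zero _) (Rat.den_ne_zero _)
  have key : ∀ r : ℚ, r.den ∣ N → ∃ a : ℤ, (a : ℚ) = N • r := by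
    rintro r ⟨c, hc⟩
    refine ⟨c * r.num, ?_⟩
    rw [hc, nsmul_eq_mul]
    push_cast
    rw [mul_comm (r.den : ℚ), mul_assoc, Rat.den_mul_eq_num]
  refine ⟨N • P, N • Q, N, by exact_mod_cast Nat.pos_of_ne_zero hN, by simp [P1], by simp [Q1],
    by simp [Q2], by simp [P2], fun t => key _ ?_, fun t => key _ ?_⟩
  · exact (Dvd.intro _ rfl).trans (Finset.dvd_prod_of_mem _ (Finset.mem_univ t))
  · exact (Dvd.intro_left _ rfl).trans (Finset.dvd_prod_of_mem _ (Finset.mem_univ t))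

variable {σ ι : Type} {Γ : Type} [AddCommGroup Γ]

lemma Gr.toInt {w : σ → Γ} {γ : ι → Γ} {ω : ι → ι → Pol σ} (h : Gr w γ 0 ω) (P : Γ →+ ℚ)
    {p : σ → ℤ} {q : ι → ℤ} (hp : ∀ i, (p i : ℚ) = P (w i)) (hq : ∀ j, (q j : ℚ) = P (γ j)) :
    Gr p q 0 ω := by
  intro i j d hd
  have e1 := h.map P i j hd
  have e2 := weight_comp (Int.castAddHom ℚ) p d
  simp only [Int.coe_castAddHom, hp] at e2
  simp only [e2, ← hq, map_zero] at e1
  exact_mod_cast e1

variable [Fintype σ] [Fintype ι]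

lemma exists_level {α : σ → ℂ} {β : ι → ℂ} {ω : ι → ι → Pol σ} (h : Gr α β 0 ω) {μ : ℂ}
    (hμ : μ ≠ 0) : ∃ (p : σ → ℤ) (q : ι → ℤ) (c : ℤ), 0 < c ∧ Gr p q 0 ω ∧
      (∀ i j, α j = α i → p j = p i) ∧ (∀ i j, α j = α i + μ → p j = p i + c) ∧
      ∀ i j, β j = β i + μ → q j = q i + c := by
  obtain ⟨P, -, c, hc, h1, -, -, -, h2, -⟩ := exists_chars' ((μ, 0) : ℂ × ℤ) (0, 1)
    (fun a b hab => by simpa [hμ] using hab) (fun t : σ ⊕ ι => (Sum.elim α β t, 0))
  choose z hz using h2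
  let P' := P.comp (AddMonoidHom.inl ℂ ℤ)
  have hp : ∀ i, (z (Sum.inl i) : ℚ) = P' (α i) := fun i => hz _
  have hq : ∀ j, (z (Sum.inr j) : ℚ) = P' (β j) := fun j => hz _
  have hc' : P' μ = c := h1
  refine ⟨_, _, c, hc, h.toInt P' hp hq, fun i j e => ?_, fun i j e => ?_, fun i j e => ?_⟩
  · have : (z (Sum.inl j) : ℚ) = z (Sum.inl i) := by rw [hp, hp, e]
    exact_mod_cast this
  · have : (z (Sum.inl j) : ℚ) = z (Sum.inl i) + c := by rw [hp, hp, e, map_add, hc']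
    exact_mod_cast this
  · have : (z (Sum.inr j) : ℚ) = z (Sum.inr i) + c := by rw [hq, hq, e, map_add, hc']
    exact_mod_cast this

variable {T : VB σ ι} {γ : ι → ℤ} {g : ℤ}

theorem t2 (hG : Gr (fun _ => 1) γ g T.ω) (h5 : 5 ≤ Fintype.card σ) {α α' : σ → ℂ} {β β' : ι → ℂ}
    (h : Gr α β 0 T.ω) (h' : Gr α' β' 0 T.ω) {i j : σ} (hij : α i ≠ α j)
    (hind : ¬ ∃ s t : ℂ, ∀ k, α' k = s * α k + t) : Sp T.ω := by
  have hu : α j - α i ≠ 0 := sub_ne_zero.mpr hij.symm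
  obtain ⟨k, hk⟩ : ∃ k, (α j - α i) * (α' k - α' i) - (α' j - α' i) * (α k - α i) ≠ 0 := by
    by_contra hcon
    push Not at hcon
    refine hind ⟨(α' j - α' i) / (α j - α i), α' i - (α' j - α' i) / (α j - α i) * α i,
      fun k => ?_⟩
    field_simp
    linear_combination hcon k
  obtain ⟨P, Q, N, hN, a1, a2, a3, a4, hP, hQ⟩ := exists_chars'
    ((α j, α' j) - (α i, α' i) : ℂ × ℂ) ((α k, α' k) - (α i, α' i)) (fun a b hab => by
      simp only [Prod.mk_sub_mk, Prod.smul_mk, Prod.mk_add_mk, Prod.mk_eq_zero,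
        zsmul_eq_mul] at hab
      constructor
      · have : (a : ℂ) = 0 := mul_right_cancel₀ hk (by
          linear_combination (α' k - α' i) * hab.1 - (α k - α i) * hab.2)
        exact_mod_cast this
      · have : (b : ℂ) = 0 := mul_right_cancel₀ hk (by
          linear_combination (α j - α i) * hab.2 - (α' j - α' i) * hab.1)
        exact_mod_cast this)
    (Sum.elim (fun l => (α l, α' l)) (fun l => (β l, β' l)) : σ ⊕ ι → ℂ × ℂ)
  choose p hp using hP
  choose q hq using hQ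
  have hp1 : ∀ l, (p (Sum.inl l) : ℚ) = P (α l, α' l) := fun l => hp _
  have hq1 : ∀ l, (q (Sum.inl l) : ℚ) = Q (α l, α' l) := fun l => hq _
  rw [map_sub, ← hp1, ← hp1] at a1 a4
  rw [map_sub, ← hq1, ← hq1] at a2 a3
  obtain ⟨x, y, s, lam, hxy, hl, hx, hy, hs⟩ := exists_lam (fun l => p (Sum.inl l))
    (fun l => q (Sum.inl l)) (i := i) (j := j) (k := k) hN.ne' (by exact_mod_cast a1)
    (by exact_mod_cast a2) (by exact_mod_cast a3) (by exact_mod_cast a4)
  have hΓ : ∀ c c' : ℤ × ℤ × ℤ, (∀ φ : ℤ × ℤ × ℤ →+ ℤ, φ c = φ c') → c = c' := by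
    intro c c' h
    exact Prod.ext (h (AddMonoidHom.fst _ _)) (Prod.ext
      (h ((AddMonoidHom.fst _ _).comp (AddMonoidHom.snd _ _)))
      (h ((AddMonoidHom.snd _ _).comp (AddMonoidHom.snd _ _))))
  have hG' := hG.prod (((h.prod h').toInt P hp1 fun l => hp (Sum.inr l)).prod
    ((h.prod h').toInt Q hq1 fun l => hq (Sum.inr l)))
  exact sp_of_split (hG := hG') (Plu.split _ h5 hΓ (x := x) (y := y) (s := s) hxy
    (AddMonoidHom.fst _ _) (fun _ => rfl) hl hx hy hs)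

variable [DecidableEq σ] [DecidableEq ι] [Nontrivial σ]

theorem gmga (hG : Gr (fun _ => 1) γ g T.ω) (h5 : 5 ≤ Fintype.card σ) {lam : σ → ℤ} {β : ι → ℤ}
    {g' : ℤ} (hL : Gr lam β g' T.ω) {i j : σ} (hij : lam i ≠ lam j) {f : Matrix σ σ ℂ}
    (hS : St T γ f) (hn : IsNilpotent f) (hf0 : f ≠ 0) (hf : ∀ i j, f i j ≠ 0 → lam j = lam i) :
    Sp T.ω := by
  set F := f.mulVecLin with hF
  by_cases h : ∃ s, F (F (Pi.single s 1)) ≠ 0
  · obtain ⟨s, hs⟩ := h
    obtain ⟨k, hk, hk'⟩ := (LN_mulVecLin hn).exists_last (fun x => F (F x) ≠ 0) (by simp) hs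
    have hHV : ∀ {x}, HV lam x (lam s) → HV lam (F x) (lam s) := fun h =>
      (h.mulVec (c := 0) (by simpa using hf)).congr (sub_zero _)
    have hl : HV lam ((F ^ k) (Pi.single s 1)) (lam s) := by
      clear hk hk'
      induction k with
      | zero => exact HV.single lam s
      | succ k ih => rw [pow_succ', Module.End.mul_apply]; exact hHV ih
    obtain ⟨t, ht⟩ : ∃ t, lam t ≠ lam s := by
      by_contra hcon
      push Not at hcon
      exact hij ((hcon i).trans (hcon j).symm)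
    refine toolC hG hL (indep3 F hk (not_not.mp hk')) (fun a => ?_) ht
    fin_cases a
    exacts [hHV (hHV hl), hHV hl, hl]
  · push Not at h
    refine toolG' hG hS hn hf0 ?_
    have : LinearMap.ker (F * F) = ⊤ := eq_top_iff.mpr fun x _ => by
      rw [pi_eq_sum_univ' x]
      exact Submodule.sum_mem _ fun s _ => Submodule.smul_mem _ _ (h s)
    rwa [this, finrank_top, Module.finrank_fintype_fun_eq_card]

lemma diagz {w : σ → Γ} {γ : ι → Γ} {g : Γ} (hG : Gr w γ g T.ω) {A : Matrix σ σ ℂ}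
    {a : Matrix ι ι ℂ} (hA : ∀ i j, A i j ≠ 0 → w j = w i) (ha : ∀ i j, a i j ≠ 0 → γ j = γ i)
    (hS : T.Sym (der A) a) :
    ∃ (T' : VB σ ι) (w' : σ → Γ) (γ' : ι → Γ) (P Q : Matrix σ σ ℂ) (α : σ → ℂ) (β : ι → ℂ)
      (N : Matrix σ σ ℂ), Gr w' γ' g T'.ω ∧ Gr α β 0 T'.ω ∧ Q * P = 1 ∧ P * Q = 1 ∧
      (∀ i k, Q i k ≠ 0 → w i = w' k) ∧ P * A * Q = Matrix.diagonal α + N ∧ IsNilpotent N ∧
      (∀ i j, N i j ≠ 0 → w' j = w' i) ∧ (∀ d : Γ → ℤ, St T' (fun j => d (γ' j)) N) ∧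
      (Sp T'.ω → Sp T.ω) ∧
      ∀ (d : Γ → ℤ) B, St T (fun j => d (γ j)) B → St T' (fun j => d (γ' j)) (P * B * Q) := by
  obtain ⟨P, Q, w', α, N, hQP, hPQ, -, hQ, he, hN, hN'⟩ := jcd w A hA
  obtain ⟨P', Q', γ', β, n, hQP', -, hP', hQ', he', hn, hn'⟩ := jcd γ a ha
  have hξ : LinearIndependent ℂ fun b i => Q i b := by
    rw [Fintype.linearIndependent_iff]
    intro u hu
    have h1 : Q.mulVec u = 0 := by
      rw [← hu]; funext i; simp [Matrix.mulVec, dotProduct, mul_comm]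
    have h2 := congrArg P.mulVec h1
    rw [Matrix.mulVec_mulVec, hPQ, Matrix.one_mulVec, Matrix.mulVec_zero] at h2
    exact congrFun h2
  have htr : ∀ {B : Matrix σ σ ℂ} {b : Matrix ι ι ℂ}, T.Sym (der B) b →
      ((T.map hξ).chg hQP').Sym (der (P * B * Q)) (P' * b * Q') := fun {B b} h =>
    Sym.chg hQP' (h.push (fun _ _ => rfl) (sub_der (A' := P * B * Q) (fun c => by
      funext i
      have : (Q * (P * B * Q)) i c = (B * Q) i c := by
        rw [← mul_assoc, ← mul_assoc, hQP, one_mul]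
      simp only [Matrix.mul_apply (M := Q), Matrix.mul_apply (M := B)] at this
      simp only [Matrix.mulVec, dotProduct, Finset.sum_apply, Pi.smul_apply, smul_eq_mul]
      rw [← this]
      exact Finset.sum_congr rfl fun _ _ => mul_comm _ _) (der_X _)))
  have h1 := htr hS
  rw [he, he'] at h1
  obtain ⟨h2, h3⟩ := js h1 (fun i j h => (hN' i j h).1) (fun i j h => (hn' i j h).1) hN hn
  refine ⟨(T.map hξ).chg hQP', w', γ', P, Q, α, β, N,
    chg_gr hQP' (map_gr hξ (fun b i h => hQ i b h) hG) hP', h2, hQP, hPQ, hQ, he, hN,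
    fun i j h => (hN' i j h).2, fun d => ⟨n, fun i j h => congrArg d (hn' i j h).2, h3⟩,
    fun h => ?_, ?_⟩
  · have h4 := (sp_of_chg hQP' h).map (sub fun i b => P b i)
    have h5 : (fun i => ∑ b, P b i • fun k => Q k b) = fun i => Pi.single i (1 : ℂ) := by
      funext i k
      have := congrFun (congrFun hQP k) i
      simp only [Matrix.mul_apply, Matrix.one_apply] at this
      simp only [Finset.sum_apply, Pi.smul_apply, smul_eq_mul, Pi.single_apply, ← this, mul_comm]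
    simpa only [map_ω, sub_sub, h5, sub_single] using h4
  · rintro d B ⟨b, h4, h5⟩
    exact ⟨_, conj_lab (fun i k h => congrArg d (hP' i k h)) (fun i k h => congrArg d (hQ' i k h))
      h4, htr h5⟩

theorem key_torus (hG : Gr (fun _ => 1) γ g T.ω) (h7 : 7 ≤ Fintype.card σ) {α : σ → ℂ}
    {β : ι → ℂ} (hL : Gr α β 0 T.ω) {i₀ j₀ : σ} (hij : α i₀ ≠ α j₀) {A : Matrix σ σ ℂ}
    (hA : St T γ A) (hns : ¬ Sp T.ω) : ∃ s t : ℂ, A = s • Matrix.diagonal α + t • 1 := by
  obtain ⟨a, ha, hS⟩ := hA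
  by_cases h : ∃ i j, A i j ≠ 0 ∧ α j ≠ α i
  · obtain ⟨i, j, h1, h2⟩ := h
    obtain ⟨p, q, c, hc, hL', -, hp, hq⟩ := exists_level hL (sub_ne_zero.mpr h2)
    refine absurd (btype hG hL' hc (fun k l h => hp k l (cmp_ne h).1)
      (fun k l h => hq k l (cmp_ne h).1) (fun k l h => ha k l (cmp_ne h).2)
      (cs hL hS (α j - α i)) (fun h0 => h1 ?_) h7) hns
    have := congrFun (congrFun h0 i) j
    rwa [cmp, if_pos (by ring)] at this
  push Not at h
  have h1 := cs hL hS 0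
  have h2 : cmp α 0 A = A := Matrix.ext fun i j => by
    by_cases h3 : A i j = 0
    · simp [cmp, h3]
    · simp [cmp, h i j h3]
  rw [h2] at h1
  obtain ⟨T', w', γ', P, Q, α₂, β₂, N, a1, a2, hQP, hPQ, hQ, he, hN, hN', a3, a4, -⟩ :=
    diagz (hG.prod hL) (fun i j h3 => by rw [h i j h3]) (fun i j h3 => by
      rw [ha i j (cmp_ne h3).2, (cmp_ne h3).1, add_zero]) h1
  have hrow : ∀ i, ∃ k, Q i k ≠ 0 := fun i => by
    have := congrFun (congrFun hQP i) i
    rw [Matrix.mul_apply, Matrix.one_apply_eq] at this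
    obtain ⟨k, -, hk⟩ := Finset.exists_ne_zero_of_sum_ne_zero (this.trans_ne one_ne_zero)
    exact ⟨k, left_ne_zero_of_mul hk⟩
  have hcol : ∀ k, (w' k).1 = 1 := fun k => by
    have := congrFun (congrFun hPQ k) k
    rw [Matrix.mul_apply, Matrix.one_apply_eq] at this
    obtain ⟨i, -, hi⟩ := Finset.exists_ne_zero_of_sum_ne_zero (this.trans_ne one_ne_zero)
    rw [← hQ i k (right_ne_zero_of_mul hi)]
  have b1 : Gr (fun _ => 1) (fun j => (γ' j).1) g T'.ω := by
    simpa [hcol] using a1.map (AddMonoidHom.fst ℤ ℂ)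
  have b2 : Gr (fun i => (w' i).2) (fun j => (γ' j).2) 0 T'.ω := a1.map (AddMonoidHom.snd ℤ ℂ)
  obtain ⟨i, hi⟩ := hrow i₀
  obtain ⟨j, hj⟩ := hrow j₀
  have b3 : (w' i).2 ≠ (w' j).2 := by rwa [← hQ i₀ i hi, ← hQ j₀ j hj]
  by_cases hN0 : N = 0
  swap
  · obtain ⟨p, q, c, hc, hL', hp, hp', -⟩ := exists_level b2 (sub_ne_zero.mpr b3)
    exact absurd (a4 (gmga b1 (by omega) hL' (i := i) (j := j)
      (by have := hp' j i (by ring); omega) (a3 Prod.fst) hN hN0
      fun k l h => hp k l (congrArg Prod.snd (hN' k l h)))) hns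
  by_contra hcon
  refine hns (a4 (t2 b1 (by omega) b2 a2 b3 ?_))
  rintro ⟨s, t, hst⟩
  refine hcon ⟨s, t, ?_⟩
  have c1 : Q * Matrix.diagonal (fun i => (w' i).2) = Matrix.diagonal α * Q :=
    Matrix.ext fun k l => by
      rw [Matrix.mul_diagonal, Matrix.diagonal_mul]
      by_cases h3 : Q k l = 0
      · simp [h3]
      · rw [← hQ k l h3, mul_comm]
  have c2 : Matrix.diagonal α₂ = s • Matrix.diagonal (fun i => (w' i).2) + t • 1 :=
    Matrix.ext fun k l => by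
      by_cases h3 : k = l <;> simp [h3, hst]
  rw [hN0, add_zero, c2] at he
  calc A = Q * (P * A * Q) * P := by
        rw [← mul_assoc, ← mul_assoc, hQP, one_mul, mul_assoc, hQP, mul_one]
    _ = _ := by
        rw [he, mul_add, mul_smul_comm, c1, add_mul, smul_mul_assoc, mul_assoc, hQP, mul_one,
          mul_smul_comm, mul_one, smul_mul_assoc, hQP]

theorem unip (hG : Gr (fun _ => 1) γ g T.ω) (h7 : 7 ≤ Fintype.card σ)
    (H : ∀ A, St T γ A → ∃ c : ℂ, IsNilpotent (A - c • 1)) {A B : Matrix σ σ ℂ} (hA : St T γ A)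
    (hB : St T γ B) (hind : ∀ s t u : ℂ, s • A + t • B + u • 1 = 0 → s = 0 ∧ t = 0) :
    Sp T.ω := by
  obtain ⟨c, he⟩ := H A hA
  obtain ⟨c', hf⟩ := H B hB
  have hsub : ∀ {A : Matrix σ σ ℂ} (c : ℂ), St T γ A → St T γ (A - c • 1) := fun c h => by
    simpa [sub_eq_add_neg] using h.add ((St.one hG).smul (-c))
  have hSe := hsub c hA
  have hSf := hsub c' hB
  have hef : ∀ s t : ℂ, s • (A - c • 1) + t • (B - c' • 1) = 0 → s = 0 ∧ t = 0 := fun s t h =>
    hind s t (-(s * c) - t * c') (by rw [← h]; module)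
  generalize A - c • 1 = e at he hSe hef
  generalize B - c' • 1 = f at hf hSf hef
  have he0 : e ≠ 0 := fun h => one_ne_zero (hef 1 0 (by simp [h])).1
  have had : ∀ {x : Matrix σ σ ℂ}, IsNilpotent x →
      LN (LinearMap.mulLeft ℂ x + LinearMap.mulRight ℂ (-x)) := by
    intro x hx
    refine LN.add (fun y => ?_) (fun y => ?_) (LinearMap.commute_mulLeft_right _ _)
    · obtain ⟨k, hk⟩ := hx
      exact ⟨k, by simp [LinearMap.pow_mulLeft, hk]⟩
    · obtain ⟨k, hk⟩ := hx.neg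
      exact ⟨k, by simp [LinearMap.pow_mulRight, hk]⟩
  set ad := LinearMap.mulLeft ℂ e + LinearMap.mulRight ℂ (-e) with had'
  have hadv : ∀ y, ad y = e * y - y * e := fun y => by simp [had', sub_eq_add_neg]
  by_cases h0 : ad f = 0
  · exact ga2 hG h7 hSe hSf he hf (sub_eq_zero.mp (hadv f ▸ h0)) hef
  obtain ⟨k, hk, hk'⟩ := (had he).exists_last (fun y => ad y ≠ 0) (by simp) h0
  have hSh : St T γ ((ad ^ k) f) := by
    clear hk hk'
    induction k with
    | zero => exact hSf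
    | succ k ih => rw [pow_succ', Module.End.mul_apply, hadv]; exact ih.bracket hSe
  generalize (ad ^ k) f = h at hk hk' hSh
  rw [not_not] at hk'
  have hSg : St T γ (ad h) := hadv h ▸ hSh.bracket hSe
  obtain ⟨c₁, hc₁⟩ := H _ hSg
  have hc0 : c₁ = 0 := by
    have h1 := (Matrix.isNilpotent_trace_of_isNilpotent hc₁).eq_zero
    rw [hadv, Matrix.trace_sub, Matrix.trace_sub, Matrix.trace_mul_comm, sub_self, zero_sub,
      Matrix.trace_smul, Matrix.trace_one, neg_eq_zero, smul_eq_zero] at h1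
    exact h1.resolve_right (by exact_mod_cast (by omega : Fintype.card σ ≠ 0))
  rw [hc0, zero_smul, sub_zero] at hc₁
  refine ga2 hG h7 hSe hSg he hc₁ (sub_eq_zero.mp (hadv _ ▸ hk')) fun s t hst => ?_
  by_cases ht : t = 0
  · rw [ht, zero_smul, add_zero] at hst
    exact ⟨(smul_eq_zero.mp hst).resolve_right he0, ht⟩
  by_cases hs : s = 0
  · rw [hs, zero_smul, zero_add] at hst
    exact absurd ((smul_eq_zero.mp hst).resolve_left ht) hk
  obtain ⟨c₂, hc₂⟩ := H _ hSh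
  refine absurd ((had hc₂).eq_zero (div_ne_zero hs ht) ?_) he0
  have h1 := congrArg (t⁻¹ • ·) hst
  simp only [smul_add, smul_smul, inv_mul_cancel₀ ht, one_smul, smul_zero, hadv] at h1
  simp only [LinearMap.add_apply, LinearMap.mulLeft_apply, LinearMap.mulRight_apply, mul_neg,
    sub_mul, mul_sub, smul_mul_assoc, mul_smul_comm, one_mul, mul_one, div_eq_inv_mul]
  linear_combination (norm := module) -h1

theorem main_vb (hG : Gr (fun _ => 1) γ g T.ω) (h7 : 7 ≤ Fintype.card σ) {A B : Matrix σ σ ℂ}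
    (hA : St T γ A) (hB : St T γ B) (hind : LinearIndependent ℂ ![A, B, 1]) : Sp T.ω := by
  have hind' : ∀ s t u : ℂ, s • A + t • B + u • 1 = 0 → s = 0 ∧ t = 0 := fun s t u h => by
    have := Fintype.linearIndependent_iff.mp hind ![s, t, u] (by simpa [Fin.sum_univ_three] using h)
    exact ⟨this 0, this 1⟩
  by_cases H : ∀ A, St T γ A → ∃ c : ℂ, IsNilpotent (A - c • 1)
  · exact unip hG h7 H hA hB hind'
  push Not at H
  obtain ⟨A₁, ⟨a, ha, hS⟩, H⟩ := H
  obtain ⟨T', w', γ', P, Q, α, β, N, a1, a2, hQP, hPQ, hQ, he, hN, -, -, a4, a5⟩ :=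
    diagz hG (fun _ _ _ => rfl) ha hS
  have hcol : w' = fun _ => 1 := funext fun k => by
    have := congrFun (congrFun hPQ k) k
    rw [Matrix.mul_apply, Matrix.one_apply_eq] at this
    obtain ⟨i, -, hi⟩ := Finset.exists_ne_zero_of_sum_ne_zero (this.trans_ne one_ne_zero)
    rw [← hQ i k (right_ne_zero_of_mul hi)]
  subst hcol
  have hback : ∀ X : Matrix σ σ ℂ, X = Q * (P * X * Q) * P := fun X => by
    rw [← mul_assoc, ← mul_assoc, hQP, one_mul, mul_assoc, hQP, mul_one]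
  obtain ⟨i, j, hij⟩ : ∃ i j, α i ≠ α j := by
    by_contra hcon
    push Not at hcon
    obtain ⟨i⟩ : Nonempty σ := inferInstance
    refine H (α i) ?_
    have h1 : A₁ - α i • 1 = Q * N * P := by
      have : Matrix.diagonal α = α i • (1 : Matrix σ σ ℂ) := Matrix.ext fun k l => by
        by_cases h3 : k = l <;> simp [h3, hcon l i]
      conv_lhs => rw [hback A₁, he, this]
      rw [mul_add, add_mul, mul_smul_comm, mul_one, smul_mul_assoc, hQP, add_sub_cancel_left]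
    obtain ⟨k, hk⟩ := hN
    have h2 : ∀ l : ℕ, (Q * N * P) ^ (l + 1) = Q * N ^ (l + 1) * P := by
      intro l
      induction l with
      | zero => simp
      | succ l ih =>
        rw [pow_succ, ih, pow_succ N (l + 1)]
        simp only [mul_assoc]
        rw [← mul_assoc P Q, hPQ, one_mul]
    exact ⟨k + 1, by rw [h1, h2, pow_succ, hk]; simp⟩
  by_contra hns
  obtain ⟨s, t, e1⟩ := key_torus a1 h7 a2 hij (a5 id A hA) fun h => hns (a4 h)
  obtain ⟨s', t', e2⟩ := key_torus a1 h7 a2 hij (a5 id B hB) fun h => hns (a4 h)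
  have f1 : A = s • (Q * Matrix.diagonal α * P) + t • 1 := by
    rw [hback A, e1]; simp [mul_add, add_mul, hQP]
  have f2 : B = s' • (Q * Matrix.diagonal α * P) + t' • 1 := by
    rw [hback B, e2]; simp [mul_add, add_mul, hQP]
  obtain ⟨h1, h2⟩ := hind' s' (-s) (s * t' - s' * t) (by rw [f1, f2]; module)
  exact one_ne_zero (hind' 1 0 (-t) (by rw [f1, neg_eq_zero.mp h2]; module)).1

end Pool.Agent.P.MP_b01859_ag
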