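import Pool.Agent.P.MP_b01859_ag.Pl2

/-!
From graded modules to skew matrices and back.
-/

namespace Pool.Agent.P.MP_b01859_ag

open MvPolynomial Finsupp

section general

variable {R : Type} [CommRing R] {M : Type} [AddCommGroup M] [Module R M]

lemma exists_factor {ι N P : Type} [AddCommGroup N] [Module R N] [AddCommGroup P] [Module R P]
    {m : ι → M} (hm : Submodule.span R (Set.range m) = ⊤) (ρ : N →ₗ[R] P)
    (hρ : Function.Injective ρ) (L : M →ₗ[R] P) (h : ∀ j, L (m j) ∈ LinearMap.range ρ) :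
    ∃ Φ : M →ₗ[R] N, ∀ x, ρ (Φ x) = L x := by
  have h1 : ∀ x, L x ∈ LinearMap.range ρ := by
    intro x
    have : Submodule.span R (Set.range m) ≤ (LinearMap.range ρ).comap L := by
      rw [Submodule.span_le]
      rintro _ ⟨j, rfl⟩
      exact h j
    exact this (hm ▸ Submodule.mem_top)
  refine ⟨(LinearEquiv.ofInjective ρ hρ).symm.toLinearMap ∘ₗ L.codRestrict _ h1, fun x => ?_⟩
  simp

lemma exists_coord {ι : Type} {m : ι → M} (hm : Submodule.span R (Set.range m) = ⊤) {u₁ u₂ : M}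
    (hu : ∀ c₁ c₂ : R, c₁ • u₁ + c₂ • u₂ = 0 → c₁ = 0 ∧ c₂ = 0) {τ : R}
    (h : ∀ j, ∃ c₁ c₂ : R, τ • m j = c₁ • u₁ + c₂ • u₂) :
    ∃ Φ : M →ₗ[R] R × R, ∀ x, τ • x = (Φ x).1 • u₁ + (Φ x).2 • u₂ := by
  obtain ⟨Φ, hΦ⟩ := exists_factor hm
    ((LinearMap.toSpanSingleton R M u₁).coprod (LinearMap.toSpanSingleton R M u₂))
    (by
      rw [injective_iff_map_eq_zero]
      intro a ha
      obtain ⟨h1, h2⟩ := hu a.1 a.2 (by simpa using ha)
      exact Prod.ext h1 h2)
    (τ • LinearMap.id) (fun j => by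
      obtain ⟨c₁, c₂, hc⟩ := h j
      exact ⟨(c₁, c₂), by simpa using hc.symm⟩)
  exact ⟨Φ, fun x => by simpa using (hΦ x).symm⟩

lemma local_basis [IsDomain R] (p : Ideal R) [p.IsPrime]
    [Module.Free (Localization.AtPrime p) (LocalizedModule p.primeCompl M)]
    (h2 : Module.finrank (Localization.AtPrime p) (LocalizedModule p.primeCompl M) = 2) :
    ∃ u₁ u₂ : M, (∀ m : M, ∃ t c₁ c₂ : R, t ∉ p ∧ t • m = c₁ • u₁ + c₂ • u₂) ∧
      ∀ c₁ c₂ : R, c₁ • u₁ + c₂ • u₂ = 0 → c₁ = 0 ∧ c₂ = 0 := by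
  have : Module.Finite (Localization.AtPrime p) (LocalizedModule p.primeCompl M) :=
    Module.finite_of_finrank_pos (by omega)
  let b := Module.finBasisOfFinrankEq _ _ h2
  have hb : ∀ i, ∃ (u : M) (s : p.primeCompl), b i = LocalizedModule.mk u s := by
    intro i
    induction b i using LocalizedModule.induction_on with
    | h u s => exact ⟨u, s, rfl⟩
  choose u s hu using hb
  refine ⟨u 0, u 1, fun m => ?_, fun c₁ c₂ hc => ?_⟩
  · have h1 := b.sum_repr (LocalizedModule.mk m 1)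
    rw [Fin.sum_univ_two, hu, hu] at h1
    obtain ⟨⟨a₀, t₀⟩, h₀⟩ := IsLocalization.mk'_surjective p.primeCompl
      (b.repr (LocalizedModule.mk m 1) 0)
    obtain ⟨⟨a₁, t₁⟩, h₁⟩ := IsLocalization.mk'_surjective p.primeCompl
      (b.repr (LocalizedModule.mk m 1) 1)
    dsimp only at h₀ h₁
    rw [← h₀, ← h₁, ← Localization.mk_eq_mk', LocalizedModule.mk_smul_mk,
      LocalizedModule.mk_smul_mk,
      LocalizedModule.mk_add_mk, LocalizedModule.mk_eq] at h1
    obtain ⟨v, hv⟩ := h1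
    refine ⟨(v * (t₀ * s 0 * (t₁ * s 1)) : p.primeCompl), v * (t₁ * s 1) * a₀,
      v * (t₀ * s 0) * a₁, (v * (t₀ * s 0 * (t₁ * s 1))).2, ?_⟩
    simp only [Submonoid.smul_def, one_smul, Submonoid.coe_mul, smul_add, smul_smul] at hv ⊢
    rw [← hv]
    simp only [mul_assoc]
  · have h1 : (algebraMap R (Localization.AtPrime p) (c₁ * s 0)) • b 0 +
        (algebraMap R (Localization.AtPrime p) (c₂ * s 1)) • b 1 = 0 := by
      rw [algebraMap_smul, algebraMap_smul, hu, hu, LocalizedModule.smul'_mk,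
        LocalizedModule.smul'_mk, mul_comm c₁, mul_comm c₂, mul_smul, mul_smul,
        ← Submonoid.smul_def, ← Submonoid.smul_def, LocalizedModule.mk_cancel,
        LocalizedModule.mk_cancel, LocalizedModule.mk_add_mk, one_smul, one_smul, hc,
        LocalizedModule.zero_mk]
    have h3 := Fintype.linearIndependent_iff.mp b.linearIndependent
      ![algebraMap R (Localization.AtPrime p) (c₁ * s 0),
        algebraMap R (Localization.AtPrime p) (c₂ * s 1)] (by simpa [Fin.sum_univ_two] using h1)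
    have hinj : Function.Injective (algebraMap R (Localization.AtPrime p)) :=
      IsLocalization.injective _ p.primeCompl_le_nonZeroDivisors
    have hs : ∀ i, (s i : R) ≠ 0 := fun i h => (s i).2 (h ▸ p.zero_mem)
    have h4 := h3 0
    have h5 := h3 1
    simp only [Matrix.cons_val_zero, Matrix.cons_val_one] at h4 h5
    exact ⟨(mul_eq_zero.mp ((injective_iff_map_eq_zero _).mp hinj _ h4)).resolve_right (hs 0),
      (mul_eq_zero.mp ((injective_iff_map_eq_zero _).mp hinj _ h5)).resolve_right (hs 1)⟩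

/-- The determinant of two vectors. -/
def dt (u v : R × R) : R := u.1 * v.2 - u.2 * v.1

lemma bijective_of_det [IsDomain R] (p : Ideal R) [hp : p.IsPrime] (φ : M →ₗ[R] R × R) {u₁ u₂ : M}
    (hu : ∀ m : M, ∃ t c₁ c₂ : R, t ∉ p ∧ t • m = c₁ • u₁ + c₂ • u₂) {a b : M}
    (hab : dt (φ a) (φ b) ∉ p) : Function.Bijective (LocalizedModule.map p.primeCompl φ) := by
  have hne : ∀ t, t ∉ p → t ≠ 0 := fun t ht h => ht (h ▸ p.zero_mem)
  constructor
  · rw [injective_iff_map_eq_zero]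
    intro x hx
    induction x using LocalizedModule.induction_on with
    | h m s =>
      rw [LocalizedModule.map_mk, ← LocalizedModule.zero_mk 1, LocalizedModule.mk_eq] at hx
      obtain ⟨v, hv⟩ := hx
      simp only [one_smul, smul_zero, Submonoid.smul_def] at hv
      have h1 : φ m = 0 := (smul_eq_zero.mp hv).resolve_left (hne _ v.2)
      obtain ⟨t, c₁, c₂, ht, hc⟩ := hu m
      obtain ⟨ta, a₁, a₂, hta, ha⟩ := hu a
      obtain ⟨tb, b₁, b₂, htb, hb⟩ := hu b
      have e0 := congrArg φ hc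
      have ea := congrArg φ ha
      have eb := congrArg φ hb
      simp only [map_add, map_smul, h1, smul_zero, Prod.ext_iff, Prod.fst_add, Prod.snd_add,
        Prod.smul_fst, Prod.smul_snd, smul_eq_mul, Prod.fst_zero, Prod.snd_zero] at e0 ea eb
      have h2 : dt (φ u₁) (φ u₂) ≠ 0 := by
        intro h
        apply mul_ne_zero (mul_ne_zero (hne _ hta) (hne _ htb)) (hne _ hab)
        unfold dt at h ⊢
        linear_combination (tb * (φ b).2) * ea.1 - (tb * (φ b).1) * ea.2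
          + (a₁ * (φ u₁).1 + a₂ * (φ u₂).1) * eb.2 - (a₁ * (φ u₁).2 + a₂ * (φ u₂).2) * eb.1
          + (a₁ * b₂ - a₂ * b₁) * h
      have h3 : c₁ = 0 := by
        apply mul_right_cancel₀ h2
        unfold dt
        linear_combination (φ u₂).1 * e0.2 - (φ u₂).2 * e0.1
      have h4 : c₂ = 0 := by
        apply mul_right_cancel₀ h2
        unfold dt
        linear_combination (φ u₁).2 * e0.1 - (φ u₁).1 * e0.2
      rw [← LocalizedModule.zero_mk 1, LocalizedModule.mk_eq]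
      refine ⟨⟨t, ht⟩, ?_⟩
      simp only [one_smul, smul_zero, Submonoid.smul_def]
      rw [hc, h3, h4, zero_smul, zero_smul, add_zero]
  · intro y
    induction y using LocalizedModule.induction_on with
    | h z s =>
      refine ⟨LocalizedModule.mk (dt z (φ b) • a + dt (φ a) z • b) (⟨_, hab⟩ * s), ?_⟩
      rw [LocalizedModule.map_mk, ← LocalizedModule.mk_cancel_common_left ⟨_, hab⟩ s z]
      congr 1
      simp only [map_add, map_smul, Submonoid.smul_def]
      ext <;> simp [dt] <;> ring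

lemma dt_span {ι : Type} {m : ι → M} (hm : Submodule.span R (Set.range m) = ⊤)
    (Φ : M →ₗ[R] R × R) (I : Ideal R) (h : ∀ k l, dt (Φ (m k)) (Φ (m l)) ∈ I) (a b : M) :
    dt (Φ a) (Φ b) ∈ I := by
  have ha : a ∈ Submodule.span R (Set.range m) := hm ▸ Submodule.mem_top
  have hb : b ∈ Submodule.span R (Set.range m) := hm ▸ Submodule.mem_top
  induction ha, hb using Submodule.span_induction₂ with
  | mem_mem x y hx hy =>
    obtain ⟨k, rfl⟩ := hx
    obtain ⟨l, rfl⟩ := hy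
    exact h k l
  | zero_left y _ => simp [dt]
  | zero_right x _ => simp [dt]
  | add_left x y z _ _ _ h1 h2 =>
    convert I.add_mem h1 h2 using 1
    simp [dt]; ring
  | add_right x y z _ _ _ h1 h2 =>
    convert I.add_mem h1 h2 using 1
    simp [dt]; ring
  | smul_left r x y _ _ h1 =>
    convert I.mul_mem_left r h1 using 1
    simp [dt]; ring
  | smul_right r x y _ _ h1 =>
    convert I.mul_mem_left r h1 using 1
    simp [dt]; ring

end general

variable {σ : Type} {Γ : Type} [AddCommGroup Γ] {ι : Type}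
variable {M : Type} [AddCommGroup M] [Module (Pol σ) M]

theorem module_plu [Fintype σ] [Fintype ι]
    (hΓ : ∀ γ γ' : Γ, (∀ φ : Γ →+ ℤ, φ γ = φ γ') → γ = γ') (w : σ → Γ) (x : σ)
    (m : ι → M) (hm : Submodule.span (Pol σ) (Set.range m) = ⊤) (γ : ι → Γ)
    (hgr : ∀ f : ι → Pol σ, ∑ j, f j • m j = 0 →
      ∀ c, ∑ j, weightedHomogeneousComponent w (c - γ j) (f j) • m j = 0)
    (hfree : ∀ p : PrimeSpectrum (Pol σ), (∃ i, X i ∉ p.asIdeal) →
      Module.Free (Localization.AtPrime p.asIdeal) (LocalizedModule p.asIdeal.primeCompl M) ∧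
      Module.finrank (Localization.AtPrime p.asIdeal)
        (LocalizedModule p.asIdeal.primeCompl M) = 2) :
    ∃ T : Plu σ Γ ι, T.w = w ∧ T.γ = γ ∧
      (∀ f : ι → Pol σ, ∑ j, f j • m j = 0 → ∀ l, ∑ j, f j * T.ω j l = 0) ∧
      (∀ i j k, ∃ t : Pol σ, t ≠ 0 ∧ t • (T.ω i j • m k - T.ω i k • m j + T.ω j k • m i) = 0) ∧
      (T.Split → ∃ (α β : Γ) (φ : M →ₗ[Pol σ] Pol σ × Pol σ),
        (∀ j, IsWeightedHomogeneous w (φ (m j)).1 (γ j + α) ∧
          IsWeightedHomogeneous w (φ (m j)).2 (γ j + β)) ∧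
        ∀ p : PrimeSpectrum (Pol σ), (∃ i, X i ∉ p.asIdeal) →
          Function.Bijective (LocalizedModule.map p.asIdeal.primeCompl φ)) := by
  classical
  have hloc : ∀ (p : Ideal (Pol σ)) [p.IsPrime], (∃ i, X i ∉ p) →
      ∃ u₁ u₂ : M, (∀ a : M, ∃ t c₁ c₂ : Pol σ, t ∉ p ∧ t • a = c₁ • u₁ + c₂ • u₂) ∧
        ∀ c₁ c₂ : Pol σ, c₁ • u₁ + c₂ • u₂ = 0 → c₁ = 0 ∧ c₂ = 0 := by
    intro p hp hX
    obtain ⟨h1, h2⟩ := hfree ⟨p, hp⟩ hX
    exact local_basis p h2
  -- two independent generators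
  obtain ⟨i₀, j₀, hind, hspan⟩ : ∃ i₀ j₀, (∀ c₁ c₂ : Pol σ, c₁ • m i₀ + c₂ • m j₀ = 0 →
      c₁ = 0 ∧ c₂ = 0) ∧ ∀ k, ∃ t A B : Pol σ, t ≠ 0 ∧ t • m k = A • m i₀ + B • m j₀ := by
    obtain ⟨u₁, u₂, hu, hu'⟩ := hloc ⊥ ⟨x, by simp⟩
    choose t c₁ c₂ ht hc using fun k => hu (m k)
    have hτ : ∏ k, t k ≠ 0 := Finset.prod_ne_zero_iff.mpr fun k _ => by simpa using ht k
    obtain ⟨Φ, hΦ⟩ := exists_coord hm hu' (τ := ∏ k, t k) (fun k => by
      obtain ⟨r, hr⟩ := Finset.dvd_prod_of_mem t (Finset.mem_univ k)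
      exact ⟨r * c₁ k, r * c₂ k, by rw [hr, mul_comm, mul_smul, hc, smul_add, mul_smul,
        mul_smul]⟩)
    have h1 : dt (Φ u₁) (Φ u₂) ≠ 0 := by
      obtain ⟨a1, a2⟩ := hu' ((Φ u₁).1 - ∏ k, t k) (Φ u₁).2
        (by rw [sub_smul, hΦ u₁]; abel)
      obtain ⟨b1, b2⟩ := hu' (Φ u₂).1 ((Φ u₂).2 - ∏ k, t k)
        (by rw [sub_smul, hΦ u₂]; abel)
      rw [dt, a2, sub_eq_zero.mp a1, sub_eq_zero.mp b2, zero_mul, sub_zero]
      exact mul_ne_zero hτ hτ
    obtain ⟨i₀, j₀, h2⟩ : ∃ i₀ j₀, dt (Φ (m i₀)) (Φ (m j₀)) ≠ 0 := by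
      by_contra hcon
      push Not at hcon
      exact h1 (by simpa using dt_span hm Φ ⊥ (by simpa using hcon) u₁ u₂)
    refine ⟨i₀, j₀, fun c₁ c₂ hc => ?_, fun k => ?_⟩
    · have e := congrArg Φ hc
      simp only [map_add, map_smul, map_zero, Prod.ext_iff, Prod.fst_add, Prod.snd_add,
        Prod.smul_fst, Prod.smul_snd, smul_eq_mul, Prod.fst_zero, Prod.snd_zero] at e
      constructor
      · apply mul_right_cancel₀ h2
        unfold dt
        linear_combination (Φ (m j₀)).2 * e.1 - (Φ (m j₀)).1 * e.2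
      · apply mul_right_cancel₀ h2
        unfold dt
        linear_combination (Φ (m i₀)).1 * e.2 - (Φ (m i₀)).2 * e.1
    · refine ⟨dt (Φ (m i₀)) (Φ (m j₀)) * ∏ k, t k, dt (Φ (m k)) (Φ (m j₀)) * ∏ k, t k,
        dt (Φ (m i₀)) (Φ (m k)) * ∏ k, t k, mul_ne_zero h2 hτ, ?_⟩
      rw [mul_smul, mul_smul, mul_smul, hΦ (m k), hΦ (m i₀), hΦ (m j₀)]
      unfold dt
      module
  -- homogeneous relations
  have hspan' : ∀ k, ∃ (t A B : Pol σ) (e : Γ), t ≠ 0 ∧ t • m k = A • m i₀ + B • m j₀ ∧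
      IsWeightedHomogeneous w t e ∧ IsWeightedHomogeneous w A (e + γ k - γ i₀) ∧
      IsWeightedHomogeneous w B (e + γ k - γ j₀) := by
    intro k
    obtain ⟨t, A, B, ht, hrel⟩ := hspan k
    obtain ⟨d, hd⟩ := exists_coeff_ne_zero ht
    have h1 := hgr (fun j => (if j = k then t else 0) - (if j = i₀ then A else 0) -
      (if j = j₀ then B else 0)) (by
        simp only [sub_smul, Finset.sum_sub_distrib, ite_smul, zero_smul, Finset.sum_ite_eq',
          Finset.mem_univ, if_true, hrel]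
        abel) (weight w d + γ k)
    simp only [map_sub, apply_ite (weightedHomogeneousComponent w _), map_zero, sub_smul,
      Finset.sum_sub_distrib, ite_smul, zero_smul, Finset.sum_ite_eq', Finset.mem_univ,
      if_true, add_sub_cancel_right] at h1
    refine ⟨weightedHomogeneousComponent w (weight w d) t, _, _, weight w d, fun h0 => hd ?_,
      by rw [← sub_eq_zero, ← h1]; abel,
      weightedHomogeneousComponent_isWeightedHomogeneous _ _,
      weightedHomogeneousComponent_isWeightedHomogeneous _ _,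
      weightedHomogeneousComponent_isWeightedHomogeneous _ _⟩
    have := coeff_weightedHomogeneousComponent (w := w) (weight w d) t d
    rw [h0, if_pos rfl, coeff_zero] at this
    exact this.symm
  choose t A B e ht hrel hte hA hB using hspan'
  have hτ : ∏ k, t k ≠ 0 := Finset.prod_ne_zero_iff.mpr fun k _ => ht k
  have hτh : IsWeightedHomogeneous w (∏ k, t k) (∑ k, e k) :=
    IsWeightedHomogeneous.prod _ _ _ fun k _ => hte k
  set τ := ∏ k, t k with hτd
  set E := ∑ k, e k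
  obtain ⟨Φ, hΦ⟩ := exists_coord hm hind (τ := τ) (fun k => by
    obtain ⟨r, hr⟩ := Finset.dvd_prod_of_mem t (Finset.mem_univ k)
    exact ⟨r * A k, r * B k, by rw [hτd, hr, mul_comm, mul_smul, hrel, smul_add, mul_smul,
      mul_smul]⟩)
  have hΦh : ∀ k, IsWeightedHomogeneous w (Φ (m k)).1 (E + γ k - γ i₀) ∧
      IsWeightedHomogeneous w (Φ (m k)).2 (E + γ k - γ j₀) := by
    intro k
    obtain ⟨a1, a2⟩ := hind (t k * (Φ (m k)).1 - τ * A k) (t k * (Φ (m k)).2 - τ * B k) (by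
      have e1 := congrArg (t k • ·) (hΦ (m k))
      have e2 := congrArg (τ • ·) (hrel k)
      linear_combination (norm := module) e2 - e1)
    constructor
    · refine hom_of_mul (hte k) (ht k) ?_
      rw [sub_eq_zero.mp a1]
      exact hom_congr (hτh.mul (hA k)) (by abel)
    · refine hom_of_mul (hte k) (ht k) ?_
      rw [sub_eq_zero.mp a2]
      exact hom_congr (hτh.mul (hB k)) (by abel)
  have h₀ : dt (Φ (m i₀)) (Φ (m j₀)) ≠ 0 := by
    obtain ⟨a1, a2⟩ := hind ((Φ (m i₀)).1 - τ) (Φ (m i₀)).2 (by rw [sub_smul, hΦ (m i₀)]; abel)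
    obtain ⟨b1, b2⟩ := hind (Φ (m j₀)).1 ((Φ (m j₀)).2 - τ) (by rw [sub_smul, hΦ (m j₀)]; abel)
    rw [dt, a2, sub_eq_zero.mp a1, sub_eq_zero.mp b2, zero_mul, sub_zero]
    exact mul_ne_zero hτ hτ
  obtain ⟨δ, ω, c, hδ, hω, hprim, -, hωh⟩ := exists_prim_hom hΓ (w := w)
    (fun kl : ι × ι => dt (Φ (m kl.1)) (Φ (m kl.2)))
    (fun kl => γ kl.1 + γ kl.2 - (γ i₀ + γ j₀ - E - E))
    (fun kl => (hom_congr ((hΦh kl.1).1.mul (hΦh kl.2).2) (by abel)).sub
      (hom_congr ((hΦh kl.1).2.mul (hΦh kl.2).1) (by abel))) ⟨(i₀, j₀), h₀⟩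
  have hω' : ∀ k l, δ * ω (k, l) = dt (Φ (m k)) (Φ (m l)) := fun k l => (hω (k, l)).symm
  have hLF : ∀ p : Ideal (Pol σ), p.IsPrime → ∀ s, X s ∉ p → ∃ i j, ω (i, j) ∉ p := by
    intro p hp s hs
    by_contra hcon
    push Not at hcon
    obtain ⟨u₁, u₂, hu, -⟩ := hloc p ⟨s, hs⟩
    obtain ⟨G, hGp, hG⟩ : ∃ G ∈ p, dt (Φ u₁) (Φ u₂) = δ * G := by
      have := dt_span hm Φ (Ideal.span {δ} * p) (fun k l => by
        rw [← hω']
        exact Ideal.mul_mem_mul (Ideal.mem_span_singleton_self δ) (hcon k l)) u₁ u₂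
      obtain ⟨G, hG, h1⟩ := Ideal.mem_span_singleton_mul.mp this
      exact ⟨G, hG, h1.symm⟩
    choose t c₁ c₂ htp hc using fun k => hu (m k)
    have key : ∀ k l, t k * t l * ω (k, l) = (c₁ k * c₂ l - c₂ k * c₁ l) * G := by
      intro k l
      apply mul_left_cancel₀ hδ
      have ek := congrArg Φ (hc k)
      have el := congrArg Φ (hc l)
      simp only [map_add, map_smul, Prod.ext_iff, Prod.fst_add, Prod.snd_add,
        Prod.smul_fst, Prod.smul_snd, smul_eq_mul] at ek el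
      have e1 := hω' k l
      unfold dt at e1 hG
      linear_combination t k * t l * e1 + (t l * (Φ (m l)).2) * ek.1 - (t l * (Φ (m l)).1) * ek.2
        + (c₁ k * (Φ u₁).1 + c₂ k * (Φ u₂).1) * el.2 - (c₁ k * (Φ u₁).2 + c₂ k * (Φ u₂).2) * el.1
        + (c₁ k * c₂ l - c₂ k * c₁ l) * hG
    have hne : ∀ k, t k ≠ 0 := fun k h => htp k (h ▸ p.zero_mem)
    have hG0 : G ≠ 0 := by
      intro h0
      have h1 := key i₀ j₀
      rw [h0, mul_zero] at h1
      apply h₀
      rw [← hω', (mul_eq_zero.mp h1).resolve_left (mul_ne_zero (hne _) (hne _)), mul_zero]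
    obtain ⟨π, hπ, hπp, hπG⟩ : ∃ π : Pol σ, Prime π ∧ π ∈ p ∧ π ∣ G := by
      obtain ⟨f, hf, hfG⟩ := UniqueFactorizationMonoid.exists_prime_factors G hG0
      have h1 : f.prod ∈ p := p.mem_of_dvd hfG.symm.dvd hGp
      obtain ⟨π, hπf, hπp⟩ := (hp.multiset_prod_mem_iff_exists_mem f).mp h1
      exact ⟨π, hf π hπf, hπp, (Multiset.dvd_prod hπf).trans hfG.dvd⟩
    refine hπ.not_isUnit (hprim π fun kl => ?_)
    have h1 : π ∣ t kl.1 * t kl.2 * ω (kl.1, kl.2) := by
      rw [key]; exact hπG.mul_left _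
    rcases hπ.dvd_or_dvd h1 with h2 | h2
    · rcases hπ.dvd_or_dvd h2 with h3 | h3
      · exact absurd (p.mem_of_dvd h3 hπp) (htp _)
      · exact absurd (p.mem_of_dvd h3 hπp) (htp _)
    · exact h2
  let T : Plu σ Γ ι :=
    { w := w, ω := fun k l => ω (k, l), γ := γ, g₀ := γ i₀ + γ j₀ - E - E + c
      hom := fun k l => hom_congr (hωh (k, l)) (by simp only; abel)
      skew := fun k l => mul_left_cancel₀ hδ (by rw [mul_neg, hω', hω']; unfold dt; ring)
      pl := fun i j k l => mul_left_cancel₀ (mul_ne_zero hδ hδ) (by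
        have e : ∀ a b : Pol σ, δ * δ * (a * b) = (δ * a) * (δ * b) := fun a b => by ring
        rw [mul_add, mul_sub, e, e, e, hω', hω', hω', hω', hω', hω']
        unfold dt; ring)
      LF := hLF }
  refine ⟨T, rfl, rfl, fun f hf l => mul_left_cancel₀ hδ ?_, fun i j k => ⟨τ * δ,
    mul_ne_zero hτ hδ, ?_⟩, ?_⟩
  · have e := congrArg Φ hf
    simp only [map_sum, map_smul, map_zero, Prod.ext_iff, Prod.fst_sum, Prod.snd_sum,
      Prod.smul_fst, Prod.smul_snd, smul_eq_mul, Prod.fst_zero, Prod.snd_zero] at e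
    have e1 : δ * ∑ j, f j * T.ω j l = (∑ j, f j * (Φ (m j)).1) * (Φ (m l)).2 -
        (∑ j, f j * (Φ (m j)).2) * (Φ (m l)).1 := by
      simp only [Finset.mul_sum, Finset.sum_mul, ← Finset.sum_sub_distrib]
      refine Finset.sum_congr rfl fun j _ => ?_
      have := hω' j l
      unfold dt at this
      change δ * (f j * ω (j, l)) = _
      linear_combination f j * this
    rw [e1, e.1, e.2]; simp
  · have e : Φ (δ • (T.ω i j • m k - T.ω i k • m j + T.ω j k • m i)) = 0 := by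
      change Φ (δ • (ω (i, j) • m k - ω (i, k) • m j + ω (j, k) • m i)) = 0
      simp only [smul_add, smul_sub, smul_smul, hω', map_add, map_sub, map_smul]
      unfold dt
      refine Prod.ext ?_ ?_ <;> simp <;> ring
    rw [mul_smul, hΦ, e]
    simp
  rintro ⟨n₁, n₂, α, β, hn₁, hn₂, hn⟩
  have hn' : ∀ i j, ω (i, j) = n₁ i * n₂ j - n₁ j * n₂ i := hn
  have hlin : ∀ n : ι → Pol σ, (∀ i j k, ω (i, j) * n k - ω (i, k) * n j + ω (j, k) * n i = 0) →
      ∃ L : M →ₗ[Pol σ] Pol σ, ∀ j, L (m j) = n j := by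
    intro n hn
    let W : Pol σ × Pol σ := n i₀ • Φ (m j₀) - n j₀ • Φ (m i₀)
    let L₀ : M →ₗ[Pol σ] Pol σ :=
      (W.2 • LinearMap.fst _ _ _ - W.1 • LinearMap.snd _ _ _) ∘ₗ Φ
    have hL₀ : ∀ j, L₀ (m j) = n j * dt (Φ (m i₀)) (Φ (m j₀)) := by
      intro j
      have e1 := hω' j i₀
      have e2 := hω' j j₀
      have e3 := hω' i₀ j₀
      unfold dt at e1 e2 e3 ⊢
      simp only [L₀, W, LinearMap.comp_apply, LinearMap.sub_apply, LinearMap.smul_apply,
        LinearMap.fst_apply, LinearMap.snd_apply, smul_eq_mul, Prod.fst_sub, Prod.snd_sub,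
        Prod.smul_fst, Prod.smul_snd]
      linear_combination n j₀ * e1 - n i₀ * e2 + n j * e3 - δ * hn j i₀ j₀
    obtain ⟨L, hL⟩ := exists_factor hm
      (LinearMap.toSpanSingleton (Pol σ) (Pol σ) (dt (Φ (m i₀)) (Φ (m j₀))))
      (fun a b hab => mul_right_cancel₀ h₀ (by simpa using hab)) L₀
      (fun j => ⟨n j, by simp [hL₀]⟩)
    refine ⟨L, fun j => mul_right_cancel₀ h₀ ?_⟩
    rw [← hL₀, ← hL]; simp
  obtain ⟨L₁, hL₁⟩ := hlin n₁ (fun i j k => by rw [hn', hn', hn']; ring)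
  obtain ⟨L₂, hL₂⟩ := hlin n₂ (fun i j k => by rw [hn', hn', hn']; ring)
  refine ⟨α, β, L₁.prod L₂, fun j => ?_, fun p hp => ?_⟩
  · simp only [LinearMap.prod_apply, Function.prod, hL₁, hL₂]
    exact ⟨hn₁ j, hn₂ j⟩
  · obtain ⟨u₁, u₂, hu, -⟩ := hloc p.asIdeal hp
    obtain ⟨s, hs⟩ := hp
    obtain ⟨k, l, hkl⟩ := hLF p.asIdeal p.isPrime s hs
    refine bijective_of_det p.asIdeal _ hu (a := m k) (b := m l) ?_
    rw [hn'] at hkl
    simp only [dt, LinearMap.prod_apply, Function.prod, hL₁, hL₂]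
    rwa [mul_comm (n₂ k)]

theorem split_module [Fintype σ] [Fintype ι] (hcard : 5 ≤ Fintype.card σ)
    (hΓ : ∀ γ γ' : Γ, (∀ φ : Γ →+ ℤ, φ γ = φ γ') → γ = γ') (w : σ → Γ) {x y s : σ}
    (hw : w x ≠ w y) (deg : Γ →+ ℤ) (hdeg : ∀ i, deg (w i) = 1) {lam : Γ →+ ℤ}
    (h : ∀ i, 0 ≤ lam (w i)) (hx : lam (w x) = 0) (hy : lam (w y) = 0) (hs : lam (w s) ≠ 0)
    (m : ι → M) (hm : Submodule.span (Pol σ) (Set.range m) = ⊤) (γ : ι → Γ)
    (hgr : ∀ f : ι → Pol σ, ∑ j, f j • m j = 0 →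
      ∀ c, ∑ j, weightedHomogeneousComponent w (c - γ j) (f j) • m j = 0)
    (hfree : ∀ p : PrimeSpectrum (Pol σ), (∃ i, X i ∉ p.asIdeal) →
      Module.Free (Localization.AtPrime p.asIdeal) (LocalizedModule p.asIdeal.primeCompl M) ∧
      Module.finrank (Localization.AtPrime p.asIdeal)
        (LocalizedModule p.asIdeal.primeCompl M) = 2) :
    ∃ (α β : Γ) (φ : M →ₗ[Pol σ] Pol σ × Pol σ),
      (∀ j, IsWeightedHomogeneous w (φ (m j)).1 (γ j + α) ∧
        IsWeightedHomogeneous w (φ (m j)).2 (γ j + β)) ∧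
      ∀ p : PrimeSpectrum (Pol σ), (∃ i, X i ∉ p.asIdeal) →
        Function.Bijective (LocalizedModule.map p.asIdeal.primeCompl φ) := by
  obtain ⟨T, rfl, rfl, -, -, hT⟩ := module_plu hΓ w x m hm γ hgr hfree
  exact hT (T.split hcard hΓ hw deg hdeg h hx hy hs)

end Pool.Agent.P.MP_b01859_ag
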