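import Pool.Agent.P.MP_b01859_ag.Vb

/-!
Endomorphisms of the bundle and the Lie algebra of symmetries.
-/

namespace Pool.Agent.P.MP_b01859_ag

open MvPolynomial Finsupp

variable {σ : Type} {Γ : Type} [AddCommGroup Γ] {ι : Type} [Fintype ι]

lemma Dv_comm {V : Type} [AddCommGroup V] [Module ℂ V] {F F' F'' : Module.End ℂ V}
    (h : ∀ v, F (F' v) - F' (F v) = F'' v) (a a' : Matrix ι ι ℂ) (φ : ι → V) :
    Dv F a (Dv F' a' φ) - Dv F' a' (Dv F a φ) = Dv F'' (a' * a - a * a') φ := by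
  funext i
  have e1 := congrFun (LinearMap.congr_fun (mv_mul (V := V) a a') φ) i
  have e2 := congrFun (LinearMap.congr_fun (mv_mul (V := V) a' a) φ) i
  simp only [Module.End.mul_apply, mv_apply] at e1 e2
  simp only [Pi.sub_apply, Dv_apply, map_sub, map_sum, map_smul, smul_sub, Finset.sum_sub_distrib,
    Matrix.sub_apply, sub_smul, e1, e2, ← h]
  abel

namespace VB

variable {T : VB σ ι} {δ δ' δ'' : Dr σ} {a a' c : Matrix ι ι ℂ}

lemma sym_iff : T.Sym δ a ↔ Dv (Dv (δ : Module.End ℂ (Pol σ)) a) a T.ω = 0 := by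
  constructor
  · intro h
    funext i j
    simp [Dv_apply, h i j]
  · intro h i j
    have := congrFun (congrFun h i) j
    simp only [Dv_apply, Pi.sub_apply, Finset.sum_apply, Pi.smul_apply, Pi.zero_apply,
      Derivation.coeFn_coe] at this
    linear_combination this

lemma Sym.bracket (h : T.Sym δ a) (h' : T.Sym δ' a') (e : ∀ f, δ (δ' f) - δ' (δ f) = δ'' f) :
    T.Sym δ'' (a' * a - a * a') := by
  rw [sym_iff] at h h' ⊢
  rw [← Dv_comm (Dv_comm e a a') a a', h, h', map_zero, map_zero, sub_zero]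

lemma D_comm (h : T.Sym δ a) (h' : T.Sym δ' a') (e : ∀ f, δ (δ' f) - δ' (δ f) = δ'' f)
    (h'' : T.Sym δ'' (a' * a - a * a')) (φ : T.N) :
    D h (D h' φ) - D h' (D h φ) = D h'' φ :=
  Subtype.ext (Dv_comm e a a' φ.1)

lemma Sym.add (h : T.Sym δ a) (h' : T.Sym δ' a') : T.Sym (δ + δ') (a + a') := by
  intro i j
  simp only [Derivation.add_apply, h i j, h' i j, Matrix.add_apply, add_smul,
    Finset.sum_add_distrib]
  abel

lemma Sym.smul (h : T.Sym δ a) (r : ℂ) : T.Sym (r • δ) (r • a) := by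
  intro i j
  simp only [Derivation.smul_apply, h i j, Matrix.smul_apply, smul_eq_mul, mul_smul, smul_add,
    Finset.smul_sum]

lemma sym_diag [Fintype σ] [DecidableEq σ] [DecidableEq ι] {α : σ → ℂ} {β : ι → ℂ}
    (h : Gr α β 0 T.ω) : T.Sym (der (Matrix.diagonal α)) (Matrix.diagonal β) := by
  intro i j
  rw [der_diag_of_hom (h i j)]
  simp [Matrix.diagonal_apply, smul_eq_C_mul, add_mul]

section nu

variable [Finite σ] [Nontrivial σ]

omit [Finite σ] [Nontrivial σ] in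
lemma nu_smul (h : T.Sym 0 c) (f : Pol σ) (φ : T.N) : D h (f • φ) = f • D h φ := by
  rw [D_smul]; simp

lemma nu_skew (h : T.Sym 0 c) (φ ψ : T.N) : T.B (D h φ) ψ = - T.B φ (D h ψ) := by
  have := D_B h φ ψ
  simp only [Derivation.zero_apply] at this
  linear_combination -this

omit [Finite σ] [Nontrivial σ] in
lemma nu_row (h : T.Sym 0 c) (φ : T.N) (i j : ι) :
    T.ω i j • D h φ = φ.1 j • D h (T.row i) - φ.1 i • D h (T.row j) := by
  rw [← nu_smul, T.ω_smul, map_sub, nu_smul, nu_smul]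

lemma nu_det (h : T.Sym 0 c) : ∃ Δ, ∀ φ ψ, T.B (D h φ) (D h ψ) = Δ * T.B φ ψ := by
  obtain ⟨Δ, hΔ⟩ := alt_prop (T := T) (ω' := fun i j => T.B (D h (T.row i)) (D h (T.row j)))
    (fun i j => T.B_swap _ _) (fun t i j k => by
      have := congrArg (T.B (D h (T.row t))) (nu_row h (T.row k) i j)
      simp only [map_smul, map_sub, smul_eq_mul, row_val, T.skew j k, T.skew i k] at this
      linear_combination this)
  refine ⟨Δ, fun φ ψ => ?_⟩
  obtain ⟨i, j, hij⟩ := T.exists_ne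
  apply mul_left_cancel₀ (mul_ne_zero hij hij)
  have e : T.B (T.ω i j • D h φ) (T.ω i j • D h ψ) = T.ω i j * T.ω i j * T.B (D h φ) (D h ψ) := by
    simp only [map_smul, LinearMap.smul_apply, smul_eq_mul]; ring
  rw [← e, nu_row, nu_row]
  simp only [map_sub, map_smul, LinearMap.sub_apply, LinearMap.smul_apply, smul_eq_mul, hΔ,
    T.skew i j, T.diag]
  linear_combination -Δ * T.ω i j * T.B_spec φ ψ i j

lemma nu_sq (h : T.Sym 0 c) {Δ : Pol σ} (hΔ : ∀ φ ψ, T.B (D h φ) (D h ψ) = Δ * T.B φ ψ)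
    (φ : T.N) : D h (D h φ) = (-Δ) • φ := by
  rw [← sub_eq_zero]
  refine eq_zero_of_B fun ψ => ?_
  simp only [map_sub, map_smul, LinearMap.sub_apply, LinearMap.smul_apply, smul_eq_mul]
  rw [nu_skew, hΔ]; ring

lemma iso_of_LN (h : T.Sym 0 c) (hL : LN (D h)) (φ ψ : T.N) : T.B (D h φ) (D h ψ) = 0 := by
  obtain ⟨Δ, hΔ⟩ := nu_det h
  obtain ⟨i, j, hij⟩ := T.exists_ne
  obtain ⟨k, hk⟩ := hL (T.row i)
  have h1 : ∀ l : ℕ, (D h ^ (2 * l)) (T.row i) = (-Δ) ^ l • T.row i := by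
    intro l
    induction l with
    | zero => simp
    | succ l ih =>
      rw [mul_add, mul_one, add_comm, pow_add, Module.End.mul_apply, ih, pow_two,
        Module.End.mul_apply, nu_sq h hΔ, smul_smul, pow_succ']
  have h2 := h1 k
  rw [pow_apply_of_le hk (by omega)] at h2
  have h3 : T.row i ≠ 0 := fun h0 => hij (by rw [← row_val, h0]; rfl)
  have h4 := pow_eq_zero_iff'.mp ((smul_eq_zero.mp h2.symm).resolve_right h3)
  rw [hΔ, neg_eq_zero.mp h4.1, zero_mul]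

variable {γ : ι → ℤ} {g : ℤ}

omit [Nontrivial σ] in
lemma nu_hom (h : T.Sym 0 c) (hc : ∀ i j, c i j ≠ 0 → γ j = γ i) {φ : T.N} {α : ℤ}
    (hφ : HomN (fun _ => 1) γ φ α) : HomN (fun _ => 1) γ (D h φ) α := by
  have := Fintype.ofFinite σ
  simpa using D_hom h (μ := 0) (fun i => by simpa using isWeightedHomogeneous_zero ℂ _ _)
    (by simpa using hc) hφ

lemma sp_or_iso (hG : Gr (fun _ => 1) γ g T.ω) (h : T.Sym 0 c)
    (hc : ∀ i j, c i j ≠ 0 → γ j = γ i) : Sp T.ω ∨ ∀ φ ψ, T.B (D h φ) (D h ψ) = 0 := by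
  obtain ⟨Δ, hΔ⟩ := nu_det h
  by_cases h0 : Δ = 0
  · right; intro φ ψ; rw [hΔ, h0, zero_mul]
  left
  obtain ⟨i, j, hij⟩ := T.exists_ne
  have h1 := B_hom hG (nu_hom h hc (row_hom hG i)) (nu_hom h hc (row_hom hG j))
  rw [hΔ, B_row_row, mul_comm] at h1
  have h2 : Hom Δ 0 := hom_congr (hom_of_mul' (hG i j) hij h1) (by ring)
  obtain ⟨l, hl⟩ := IsAlgClosed.exists_eq_mul_self (-coeff 0 Δ)
  have hl0 : l ≠ 0 := by
    rintro rfl
    apply h0
    rw [h2.eq_C, show coeff 0 Δ = 0 by simpa using hl, C_0]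
  have h3 : Δ = -C l * C l := by rw [h2.eq_C, neg_mul, ← C_mul, ← hl, C_neg, neg_neg]
  have h4 : (C (2 * l)⁻¹ : Pol σ) * (2 * C l) = 1 := by
    rw [show (2 : Pol σ) = C 2 from rfl, ← C_mul, ← C_mul, inv_mul_cancel₀ (by simpa), C_1]
  refine sp_of_two (fun t => (C (2 * l)⁻¹ : Pol σ) • ((C l : Pol σ) • T.row t + D h (T.row t)))
    (fun t => (C (2 * l)⁻¹ : Pol σ) • ((C l : Pol σ) • T.row t - D h (T.row t)))
    (fun t => ?_) (fun s t => ?_) (fun s t => ?_)
  · rw [← smul_add, add_add_sub_cancel, ← add_smul, smul_smul, ← two_mul, h4, one_smul]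
  · simp only [map_add, map_smul, LinearMap.add_apply, LinearMap.smul_apply, smul_eq_mul, hΔ, h3,
      nu_skew h (T.row s) (T.row t)]
    ring
  · simp only [map_sub, map_smul, LinearMap.sub_apply, LinearMap.smul_apply, smul_eq_mul, hΔ, h3,
      nu_skew h (T.row s) (T.row t)]
    ring

lemma nil_struct (hG : Gr (fun _ => 1) γ g T.ω) (h : T.Sym 0 c)
    (hc : ∀ i j, c i j ≠ 0 → γ j = γ i) (hiso : ∀ φ ψ, T.B (D h φ) (D h ψ) = 0)
    (hne : ∃ φ, D h φ ≠ 0) :
    ∃ (q : T.N) (w : Pol σ) (α : ℤ), Prim q.1 ∧ HomN (fun _ => 1) γ q α ∧ w ≠ 0 ∧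
      Hom w (-g - 2 * α) ∧ ∀ φ, D h φ = (w * T.B q φ) • q := by
  obtain ⟨t, ht⟩ : ∃ t, D h (T.row t) ≠ 0 := by
    by_contra hcon
    push Not at hcon
    obtain ⟨φ, hφ⟩ := hne
    obtain ⟨i, j, hij⟩ := T.exists_ne
    exact hφ (smul_eq_zero' hij (by rw [nu_row, hcon, hcon]; simp))
  obtain ⟨f, q, α, hf, hq, hp, hqh⟩ := exists_prim_hom ht (nu_hom h hc (row_hom hG t))
  have hq0 := ne_zero_of_prim hp
  have h1 : ∀ φ, ∃ l : Pol σ, D h φ = l • q := fun φ => eq_smul_of_B hp (by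
    have := hiso (T.row t) φ
    rw [hq, map_smul, LinearMap.smul_apply, smul_eq_mul] at this
    exact (mul_eq_zero.mp this).resolve_left hf)
  choose l hl using h1
  have h2 : ∀ φ ψ, l φ * T.B q ψ = l ψ * T.B q φ := by
    intro φ ψ
    have := nu_skew h φ ψ
    rw [hl, hl] at this
    simp only [map_smul, LinearMap.smul_apply, smul_eq_mul, T.B_swap q φ] at this
    linear_combination this
  obtain ⟨u, hu⟩ := hp.exists_ne
  obtain ⟨w, hw⟩ := hp.dvd_of hu (a := l (T.row u)) fun i => ⟨l (T.row i), by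
    have := h2 (T.row u) (T.row i)
    rw [B_row, B_row] at this
    linear_combination this⟩
  have h3 : ∀ φ, D h φ = (w * T.B q φ) • q := by
    intro φ
    rw [hl]
    congr 1
    apply mul_left_cancel₀ hu
    have := h2 φ (T.row u)
    rw [B_row, hw] at this
    linear_combination this
  have hw0 : w ≠ 0 := by
    rintro rfl
    exact ht (by rw [h3]; simp)
  refine ⟨q, w, α, hp, hqh, hw0, ?_, h3⟩
  have h4 := nu_hom h hc (row_hom hG u)
  rw [h3, B_row] at h4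
  have h5 := hqh.coef hq0 h4
  rw [mul_comm] at h5
  exact hom_congr (hom_of_mul' (hqh u) hu h5) (by ring)

end nu

lemma comp_ker [Fintype σ] (h : T.Sym δ a) {w : σ → Γ} {γ : ι → Γ} {g : Γ} (hG : Gr w γ g T.ω)
    (hδ : ∀ i, IsWeightedHomogeneous w (δ (X i)) (w i)) (ha : ∀ i j, a i j ≠ 0 → γ j = γ i)
    {φ : T.N} (h0 : D h φ = 0) :
    φ ∈ Submodule.span (Pol σ) {k : T.N | D h k = 0 ∧ ∃ α, HomN w γ k α} := by
  obtain ⟨S, hS⟩ := exists_sum_comp hG φ
  rw [hS]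
  refine Submodule.sum_mem _ fun β hβ => Submodule.subset_span ⟨?_, β, comp_hom hG β φ⟩
  rw [hS, map_sum] at h0
  refine hom_sum_eq_zero (w := w) (γ := γ) (fun α => ?_) h0 hβ
  simpa using D_hom h (μ := 0) (by simpa using hδ) (by simpa using ha) (comp_hom hG α φ)

end VB

end Pool.Agent.P.MP_b01859_ag
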