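import Pool.Agent.P.MP_b01859_ag.Core4

/-!
Skew matrices of rank two with homogeneous entries and no common zero.
-/

namespace Pool.Agent.P.MP_b01859_ag

open MvPolynomial Finsupp

variable {σ : Type} {Γ : Type} [AddCommGroup Γ] {ι : Type}

lemma sum_comp (w : σ → Γ) (f : Pol σ) (c : Γ) {S : Finset Γ}
    (hS : ∀ d, coeff d f ≠ 0 → weight w d - c ∈ S) :
    f = ∑ α ∈ S, weightedHomogeneousComponent w (c + α) f := by
  classical
  ext d
  rw [coeff_sum]
  simp only [coeff_weightedHomogeneousComponent]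
  by_cases h : coeff d f = 0
  · simp [h]
  · rw [Finset.sum_eq_single (weight w d - c)]
    · simp
    · intro α _ hα
      rw [if_neg]
      intro h1
      exact hα (by rw [h1]; abel)
    · intro h1
      exact absurd (hS d h) h1

section level

variable {w : σ → Γ} {lam : Γ →+ ℤ}

lemma lam_weight (w : σ → Γ) (lam : Γ →+ ℤ) (d : σ →₀ ℕ) :
    lam (weight w d) = ∑ i ∈ d.support, (d i : ℤ) * lam (w i) := by
  rw [weight_eq_sum w (F := d.support) (fun i hi => Finsupp.mem_support_iff.mpr hi), map_sum]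
  simp

lemma lam_weight_nonneg (h : ∀ i, 0 ≤ lam (w i)) (d : σ →₀ ℕ) : 0 ≤ lam (weight w d) := by
  rw [lam_weight]
  exact Finset.sum_nonneg fun i _ => mul_nonneg (by positivity) (h i)

lemma lam_weight_eq_zero_iff (h : ∀ i, 0 ≤ lam (w i)) (d : σ →₀ ℕ) :
    lam (weight w d) = 0 ↔ ∀ i, d i ≠ 0 → lam (w i) = 0 := by
  rw [lam_weight, Finset.sum_eq_zero_iff_of_nonneg
    (fun i _ => mul_nonneg (by positivity) (h i))]
  constructor
  · intro h1 i hi
    exact (mul_eq_zero.mp (h1 i (Finsupp.mem_support_iff.mpr hi))).resolve_left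
      (by exact_mod_cast hi)
  · intro h1 i hi
    rw [h1 i (Finsupp.mem_support_iff.mp hi), mul_zero]

lemma hom_neg (h : ∀ i, 0 ≤ lam (w i)) {f : Pol σ} {γ : Γ} (hf : IsWeightedHomogeneous w f γ)
    (hγ : lam γ < 0) : f = 0 := by
  by_contra h0
  obtain ⟨d, hd⟩ := exists_coeff_ne_zero h0
  have := lam_weight_nonneg h d
  rw [hf hd] at this
  omega

lemma hom_zero (h : ∀ i, 0 ≤ lam (w i)) {f : Pol σ} {γ : Γ} (hf : IsWeightedHomogeneous w f γ)
    (hγ : lam γ = 0) : kl {i | lam (w i) = 0} f = f :=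
  kl_eq_self fun d hd => (lam_weight_eq_zero_iff h d).mp (by rw [hf hd, hγ])

lemma lam_of_kl (h : ∀ i, 0 ≤ lam (w i)) {f : Pol σ} {γ : Γ} (hf : IsWeightedHomogeneous w f γ)
    (h0 : kl {i | lam (w i) = 0} f ≠ 0) : lam γ = 0 := by
  obtain ⟨d, hd, hc⟩ := exists_of_kl_ne_zero h0
  rw [← hf hc]
  exact (lam_weight_eq_zero_iff h d).mpr hd

end level

lemma prim_of_primes [Finite σ] {κ : Type} {g : κ → Pol σ} {x y : σ} (hxy : x ≠ y)
    (h : ∀ p : Ideal (Pol σ), p.IsPrime → (X x ∉ p ∨ X y ∉ p) → ∃ i, g i ∉ p) : Prim g := by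
  intro c hc
  by_contra hu
  have hc0 : c ≠ 0 := by
    rintro rfl
    obtain ⟨i, hi⟩ := h ⊥ Ideal.isPrime_bot (Or.inl (by simp))
    exact hi (by simpa using hc i)
  obtain ⟨π, hπ, hπc⟩ := WfDvdMonoid.exists_irreducible_factor hu hc0
  have hp : Prime π := hπ.prime
  obtain ⟨i, hi⟩ := h (Ideal.span {π}) ((Ideal.span_singleton_prime hp.ne_zero).mpr hp) (by
    by_contra hcon
    push Not at hcon
    rw [Ideal.mem_span_singleton, Ideal.mem_span_singleton] at hcon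
    have h1 := (hπ.associated_of_dvd (X_prime (i := x)).irreducible hcon.1)
    exact not_X_dvd_X hxy (h1.symm.dvd.trans hcon.2))
  exact hi (Ideal.mem_span_singleton.mpr (hπc.trans (hc i)))

/-- Skew matrices of rank two with homogeneous entries without common zero. -/
structure Plu (σ Γ ι : Type) [AddCommGroup Γ] where
  w : σ → Γ
  ω : ι → ι → Pol σ
  γ : ι → Γ
  g₀ : Γ
  hom : ∀ i j, IsWeightedHomogeneous w (ω i j) (γ i + γ j - g₀)
  skew : ∀ i j, ω j i = - ω i j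
  pl : ∀ i j k l, ω i j * ω k l - ω i k * ω j l + ω i l * ω j k = 0
  LF : ∀ p : Ideal (Pol σ), p.IsPrime → ∀ s, X s ∉ p → ∃ i j, ω i j ∉ p

namespace Plu

variable (T : Plu σ Γ ι)

/-- The module of sections. -/
def InN (φ : ι → Pol σ) : Prop := ∀ i j k, T.ω i j * φ k - T.ω i k * φ j + T.ω j k * φ i = 0

/-- The alternating pairing. -/
def IsB (φ ψ : ι → Pol σ) (B : Pol σ) : Prop := ∀ i j, T.ω i j * B = φ i * ψ j - φ j * ψ i

/-- The splitting of the bundle. -/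
def Split : Prop := ∃ (n₁ n₂ : ι → Pol σ) (α β : Γ),
  (∀ j, IsWeightedHomogeneous T.w (n₁ j) (T.γ j + α)) ∧
  (∀ j, IsWeightedHomogeneous T.w (n₂ j) (T.γ j + β)) ∧
  ∀ i j, T.ω i j = n₁ i * n₂ j - n₁ j * n₂ i

lemma row_InN (t : ι) : T.InN (T.ω t) := by
  intro i j k
  linear_combination T.pl t i j k

lemma exists_ne (s : σ) : ∃ i j, T.ω i j ≠ 0 := by
  obtain ⟨i, j, h⟩ := T.LF ⊥ Ideal.isPrime_bot s (by simp)
  exact ⟨i, j, by simpa using h⟩

lemma prim [Finite σ] {x y : σ} (hxy : x ≠ y) : Prim (fun ij : ι × ι => T.ω ij.1 ij.2) := by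
  refine prim_of_primes hxy fun p hp h => ?_
  rcases h with h | h
  · obtain ⟨i, j, h⟩ := T.LF p hp x h
    exact ⟨(i, j), h⟩
  · obtain ⟨i, j, h⟩ := T.LF p hp y h
    exact ⟨(i, j), h⟩

variable {T}

lemma exists_B [Finite σ] {x y : σ} (hxy : x ≠ y) {φ ψ : ι → Pol σ} (hφ : T.InN φ)
    (hψ : T.InN ψ) : ∃ B, T.IsB φ ψ B := by
  have key : ∀ i j k l, T.ω i j * (φ k * ψ l - φ l * ψ k) =
      T.ω k l * (φ i * ψ j - φ j * ψ i) := by
    intro i j k l
    linear_combination ψ l * hφ i j k - ψ k * hφ i j l + φ j * hψ i k l - φ i * hψ j k l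
  obtain ⟨k, l, h⟩ := T.exists_ne x
  obtain ⟨B, hB⟩ := (T.prim hxy).dvd_of h (a := φ k * ψ l - φ l * ψ k)
    (fun ij => ⟨_, key ij.1 ij.2 k l⟩)
  refine ⟨B, fun i j => mul_left_cancel₀ h ?_⟩
  rw [← key, hB]; ring

lemma IsB.hom (s : σ) {φ ψ : ι → Pol σ} {B : Pol σ} (h : T.IsB φ ψ B) {α β : Γ}
    (hφ : ∀ j, IsWeightedHomogeneous T.w (φ j) (T.γ j + α))
    (hψ : ∀ j, IsWeightedHomogeneous T.w (ψ j) (T.γ j + β)) :
    IsWeightedHomogeneous T.w B (α + β + T.g₀) := by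
  obtain ⟨k, l, hkl⟩ := T.exists_ne s
  refine hom_of_mul (T.hom k l) hkl ?_
  rw [h]
  exact (hom_congr ((hφ k).mul (hψ l)) (by abel)).sub (hom_congr ((hφ l).mul (hψ k)) (by abel))

lemma InN.comp {φ : ι → Pol σ} (hφ : T.InN φ) (α : Γ) :
    T.InN (fun j => weightedHomogeneousComponent T.w (T.γ j + α) (φ j)) := by
  intro i j k
  have h := congrArg (weightedHomogeneousComponent T.w (T.γ i + T.γ j + T.γ k - T.g₀ + α))
    (hφ i j k)
  rw [map_add, map_sub, map_zero] at h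
  rw [← comp_mul (T.hom i j), ← comp_mul (T.hom i k), ← comp_mul (T.hom j k), ← h,
    show T.γ i + T.γ j - T.g₀ + (T.γ k + α) = T.γ i + T.γ j + T.γ k - T.g₀ + α by abel,
    show T.γ i + T.γ k - T.g₀ + (T.γ j + α) = T.γ i + T.γ j + T.γ k - T.g₀ + α by abel,
    show T.γ j + T.γ k - T.g₀ + (T.γ i + α) = T.γ i + T.γ j + T.γ k - T.g₀ + α by abel]

lemma rel3 (s₀ : σ) {φ ψ χ : ι → Pol σ} (hφ : T.InN φ) (hψ : T.InN ψ) (hχ : T.InN χ)
    {B₁ B₂ B₃ : Pol σ} (h₁ : T.IsB φ ψ B₁) (h₂ : T.IsB φ χ B₂) (h₃ : T.IsB ψ χ B₃) (t : ι) :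
    B₁ * χ t - B₂ * ψ t + B₃ * φ t = 0 := by
  obtain ⟨i, j, h⟩ := T.exists_ne s₀
  apply mul_left_cancel₀ (mul_ne_zero h h)
  linear_combination T.ω i j * χ t * h₁ i j - T.ω i j * ψ t * h₂ i j + T.ω i j * φ t * h₃ i j
    + (φ i * ψ j - φ j * ψ i) * hχ i j t - (φ i * χ j - φ j * χ i) * hψ i j t
    + (ψ i * χ j - ψ j * χ i) * hφ i j t

lemma rel4 (s₀ : σ) {a b c d : ι → Pol σ} {Bab Bac Bad Bbc Bbd Bcd : Pol σ}
    (h₁ : T.IsB a b Bab) (h₂ : T.IsB a c Bac) (h₃ : T.IsB a d Bad) (h₄ : T.IsB b c Bbc)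
    (h₅ : T.IsB b d Bbd) (h₆ : T.IsB c d Bcd) : Bab * Bcd - Bac * Bbd + Bad * Bbc = 0 := by
  obtain ⟨i, j, h⟩ := T.exists_ne s₀
  apply mul_left_cancel₀ (mul_ne_zero h h)
  have e : ∀ u v : Pol σ, T.ω i j * T.ω i j * (u * v) = (T.ω i j * u) * (T.ω i j * v) := by
    intro u v; ring
  rw [mul_add, mul_sub, e, e, e, h₁, h₂, h₃, h₄, h₅, h₆]
  ring

lemma split_of_const [Finite σ] [Finite ι] {x y : σ} (hxy : x ≠ y) (deg : Γ →+ ℤ)
    (hdeg : ∀ i, deg (T.w i) = 1) {φ ψ : ι → Pol σ} (hφ : T.InN φ) (hψ : T.InN ψ) {B : Pol σ}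
    (hB : T.IsB φ ψ B) (h0 : coeff 0 B ≠ 0) : T.Split := by
  classical
  have := Fintype.ofFinite ι
  set S : Finset Γ := Finset.univ.biUnion fun j =>
    ((φ j).support ∪ (ψ j).support).image fun d => weight T.w d - T.γ j with hS
  have h1 : ∀ j, φ j = ∑ α ∈ S, weightedHomogeneousComponent T.w (T.γ j + α) (φ j) := by
    intro j
    refine sum_comp _ _ _ fun d hd => ?_
    simp only [hS, Finset.mem_biUnion, Finset.mem_univ, true_and, Finset.mem_image,
      Finset.mem_union, MvPolynomial.mem_support_iff]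
    exact ⟨j, d, Or.inl hd, rfl⟩
  have h2 : ∀ j, ψ j = ∑ α ∈ S, weightedHomogeneousComponent T.w (T.γ j + α) (ψ j) := by
    intro j
    refine sum_comp _ _ _ fun d hd => ?_
    simp only [hS, Finset.mem_biUnion, Finset.mem_univ, true_and, Finset.mem_image,
      Finset.mem_union, MvPolynomial.mem_support_iff]
    exact ⟨j, d, Or.inr hd, rfl⟩
  choose Bc hBc using fun α β => exists_B hxy (hφ.comp α) (hψ.comp β)
  have h3 : B = ∑ α ∈ S, ∑ β ∈ S, Bc α β := by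
    obtain ⟨k, l, hkl⟩ := T.exists_ne x
    apply mul_left_cancel₀ hkl
    rw [hB, Finset.mul_sum]
    simp only [Finset.mul_sum, hBc _ _ k l, Finset.sum_sub_distrib]
    rw [← Finset.sum_mul_sum, ← Finset.sum_mul_sum, ← h1, ← h1, ← h2, ← h2]
  rw [h3, coeff_sum] at h0
  obtain ⟨α, -, h4⟩ := Finset.exists_ne_zero_of_sum_ne_zero h0
  rw [coeff_sum] at h4
  obtain ⟨β, -, h5⟩ := Finset.exists_ne_zero_of_sum_ne_zero h4
  have h6 := (hBc α β).hom x (α := α) (β := β)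
    (fun j => weightedHomogeneousComponent_isWeightedHomogeneous _ _)
    (fun j => weightedHomogeneousComponent_isWeightedHomogeneous _ _)
  have h7 : Bc α β = C (coeff 0 (Bc α β)) := by
    rw [← monomial_zero']
    apply eq_monomial_of_support_subset_singleton
    intro d hd
    have e1 := h6 (MvPolynomial.mem_support_iff.mp hd)
    rw [← h6 h5, map_zero] at e1
    have e2 := (lam_weight_eq_zero_iff (w := T.w) (lam := deg) (fun i => by rw [hdeg]; simp) d).mp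
      (by rw [e1, map_zero])
    ext i
    by_contra h
    have := e2 i h
    rw [hdeg] at this
    exact one_ne_zero this
  refine ⟨fun j => C (coeff 0 (Bc α β))⁻¹ * weightedHomogeneousComponent T.w (T.γ j + α) (φ j),
    fun j => weightedHomogeneousComponent T.w (T.γ j + β) (ψ j), α, β,
    fun j => (weightedHomogeneousComponent_isWeightedHomogeneous _ _).C_mul _,
    fun j => weightedHomogeneousComponent_isWeightedHomogeneous _ _, fun i j => ?_⟩
  have h8 := hBc α β i j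
  have h9 : (C (coeff 0 (Bc α β))⁻¹ : Pol σ) * Bc α β = 1 := by
    nth_rewrite 2 [h7]
    rw [← C_mul, inv_mul_cancel₀ h5, C_1]
  linear_combination C (coeff 0 (Bc α β))⁻¹ * h8 - T.ω i j * h9

variable (T)

lemma LF_kl (J : Set σ) (p : Ideal (Pol σ)) (hp : p.IsPrime) {s : σ} (hs : s ∈ J)
    (h : X s ∉ p) : ∃ i j, kl J (T.ω i j) ∉ p :=
  T.LF (p.comap (kl J)) (Ideal.comap_isPrime _ _) s (by
    rw [Ideal.mem_comap, kl_X_mem hs]; exact h)

lemma LF_eval {q : σ → ℂ} (hq : q ≠ 0) : ∃ i j, eval q (T.ω i j) ≠ 0 := by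
  obtain ⟨s, hs⟩ := Function.ne_iff.mp hq
  exact T.LF (RingHom.ker (eval q)) (RingHom.ker_isPrime _) s (by simpa using hs)

lemma levels {lam : Γ →+ ℤ} (h : ∀ i, 0 ≤ lam (T.w i)) {i j k l : ι}
    (h1 : kl {i | lam (T.w i) = 0} (T.ω i j) ≠ 0) (h2 : kl {i | lam (T.w i) = 0} (T.ω k l) ≠ 0) :
    (lam (T.γ k) = lam (T.γ i) ∧ lam (T.γ l) = lam (T.γ j)) ∨
      (lam (T.γ k) = lam (T.γ j) ∧ lam (T.γ l) = lam (T.γ i)) := by
  have e := congrArg (kl {i | lam (T.w i) = 0}) (T.pl i j k l)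
  simp only [map_add, map_sub, map_mul, map_zero] at e
  have f1 := lam_of_kl h (T.hom i j) h1
  have f2 := lam_of_kl h (T.hom k l) h2
  simp only [map_sub, map_add] at f1 f2
  by_cases h3 : kl {i | lam (T.w i) = 0} (T.ω i k) = 0
  · have h4 : kl {i | lam (T.w i) = 0} (T.ω i l) ≠ 0 := by
      intro h4
      rw [h3, h4, zero_mul, zero_mul, sub_zero, add_zero] at e
      exact mul_ne_zero h1 h2 e
    have f3 := lam_of_kl h (T.hom i l) h4
    simp only [map_sub, map_add] at f3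
    left; omega
  · have f3 := lam_of_kl h (T.hom i k) h3
    simp only [map_sub, map_add] at f3
    right; omega

/-- The case of a single weight along the extreme fixed component. -/
lemma split_equal [Finite σ] [Finite ι] {x y : σ} (hxy : x ≠ y) (deg : Γ →+ ℤ)
    (hdeg : ∀ i, deg (T.w i) = 1) {lam : Γ →+ ℤ} (h : ∀ i, 0 ≤ lam (T.w i))
    (hx : lam (T.w x) = 0) (hy : lam (T.w y) = 0) {s : σ} (hs : lam (T.w s) ≠ 0) {i₀ j₀ : ι}
    (h₀ : kl {i | lam (T.w i) = 0} (T.ω i₀ j₀) ≠ 0) (hab : lam (T.γ i₀) = lam (T.γ j₀)) :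
    T.Split := by
  classical
  set J : Set σ := {i | lam (T.w i) = 0} with hJ
  set F : Set ι := {i | lam (T.γ i) = lam (T.γ i₀)} with hF
  have hl := lam_of_kl h (T.hom i₀ j₀) h₀
  simp only [map_sub, map_add] at hl
  have hFF : ∀ i ∈ F, ∀ j ∈ F, kl J (T.ω i j) = T.ω i j := by
    intro i hi j hj
    refine hom_zero h (T.hom i j) ?_
    simp only [hF, Set.mem_ofPred_eq] at hi hj
    simp only [map_sub, map_add]
    omega
  have hi₀ : i₀ ∈ F := rfl
  have hj₀ : j₀ ∈ F := hab.symm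
  have h₀' : T.ω i₀ j₀ ≠ 0 := fun h1 => h₀ (by rw [h1, map_zero])
  have hprim : Prim (fun ij : F × F => T.ω ij.1 ij.2) := by
    refine prim_of_primes hxy fun p hp h1 => ?_
    have : ∃ i j, kl J (T.ω i j) ∉ p := by
      rcases h1 with h1 | h1
      exacts [T.LF_kl J p hp hx h1, T.LF_kl J p hp hy h1]
    obtain ⟨i, j, hij⟩ := this
    have h2 : kl J (T.ω i j) ≠ 0 := fun h3 => hij (by rw [h3]; exact p.zero_mem)
    have h3 := T.levels h h₀ h2
    have hi : i ∈ F := by simp only [hF, Set.mem_ofPred_eq]; omega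
    have hj : j ∈ F := by simp only [hF, Set.mem_ofPred_eq]; omega
    exact ⟨(⟨i, hi⟩, ⟨j, hj⟩), by rwa [hFF i hi j hj] at hij⟩
  have extend : ∀ φ : ι → Pol σ, (∀ i ∈ F, ∀ j ∈ F, ∀ k ∈ F,
      T.ω i j * φ k - T.ω i k * φ j + T.ω j k * φ i = 0) →
      ∃ n, T.InN n ∧ ∀ t ∈ F, n t = φ t := by
    intro φ hφ
    have h1 : ∀ t, T.ω i₀ j₀ ∣ T.ω i₀ t * φ j₀ - T.ω j₀ t * φ i₀ := by
      intro t
      refine hprim.dvd_of h₀' fun ij => ⟨T.ω ij.1 t * φ ij.2 - T.ω ij.2 t * φ ij.1, ?_⟩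
      have a1 := hφ _ ij.1.2 _ hi₀ _ hj₀
      have a2 := hφ _ ij.2.2 _ hi₀ _ hj₀
      linear_combination φ j₀ * T.pl ij.1 ij.2 i₀ t - φ i₀ * T.pl ij.1 ij.2 j₀ t
        + T.ω ij.2 t * a1 - T.ω ij.1 t * a2
    choose n hn using h1
    refine ⟨n, fun i j k => mul_left_cancel₀ h₀' ?_, fun t ht => mul_left_cancel₀ h₀' ?_⟩
    · linear_combination φ j₀ * T.row_InN i₀ i j k - φ i₀ * T.row_InN j₀ i j k
        - T.ω i j * hn k + T.ω i k * hn j - T.ω j k * hn i
    · linear_combination - hn t - hφ _ hi₀ _ hj₀ _ ht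
  set ψ : Pol σ →ₐ[ℂ] Pol σ :=
    aeval (fun i => if i ∈ J then X i else if i = s then 1 else 0) with hψ
  have hψJ : ∀ f, ψ (kl J f) = kl J f := by
    intro f
    have : ψ.comp (kl J) = kl J := by
      apply MvPolynomial.algHom_ext
      intro i
      by_cases hi : i ∈ J
      · simp [kl_X_mem hi, hψ, hi]
      · simp [kl_X_notMem hi]
    exact congrArg (fun φ : Pol σ →ₐ[ℂ] Pol σ => φ f) this
  have hψF : ∀ i ∈ F, ∀ j ∈ F, ψ (T.ω i j) = T.ω i j := by
    intro i hi j hj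
    rw [← hFF i hi j hj, hψJ]
  have hψ0 : ∀ f, coeff 0 (ψ f) = eval (Pi.single s 1) f := by
    intro f
    have : (constantCoeff : Pol σ →+* ℂ).comp (ψ : Pol σ →+* Pol σ) = eval (Pi.single s 1) := by
      apply MvPolynomial.ringHom_ext
      · intro r; simp [hψ]
      · intro i
        by_cases hi : i ∈ J
        · have : i ≠ s := fun h1 => hs (h1 ▸ hi)
          simp [hψ, hi, this]
        · by_cases h1 : i = s
          · subst h1; simp [hψ, hi]
          · simp [hψ, hi, h1]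
    exact congrArg (fun φ : Pol σ →+* ℂ => φ f) this
  obtain ⟨k, l, hkl⟩ := T.LF_eval (q := Pi.single s 1) (fun h1 => by simpa using congrFun h1 s)
  have hrow : ∀ t, ∀ i ∈ F, ∀ j ∈ F, ∀ k ∈ F,
      T.ω i j * ψ (T.ω t k) - T.ω i k * ψ (T.ω t j) + T.ω j k * ψ (T.ω t i) = 0 := by
    intro t i hi j hj k hk
    have := congrArg ψ (T.row_InN t i j k)
    simp only [map_add, map_sub, map_mul, map_zero, hψF _ hi _ hj, hψF _ hi _ hk,
      hψF _ hj _ hk] at this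
    exact this
  obtain ⟨n, hn, hn'⟩ := extend (fun j => ψ (T.ω k j)) (hrow k)
  obtain ⟨m, hm, hm'⟩ := extend (fun j => ψ (T.ω l j)) (hrow l)
  obtain ⟨B, hB⟩ := exists_B hxy hn hm
  refine split_of_const hxy deg hdeg hn hm hB ?_
  have : B = ψ (T.ω k l) := by
    apply mul_left_cancel₀ h₀'
    have e := congrArg ψ (T.pl k l i₀ j₀)
    simp only [map_add, map_sub, map_mul, map_zero, hψF _ hi₀ _ hj₀] at e
    rw [hB, hn' _ hi₀, hn' _ hj₀, hm' _ hi₀, hm' _ hj₀]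
    linear_combination -e
  rw [this, hψ0]
  exact hkl

end Plu

end Pool.Agent.P.MP_b01859_ag
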