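import Pool.Agent.P.MP_b01859_ag.Pl

/-!
The case of two different weights along the extreme fixed component, and the splitting theorem
for skew matrices.
-/

namespace Pool.Agent.P.MP_b01859_ag

open MvPolynomial Finsupp

variable {σ : Type} {Γ : Type} [AddCommGroup Γ] {ι : Type}

lemma exists_three [Fintype σ] (hcard : 5 ≤ Fintype.card σ) (x y : σ) :
    ∃ s₁ s₂ s₃ : σ, s₁ ≠ x ∧ s₁ ≠ y ∧ s₂ ≠ x ∧ s₂ ≠ y ∧ s₃ ≠ x ∧ s₃ ≠ y ∧
      s₁ ≠ s₂ ∧ s₁ ≠ s₃ ∧ s₂ ≠ s₃ := by
  classical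
  have h1 : 2 < ((Finset.univ.erase x).erase y).card := by
    have a1 := Finset.pred_card_le_card_erase (s := (Finset.univ : Finset σ)) (a := x)
    have a2 := Finset.pred_card_le_card_erase (s := (Finset.univ.erase x : Finset σ)) (a := y)
    rw [Finset.card_univ] at a1
    omega
  obtain ⟨a, ha, b, hb, c, hc, hab, hac, hbc⟩ := Finset.two_lt_card.mp h1
  simp only [Finset.mem_erase, Finset.mem_univ, and_true] at ha hb hc
  exact ⟨a, b, c, ha.2, ha.1, hb.2, hb.1, hc.2, hc.1, hab, hac, hbc⟩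

namespace Plu

variable (T : Plu σ Γ ι)

lemma split_lt [Fintype σ] [Finite ι] (hcard : 5 ≤ Fintype.card σ)
    (hΓ : ∀ γ γ' : Γ, (∀ φ : Γ →+ ℤ, φ γ = φ γ') → γ = γ') {x y : σ} (hw : T.w x ≠ T.w y)
    (deg : Γ →+ ℤ) (hdeg : ∀ i, deg (T.w i) = 1) {lam : Γ →+ ℤ} (h : ∀ i, 0 ≤ lam (T.w i))
    (hx : lam (T.w x) = 0) (hy : lam (T.w y) = 0) {i₀ j₀ : ι}
    (h₀ : kl {i | lam (T.w i) = 0} (T.ω i₀ j₀) ≠ 0) (hab : lam (T.γ i₀) < lam (T.γ j₀)) :
    T.Split := by
  classical
  have := Fintype.ofFinite ι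
  have hxy : x ≠ y := fun h1 => hw (by rw [h1])
  set J : Set σ := {i | lam (T.w i) = 0} with hJ
  have hl := lam_of_kl h (T.hom i₀ j₀) h₀
  simp only [map_sub, map_add] at hl
  have h₀' : T.ω i₀ j₀ ≠ 0 := fun h1 => h₀ (by rw [h1, map_zero])
  obtain ⟨δ, s, c, hδ, hs, hprim, hδc, hsh⟩ := exists_prim_hom hΓ (T.ω i₀)
    (fun j => T.γ i₀ + T.γ j - T.g₀) (T.hom i₀) ⟨j₀, h₀'⟩
  have hsN : T.InN s := by
    intro i j k
    apply mul_left_cancel₀ hδ
    have := T.row_InN i₀ i j k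
    rw [hs, hs, hs] at this
    linear_combination this
  have hc : lam c = 0 := by
    refine lam_of_kl h hδc fun h1 => h₀ ?_
    rw [hs, map_mul, h1, zero_mul]
  set α : Γ := T.γ i₀ - T.g₀ - c with hα
  have hsh' : ∀ j, IsWeightedHomogeneous T.w (s j) (T.γ j + α) := fun j =>
    hom_congr (hsh j) (by rw [hα]; abel)
  have hs₀ : s j₀ ≠ 0 := fun h1 => h₀' (by rw [hs, h1, mul_zero])
  have hlev : ∀ i, lam (T.γ i) = lam (T.γ i₀) → ∀ j, s j ∣ T.ω i j := by
    intro i hi j
    have h1 : T.ω i₀ i = 0 := hom_neg h (T.hom i₀ i) (by simp only [map_sub, map_add]; omega)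
    have h2 : ∀ j j', s j * T.ω i j' = s j' * T.ω i j := by
      intro j j'
      apply mul_left_cancel₀ hδ
      have := T.pl i₀ i j j'
      rw [h1, hs j, hs j'] at this
      linear_combination -this
    obtain ⟨t, ht⟩ := hprim.dvd_of hs₀ (a := T.ω i j₀) (fun j => ⟨_, h2 j j₀⟩)
    refine ⟨t, mul_left_cancel₀ hs₀ ?_⟩
    rw [← h2, ht]; ring
  have hrad : ∀ u ∈ J, ∃ N : ℕ, (X u : Pol σ) ^ N ∈ Ideal.span (Set.range s) := by
    intro u hu
    have : (X u : Pol σ) ∈ (Ideal.span (Set.range s)).radical := by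
      rw [Ideal.radical_eq_sInf, Ideal.mem_sInf]
      rintro p ⟨hp1, hp⟩
      by_contra hXp
      obtain ⟨k, l, hkl⟩ := T.LF_kl J p hp hu hXp
      have h2 : kl J (T.ω k l) ≠ 0 := fun h3 => hkl (by rw [h3]; exact p.zero_mem)
      rw [hom_zero h (T.hom k l) (lam_of_kl h (T.hom k l) h2)] at hkl
      have hsp : ∀ j, s j ∈ p := fun j => hp1 (Ideal.subset_span ⟨j, rfl⟩)
      rcases T.levels h h₀ h2 with h3 | h3
      · exact hkl (p.mem_of_dvd (hlev k h3.1 l) (hsp l))
      · rw [T.skew] at hkl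
        exact hkl (p.neg_mem (p.mem_of_dvd (hlev l h3.2 k) (hsp k)))
    exact this
  have hN : ∃ N : ℕ, ∀ u ∈ J, (X u : Pol σ) ^ N ∈ Ideal.span (Set.range s) := by
    choose! N hN using hrad
    refine ⟨Finset.univ.sup N, fun u hu => ?_⟩
    exact Ideal.pow_mem_of_pow_mem _ (hN u hu) (Finset.le_sup (Finset.mem_univ u))
  obtain ⟨N, hN⟩ := hN
  have hsec : ∀ u ∈ J, ∃ n : ι → Pol σ, T.InN n ∧ T.IsB s n (X u ^ N) ∧
      ∀ j, IsWeightedHomogeneous T.w (n j) (T.γ j + (N • T.w u - α - T.g₀)) := by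
    intro u hu
    obtain ⟨a, ha⟩ := (Submodule.mem_span_range_iff_exists_fun _).mp (hN u hu)
    set a' : ι → Pol σ := fun k =>
      weightedHomogeneousComponent T.w (N • T.w u - (T.γ k + α)) (a k) with ha'
    have h1 : ∑ k, a' k * s k = X u ^ N := by
      have h2 := congrArg (weightedHomogeneousComponent T.w (N • T.w u)) ha
      rw [((isWeightedHomogeneous_X ℂ T.w u).pow N).weightedHomogeneousComponent_same,
        map_sum] at h2
      rw [← h2]
      refine Finset.sum_congr rfl fun k _ => ?_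
      rw [smul_eq_mul, mul_comm (a k), mul_comm (a' k), ha', ← comp_mul (hsh' k)]
      congr 2
      abel
    refine ⟨fun t => ∑ k, a' k * T.ω k t, fun i j k => ?_, fun i j => ?_, fun j => ?_⟩
    · simp only [Finset.mul_sum, ← Finset.sum_sub_distrib, ← Finset.sum_add_distrib]
      refine Finset.sum_eq_zero fun t _ => ?_
      linear_combination a' t * T.row_InN t i j k
    · rw [← h1]
      simp only [Finset.mul_sum, ← Finset.sum_sub_distrib]
      refine Finset.sum_congr rfl fun t _ => ?_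
      linear_combination a' t * hsN t i j
    · refine IsWeightedHomogeneous.sum _ _ _ fun k _ => ?_
      exact hom_congr ((weightedHomogeneousComponent_isWeightedHomogeneous _ _).mul (T.hom k j))
        (by abel)
  obtain ⟨n₀, hn₀, hB₀, hh₀⟩ := hsec x hx
  obtain ⟨n₁, hn₁, hB₁, hh₁⟩ := hsec y hy
  obtain ⟨P, hP⟩ := exists_B hxy hn₀ hn₁
  have hrel := rel3 x hsN hn₀ hn₁ hB₀ hB₁ hP
  have hPm : ∃ A B, P = X x ^ N * A + X y ^ N * B := by
    by_cases hz : ∃ z ∈ J, z ≠ x ∧ z ≠ y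
    · obtain ⟨z, hzJ, hzx, hzy⟩ := hz
      obtain ⟨n₂, hn₂, hB₂, -⟩ := hsec z hzJ
      obtain ⟨P₀₂, hP₀₂⟩ := exists_B hxy hn₀ hn₂
      obtain ⟨P₁₂, hP₁₂⟩ := exists_B hxy hn₁ hn₂
      have e := rel4 x hB₀ hB₁ hB₂ hP hP₀₂ hP₁₂
      refine primary_xy hxy (w := X z ^ N) ?_ N N P (-P₁₂) P₀₂ (by linear_combination e)
      rw [map_pow, kl_X_mem (by simp [hzx, hzy])]
      exact pow_ne_zero _ (X_ne_zero _)
    · by_contra hnt
      push Not at hz
      have hpos : ∀ t, t ≠ x → t ≠ y → 0 < lam (T.w t) := by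
        intro t htx hty
        refine lt_of_le_of_ne (h t) fun h1 => hty (hz t h1.symm htx)
      obtain ⟨s₁, s₂, s₃, a1, a2, a3, a4, a5, a6, a7, a8, a9⟩ := exists_three hcard x y
      refine Dat.core
        { w := T.w, x := x, y := y, N := N, P := P
          p := (N • T.w x - α - T.g₀) + (N • T.w y - α - T.g₀) + T.g₀
          g₀ := T.g₀ + α + α, v := s, a := n₁, b := n₀, D := T.ω
          γ := fun j => T.γ j + α, lam := lam, hxy := hxy, rel := hrel
          Dx := fun i j => ?_, hv := hsh', hD := fun i j => hom_congr (T.hom i j) (by abel)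
          hP := hP.hom x hh₀ hh₁, hg₀ := by abel, LF := fun q hq => T.LF_eval hq
          indep := ?_, lx := hx, ly := hy, ls := hpos, lp := ?_, nt := hnt }
        a1 a2 a3 a4 a5 a6 a7 a8 a9
      · linear_combination hB₀ i j
      · intro t htx hty i j k e
        have e1 := congrArg lam e
        have e2 := congrArg deg e
        simp only [map_add, map_zsmul, hx, hy, hdeg, smul_eq_mul, mul_zero, zero_add, map_zero,
          mul_one] at e1 e2
        have hk : k = 0 := (mul_eq_zero.mp e1).resolve_right (hpos t htx hty).ne'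
        have hi : i = 0 := by
          by_contra hi
          apply hw
          refine hΓ _ _ fun φ => ?_
          have e3 := congrArg φ e
          simp only [map_add, map_zsmul, smul_eq_mul, map_zero, hk, zero_mul, add_zero] at e3
          have hj : j = -i := by omega
          rw [hj] at e3
          apply mul_left_cancel₀ hi
          linarith
        exact ⟨hi, by omega, hk⟩
      · simp only [hα, map_add, map_sub, map_nsmul, hx, hy, hc, smul_zero]
        omega
  obtain ⟨A, B, hAB⟩ := hPm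
  have h1 : ∀ t, (X x : Pol σ) ^ N ∣ n₀ t - B * s t := fun t =>
    X_pow_dvd_of_mul hxy (b := N) ⟨n₁ t + A * s t, by
      have := hrel t
      rw [hAB] at this
      linear_combination -this⟩
  choose n hn using h1
  have hXN : (X x : Pol σ) ^ N ≠ 0 := pow_ne_zero _ (X_ne_zero _)
  refine split_of_const hxy deg hdeg hsN (ψ := n) (fun i j k => mul_left_cancel₀ hXN ?_)
    (B := 1) (fun i j => mul_left_cancel₀ hXN ?_) (by simp)
  · linear_combination hn₀ i j k - B * hsN i j k - T.ω i j * hn k + T.ω i k * hn j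
      - T.ω j k * hn i
  · linear_combination hB₀ i j + s i * hn j - s j * hn i

theorem split [Fintype σ] [Finite ι] (hcard : 5 ≤ Fintype.card σ)
    (hΓ : ∀ γ γ' : Γ, (∀ φ : Γ →+ ℤ, φ γ = φ γ') → γ = γ') {x y s : σ} (hw : T.w x ≠ T.w y)
    (deg : Γ →+ ℤ) (hdeg : ∀ i, deg (T.w i) = 1) {lam : Γ →+ ℤ} (h : ∀ i, 0 ≤ lam (T.w i))
    (hx : lam (T.w x) = 0) (hy : lam (T.w y) = 0) (hs : lam (T.w s) ≠ 0) : T.Split := by
  have hxy : x ≠ y := fun h1 => hw (by rw [h1])
  obtain ⟨i, j, hij⟩ := T.LF_kl {i | lam (T.w i) = 0} ⊥ Ideal.isPrime_bot (s := x) hx (by simp)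
  rw [Ideal.mem_bot] at hij
  rcases lt_trichotomy (lam (T.γ i)) (lam (T.γ j)) with h1 | h1 | h1
  · exact T.split_lt hcard hΓ hw deg hdeg h hx hy hij h1
  · exact T.split_equal hxy deg hdeg h hx hy hs hij h1
  · refine T.split_lt hcard hΓ hw deg hdeg h hx hy (i₀ := j) (j₀ := i) ?_ h1
    rw [T.skew, map_neg, neg_ne_zero]
    exact hij

end Plu

end Pool.Agent.P.MP_b01859_ag
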