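import Pool.Agent.P.MP_b01859_ag.El2

/-!
Wronskians of binary forms.
-/

namespace Pool.Agent.P.MP_b01859_ag

section uni

open Polynomial

lemma ode {u : ℂ[X]} {j : ℕ} {m θ : ℂ} (hu : u.coeff 0 ≠ 0)
    (h : X ^ (j + 2) ∣ X * (C m * (X ^ j * u) - X * derivative (X ^ j * u)) + C θ * (X ^ j * u)) :
    m = j := by
  have e : X * derivative ((X : ℂ[X]) ^ j) = C (j : ℂ) * X ^ j := by
    rw [derivative_X_pow]
    cases j with
    | zero => simp
    | succ j => simp only [Nat.add_sub_cancel]; ring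
  have h1 : X * (C m * (X ^ j * u) - X * derivative (X ^ j * u)) + C θ * (X ^ j * u) =
      X ^ j * (C θ * u + X * (C (m - j) * u - X * derivative u)) := by
    rw [derivative_mul, C_sub]
    linear_combination -X * u * e
  rw [h1, pow_add, mul_dvd_mul_iff_left (pow_ne_zero _ X_ne_zero)] at h
  obtain ⟨r, hr⟩ := h
  have h2 := congrArg (fun p => p.coeff 0) hr
  simp only [coeff_add, coeff_C_mul, coeff_X_mul_zero, add_zero, pow_two, mul_assoc,
    mul_eq_zero, hu, or_false] at h2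
  rw [h2, C_0, zero_mul, zero_add, pow_two, mul_assoc] at hr
  have h3 := congrArg (fun p => p.coeff 0) (mul_left_cancel₀ X_ne_zero hr)
  simp only [coeff_sub, coeff_C_mul, coeff_X_mul_zero, sub_zero, mul_eq_zero, hu, or_false] at h3
  exact sub_eq_zero.mp h3

lemma ord_wr {h₀ g : ℂ[X]} (k : ℕ) (h1 : h₀.coeff 0 ≠ 0) (h2 : g.coeff 0 ≠ 0) :
    ∃ r : ℂ[X], derivative (X ^ (k + 1) * h₀) * g - derivative g * (X ^ (k + 1) * h₀) =
      X ^ k * r ∧ r.coeff 0 ≠ 0 := by
  refine ⟨C ((k + 1 : ℕ) : ℂ) * h₀ * g + X * (derivative h₀ * g - derivative g * h₀), ?_, ?_⟩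
  · rw [derivative_mul, derivative_X_pow, Nat.add_sub_cancel]; ring
  · rw [coeff_add, coeff_X_mul_zero, add_zero, mul_coeff_zero, mul_coeff_zero, coeff_C_zero]
    exact mul_ne_zero (mul_ne_zero (by exact_mod_cast Nat.succ_ne_zero k) h1) h2

lemma le_natDegree_of {h₀ : ℂ[X]} {k : ℕ} (h1 : h₀.coeff 0 ≠ 0) :
    k ≤ (X ^ k * h₀).natDegree :=
  le_natDegree_of_ne_zero (by simpa [coeff_X_pow_mul'] using h1)

lemma wr_zero {f g u : ℂ[X]} {a b j : ℕ} (ha : 1 ≤ a) (hb : 1 ≤ b) (hf : f.natDegree ≤ a)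
    (hg : g.natDegree ≤ b) (h0 : g.coeff 0 ≠ 0) (hu : u.coeff 0 ≠ 0)
    (hw : derivative f * g - derivative g * f = X ^ j * u) : j + 1 < a + b := by
  have hC : C (g.coeff 0) * u ≠ 0 := mul_ne_zero (C_ne_zero.mpr h0) (fun h => hu (by simp [h]))
  have e : derivative (C (g.coeff 0) * f - C (f.coeff 0) * g) * g -
      derivative g * (C (g.coeff 0) * f - C (f.coeff 0) * g) = X ^ j * (C (g.coeff 0) * u) := by
    rw [derivative_sub, derivative_C_mul, derivative_C_mul]
    linear_combination C (g.coeff 0) * hw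
  have hd : (C (g.coeff 0) * f - C (f.coeff 0) * g).natDegree ≤ max a b :=
    (natDegree_sub_le _ _).trans (max_le_max ((natDegree_C_mul_le _ _).trans hf)
      ((natDegree_C_mul_le _ _).trans hg))
  have hz : (C (g.coeff 0) * f - C (f.coeff 0) * g).coeff 0 = 0 := by simp [mul_comm]
  generalize C (g.coeff 0) * f - C (f.coeff 0) * g = h at e hd hz
  have hne : h ≠ 0 := by
    rintro rfl
    exact mul_ne_zero (pow_ne_zero j X_ne_zero) hC (by rw [← e]; simp)
  obtain ⟨k, h₀, rfl, hk⟩ := exists_X_pow_mul hne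
  cases k with
  | zero => exact absurd (by simpa using hz) hk
  | succ k =>
    obtain ⟨r, hr, hr0⟩ := ord_wr k hk h0
    have h1 := (X_pow_cancel hr0 (by simpa using ⟨h0, hu⟩) (hr.symm.trans e)).1
    have h2 := (le_natDegree_of hk).trans hd
    omega

end uni

open MvPolynomial

/-- Dehomogenization of binary forms. -/
noncomputable def deh : Pol (Fin 2) →ₐ[ℂ] Polynomial ℂ := aeval ![1, Polynomial.X]

lemma deh_pderiv (f : Pol (Fin 2)) : deh (pderiv 1 f) = Polynomial.derivative (deh f) := by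
  induction f using MvPolynomial.induction_on with
  | C a => simp
  | add p q hp hq => simp only [map_add, hp, hq]
  | mul_X p i hp =>
    rw [dr_mul, map_add, map_mul, map_mul, map_mul, hp, Polynomial.derivative_mul]
    fin_cases i <;> simp [deh, pderiv_X]

lemma eval_deh (t : ℂ) (f : Pol (Fin 2)) : (deh f).eval t = eval ![1, t] f := by
  induction f using MvPolynomial.induction_on with
  | C a => simp
  | add p q hp hq => simp only [map_add, Polynomial.eval_add, hp, hq]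
  | mul_X p i hp =>
    rw [map_mul, map_mul, Polynomial.eval_mul, hp]
    fin_cases i <;> simp [deh]

lemma Hom.eval_two {f : Pol (Fin 2)} {d : ℤ} (hf : Hom f d) {p : Fin 2 → ℂ} (hp : p 0 ≠ 0) :
    eval p f = p 0 ^ d.toNat * (deh f).eval (p 1 / p 0) := by
  rw [eval_deh, ← hf.eval_smul]
  congr 2
  funext i
  fin_cases i <;> simp [mul_div_cancel₀, hp]

lemma Hom.deh_ne {f : Pol (Fin 2)} {d : ℤ} (hf : Hom f d) (h0 : f ≠ 0) : deh f ≠ 0 := by
  intro h
  refine mul_ne_zero (X_ne_zero 0) h0 (MvPolynomial.funext fun p => ?_)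
  by_cases hp : p 0 = 0
  · simp [hp]
  · simp [hf.eval_two hp, h]

lemma Hom.X_dvd {f : Pol (Fin 2)} {d : ℤ} (hf : Hom f d) (h : (deh f).coeff 0 = 0) : X 1 ∣ f := by
  refine X_dvd_of_eval (s := 0) (by simp) fun p hp hp0 => ?_
  rw [hf.eval_two hp0, hp, zero_div, ← Polynomial.coeff_zero_eq_eval_zero, h, mul_zero]

lemma Hom.natDegree_deh {f : Pol (Fin 2)} {d : ℤ} (hf : Hom f d) :
    (deh f).natDegree ≤ d.toNat := by
  have h1 : f.totalDegree ≤ d.toNat := by
    rw [totalDegree, Finset.sup_le_iff]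
    intro m hm
    rw [← hf (mem_support_iff.mp hm)]
    simp [Finsupp.weight_apply, Finsupp.sum, ← Nat.cast_sum]
  have h2 := aeval_natDegree_le (n := 1) f h1 ![1, Polynomial.X] fun i => by
    fin_cases i <;> simp
  rwa [mul_one] at h2

lemma Hom.deh_pderiv {f : Pol (Fin 2)} {d : ℤ} (hf : Hom f d) : deh (pderiv 0 f) =
    Polynomial.C (d : ℂ) * deh f - Polynomial.X * Polynomial.derivative (deh f) := by
  have h := congrArg deh (euler hf)
  rw [dr_eq_sum] at h
  simp only [Fin.sum_univ_two, der_X, Matrix.one_apply, map_add, map_mul,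
    MP_b01859_ag.deh_pderiv, algHom_C] at h
  simp [deh] at h ⊢
  linear_combination h

lemma Hom.ode {f ρ : Pol (Fin 2)} {d : ℤ} (hf : Hom f d) {θ : ℂ}
    (h : X 1 * pderiv 0 f + C θ * f = ρ) {j : ℕ} {u : Polynomial ℂ} (hu : u.coeff 0 ≠ 0)
    (e : deh f = Polynomial.X ^ j * u) (hρ : Polynomial.X ^ (j + 2) ∣ deh ρ) : d = j := by
  rw [← h, map_add, map_mul, map_mul, hf.deh_pderiv, e, algHom_C] at hρ
  have := MP_b01859_ag.ode (m := d) (θ := θ) hu (by simpa [deh] using hρ)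
  exact_mod_cast this

lemma Hom.pos {σ : Type} {f : Pol σ} {d : ℤ} (hf : Hom f d) (h0 : f ≠ 0) (hc : coeff 0 f = 0) :
    1 ≤ d := by
  by_contra h
  obtain rfl : d = 0 := le_antisymm (by omega) (hf.nonneg h0)
  exact h0 (by rw [hf.eq_C, hc, C_0])

theorem wr_contra {F G w ρ : Pol (Fin 2)} {a b : ℤ} (hF : Hom F a) (hG : Hom G b)
    (F0 : coeff 0 F = 0) (G0 : coeff 0 G = 0) (cop : ∀ c, c ∣ F → c ∣ G → IsUnit c) {κ : ℂ}
    (hκ : κ ≠ 0) (hw0 : w ≠ 0) (hw : w * C κ = pderiv 1 F * G - pderiv 1 G * F) {θ : ℂ}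
    (hode : X 1 * pderiv 0 w + C θ * w = ρ)
    (h : ρ = 0 ∨ ∃ (β r s : Pol (Fin 2)) (k : ℤ) (θ' : ℂ), β ≠ 0 ∧ Hom β k ∧
      X 1 * pderiv 0 β + C θ' * β = 0 ∧ β = r * G ∧ pderiv 1 r = 0 ∧ ρ = s * β * β) : False := by
  classical
  have hκ' : (C κ : Pol (Fin 2)) ≠ 0 := by simpa using hκ
  have hF0 : F ≠ 0 := by
    rintro rfl
    exact mul_ne_zero hw0 hκ' (by simpa using hw)
  have hG0 : G ≠ 0 := by
    rintro rfl
    exact mul_ne_zero hw0 hκ' (by simpa using hw)
  have ha := hF.pos hF0 F0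
  have hb := hG.pos hG0 G0
  have hwh : Hom w (a + b - 1) := by
    have h1 : Hom (C κ * w) (a + b - 1) := by
      rw [mul_comm, hw, ← dv_single, ← dv_single]
      exact (hom_congr ((dv_Hom _ hF).mul hG) (by ring)).sub
        (hom_congr ((dv_Hom _ hG).mul hF) (by ring))
    simpa using hom_of_mul' (isWeightedHomogeneous_C _ κ) hκ' h1
  obtain ⟨j, u, hj, hu⟩ := exists_X_pow_mul (hwh.deh_ne hw0)
  have h1 := congrArg deh hw
  rw [map_mul, map_sub, map_mul, map_mul, deh_pderiv, deh_pderiv, hj, algHom_C, mul_assoc] at h1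
  have hu' : (u * algebraMap ℂ (Polynomial ℂ) κ).coeff 0 ≠ 0 := by simpa using ⟨hu, hκ⟩
  have hcop : (deh G).coeff 0 = 0 → (deh F).coeff 0 ≠ 0 := fun h2 h3 =>
    (X_prime (i := (1 : Fin 2)) (R := ℂ)).not_isUnit (cop _ (hF.X_dvd h3) (hG.X_dvd h2))
  have dF := hF.natDegree_deh
  have dG := hG.natDegree_deh
  rcases h with rfl | ⟨β, r, s, k, θ', hβ, hβh, hβo, rfl, hr, rfl⟩
  · have h2 := hwh.ode hode hu hj (by simp)
    by_cases h3 : (deh G).coeff 0 = 0
    · have := wr_zero (by omega) (by omega) dG dF (hcop h3) (j := j)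
        (u := -(u * algebraMap ℂ (Polynomial ℂ) κ)) (by simpa using hu') (by
          linear_combination h1)
      omega
    · have := wr_zero (by omega) (by omega) dF dG h3 hu' h1.symm
      omega
  · have hrh := hom_of_mul' hG hG0 (mul_comm r G ▸ hβh)
    have hk := Hom.nonneg hrh (left_ne_zero_of_mul hβ)
    obtain ⟨i, v, hi, hv⟩ := exists_X_pow_mul (hβh.deh_ne hβ)
    have h2 := hβh.ode hβo hv hi (by simp)
    have h3 : deh r = Polynomial.C ((deh r).coeff 0) :=
      Polynomial.eq_C_of_derivative_eq_zero (by rw [← deh_pderiv, hr, map_zero])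
    generalize (deh r).coeff 0 = c at h3
    have h4 := hi
    rw [map_mul, h3] at h4
    have hc : c ≠ 0 := by
      rintro rfl
      exact hβh.deh_ne hβ (by rw [map_mul, h3]; simp)
    obtain ⟨i, rfl⟩ : ∃ i', i = i' + 1 := ⟨i - 1, by omega⟩
    have h5 : deh G = Polynomial.X ^ (i + 1) * (Polynomial.C c⁻¹ * v) := by
      rw [mul_left_comm, ← h4, ← mul_assoc, ← Polynomial.C_mul, inv_mul_cancel₀ hc]; simp
    have hv' : (Polynomial.C c⁻¹ * v).coeff 0 ≠ 0 := by simpa using ⟨hc, hv⟩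
    obtain ⟨r', e1, e2⟩ := ord_wr i hv' (hcop (by rw [h5]; simp))
    rw [← h5] at e1
    have h6 := (X_pow_cancel (a := j) (b := i) hu' (q := -r') (by simpa using e2)
      (by linear_combination h1 - e1)).1
    have h7 := hwh.ode hode hu hj (by
      rw [map_mul deh (s * _), map_mul deh s, hi, h6]
      exact ⟨deh s * Polynomial.X ^ i * v * v, by ring⟩)
    have h8 := le_natDegree_of (k := i + 1) hv'
    rw [← h5] at h8
    omega

end Pool.Agent.P.MP_b01859_ag
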