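import Pool.Agent.P.MP_b01859_ag.Tg
import Pool.Agent.P.MP_b01859_ag.Wr

/-!
Two commuting symmetries with a fixed line of one of them moved by the other.
-/

namespace Pool.Agent.P.MP_b01859_ag

open MvPolynomial VB

variable {σ τ ι : Type} [Fintype ι]

omit [Fintype ι] in
lemma C_smul_N {T : VB σ ι} (c : ℂ) (φ : T.N) : (C c : Pol σ) • φ = c • φ := by
  rw [← algebraMap_eq, algebraMap_smul]

lemma eig_of_B [Fintype σ] [Nontrivial σ] {T : VB σ ι} {γ : ι → ℤ} {δ : Dr σ}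
    {a : Matrix ι ι ℂ} (h : T.Sym δ a) (hδ : ∀ i, Hom (δ (X i)) 1)
    (ha : ∀ i j, a i j ≠ 0 → γ j = γ i) {s : T.N} (hs : Prim s.1) {α : ℤ}
    (hα : HomN (fun _ => 1) γ s α) (h0 : T.B s (D h s) = 0) : ∃ θ : ℂ, D h s = θ • s := by
  obtain ⟨f, hf⟩ := eq_smul_of_B hs h0
  have h1 := D_hom h (w := fun _ => 1) (μ := 0) (by simpa using hδ) (by simpa using ha) hα
  rw [hf] at h1
  have h2 : Hom f 0 := hom_congr (hα.coef (ne_zero_of_prim hs) h1) (by ring)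
  exact ⟨coeff 0 f, by rw [hf, ← C_smul_N, ← h2.eq_C]⟩

lemma comm_deg {γ : ι → ℤ} {a a' : Matrix ι ι ℂ} (ha : ∀ i j, a i j ≠ 0 → γ j = γ i)
    (ha' : ∀ i j, a' i j ≠ 0 → γ j = γ i) : ∀ i j, (a' * a - a * a') i j ≠ 0 → γ j = γ i := by
  intro i j h
  by_contra hne
  apply h
  have key : ∀ {b b' : Matrix ι ι ℂ}, (∀ i j, b i j ≠ 0 → γ j = γ i) →
      (∀ i j, b' i j ≠ 0 → γ j = γ i) → (b * b') i j = 0 := by
    intro b b' hb hb'
    rw [Matrix.mul_apply]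
    refine Finset.sum_eq_zero fun k _ => ?_
    by_contra h1
    exact hne ((hb' k j (right_ne_zero_of_mul h1)).trans (hb i k (left_ne_zero_of_mul h1)))
  rw [Matrix.sub_apply, key ha' ha, key ha ha', sub_zero]

variable [Fintype σ] [DecidableEq σ] [DecidableEq ι] {T : VB σ ι} {γ : ι → ℤ} {g : ℤ}

lemma inv_section [Nontrivial σ] (hG : Gr (fun _ => 1) γ g T.ω) {e f : Matrix σ σ ℂ}
    {a a' c : Matrix ι ι ℂ} (hγ : ∀ i j, a i j ≠ 0 → γ j = γ i) (hS : T.Sym (der e) a)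
    (h' : NS T γ f a') (hf : IsNilpotent f) (hc : T.Sym 0 c) (hcγ : ∀ i j, c i j ≠ 0 → γ j = γ i)
    (hns : ¬ Sp T.ω) : ∃ (s : T.N) (r : Pol σ) (α : ℤ) (θ : ℂ), HomN (fun _ => 1) γ s α ∧
      2 * α + g ≤ 0 ∧ D h'.hS s = 0 ∧ D hS s = θ • s ∧ ∀ φ, D hc φ = (r * T.B s φ) • s := by
  by_cases h0 : ∃ φ, D hc φ ≠ 0
  · obtain ⟨s, r, α, hp, hα, hr0, hr, hD⟩ :=
      nil_struct hG hc hcγ ((sp_or_iso hG hc hcγ).resolve_left hns) h0
    have hd := hr.nonneg hr0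
    have key : ∀ {e : Matrix σ σ ℂ} {a : Matrix ι ι ℂ} (hS : T.Sym (der e) a),
        (∀ i j, a i j ≠ 0 → γ j = γ i) → ∃ θ : ℂ, D hS s = θ • s := by
      intro e a hS hγ
      have hδ : ∀ i, Hom (der e (X i)) 1 := fun i => der_Hom e (isWeightedHomogeneous_X ℂ _ i)
      refine eig_of_B hS hδ hγ hp hα ?_
      by_contra h1
      exact hns (sp_of_unit (Hom.isUnit (B_hom hG hα (D_hom hS (μ := 0) (by simpa using hδ)
        (by simpa using hγ) hα)) (by omega) h1))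
    obtain ⟨θ, hθ⟩ := key hS hγ
    obtain ⟨θ', hθ'⟩ := key h'.hS h'.hγ
    refine ⟨s, r, α, θ, hα, by omega, ?_, hθ, hD⟩
    by_cases h1 : θ' = 0
    · rw [hθ', h1, zero_smul]
    · exact absurd ((D_LN _ (LN_der hf) h'.ha).eq_zero h1 hθ') (ne_zero_of_prim hp)
  · push Not at h0
    exact ⟨0, 0, -|g|, 0, fun _ => isWeightedHomogeneous_zero _ _ _,
      by have := le_abs_self g; have := abs_nonneg g; omega, map_zero _, by simp,
      fun φ => by simp [h0]⟩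

omit [Fintype σ] [DecidableEq σ] in
lemma typeI_core (E : El (Fin 2) ι) (hv : E.v = Pi.single 1 1) (hns₁ : ¬ Sp E.T₁.ω)
    {δ : Dr (Fin 2)} (hδ : ∀ p, δ p = X 1 * pderiv 0 p) {a : Matrix ι ι ℂ}
    (hγ : ∀ i j, a i j ≠ 0 → E.γ j = E.γ i) (S₁ : E.T₀.Sym δ a)
    (S₂ : E.T₀.Sym 0 (E.a * a - a * E.a)) {s : E.T₁.N} {r : Pol (Fin 2)} {α : ℤ} {θ : ℂ}
    (hα : HomN (fun _ => 1) E.γ s α) (hαg : 2 * α + E.g ≤ 0) (hs₁ : D E.hS s = 0)
    (hs : D S₁ (E.res s) = θ • E.res s)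
    (hν : ∀ t, D S₂ (E.T₀.row t) = (r * (E.res s).1 t) • E.res s) : False := by
  obtain ⟨Q⟩ := E.nil_or.resolve_left fun h => hns₁ (E.el0 h)
  obtain ⟨P, κ, hκ, hu, hd, l0, m0, cop, dec⟩ := El.pl Q hv hns₁
  have hq0 := ne_zero_of_prim Q.hp
  have hδX : ∀ i, Hom (δ (X i)) 1 := fun i => by
    fin_cases i <;> simp [hδ, pderiv_X, isWeightedHomogeneous_X, isWeightedHomogeneous_zero]
  have hcomm := D_comm S₁ E.S₀ (δ'' := 0) (by simp) S₂
  obtain ⟨β, hβ⟩ := Q.res_inv hs₁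
  have hβh : Hom β (α - Q.α) := Q.hq.coef hq0 (hβ ▸ E.res_hom hα)
  have hν₀ : ∀ φ, D S₂ φ = (r * β * β * E.T₀.B Q.q φ) • Q.q := by
    have hr : ∀ t, D S₂ (E.T₀.row t) = (r * β * β * Q.q.1 t) • Q.q := by
      intro t
      rw [hν, hβ, smul_smul]
      congr 1
      simp only [Submodule.coe_smul, Pi.smul_apply, smul_eq_mul]
      ring
    intro φ
    obtain ⟨i, j, hij⟩ := E.T₀.exists_ne
    refine smul_cancel hij ?_
    rw [nu_row, hr, hr]
    have := E.T₀.B_spec Q.q φ i j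
    linear_combination (norm := module) (-(r * β * β)) • congrArg (· • Q.q) this
  obtain ⟨θ', hθ'⟩ := eig_of_B S₁ hδX hγ Q.hp Q.hq (by
    have := hcomm Q.q
    rw [hν₀, Q.hD Q.q] at this
    exact Q.ker.mp (by simpa using this))
  have hode : X 1 * pderiv 0 Q.w + C (2 * θ') * Q.w = r * β * β := by
    obtain ⟨t, ht⟩ := Q.hp.exists_ne
    have e1 := hcomm (E.T₀.row t)
    have e2 := D_B S₁ Q.q (E.T₀.row t)
    rw [hν₀, Q.hD, Q.hD, D_smul, dr_mul, e2, hθ', ← C_smul_N] at e1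
    simp only [map_smul, LinearMap.smul_apply, smul_eq_mul, B_row] at e1
    apply mul_right_cancel₀ ht
    refine coef_eq hq0 ?_
    rw [← e1, ← hδ, C_mul, show (C 2 : Pol (Fin 2)) = 2 from rfl]
    module
  have hwr := P.wr
  rw [hu, algHom_C, algebraMap_eq, hv, dv_single, dv_single] at hwr
  by_cases hβ0 : β = 0
  · exact wr_contra P.hom_l P.hom_m l0 m0 cop hκ Q.hw hwr hode (Or.inl (by simp [hβ0]))
  have hβo : X 1 * pderiv 0 β + C (θ' - θ) * β = 0 := by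
    rw [← C_smul_N, hβ, D_smul, hθ', ← C_smul_N] at hs
    refine coef_eq hq0 ?_
    rw [← hδ, C_sub]
    linear_combination (norm := module) hs
  obtain ⟨u, u', hs₂, du, du', hh⟩ := dec _ hs₁
  obtain ⟨hu₁, hu₂⟩ := hh α hα
  have hβ' : β = rs u * P.l + rs u' * P.m := by
    refine coef_eq hq0 ?_
    rw [← hβ, hs₂, map_add, El.res_smul, El.res_smul, P.hl, P.hm]
    module
  have hdu : ∀ u, dc E.v u = 0 → pderiv 1 (rs u) = 0 := fun u hu => by
    rw [← dv_single, ← hv, rs_dc, hu, map_zero]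
  by_cases h4 : α - P.α < 0
  · rw [hu₁.eq_zero h4, map_zero, zero_mul, zero_add] at hβ'
    exact wr_contra P.hom_l P.hom_m l0 m0 cop hκ Q.hw hwr hode
      (Or.inr ⟨β, _, _, _, _, hβ0, hβh, hβo, hβ', hdu _ du', rfl⟩)
  · rw [hu₂.eq_zero (by omega), map_zero, zero_mul, add_zero] at hβ'
    exact wr_contra P.hom_m P.hom_l m0 l0 (fun c h1 h2 => cop c h2 h1) (neg_ne_zero.mpr hκ) Q.hw
      (by rw [C_neg]; linear_combination -hwr) hode
      (Or.inr ⟨β, _, _, _, _, hβ0, hβh, hβo, hβ', hdu _ du, rfl⟩)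

theorem typeI (hG : Gr (fun _ => 1) γ g T.ω) {e f : Matrix σ σ ℂ} {a a' : Matrix ι ι ℂ}
    (hγ : ∀ i j, a i j ≠ 0 → γ j = γ i) (hS : T.Sym (der e) a) (h' : NS T γ f a')
    (hf : IsNilpotent f) (hef : e * f = f * e) {η : σ → ℂ} (h1 : f.mulVec (f.mulVec η) = 0)
    (h2 : e.mulVec (f.mulVec η) ≠ 0) (h3 : e.mulVec (e.mulVec (f.mulVec η)) = 0) : Sp T.ω := by
  by_contra hns
  set ξ : Fin 2 → σ → ℂ := ![e.mulVec (f.mulVec η), f.mulVec η] with hξd
  have hξ : LinearIndependent ℂ ξ := by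
    rw [LinearIndependent.pair_iff]
    intro s t hst
    have h4 := congrArg e.mulVec hst
    rw [Matrix.mulVec_add, Matrix.mulVec_smul, Matrix.mulVec_smul, h3, smul_zero, zero_add,
      Matrix.mulVec_zero] at h4
    obtain rfl := (smul_eq_zero.mp h4).resolve_right h2
    rw [zero_smul, add_zero] at hst
    exact ⟨(smul_eq_zero.mp hst).resolve_right h2, rfl⟩
  have : Nontrivial σ := Fintype.one_lt_card_iff_nontrivial.mp (by
    simpa [Nat.succ_le_iff] using hξ.fintype_card_le_finrank)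
  have h0 : ∀ b, f.mulVec (ξ b) = 0 := by
    intro b
    fin_cases b
    · change f.mulVec (e.mulVec (f.mulVec η)) = 0
      rw [Matrix.mulVec_mulVec, ← hef, ← Matrix.mulVec_mulVec, h1, Matrix.mulVec_zero]
    · exact h1
  have hv : (Pi.single 1 1 : Fin 2 → ℂ) ≠ 0 := fun h => by simpa using congrFun h 1
  have hη : f.mulVec η = ∑ b, (Pi.single 1 1 : Fin 2 → ℂ) b • ξ b := by simp [hξd]
  have hη' := indep_elim hξ h0 hv hη
  set δ : Dr (Fin 2) := (X 1 : Pol (Fin 2)) • pderiv 0 with hδd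
  have hδ : ∀ p, δ p = X 1 * pderiv 0 p := fun p => rfl
  have hi : ∀ p, δ (sub ξ p) = sub ξ (der e p) := sub_der (A' := !![0, 1; 0, 0])
    (fun b => by fin_cases b <;> simp [hξd, h3, -Matrix.mulVec_mulVec])
    (fun b => by fin_cases b <;> simp [hδ, pderiv_X])
  have hρ : ∀ i j, sub ξ (T.ω i j) = (T.map hξ).ω i j := fun _ _ => rfl
  have hρ₁ : ∀ i j, sub (fun o : Option (Fin 2) => o.elim η ξ) (T.ω i j) = (T.map hη').ω i j :=
    fun _ _ => rfl
  have S₁ : (T.map hξ).Sym δ a := hS.push hρ hi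
  have hc : T.Sym 0 (a' * a - a * a') := hS.bracket h'.hS fun p => by
    rw [der_comm, hef, sub_self, der_zero]
  have S₂ : (T.map hξ).Sym 0 (a' * a - a * a') := hc.push hρ (by simp)
  obtain ⟨s, r, α, θ, hα, hαg, hs', hs, hν⟩ :=
    inv_section hG hγ hS h' hf hc (comm_deg hγ h'.hγ) hns
  have hres : (mkEl hG h' hξ h0 hv hη).res (push hρ₁ s) = push hρ s := N_ext fun i => rs_sub _ _
  refine typeI_core (mkEl hG h' hξ h0 hv hη) rfl (fun h => hns (horrocks hG hη' (by simp) h))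
    hδ hγ S₁ S₂ (s := push hρ₁ s) (r := sub ξ r) (α := α) (θ := θ) (push_hom hρ₁ (fun i =>
      sub_hom (w := fun _ => 1) (fun _ _ _ => rfl) (isWeightedHomogeneous_X ℂ _ i)) hα) hαg
    ?_ ?_ fun t => ?_
  · exact (push_D hρ₁ h'.hS _ (el_sub h0 hη) s).symm.trans (by rw [hs', map_zero]; rfl)
  · rw [hres]
    refine (push_D hρ hS S₁ hi s).symm.trans ?_
    rw [hs, ← C_smul_N, push_smul, algHom_C, algebraMap_eq, C_smul_N]
    rfl
  · rw [hres]
    have := push_D hρ hc S₂ (by simp) (T.row t)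
    rw [push_row, hν, push_smul, map_mul, B_row] at this
    exact this.symm

end Pool.Agent.P.MP_b01859_ag
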