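import Pool.Agent.P.MP_b01859_ag.El2

/-!
Nilpotent symmetries with a large kernel of the square force splitting.
-/

namespace Pool.Agent.P.MP_b01859_ag

open MvPolynomial

variable {σ τ ι : Type} [Fintype σ] [Fintype τ] [Fintype ι] [DecidableEq ι]

/-- A symmetry with a nilpotent lift. -/
structure NS (T : VB σ ι) (γ : ι → ℤ) (A : Matrix σ σ ℂ) (a : Matrix ι ι ℂ) : Prop where
  ha : IsNilpotent a
  hγ : ∀ i j, a i j ≠ 0 → γ j = γ i
  hS : T.Sym (der A) a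

lemma indep_elim {A : Matrix σ σ ℂ} {ξ : τ → σ → ℂ} (hξ : LinearIndependent ℂ ξ)
    (h0 : ∀ b, A.mulVec (ξ b) = 0) {η : σ → ℂ} {v : τ → ℂ} (hv : v ≠ 0)
    (h1 : A.mulVec η = ∑ b, v b • ξ b) :
    LinearIndependent ℂ fun o : Option τ => o.elim η ξ := by
  refine linearIndependent_option.mpr ⟨hξ, fun h => hv ?_⟩
  have h2 : Submodule.span ℂ (Set.range ξ) ≤ LinearMap.ker (Matrix.mulVecLin A) := by
    rw [Submodule.span_le]
    rintro _ ⟨b, rfl⟩
    exact h0 b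
  have h3 : A.mulVec η = 0 := h2 h
  exact funext (Fintype.linearIndependent_iff.mp hξ v (h1 ▸ h3))

lemma el_sub {A : Matrix σ σ ℂ} {ξ : τ → σ → ℂ} (h0 : ∀ b, A.mulVec (ξ b) = 0) {η : σ → ℂ}
    {v : τ → ℂ} (h1 : A.mulVec η = ∑ b, v b • ξ b) (p : Pol σ) :
    el v (sub (fun o : Option τ => o.elim η ξ) p) =
      sub (fun o : Option τ => o.elim η ξ) (der A p) :=
  sub_der (A' := fun b c => b.elim 0 fun b => c.elim (v b) 0)
    (fun c => by cases c <;> simp [Fintype.sum_option, h0, h1])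
    (fun b => by cases b <;> simp [Fintype.sum_option, el_apply, dc, dv_X, mul_comm]) p

variable {T : VB σ ι} {γ : ι → ℤ} {g : ℤ} {A : Matrix σ σ ℂ} {a : Matrix ι ι ℂ}

/-- The elation defined by a vector whose image lies in a fixed subspace. -/
noncomputable def mkEl (hG : Gr (fun _ => 1) γ g T.ω) (h : NS T γ A a) {ξ : τ → σ → ℂ}
    (hξ : LinearIndependent ℂ ξ) (h0 : ∀ b, A.mulVec (ξ b) = 0) {η : σ → ℂ} {v : τ → ℂ}
    (hv : v ≠ 0) (h1 : A.mulVec η = ∑ b, v b • ξ b) : El τ ι where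
  T₁ := T.map (indep_elim hξ h0 hv h1)
  T₀ := T.map hξ
  hρ _ _ := rs_sub _ _
  γ := γ
  g := g
  hG := VB.map_gr _ (fun _ _ _ => rfl) hG
  v := v
  hv := hv
  a := a
  ha := h.ha
  hγ := h.hγ
  hS := h.hS.push (fun _ _ => rfl) (el_sub h0 h1)

theorem p1a (hG : Gr (fun _ => 1) γ g T.ω) (h : NS T γ A a) {ξ : Fin 3 → σ → ℂ}
    (hξ : LinearIndependent ℂ ξ) (h0 : ∀ b, A.mulVec (ξ b) = 0) {η₀ η₁ : σ → ℂ}
    (e₀ : A.mulVec η₀ = ξ 0) (e₁ : A.mulVec η₁ = ξ 1) : Sp T.ω := by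
  have key : ∀ p : Fin 3 → ℂ, p 2 = 0 → A.mulVec (p 0 • η₀ + p 1 • η₁) = ∑ b, p b • ξ b := by
    intro p hp
    simp [Matrix.mulVec_add, Matrix.mulVec_smul, e₀, e₁, Fin.sum_univ_three, hp]
  have hv : (Pi.single 0 1 : Fin 3 → ℂ) ≠ 0 := fun h => by simpa using congrFun h 0
  rcases (mkEl hG h hξ h0 hv (key _ (by simp))).nil_or with h2 | ⟨⟨Q⟩⟩
  · exact VB.horrocks hG (indep_elim hξ h0 hv (key _ (by simp))) (by simp) (El.el0 _ h2)
  by_contra hns
  refine (X_prime (i := (2 : Fin 3)) (R := ℂ)).not_isUnit (Q.hp _ fun t => ?_)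
  refine X_dvd_of_eval (s := 0) (by simp) fun p hp hp0 => ?_
  by_contra hq
  have hv' : p ≠ 0 := fun h => hp0 (congrFun h 0)
  obtain ⟨P, hP⟩ := El.el1 (E := mkEl hG h hξ h0 hv' (key p hp)) Q hq
  exact hns (VB.horrocks hG hξ (by simp) (VB.sp_of_unit (P.Bq ▸ hP)))

theorem p1b (hG : Gr (fun _ => 1) γ g T.ω) (h : NS T γ A a) {ξ : Fin 4 → σ → ℂ}
    (hξ : LinearIndependent ℂ ξ) (h0 : ∀ b, A.mulVec (ξ b) = 0) {η : σ → ℂ}
    (e₀ : A.mulVec η = ξ 0) : Sp T.ω := by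
  have key : A.mulVec η = ∑ b, (Pi.single 0 1 : Fin 4 → ℂ) b • ξ b := by
    simp [e₀, Pi.single_apply]
  have hv : (Pi.single 0 1 : Fin 4 → ℂ) ≠ 0 := fun h => by simpa using congrFun h 0
  rcases (mkEl hG h hξ h0 hv key).nil_or with h2 | ⟨⟨Q⟩⟩
  · exact VB.horrocks hG (indep_elim hξ h0 hv key) (by simp) (El.el0 _ h2)
  · exact VB.horrocks hG hξ (by simp) (El.p1b Q rfl)

lemma exists_snoc {V : Type} [AddCommGroup V] [Module ℂ V] {U : Submodule ℂ V} {n : ℕ}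
    {v : Fin n → V} (hv : LinearIndependent ℂ v) (hU : ∀ i, v i ∈ U)
    (hn : n < Module.finrank ℂ U) :
    ∃ w : Fin (n + 1) → V, LinearIndependent ℂ w ∧ (∀ i, w i ∈ U) ∧
      ∀ i : Fin n, w i.castSucc = v i := by
  obtain ⟨x, hx⟩ := exists_linearIndependent_snoc_of_lt_finrank
    (v := fun i => (⟨v i, hU i⟩ : U)) (LinearIndependent.of_comp U.subtype hv) hn
  exact ⟨fun i => ((Fin.snoc (fun i => (⟨v i, hU i⟩ : U)) x : Fin (n + 1) → U) i : V),
    hx.map' U.subtype U.ker_subtype, fun i => Subtype.property _, fun i => by simp⟩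

lemma finrank_ker_sq {V : Type} [AddCommGroup V] [Module ℂ V] [FiniteDimensional ℂ V]
    (F G : Module.End ℂ V) : Module.finrank ℂ (LinearMap.ker (F * G)) =
      Module.finrank ℂ (LinearMap.ker G) +
        Module.finrank ℂ (LinearMap.range G ⊓ LinearMap.ker F : Submodule ℂ V) := by
  have h1 := LinearMap.finrank_range_add_finrank_ker (G.domRestrict (LinearMap.ker (F * G)))
  have h2 : LinearMap.range (G.domRestrict (LinearMap.ker (F * G))) =
      LinearMap.range G ⊓ LinearMap.ker F := by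
    ext x
    constructor
    · rintro ⟨y, rfl⟩
      exact ⟨⟨y, rfl⟩, y.2⟩
    · rintro ⟨⟨y, rfl⟩, hy⟩
      exact ⟨⟨y, hy⟩, rfl⟩
  have h3 : LinearMap.ker G ≤ LinearMap.ker (F * G) := fun x hx => by
    simp [LinearMap.mem_ker.mp hx]
  rw [h2, LinearMap.ker_domRestrict,
    (Submodule.comapSubtypeEquivOfLe h3).finrank_eq] at h1
  omega

theorem toolG [DecidableEq σ] (hG : Gr (fun _ => 1) γ g T.ω) (h : NS T γ A a) (hA : IsNilpotent A)
    (hA0 : A ≠ 0) (h5 : 5 ≤ Module.finrank ℂ (LinearMap.ker (A.mulVecLin * A.mulVecLin))) :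
    Sp T.ω := by
  set F := A.mulVecLin with hF
  rw [finrank_ker_sq] at h5
  set I : Submodule ℂ (σ → ℂ) := LinearMap.range F ⊓ LinearMap.ker F with hI
  have hle : Module.finrank ℂ I ≤ Module.finrank ℂ (LinearMap.ker F) :=
    Submodule.finrank_mono inf_le_right
  by_cases h2 : 2 ≤ Module.finrank ℂ I
  · obtain ⟨u, hu⟩ := exists_linearIndependent_of_le_finrank h2
    obtain ⟨w, hw, hwU, hwu⟩ := exists_snoc (U := LinearMap.ker F) (hu.map' I.subtype I.ker_subtype)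
      (fun i => (u i).2.2) (by omega)
    obtain ⟨η₀, e₀⟩ := (u 0).2.1
    obtain ⟨η₁, e₁⟩ := (u 1).2.1
    exact p1a hG h hw hwU (e₀.trans (hwu 0).symm) (e₁.trans (hwu 1).symm)
  · have hLN : LN F := by
      obtain ⟨k, hk⟩ := hA
      intro x
      refine ⟨k, ?_⟩
      rw [hF, ← Matrix.toLin'_apply', ← Matrix.toLin'_pow, hk]
      simp
    obtain ⟨x, hx⟩ : ∃ x, F x ≠ 0 := by
      by_contra hcon
      push Not at hcon
      exact hA0 (Matrix.ext_of_mulVec_single fun i => by rw [Matrix.zero_mulVec]; exact hcon _)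
    obtain ⟨k, hk, hk'⟩ := hLN.exists_last (fun x => F x ≠ 0) (by simp) hx
    obtain ⟨w₁, a1, a2, a3⟩ := exists_snoc (U := LinearMap.ker F) (v := ![F ((F ^ k) x)])
      (by simpa using hk) (fun i => by simpa using hk') (by omega)
    obtain ⟨w₂, b1, b2, b3⟩ := exists_snoc a1 a2 (by omega)
    obtain ⟨w₃, c1, c2, c3⟩ := exists_snoc b1 b2 (by omega)
    refine p1b hG h c1 c2 (η := (F ^ k) x) ?_
    exact ((c3 0).trans ((b3 0).trans (a3 0))).symm

end Pool.Agent.P.MP_b01859_ag
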