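import Pool.Agent.P.MP_b01859_ag.Der

/-!
Rank two bundles given by skew matrices, their sections and infinitesimal symmetries.
-/

namespace Pool.Agent.P.MP_b01859_ag

open MvPolynomial Finsupp

variable {σ : Type} {Γ : Type} [AddCommGroup Γ] {ι : Type}

/-- Skew matrices of rank two without common zero. -/
structure VB (σ ι : Type) where
  ω : ι → ι → Pol σ
  skew : ∀ i j, ω j i = - ω i j
  pl : ∀ i j k l, ω i j * ω k l - ω i k * ω j l + ω i l * ω j k = 0
  LF : ∀ p : Ideal (Pol σ), p.IsPrime → ∀ s, X s ∉ p → ∃ i j, ω i j ∉ p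

/-- Decomposable skew matrices. -/
def Sp (ω : ι → ι → Pol σ) : Prop :=
  ∃ n₁ n₂ : ι → Pol σ, ∀ i j, ω i j = n₁ i * n₂ j - n₁ j * n₂ i

/-- Homogeneity of a skew matrix. -/
def Gr (w : σ → Γ) (γ : ι → Γ) (g : Γ) (ω : ι → ι → Pol σ) : Prop :=
  ∀ i j, IsWeightedHomogeneous w (ω i j) (γ i + γ j - g)

/-- Vectors in the span of the rows. -/
def Wd (ω : ι → ι → Pol σ) (φ : ι → Pol σ) : Prop :=
  ∀ i j k, ω i j * φ k - ω i k * φ j + ω j k * φ i = 0

lemma Prim.exists_ne {κ : Type} {g : κ → Pol σ} (h : Prim g) : ∃ i, g i ≠ 0 := by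
  by_contra hcon
  push Not at hcon
  exact not_isUnit_zero (h 0 fun i => by rw [hcon i])

lemma exB [Finite σ] {ω : ι → ι → Pol σ} (hp : Prim fun ij : ι × ι => ω ij.1 ij.2)
    {φ ψ : ι → Pol σ} (hφ : Wd ω φ) (hψ : Wd ω ψ) :
    ∃ B, ∀ i j, ω i j * B = φ i * ψ j - φ j * ψ i := by
  have key : ∀ i j k l, ω i j * (φ k * ψ l - φ l * ψ k) = ω k l * (φ i * ψ j - φ j * ψ i) := by
    intro i j k l
    linear_combination ψ l * hφ i j k - ψ k * hφ i j l + φ j * hψ i k l - φ i * hψ j k l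
  obtain ⟨⟨k, l⟩, h⟩ := hp.exists_ne
  obtain ⟨B, hB⟩ := hp.dvd_of h (a := φ k * ψ l - φ l * ψ k) (fun ij => ⟨_, key ij.1 ij.2 k l⟩)
  refine ⟨B, fun i j => mul_left_cancel₀ h ?_⟩
  simp only at hB ⊢
  rw [← key, hB]; ring

namespace VB

variable (T : VB σ ι)

/-- The module of sections. -/
def N : Submodule (Pol σ) (ι → Pol σ) where
  carrier := {φ | Wd T.ω φ}
  add_mem' := fun {φ ψ} hφ hψ i j k => by
    simp only [Pi.add_apply]; linear_combination hφ i j k + hψ i j k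
  zero_mem' := fun i j k => by simp
  smul_mem' := fun c φ hφ i j k => by
    simp only [Pi.smul_apply, smul_eq_mul]; linear_combination c * hφ i j k

/-- The rows. -/
def row (t : ι) : T.N := ⟨T.ω t, fun i j k => by linear_combination T.pl t i j k⟩

lemma N_ext {T : VB σ ι} {φ ψ : T.N} (h : ∀ i, φ.1 i = ψ.1 i) : φ = ψ := Subtype.ext (funext h)

@[simp] lemma row_val (t i : ι) : (T.row t).1 i = T.ω t i := rfl

lemma diag (i : ι) : T.ω i i = 0 := by
  have := T.skew i i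
  apply mul_left_cancel₀ (two_ne_zero (α := Pol σ))
  linear_combination this

lemma ω_smul (φ : T.N) (i j : ι) : T.ω i j • φ = φ.1 j • T.row i - φ.1 i • T.row j := by
  refine N_ext fun k => ?_
  simp only [Submodule.coe_smul, Pi.smul_apply, smul_eq_mul, Submodule.coe_sub, Pi.sub_apply,
    row_val]
  linear_combination φ.2 i j k

lemma LF_kl (J : Set σ) (p : Ideal (Pol σ)) (hp : p.IsPrime) {s : σ} (hs : s ∈ J)
    (h : X s ∉ p) : ∃ i j, kl J (T.ω i j) ∉ p :=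
  T.LF (p.comap (kl J)) (Ideal.comap_isPrime _ _) s (by
    rw [Ideal.mem_comap, kl_X_mem hs]; exact h)

lemma LF_eval {q : σ → ℂ} (hq : q ≠ 0) : ∃ i j, eval q (T.ω i j) ≠ 0 := by
  obtain ⟨s, hs⟩ := Function.ne_iff.mp hq
  exact T.LF (RingHom.ker (eval q)) (RingHom.ker_isPrime _) s (by simpa using hs)

variable {T}

lemma smul_eq_zero' {f : Pol σ} {φ : T.N} (hf : f ≠ 0) (h : f • φ = 0) : φ = 0 :=
  (smul_eq_zero.mp h).resolve_left hf

lemma smul_cancel {f : Pol σ} {φ ψ : T.N} (hf : f ≠ 0) (h : f • φ = f • ψ) : φ = ψ :=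
  sub_eq_zero.mp (smul_eq_zero' hf (by rw [smul_sub, h, sub_self]))

lemma exists_val_ne {φ : T.N} (h : φ ≠ 0) : ∃ t, φ.1 t ≠ 0 := by
  by_contra hcon
  push Not at hcon
  exact h (Subtype.ext (funext hcon))

lemma div {f : Pol σ} (hf : f ≠ 0) (φ : T.N) (h : ∀ t, f ∣ φ.1 t) : ∃ ψ : T.N, φ = f • ψ := by
  choose ψ hψ using h
  refine ⟨⟨ψ, fun i j k => mul_left_cancel₀ hf ?_⟩, Subtype.ext (funext hψ)⟩
  have := φ.2 i j k
  rw [hψ, hψ, hψ] at this
  linear_combination this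

lemma ne_zero_of_prim {s : T.N} (h : Prim s.1) : s ≠ 0 := by
  rintro rfl
  obtain ⟨i, hi⟩ := h.exists_ne
  exact hi rfl

lemma exists_prim [Finite σ] [Finite ι] {φ : T.N} (h : φ ≠ 0) :
    ∃ (g : Pol σ) (s : T.N), g ≠ 0 ∧ φ = g • s ∧ Prim s.1 := by
  obtain ⟨g, s, hg, hs, hp⟩ := MP_b01859_ag.exists_prim φ.1 (exists_val_ne h)
  obtain ⟨ψ, hψ⟩ := div hg φ fun t => ⟨_, hs t⟩
  refine ⟨g, ψ, hg, hψ, ?_⟩
  have : ψ.1 = s := funext fun t => mul_left_cancel₀ hg (by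
    rw [← hs, hψ]; rfl)
  rwa [this]

/-- Homogeneous sections. -/
def HomN (w : σ → Γ) (γ : ι → Γ) (φ : T.N) (α : Γ) : Prop :=
  ∀ j, IsWeightedHomogeneous w (φ.1 j) (γ j + α)

section hom

variable {w : σ → Γ} {γ : ι → Γ} {g : Γ}

lemma row_hom (hG : Gr w γ g T.ω) (t : ι) : HomN w γ (T.row t) (γ t - g) :=
  fun j => hom_congr (hG t j) (by abel)

lemma HomN.smul {φ : T.N} {α β : Γ} {f : Pol σ} (hf : IsWeightedHomogeneous w f β)
    (h : HomN w γ φ α) : HomN w γ (f • φ) (β + α) :=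
  fun j => hom_congr (hf.mul (h j)) (by abel)

lemma HomN.add {φ ψ : T.N} {α : Γ} (h : HomN w γ φ α) (h' : HomN w γ ψ α) :
    HomN w γ (φ + ψ) α := fun j => (h j).add (h' j)

lemma HomN.sub {φ ψ : T.N} {α : Γ} (h : HomN w γ φ α) (h' : HomN w γ ψ α) :
    HomN w γ (φ - ψ) α := fun j => (h j).sub (h' j)

lemma HomN.congr {φ : T.N} {α β : Γ} (h : HomN w γ φ α) (e : α = β) : HomN w γ φ β := e ▸ h

lemma HomN.of_smul {φ : T.N} {α β : Γ} {f : Pol σ} (hf : IsWeightedHomogeneous w f β)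
    (h0 : f ≠ 0) (h : HomN w γ (f • φ) α) : HomN w γ φ (α - β) :=
  fun j => hom_congr (hom_of_mul' hf h0 (h j)) (by abel)

lemma HomN.coef {φ : T.N} {α β : Γ} {f : Pol σ} (hφ : HomN w γ φ β)
    (h0 : φ ≠ 0) (h : HomN w γ (f • φ) α) : IsWeightedHomogeneous w f (α - β) := by
  obtain ⟨t, ht⟩ := exists_val_ne h0
  have h1 := h t
  simp only [Submodule.coe_smul, Pi.smul_apply, smul_eq_mul] at h1
  rw [mul_comm] at h1
  exact hom_congr (hom_of_mul' (hφ t) ht h1) (by abel)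

lemma exists_prim_hom [Finite σ] [Finite ι] {γ : ι → ℤ} {φ : T.N} (h : φ ≠ 0) {α : ℤ}
    (hφ : HomN (fun _ => 1) γ φ α) :
    ∃ (g : Pol σ) (s : T.N) (β : ℤ), g ≠ 0 ∧ φ = g • s ∧ Prim s.1 ∧ HomN (fun _ => 1) γ s β := by
  obtain ⟨g, s, hg, hs, hp⟩ := exists_prim h
  obtain ⟨t, ht⟩ := exists_val_ne h
  have h1 := hφ t
  rw [hs] at h1 ht
  obtain ⟨a, ha⟩ := hom_of_dvd (fun _ _ h => h (AddMonoidHom.id ℤ)) ht h1
  exact ⟨g, s, _, hg, hs, hp, HomN.of_smul ha hg (hs ▸ hφ)⟩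

/-- Homogeneous components of sections. -/
noncomputable def comp (hG : Gr w γ g T.ω) (α : Γ) (φ : T.N) : T.N :=
  ⟨fun j => weightedHomogeneousComponent w (γ j + α) (φ.1 j), fun i j k => by
    have h := congrArg (weightedHomogeneousComponent w (γ i + γ j + γ k - g + α)) (φ.2 i j k)
    rw [map_add, map_sub, map_zero] at h
    rw [← comp_mul (hG i j), ← comp_mul (hG i k), ← comp_mul (hG j k), ← h,
      show γ i + γ j - g + (γ k + α) = γ i + γ j + γ k - g + α by abel,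
      show γ i + γ k - g + (γ j + α) = γ i + γ j + γ k - g + α by abel,
      show γ j + γ k - g + (γ i + α) = γ i + γ j + γ k - g + α by abel]⟩

lemma comp_hom (hG : Gr w γ g T.ω) (α : Γ) (φ : T.N) : HomN w γ (comp hG α φ) α :=
  fun _ => weightedHomogeneousComponent_isWeightedHomogeneous _ _

lemma exists_sum_comp [Finite ι] (hG : Gr w γ g T.ω) (φ : T.N) :
    ∃ S : Finset Γ, φ = ∑ α ∈ S, comp hG α φ := by
  classical
  have := Fintype.ofFinite ι
  refine ⟨Finset.univ.biUnion fun j => (φ.1 j).support.image fun d => weight w d - γ j, ?_⟩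
  ext1
  funext j
  rw [Submodule.coe_sum, Finset.sum_apply]
  refine sum_comp _ _ _ fun d hd => ?_
  simp only [Finset.mem_biUnion, Finset.mem_univ, true_and, Finset.mem_image,
    MvPolynomial.mem_support_iff]
  exact ⟨j, d, hd, rfl⟩

lemma hom_sum_eq_zero {S : Finset Γ} {φ : Γ → T.N} (h : ∀ α, HomN w γ (φ α) α)
    (h0 : ∑ α ∈ S, φ α = 0) {β : Γ} (hβ : β ∈ S) : φ β = 0 := by
  classical
  ext1
  funext j
  have h1 := congrArg (fun ψ : T.N => weightedHomogeneousComponent w (γ j + β) (ψ.1 j)) h0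
  simp only [Submodule.coe_sum, Finset.sum_apply, map_sum, Submodule.coe_zero, Pi.zero_apply,
    map_zero] at h1
  rw [Finset.sum_eq_single_of_mem β hβ, (h β j).weightedHomogeneousComponent_same] at h1
  · exact h1
  · intro α _ hα
    exact (h α j).weightedHomogeneousComponent_ne _ fun e => hα (add_left_cancel e).symm

end hom

section form

variable [Finite σ] [Nontrivial σ] (T)

lemma prim : Prim fun ij : ι × ι => T.ω ij.1 ij.2 := by
  obtain ⟨x, y, hxy⟩ := exists_pair_ne σ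
  refine prim_of_primes hxy fun p hp h => ?_
  rcases h with h | h
  · obtain ⟨i, j, h⟩ := T.LF p hp x h
    exact ⟨(i, j), h⟩
  · obtain ⟨i, j, h⟩ := T.LF p hp y h
    exact ⟨(i, j), h⟩

lemma exists_ne : ∃ i j, T.ω i j ≠ 0 := by
  obtain ⟨ij, h⟩ := T.prim.exists_ne
  exact ⟨_, _, h⟩

/-- The alternating pairing as a function. -/
noncomputable def B₀ (φ ψ : T.N) : Pol σ := (exB T.prim φ.2 ψ.2).choose

lemma B₀_spec (φ ψ : T.N) (i j : ι) :
    T.ω i j * T.B₀ φ ψ = φ.1 i * ψ.1 j - φ.1 j * ψ.1 i := (exB T.prim φ.2 ψ.2).choose_spec i j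

lemma eq_of_mul {f g : Pol σ} (h : ∀ i j, T.ω i j * f = T.ω i j * g) : f = g := by
  obtain ⟨i, j, hij⟩ := T.exists_ne
  exact mul_left_cancel₀ hij (h i j)

/-- The alternating pairing. -/
noncomputable def B : T.N →ₗ[Pol σ] T.N →ₗ[Pol σ] Pol σ :=
  LinearMap.mk₂ (Pol σ) T.B₀
    (fun a b c => T.eq_of_mul fun i j => by
      simp only [mul_add, B₀_spec, Submodule.coe_add, Pi.add_apply]; ring)
    (fun c a b => T.eq_of_mul fun i j => by
      rw [smul_eq_mul, mul_left_comm]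
      simp only [B₀_spec, Submodule.coe_smul, Pi.smul_apply, smul_eq_mul]; ring)
    (fun a b c => T.eq_of_mul fun i j => by
      simp only [mul_add, B₀_spec, Submodule.coe_add, Pi.add_apply]; ring)
    (fun c a b => T.eq_of_mul fun i j => by
      rw [smul_eq_mul, mul_left_comm]
      simp only [B₀_spec, Submodule.coe_smul, Pi.smul_apply, smul_eq_mul]; ring)

lemma B_spec (φ ψ : T.N) (i j : ι) :
    T.ω i j * T.B φ ψ = φ.1 i * ψ.1 j - φ.1 j * ψ.1 i := T.B₀_spec φ ψ i j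

@[simp] lemma B_self (φ : T.N) : T.B φ φ = 0 :=
  T.eq_of_mul fun i j => by rw [B_spec]; ring

lemma B_swap (φ ψ : T.N) : T.B ψ φ = - T.B φ ψ :=
  T.eq_of_mul fun i j => by rw [mul_neg, B_spec, B_spec]; ring

lemma B_row (φ : T.N) (t : ι) : T.B φ (T.row t) = φ.1 t :=
  T.eq_of_mul fun i j => by
    rw [B_spec, row_val, row_val, T.skew i t, T.skew j t]
    linear_combination -φ.2 i j t

lemma B_row_row (s t : ι) : T.B (T.row s) (T.row t) = T.ω s t := T.B_row _ _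

lemma rel3 (φ ψ χ : T.N) : T.B φ ψ • χ - T.B φ χ • ψ + T.B ψ χ • φ = 0 := by
  obtain ⟨i, j, h⟩ := T.exists_ne
  refine N_ext fun t => ?_
  simp only [Submodule.coe_add, Submodule.coe_sub, Submodule.coe_smul, Pi.add_apply, Pi.sub_apply,
    Pi.smul_apply, smul_eq_mul, Submodule.coe_zero, Pi.zero_apply]
  apply mul_left_cancel₀ (mul_ne_zero h h)
  linear_combination T.ω i j * χ.1 t * T.B_spec φ ψ i j - T.ω i j * ψ.1 t * T.B_spec φ χ i j
    + T.ω i j * φ.1 t * T.B_spec ψ χ i j + (φ.1 i * ψ.1 j - φ.1 j * ψ.1 i) * χ.2 i j t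
    - (φ.1 i * χ.1 j - φ.1 j * χ.1 i) * ψ.2 i j t + (ψ.1 i * χ.1 j - ψ.1 j * χ.1 i) * φ.2 i j t

lemma rel4 (a b c d : T.N) : T.B a b * T.B c d - T.B a c * T.B b d + T.B a d * T.B b c = 0 := by
  have h := congrArg (fun x => T.B x d) (T.rel3 a b c)
  simp only [map_add, map_sub, map_smul, LinearMap.add_apply, LinearMap.sub_apply,
    LinearMap.smul_apply, smul_eq_mul, map_zero, LinearMap.zero_apply] at h
  linear_combination h

variable {T}

lemma eq_zero_of_B {φ : T.N} (h : ∀ ψ, T.B φ ψ = 0) : φ = 0 :=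
  Subtype.ext (funext fun t => by rw [← T.B_row, h]; rfl)

lemma sp_of_unit {φ ψ : T.N} (h : IsUnit (T.B φ ψ)) : Sp T.ω := by
  obtain ⟨u, hu⟩ := h.exists_right_inv
  exact ⟨fun i => u * φ.1 i, ψ.1, fun i j => by
    linear_combination u * T.B_spec φ ψ i j - T.ω i j * hu⟩

lemma B_hom {w : σ → Γ} {γ : ι → Γ} {g : Γ} (hG : Gr w γ g T.ω) {φ ψ : T.N} {α β : Γ}
    (hφ : HomN w γ φ α) (hψ : HomN w γ ψ β) :
    IsWeightedHomogeneous w (T.B φ ψ) (α + β + g) := by
  obtain ⟨k, l, hkl⟩ := T.exists_ne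
  refine hom_of_mul (hG k l) hkl ?_
  rw [B_spec]
  exact (hom_congr ((hφ k).mul (hψ l)) (by abel)).sub (hom_congr ((hφ l).mul (hψ k)) (by abel))

lemma eq_smul_of_B {s φ : T.N} (hs : Prim s.1) (h : T.B s φ = 0) : ∃ f : Pol σ, φ = f • s := by
  obtain ⟨t, ht⟩ := hs.exists_ne
  have key : ∀ i j, s.1 i * φ.1 j = s.1 j * φ.1 i := fun i j => by
    have := T.B_spec s φ i j
    rw [h] at this
    linear_combination -this
  obtain ⟨f, hf⟩ := hs.dvd_of ht (a := φ.1 t) fun i => ⟨_, key i t⟩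
  refine ⟨f, Subtype.ext (funext fun i => mul_left_cancel₀ ht ?_)⟩
  simp only [Submodule.coe_smul, Pi.smul_apply, smul_eq_mul]
  rw [key, hf]; ring

lemma alt_prop {ω' : ι → ι → Pol σ} (hsk : ∀ i j, ω' j i = - ω' i j) (hN : ∀ i, Wd T.ω (ω' i)) :
    ∃ Δ, ∀ i j, ω' i j = Δ * T.ω i j := by
  have hd : ∀ i, ω' i i = 0 := fun i => mul_left_cancel₀ (two_ne_zero (α := Pol σ)) (by
    linear_combination hsk i i)
  obtain ⟨i, j, h⟩ := T.exists_ne
  have key : ∀ k l, T.ω k l * ω' i j = T.ω i j * ω' k l := by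
    intro k l
    apply mul_left_cancel₀ h
    have e1 := hN l i j k
    have e2 := hN j i j l
    have e3 := hN i i j l
    rw [hsk k l, hsk j l, hsk i l] at e1
    rw [hd, hsk i j] at e2
    rw [hd] at e3
    linear_combination T.ω i j * e1 - T.ω i k * e2 + T.ω j k * e3 + ω' i j * T.pl i j k l
  obtain ⟨Δ, hΔ⟩ := T.prim.dvd_of h (a := ω' i j) fun kl => ⟨_, key kl.1 kl.2⟩
  exact ⟨Δ, fun k l => mul_left_cancel₀ h (by rw [← key, hΔ]; ring)⟩

/-- Two isotropic families whose sums are the rows split the bundle. -/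
lemma sp_of_two [Finite ι] (p m : ι → T.N) (h : ∀ t, T.row t = p t + m t)
    (hp : ∀ s t, T.B (p s) (p t) = 0) (hm : ∀ s t, T.B (m s) (m t) = 0) : Sp T.ω := by
  have key : ∀ q : ι → T.N, (∀ s t, T.B (q s) (q t) = 0) →
      ∃ (s : T.N) (a : ι → Pol σ), ∀ t, q t = a t • s := by
    intro q hq
    by_cases h0 : ∃ t, q t ≠ 0
    · obtain ⟨t, ht⟩ := h0
      obtain ⟨g, s, hg, hs, hsp⟩ := exists_prim ht
      have : ∀ u, ∃ f : Pol σ, q u = f • s := fun u => eq_smul_of_B hsp (by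
        have := hq t u
        rw [hs, map_smul, LinearMap.smul_apply, smul_eq_mul] at this
        exact (mul_eq_zero.mp this).resolve_left hg)
      choose a ha using this
      exact ⟨s, a, ha⟩
    · push Not at h0
      exact ⟨0, 0, fun t => by simp [h0]⟩
  obtain ⟨s, a, ha⟩ := key p hp
  obtain ⟨s', b, hb⟩ := key m hm
  refine sp_of_unit (φ := s) (ψ := s') (T.prim _ fun kl => ⟨a kl.1 * b kl.2 - a kl.2 * b kl.1, ?_⟩)
  simp only
  rw [← B_row_row, h, h, ha, ha, hb, hb]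
  simp only [map_add, map_smul, LinearMap.add_apply, LinearMap.smul_apply, smul_eq_mul, B_self,
    T.B_swap s s']
  ring

end form

section sym

variable [Fintype ι]

/-- Infinitesimal symmetries. -/
def Sym (T : VB σ ι) (δ : Dr σ) (a : Matrix ι ι ℂ) : Prop :=
  ∀ i j, δ (T.ω i j) = ∑ k, a i k • T.ω k j + ∑ k, a j k • T.ω i k

variable {δ : Dr σ} {a : Matrix ι ι ℂ}

/-- The operator on sections defined by a symmetry. -/
noncomputable def D (h : T.Sym δ a) : Module.End ℂ T.N where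
  toFun φ := ⟨Dv (δ : Module.End ℂ (Pol σ)) a φ.1, fun i j k => by
    have h0 := congrArg δ (φ.2 i j k)
    have e1 : ∑ l, a i l • (T.ω l j * φ.1 k - T.ω l k * φ.1 j + T.ω j k * φ.1 l) = 0 :=
      Finset.sum_eq_zero fun l _ => by rw [φ.2 l j k, smul_zero]
    have e2 : ∑ l, a j l • (T.ω i l * φ.1 k - T.ω i k * φ.1 l + T.ω l k * φ.1 i) = 0 :=
      Finset.sum_eq_zero fun l _ => by rw [φ.2 i l k, smul_zero]
    have e3 : ∑ l, a k l • (T.ω i j * φ.1 l - T.ω i l * φ.1 j + T.ω j l * φ.1 i) = 0 :=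
      Finset.sum_eq_zero fun l _ => by rw [φ.2 i j l, smul_zero]
    simp only [map_add, map_sub, dr_mul, map_zero, h i j, h i k, h j k, add_mul, Finset.sum_mul,
      smul_mul_assoc] at h0
    simp only [smul_add, smul_sub, Finset.sum_add_distrib, Finset.sum_sub_distrib] at e1 e2 e3
    simp only [Dv_apply, Derivation.coeFn_coe, mul_sub, Finset.mul_sum, mul_smul_comm]
    linear_combination h0 - e1 - e2 - e3⟩
  map_add' φ ψ := Subtype.ext (map_add _ _ _)
  map_smul' c φ := Subtype.ext (map_smul _ _ _)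

lemma D_val (h : T.Sym δ a) (φ : T.N) (i : ι) :
    (D h φ).1 i = δ (φ.1 i) - ∑ j, a i j • φ.1 j := rfl

lemma D_smul (h : T.Sym δ a) (f : Pol σ) (φ : T.N) : D h (f • φ) = δ f • φ + f • D h φ := by
  ext1
  funext i
  simp only [D_val, Submodule.coe_smul, Pi.smul_apply, smul_eq_mul, Submodule.coe_add,
    Pi.add_apply, dr_mul, mul_sub, Finset.mul_sum, mul_smul_comm]
  ring

lemma D_row (h : T.Sym δ a) (t : ι) : D h (T.row t) = ∑ k, a t k • T.row k := by
  ext1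
  funext i
  simp [D_val, h t i]

lemma D_B [Finite σ] [Nontrivial σ] (h : T.Sym δ a) (φ ψ : T.N) :
    δ (T.B φ ψ) = T.B (D h φ) ψ + T.B φ (D h ψ) := by
  refine T.eq_of_mul fun i j => ?_
  have h0 := congrArg δ (T.B_spec φ ψ i j)
  have e1 : ∑ l, a i l • (T.ω l j * T.B φ ψ) = ∑ l, a i l • (φ.1 l * ψ.1 j - φ.1 j * ψ.1 l) :=
    Finset.sum_congr rfl fun l _ => by rw [B_spec]
  have e2 : ∑ l, a j l • (T.ω i l * T.B φ ψ) = ∑ l, a j l • (φ.1 i * ψ.1 l - φ.1 l * ψ.1 i) :=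
    Finset.sum_congr rfl fun l _ => by rw [B_spec]
  simp only [map_sub, dr_mul, h i j, add_mul, Finset.sum_mul, smul_mul_assoc] at h0
  simp only [smul_sub, Finset.sum_sub_distrib] at e1 e2
  simp only [mul_add, B_spec, D_val, mul_sub, sub_mul, Finset.mul_sum, Finset.sum_mul,
    mul_smul_comm, smul_mul_assoc]
  linear_combination h0 - e1 - e2

lemma D_hom [Fintype σ] (h : T.Sym δ a) {w : σ → Γ} {γ : ι → Γ} {μ : Γ}
    (hδ : ∀ i, IsWeightedHomogeneous w (δ (X i)) (w i + μ))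
    (ha : ∀ i j, a i j ≠ 0 → γ j = γ i + μ) {φ : T.N} {α : Γ} (hφ : HomN w γ φ α) :
    HomN w γ (D h φ) (α + μ) := by
  intro i
  rw [D_val]
  refine (hom_congr (dr_hom hδ (hφ i)) (by abel)).sub
    (IsWeightedHomogeneous.sum _ _ _ fun j _ => ?_)
  by_cases h1 : a i j = 0
  · rw [h1, zero_smul]; exact isWeightedHomogeneous_zero _ _ _
  · rw [smul_eq_C_mul]
    exact hom_congr ((hφ j).C_mul _) (by rw [ha i j h1]; abel)

lemma D_LN [DecidableEq ι] (h : T.Sym δ a) (hδ : LN (δ : Module.End ℂ (Pol σ)))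
    (ha : IsNilpotent a) : LN (D h) := by
  intro φ
  obtain ⟨k, hk⟩ := hδ.dv ha φ.1
  have : ∀ l : ℕ, ((D h ^ l) φ).1 = (Dv (δ : Module.End ℂ (Pol σ)) a ^ l) φ.1 := by
    intro l
    induction l with
    | zero => rfl
    | succ l ih => rw [pow_succ', pow_succ', Module.End.mul_apply, Module.End.mul_apply, ← ih]; rfl
  exact ⟨k, Subtype.ext (by rw [this, hk]; rfl)⟩

end sym

end VB

end Pool.Agent.P.MP_b01859_ag
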